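import Pool.Agent.LibLaw15.Defs
import Pool.Agent.LibM3.L4

/-! Law of the prime phases, row A1. -/


set_option autoImplicit false

namespace Pool.Agent.LibLaw15

open MeasureTheory Set Filter Topology Complex ProbabilityTheory
open scoped NNReal ComplexConjugate
open Pool.Agent.LibZM Pool.Agent.LibM3

lemma a1_psi_one {e x : ℝ} (he : 0 < e) (h1 : 1/2 - e ≤ x) (h2 : x ≤ 1/2) : l4_psi e x = 1 := by
  unfold l4_psi
  have a1 : 1 ≤ (x - 1/2 + 2 * e) / e := by
    rw [le_div_iff₀ he]; linarith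
  have a2 : 1 ≤ (1/2 + e - x) / e := by
    rw [le_div_iff₀ he]; linarith
  rw [min_eq_left (le_min a1 a2), max_eq_right zero_le_one]

lemma a1_del : Tendsto (fun N : ℕ => 1 / per N) atTop (𝓝[>] 0) := by
  rw [tendsto_nhdsWithin_iff]
  constructor
  · have h1 : Tendsto (fun N : ℕ => per N) atTop atTop := by
      unfold per
      refine tendsto_atTop_add_const_right _ _ ?_
      exact (Real.tendsto_log_atTop.comp tendsto_natCast_atTop_atTop).const_mul_atTop (by norm_num)
    exact tendsto_const_nhds.div_atTop h1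
  · refine Filter.Eventually.of_forall fun N => ?_
    have := l4_per_ge N
    show 0 < 1 / per N
    positivity

lemma a1_E_lim (n : ℕ) : Tendsto (fun N : ℕ => l4_E (l4_e n) N) atTop
    (𝓝 (Aconst (3/2) * IP (l4_psi (l4_e n)) l4_om)) := by
  have he := l4_e_pos n
  have he4 := l4_e_le n
  have h := (IP_limit (l4_psi_cont (l4_e n)) l4_om_cont
    (fun x hx => l4_psi_zero he (Or.inr (by linarith))) (fun x hx => l4_om_zero hx)).comp a1_del
  exact h

lemma a1_bound {B : ℕ} (hB : 1 ≤ B) {e : ℝ} (he : 0 < e) {N : ℕ} (hN : 1 ≤ N)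
    (hd : (1 / per N) * (1/2 + Real.log B) ≤ e) :
    (1 / per N) ^ (5/4 : ℝ) * (∑ h ∈ Finset.Icc 1 N, ∑ k ∈ Finset.Icc (N / B + 1) N, gk h k)
      ≤ l4_E e N := by
  have hP := l4_per_ge N
  unfold l4_E
  set d : ℝ := 1 / per N with hdd
  have hd0 : 0 < d := by positivity
  refine mul_le_mul_of_nonneg_left ?_ (Real.rpow_nonneg hd0.le _)
  have hnn : ∀ h k : ℕ, 0 ≤ gk h k * (l4_psi e (d * Real.log h) * l4_om (d * Real.log k)) :=
    fun h k => mul_nonneg (l4_gk_nonneg h k) (mul_nonneg (l4_psi_mem _ _).1 (l4_om_mem _).1)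
  have hnn' : ∀ h k : ℕ, 0 ≤ gk h k * (l4_om (d * Real.log h) * l4_psi e (d * Real.log k)) :=
    fun h k => mul_nonneg (l4_gk_nonneg h k) (mul_nonneg (l4_om_mem _).1 (l4_psi_mem _ _).1)
  have hmono : ∑ h ∈ Finset.Icc 1 N, ∑ k ∈ Finset.Icc 1 N,
      gk h k * (l4_psi e (d * Real.log h) * l4_om (d * Real.log k)) ≤
      ∑ h ∈ Finset.Icc 1 (MN d), ∑ k ∈ Finset.Icc 1 (MN d),
        gk h k * (l4_psi e (d * Real.log h) * l4_om (d * Real.log k)) := by
    have hsub : Finset.Icc 1 N ⊆ Finset.Icc 1 (MN d) := Finset.Icc_subset_Icc le_rfl (l4_MN hN)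
    calc ∑ h ∈ Finset.Icc 1 N, ∑ k ∈ Finset.Icc 1 N,
          gk h k * (l4_psi e (d * Real.log h) * l4_om (d * Real.log k))
        ≤ ∑ h ∈ Finset.Icc 1 N, ∑ k ∈ Finset.Icc 1 (MN d),
          gk h k * (l4_psi e (d * Real.log h) * l4_om (d * Real.log k)) :=
          Finset.sum_le_sum fun h _ =>
            Finset.sum_le_sum_of_subset_of_nonneg hsub fun k _ _ => hnn h k
      _ ≤ _ := Finset.sum_le_sum_of_subset_of_nonneg hsub fun h _ _ =>
          Finset.sum_nonneg fun k _ => hnn h k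
  have hsymm : ∑ h ∈ Finset.Icc 1 N, ∑ k ∈ Finset.Icc 1 N,
      gk h k * (l4_om (d * Real.log h) * l4_psi e (d * Real.log k)) =
      ∑ h ∈ Finset.Icc 1 N, ∑ k ∈ Finset.Icc 1 N,
        gk h k * (l4_psi e (d * Real.log h) * l4_om (d * Real.log k)) := by
    rw [Finset.sum_comm]
    refine Finset.sum_congr rfl fun h _ => Finset.sum_congr rfl fun k _ => ?_
    rw [l4_gk_symm k h]; ring
  refine le_trans ?_ (hsymm.le.trans hmono)
  refine Finset.sum_le_sum fun h hh => ?_
  rw [Finset.mem_Icc] at hh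
  have xh := l4_x hh.1 hh.2
  rw [← hdd] at xh
  have hsub : Finset.Icc (N / B + 1) N ⊆ Finset.Icc 1 N :=
    Finset.Icc_subset_Icc (Nat.le_add_left 1 _) le_rfl
  refine le_trans ?_ (Finset.sum_le_sum_of_subset_of_nonneg hsub fun k _ _ => hnn' h k)
  refine Finset.sum_le_sum fun k hk => ?_
  rw [Finset.mem_Icc] at hk
  have hk1 : 1 ≤ k := le_trans (Nat.le_add_left 1 _) hk.1
  have xk := l4_x hk1 hk.2
  rw [← hdd] at xk
  rw [l4_om_one (by linarith)]
  have hNk : N < k * B := by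
    have : N / B < k := Nat.lt_of_succ_le hk.1
    exact (Nat.div_lt_iff_lt_mul (by omega)).mp this
  have hlog : Real.log N ≤ Real.log k + Real.log B := by
    rw [← Real.log_mul (by positivity) (by positivity)]
    refine Real.log_le_log (by exact_mod_cast hN) ?_
    exact_mod_cast hNk.le
  have e2 : 1/2 - d / 2 = d * Real.log N := by
    have h3 : per N ≠ 0 := by linarith
    rw [hdd]
    field_simp
    unfold per; ring
  have e3 : 1/2 - e ≤ d * Real.log k := by
    have := mul_le_mul_of_nonneg_left hlog hd0.le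
    nlinarith
  rw [a1_psi_one he e3 (by linarith)]
  linarith

/-- ROW A1. The edge of the arithmetic sum is small. -/
theorem edge (B : ℕ) (hB : 1 ≤ B) : Tendsto (fun N : ℕ =>
    (∑ h ∈ Finset.Icc 1 N, ∑ k ∈ Finset.Icc (N / B + 1) N, gk h k) / (1 + Real.log N) ^ (5/4 : ℝ)) atTop (𝓝 0) := by
  rw [Metric.tendsto_nhds]
  intro η hη
  have hB' := l4_IP_lim.const_mul (Aconst (3/2))
  rw [mul_zero, Metric.tendsto_nhds] at hB'
  obtain ⟨n, hn⟩ := (hB' (η/16) (by positivity)).exists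
  rw [Real.dist_eq, sub_zero] at hn
  have h1 := (a1_E_lim n).eventually_lt_const (u := η / 8) (by
    have := le_abs_self (Aconst (3/2) * IP (l4_psi (l4_e n)) l4_om)
    linarith)
  have h2 : Tendsto (fun N : ℕ => (1 / per N) * (1/2 + Real.log B)) atTop (𝓝 0) := by
    have := ((tendsto_nhdsWithin_iff.mp a1_del).1).mul_const (1/2 + Real.log B)
    rwa [zero_mul] at this
  filter_upwards [h1, h2.eventually_le_const (l4_e_pos n), eventually_ge_atTop 1] with N hE hd hN
  have hb := a1_bound hB (l4_e_pos n) hN hd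
  have hP := l4_per_ge N
  have hlog : 0 ≤ Real.log N := Real.log_natCast_nonneg N
  set S := ∑ h ∈ Finset.Icc 1 N, ∑ k ∈ Finset.Icc (N / B + 1) N, gk h k with hS
  have hS0 : 0 ≤ S := Finset.sum_nonneg fun h _ => Finset.sum_nonneg fun k _ => l4_gk_nonneg h k
  have hL0 : 0 < 1 + Real.log N := by linarith
  rw [Real.dist_eq, sub_zero, abs_of_nonneg (by positivity)]
  have h3 : S / (1 + Real.log N) ^ (5/4 : ℝ) ≤ 4 * ((1 / per N) ^ (5/4 : ℝ) * S) := by
    have h4 : (1 : ℝ) / (1 + Real.log N) ≤ 2 * (1 / per N) := by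
      rw [div_le_iff₀ hL0]
      have : per N ≤ 2 * (1 + Real.log N) := by unfold per; linarith
      have h5 : 0 < per N := by linarith
      rw [mul_assoc, div_mul_eq_mul_div, one_mul, ← mul_div_assoc, le_div_iff₀ h5]
      linarith
    have h5 : ((1 : ℝ) / (1 + Real.log N)) ^ (5/4 : ℝ) ≤ (2 * (1 / per N)) ^ (5/4 : ℝ) :=
      Real.rpow_le_rpow (by positivity) h4 (by norm_num)
    rw [Real.mul_rpow (by norm_num) (by positivity), Real.div_rpow (by norm_num) hL0.le,
      Real.one_rpow] at h5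
    have h6 : (2 : ℝ) ^ (5/4 : ℝ) ≤ 4 := by
      calc (2 : ℝ) ^ (5/4 : ℝ) ≤ (2 : ℝ) ^ (2 : ℝ) :=
            Real.rpow_le_rpow_of_exponent_le (by norm_num) (by norm_num)
        _ = 4 := by norm_num
    have h7 : 0 ≤ (1 / per N) ^ (5/4 : ℝ) := by positivity
    calc S / (1 + Real.log N) ^ (5/4 : ℝ) = (1 / (1 + Real.log N) ^ (5/4 : ℝ)) * S := by ring
      _ ≤ ((2 : ℝ) ^ (5/4 : ℝ) * (1 / per N) ^ (5/4 : ℝ)) * S :=
          mul_le_mul_of_nonneg_right h5 hS0
      _ ≤ (4 * (1 / per N) ^ (5/4 : ℝ)) * S := by gcongr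
      _ = _ := by ring
  linarith

end Pool.Agent.LibLaw15
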