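import Pool.Agent.LibLaw15.Defs

/-! Law of the prime phases, row A9. -/


set_option autoImplicit false

namespace Pool.Agent.LibLaw15

open MeasureTheory Set Filter Topology Complex ProbabilityTheory
open scoped NNReal ComplexConjugate
open Pool.Agent.LibZM Pool.Agent.LibM3

/-- ROW A9. Proof: `Finset.sum_comm`; `gmn m n h k = gmn n m k h` and `ell T (n h) (m k) = ell T (m k) (n h)` by `Nat.gcd_comm`, `mul_comm`. -/
theorem Tw_swap (q N : ℕ) (T : ℝ) (m n : ℕ) (y : ℝ) : Tw q N T m n y = Tw q N T n m (-y) := by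
  unfold Tw
  conv_rhs => rw [Finset.sum_comm]
  refine Finset.sum_congr rfl fun h _ => Finset.sum_congr rfl fun k _ => ?_
  have h1 : y * (Real.log h - Real.log k) = -y * (Real.log k - Real.log h) := by ring
  have h2 : gmn m n h k = gmn n m k h := by
    unfold gmn
    rw [Nat.gcd_comm (n * h) (m * k), mul_comm (m:ℝ) n, mul_comm (tau (1/2) h) (tau (1/2) k),
      mul_comm ((n:ℝ) * h) ((m:ℝ) * k)]
  have h3 : ell T (n * h) (m * k) = ell T (m * k) (n * h) := by
    unfold ell
    rw [Nat.gcd_comm (n * h) (m * k)]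
    ring_nf
  rw [h1, h2, h3]

end Pool.Agent.LibLaw15
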