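import Pool.Agent.LibLaw15.A8
import Pool.Agent.LibLaw15.A9

/-! Law of the prime phases, row A11. -/


set_option autoImplicit false

namespace Pool.Agent.LibLaw15

open MeasureTheory Set Filter Topology Complex ProbabilityTheory
open scoped NNReal ComplexConjugate
open Pool.Agent.LibZM Pool.Agent.LibM3

theorem A11_ndvd {r : ℕ} {p : Fin r → ℕ} (hp : ∀ i, (p i).Prime) (hinj : Function.Injective p)
    {i₀ : Fin r} {s : Finset (Fin r)} (h : i₀ ∉ s) (e : Fin r → ℕ) : ¬ p i₀ ∣ ∏ i ∈ s, p i ^ e i := by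
  intro hd
  rw [(hp i₀).prime.dvd_finsetProd_iff] at hd
  obtain ⟨i, hi, hdi⟩ := hd
  have h1 := (hp i₀).dvd_of_dvd_pow hdi
  have h2 := (Nat.prime_dvd_prime_iff_eq (hp i₀) (hp i)).1 h1
  exact h (hinj h2 ▸ hi)

theorem A11_ndvd' {r : ℕ} {p : Fin r → ℕ} (hp : ∀ i, (p i).Prime) (hinj : Function.Injective p)
    {i₀ : Fin r} {s : Finset (Fin r)} (h : i₀ ∉ s) : ¬ p i₀ ∣ ∏ i ∈ s, p i := by
  have := A11_ndvd hp hinj h (fun _ => 1)
  simpa using this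

theorem A11_compl {r : ℕ} {i₀ : Fin r} {s : Finset (Fin r)} (h : i₀ ∉ s) (f : Fin r → ℕ) :
    ∏ i ∈ sᶜ, f i = f i₀ * ∏ i ∈ (insert i₀ s)ᶜ, f i := by
  have h1 : sᶜ = insert i₀ (insert i₀ s)ᶜ := by
    ext j
    simp only [Finset.mem_compl, Finset.mem_insert, not_or]
    constructor
    · intro hj
      by_cases hji : j = i₀
      · exact Or.inl hji
      · exact Or.inr ⟨hji, hj⟩
    · rintro (rfl | ⟨-, hj⟩)
      · exact h
      · exact hj
  conv_lhs => rw [h1]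
  rw [Finset.prod_insert (by simp)]

/-- one step -/
theorem A11_step {r : ℕ} {p : Fin r → ℕ} (hp : ∀ i, (p i).Prime) (hinj : Function.Injective p) (a : Fin r → ℤ)
    {Nf : ℝ → ℕ} {yf : ℝ → ℝ} (hN : Tendsto Nf atTop atTop) (hNT : ∀ᶠ T : ℝ in atTop, (Nf T : ℝ) ≤ T)
    (hy : Tendsto yf atTop (𝓝 0)) {i₀ : Fin r} {s : Finset (Fin r)} (h : i₀ ∉ s) :
    Tendsto (fun T : ℝ => (Tw (∏ i ∈ s, p i) (Nf T) T (∏ i ∈ sᶜ, p i ^ (a i).toNat) (∏ i ∈ sᶜ, p i ^ (-(a i)).toNat) (yf T) -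
      ((Lam (rp (p i₀)) (a i₀).natAbs : ℝ) : ℂ) * Tw (∏ i ∈ insert i₀ s, p i) (Nf T) T
        (∏ i ∈ (insert i₀ s)ᶜ, p i ^ (a i).toNat) (∏ i ∈ (insert i₀ s)ᶜ, p i ^ (-(a i)).toNat) (yf T)) /
      (((Real.log T) ^ (9/4 : ℝ) : ℝ) : ℂ)) atTop (𝓝 0) := by
  have hq : ¬ p i₀ ∣ ∏ i ∈ s, p i := A11_ndvd' hp hinj h
  have hm : ¬ p i₀ ∣ ∏ i ∈ (insert i₀ s)ᶜ, p i ^ (a i).toNat := A11_ndvd hp hinj (by simp) _
  have hn : ¬ p i₀ ∣ ∏ i ∈ (insert i₀ s)ᶜ, p i ^ (-(a i)).toNat := A11_ndvd hp hinj (by simp) _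
  rw [A11_compl h (fun i => p i ^ (a i).toNat), A11_compl h (fun i => p i ^ (-(a i)).toNat),
    Finset.prod_insert h, mul_comm (p i₀) (∏ i ∈ s, p i)]
  generalize (∏ i ∈ s, p i) = q at hq ⊢
  generalize (∏ i ∈ (insert i₀ s)ᶜ, p i ^ (a i).toNat) = m at hm ⊢
  generalize (∏ i ∈ (insert i₀ s)ᶜ, p i ^ (-(a i)).toNat) = n at hn ⊢
  rcases le_or_gt 0 (a i₀) with ha | ha
  · have h1 : (-(a i₀)).toNat = 0 := by omega
    have h2 : (a i₀).toNat = (a i₀).natAbs := by omega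
    rw [h1, h2, pow_zero, one_mul]
    exact peel (hp i₀) hq hm hn (a i₀).natAbs hN hNT hy
  · have h1 : (a i₀).toNat = 0 := by omega
    have h2 : (-(a i₀)).toNat = (a i₀).natAbs := by omega
    rw [h1, h2, pow_zero, one_mul]
    have hy' : Tendsto (fun T => -(yf T)) atTop (𝓝 0) := by
      have := hy.neg
      rwa [neg_zero] at this
    have h3 := peel (hp i₀) hq hn hm (a i₀).natAbs hN hNT hy'
    refine h3.congr fun T => ?_
    rw [Tw_swap q (Nf T) T (p i₀ ^ (a i₀).natAbs * n) m (-(yf T)), Tw_swap (q * p i₀) (Nf T) T n m (-(yf T)),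
      neg_neg]

/-- ROW A11. Peeling off all primes.
Proof. Induction over a finset `s` of indices of the statement: `(Tw 1 N T (mP p a) (nP p a) y - (∏_{i ∈ s} Lam (rp (p i)) (a i).natAbs) *
Tw (∏_{i ∈ s} p i) N T (∏_{i ∉ s} p i ^ (a i).toNat) (∏_{i ∉ s} p i ^ (-(a i)).toNat) y) / (log T)^(9/4) → 0`
(`s = univ` is the claim). Step: for `i₀ ∉ s` one of `(a i₀).toNat`, `(-(a i₀)).toNat` is `0` and the other one is `(a i₀).natAbs`;
in the first case apply `peel` with `m = ∏_{i ∉ insert i₀ s}`, in the second one `Tw_swap`, `peel` with `-yf`, `Tw_swap`. The coprimality conditions: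
`p i₀` does not divide a product of powers of the other primes (`Prime.dvd_finset_prod_iff`, `Nat.prime_dvd_prime_iff_eq`, injectivity). -/
theorem peel_all {r : ℕ} {p : Fin r → ℕ} (hp : ∀ i, (p i).Prime) (hinj : Function.Injective p) (a : Fin r → ℤ)
    {Nf : ℝ → ℕ} {yf : ℝ → ℝ} (hN : Tendsto Nf atTop atTop) (hNT : ∀ᶠ T : ℝ in atTop, (Nf T : ℝ) ≤ T)
    (hy : Tendsto yf atTop (𝓝 0)) :
    Tendsto (fun T : ℝ => (Tw 1 (Nf T) T (mP p a) (nP p a) (yf T) -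
      ((∏ i, Lam (rp (p i)) (a i).natAbs : ℝ) : ℂ) * Tw (qP p) (Nf T) T 1 1 (yf T)) /
      (((Real.log T) ^ (9/4 : ℝ) : ℝ) : ℂ)) atTop (𝓝 0) := by
  classical
  have key : ∀ s : Finset (Fin r), Tendsto (fun T : ℝ => (Tw 1 (Nf T) T (mP p a) (nP p a) (yf T) -
      ((∏ i ∈ s, Lam (rp (p i)) (a i).natAbs : ℝ) : ℂ) * Tw (∏ i ∈ s, p i) (Nf T) T
        (∏ i ∈ sᶜ, p i ^ (a i).toNat) (∏ i ∈ sᶜ, p i ^ (-(a i)).toNat) (yf T)) /
      (((Real.log T) ^ (9/4 : ℝ) : ℝ) : ℂ)) atTop (𝓝 0) := by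
    intro s
    induction s using Finset.induction_on with
    | empty =>
      have h1 : ∀ T : ℝ, (Tw 1 (Nf T) T (mP p a) (nP p a) (yf T) -
        ((∏ i ∈ (∅ : Finset (Fin r)), Lam (rp (p i)) (a i).natAbs : ℝ) : ℂ) * Tw (∏ i ∈ (∅ : Finset (Fin r)), p i) (Nf T) T
          (∏ i ∈ (∅ : Finset (Fin r))ᶜ, p i ^ (a i).toNat) (∏ i ∈ (∅ : Finset (Fin r))ᶜ, p i ^ (-(a i)).toNat) (yf T)) /
        (((Real.log T) ^ (9/4 : ℝ) : ℝ) : ℂ) = 0 := by
        intro T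
        rw [Finset.prod_empty, Finset.prod_empty, Finset.compl_empty, ofReal_one, one_mul]
        unfold mP nP
        rw [sub_self, zero_div]
      simp_rw [h1]
      exact tendsto_const_nhds
    | insert i₀ s h ih =>
      have h1 := A11_step hp hinj a hN hNT hy h
      have h2 := ih.add (h1.const_mul (((∏ i ∈ s, Lam (rp (p i)) (a i).natAbs : ℝ) : ℂ)))
      rw [mul_zero, add_zero] at h2
      refine h2.congr fun T => ?_
      rw [← mul_div_assoc, ← add_div]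
      congr 1
      rw [Finset.prod_insert h (f := fun i => Lam (rp (p i)) (a i).natAbs)]
      push_cast
      ring
  have h := key Finset.univ
  simp only [Finset.compl_univ, Finset.prod_empty] at h
  exact h

end Pool.Agent.LibLaw15
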