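import Pool.Agent.LibLaw15.Defs

/-! Law of the prime phases, row A5. -/


set_option autoImplicit false

namespace Pool.Agent.LibLaw15

open MeasureTheory Set Filter Topology Complex ProbabilityTheory
open scoped NNReal ComplexConjugate
open Pool.Agent.LibZM Pool.Agent.LibM3

/-- ROW A5. Proof. `ell T h k = max 0 (log (T gcd(h,k)^2/(h k)))`. `gcd(h,k) ∣ gcd(a h, b k)` and `gcd (a h) (b k) ∣ a b gcd(h,k)`, so
the quotient of the two arguments of the logarithm is `gcd(ah,bk)^2 / (a b gcd(h,k)^2) ∈ [1/(ab), ab]`; `max 0` is 1-Lipschitz (`abs_max_sub_max_le_abs`). -/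
theorem ell_diff {T : ℝ} (hT : 0 < T) {a b h k : ℕ} (ha : 1 ≤ a) (hb : 1 ≤ b) (hh : 1 ≤ h) (hk : 1 ≤ k) :
    |ell T (a * h) (b * k) - ell T h k| ≤ Real.log ((a:ℝ) * b) := by
  have ha' : (0:ℝ) < a := by exact_mod_cast ha
  have hb' : (0:ℝ) < b := by exact_mod_cast hb
  have hh' : (0:ℝ) < h := by exact_mod_cast hh
  have hk' : (0:ℝ) < k := by exact_mod_cast hk
  have hg0 : 0 < Nat.gcd h k := Nat.gcd_pos_of_pos_left _ hh
  have hG0 : 0 < Nat.gcd (a * h) (b * k) := Nat.gcd_pos_of_pos_left _ (Nat.mul_pos ha hh)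
  have hd1 : Nat.gcd h k ∣ Nat.gcd (a * h) (b * k) :=
    Nat.dvd_gcd ((Nat.gcd_dvd_left _ _).trans ⟨a, by ring⟩)
      ((Nat.gcd_dvd_right _ _).trans ⟨b, by ring⟩)
  have hd2 : Nat.gcd (a * h) (b * k) ∣ (a * b) * Nat.gcd h k := by
    rw [← Nat.gcd_mul_left]
    apply Nat.dvd_gcd
    · exact (Nat.gcd_dvd_left _ _).trans ⟨b, by ring⟩
    · exact (Nat.gcd_dvd_right _ _).trans ⟨a, by ring⟩
  have hg : (0:ℝ) < (Nat.gcd h k : ℝ) := by exact_mod_cast hg0
  have hG : (0:ℝ) < (Nat.gcd (a * h) (b * k) : ℝ) := by exact_mod_cast hG0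
  have hl1 : Real.log (Nat.gcd h k : ℝ) ≤ Real.log (Nat.gcd (a * h) (b * k) : ℝ) := by
    apply Real.log_le_log hg
    exact_mod_cast Nat.le_of_dvd hG0 hd1
  have hl2 : Real.log (Nat.gcd (a * h) (b * k) : ℝ) ≤
      Real.log ((a:ℝ) * b) + Real.log (Nat.gcd h k : ℝ) := by
    rw [← Real.log_mul (by positivity) hg.ne']
    apply Real.log_le_log hG
    have h1 := Nat.le_of_dvd (Nat.mul_pos (Nat.mul_pos ha hb) hg0) hd2
    exact_mod_cast h1
  have e1 : Real.log (T * (Nat.gcd (a * h) (b * k) : ℝ) ^ 2 / (((a * h : ℕ):ℝ) * ((b * k : ℕ):ℝ))) =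
      Real.log T + 2 * Real.log (Nat.gcd (a * h) (b * k) : ℝ) -
        (Real.log ((a:ℝ) * b) + Real.log ((h:ℝ) * k)) := by
    have h1 : (((a * h : ℕ):ℝ) * ((b * k : ℕ):ℝ)) = ((a:ℝ) * b) * ((h:ℝ) * k) := by
      push_cast; ring
    rw [h1, Real.log_div (by positivity) (by positivity), Real.log_mul hT.ne' (by positivity),
      Real.log_pow, Real.log_mul (x := (a:ℝ) * b) (by positivity) (by positivity)]
    push_cast; ring
  have e2 : Real.log (T * (Nat.gcd h k : ℝ) ^ 2 / ((h:ℝ) * k)) =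
      Real.log T + 2 * Real.log (Nat.gcd h k : ℝ) - Real.log ((h:ℝ) * k) := by
    rw [Real.log_div (by positivity) (by positivity), Real.log_mul hT.ne' (by positivity),
      Real.log_pow]
    push_cast; ring
  have hmax : ∀ u v : ℝ, |max 0 u - max 0 v| ≤ |u - v| := by
    intro u v
    have h1 := abs_max_sub_max_le_abs u v 0
    rwa [max_comm u 0, max_comm v 0] at h1
  unfold ell
  refine (hmax _ _).trans ?_
  rw [e1, e2, abs_le]
  constructor <;> linarith

end Pool.Agent.LibLaw15
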