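import Pool.Agent.LibLaw15.Defs

/-! Law of the prime phases, row A6. -/


set_option autoImplicit false

namespace Pool.Agent.LibLaw15

open MeasureTheory Set Filter Topology Complex ProbabilityTheory
open scoped NNReal ComplexConjugate
open Pool.Agent.LibZM Pool.Agent.LibM3

/-- ROW A6a. -/
theorem lam_nonneg {r : ℝ} (hr : 0 ≤ r) (α i j : ℕ) : 0 ≤ lam r α i j := by
  unfold lam
  have h1 := dcoef_nonneg (α := 1/2) (by norm_num) i
  have h2 := dcoef_nonneg (α := 1/2) (by norm_num) j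
  positivity

/-- ROW A6b. `dcoef (1/2) i ≤ dcoef 1 i = 1`, and `i + j ≤ 2 * max i (α + j) - α`. -/
theorem lam_le {r : ℝ} (hr : 0 ≤ r) (hr1 : r ≤ 1) (α i j : ℕ) : lam r α i j ≤ r ^ (i + j) := by
  unfold lam
  have h1 := dcoef_nonneg (α := 1/2) (by norm_num) i
  have h2 := dcoef_nonneg (α := 1/2) (by norm_num) j
  have h3 : dcoef (1/2) i ≤ 1 :=
    (dcoef_mono (α := 1/2) (β := 1) (by norm_num) (by norm_num) i).trans_eq (dcoef_one_left i)
  have h4 : dcoef (1/2) j ≤ 1 :=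
    (dcoef_mono (α := 1/2) (β := 1) (by norm_num) (by norm_num) j).trans_eq (dcoef_one_left j)
  have h5 : i + j ≤ 2 * max i (α + j) - α := by
    rcases le_total i (α + j) with h | h
    · rw [max_eq_right h]
      omega
    · rw [max_eq_left h]
      omega
  have h6 : r ^ (2 * max i (α + j) - α) ≤ r ^ (i + j) := pow_le_pow_of_le_one hr hr1 h5
  have h7 : dcoef (1/2) i * dcoef (1/2) j ≤ 1 := by nlinarith
  calc dcoef (1/2) i * dcoef (1/2) j * r ^ (2 * max i (α + j) - α) ≤ 1 * r ^ (i + j) := by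
        apply mul_le_mul h7 h6 (by positivity) (by norm_num)
    _ = r ^ (i + j) := one_mul _

/-- ROW A6c. -/
theorem lam_summable {r : ℝ} (hr : 0 ≤ r) (hr1 : r < 1) (α : ℕ) : Summable fun e : ℕ × ℕ => lam r α e.1 e.2 := by
  have h1 : Summable fun i : ℕ => r ^ i := summable_geometric_of_lt_one hr hr1
  have h2 := h1.mul_of_nonneg h1 (fun i => by positivity) (fun i => by positivity)
  refine Summable.of_nonneg_of_le (fun e => lam_nonneg hr α e.1 e.2) (fun e => ?_) h2
  rw [← pow_add]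
  exact lam_le hr hr1.le α e.1 e.2

/-- ROW A6d. `rp p = (√p)⁻¹`. -/
theorem rp_mem {p : ℕ} (hp : p.Prime) : 0 < rp p ∧ rp p < 1 ∧ rp p ^ 2 = (p:ℝ)⁻¹ := by
  unfold rp
  have h2 : (2:ℝ) ≤ p := by exact_mod_cast hp.two_le
  have h3 : 1 < √(p:ℝ) := by
    rw [Real.lt_sqrt (by norm_num)]
    linarith
  refine ⟨by positivity, inv_lt_one_of_one_lt₀ h3, ?_⟩
  rw [inv_pow, Real.sq_sqrt (by linarith)]

end Pool.Agent.LibLaw15
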