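import Pool.Agent.LibLaw15.A4
import Pool.Agent.LibLaw15.A5
import Pool.Agent.LibLaw15.A6

/-! Law of the prime phases, row A12. -/


set_option autoImplicit false

namespace Pool.Agent.LibLaw15

open MeasureTheory Set Filter Topology Complex ProbabilityTheory
open scoped NNReal ComplexConjugate
open Pool.Agent.LibZM Pool.Agent.LibM3

theorem A12_coprime {r : ℕ} {p : Fin r → ℕ} (hp : ∀ i, (p i).Prime) (hinj : Function.Injective p) (a : Fin r → ℤ) :
    Nat.Coprime (nP p a) (mP p a) := by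
  unfold nP mP
  apply Nat.Coprime.prod_left
  intro i _
  apply Nat.Coprime.prod_right
  intro j _
  by_cases h : i = j
  · subst h
    rcases le_total 0 (a i) with h0 | h0
    · have : (-(a i)).toNat = 0 := Int.toNat_of_nonpos (by omega)
      rw [this, pow_zero]
      exact Nat.coprime_one_left _
    · have : (a i).toNat = 0 := Int.toNat_of_nonpos h0
      rw [this, pow_zero]
      exact Nat.coprime_one_right _
  · apply Nat.Coprime.pow
    exact (Nat.coprime_primes (hp i) (hp j)).2 fun h' => h (hinj h')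

theorem A12_cop_of {r : ℕ} {p : Fin r → ℕ} (e : Fin r → ℕ) {h : ℕ} (hh : Nat.Coprime h (qP p)) :
    Nat.Coprime (∏ i, p i ^ e i) h := by
  apply Nat.Coprime.prod_left
  intro i _
  apply Nat.Coprime.pow_left
  apply Nat.Coprime.symm
  exact Nat.Coprime.coprime_dvd_right (Finset.dvd_prod_of_mem p (Finset.mem_univ i)) hh

theorem A12_sqrt {r : ℕ} {p : Fin r → ℕ} (hp : ∀ i, (p i).Prime) (a : Fin r → ℤ) :
    √((mP p a : ℝ) * nP p a) * ∏ i, rp (p i) ^ (a i).natAbs = 1 := by
  have h1 : (mP p a : ℝ) * nP p a = ∏ i, (p i : ℝ) ^ (a i).natAbs := by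
    unfold mP nP
    push_cast
    rw [← Finset.prod_mul_distrib]
    apply Finset.prod_congr rfl
    intro i _
    rw [← pow_add]
    congr 1
    omega
  have h2 : √((mP p a : ℝ) * nP p a) = ∏ i, √(p i : ℝ) ^ (a i).natAbs := by
    rw [h1]
    apply Real.sqrt_eq_iff_mul_self_eq_of_pos _ |>.2
    · rw [← Finset.prod_mul_distrib]
      apply Finset.prod_congr rfl
      intro i _
      rw [← mul_pow, Real.mul_self_sqrt (Nat.cast_nonneg _)]
    · apply Finset.prod_pos
      intro i _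
      have : (0:ℝ) < p i := by exact_mod_cast (hp i).pos
      positivity
  rw [h2, ← Finset.prod_mul_distrib]
  apply Finset.prod_eq_one
  intro i _
  have : (0:ℝ) < p i := by exact_mod_cast (hp i).pos
  have h3 : 0 < √(p i : ℝ) := Real.sqrt_pos.2 this
  rw [← mul_pow, rp, mul_inv_cancel₀ h3.ne', one_pow]

/-- ROW A12. The twist of the sum over integers coprime to the primes.
Proof. For `h, k` coprime to `qP p` and `m = mP p a`, `n = nP p a` (coprime to each other, all prime factors among the `p i`):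
`gcd (n h) (m k) = gcd h k` (`n` is coprime to `m k`, `m` to `h`: `Nat.Coprime.gcd_mul_left_cancel` and its right version), so
`gmn m n h k = gk h k / √(m n)` and `1/√(mn) = ∏ (rp (p i))^|a i|` (`m n = ∏ p i ^ |a i|`). `|ell T (n h) (m k) - ell T h k| ≤ log (n m)` (`ell_diff`);
`gmn 1 1 h k = gk h k` (`gmn_one`), `1 * h = h`. The sum over `cs (qP p) N` is at most the sum over `Finset.Icc 1 N` (`gk ≥ 0`). -/
theorem smooth_twist {r : ℕ} {p : Fin r → ℕ} (hp : ∀ i, (p i).Prime) (hinj : Function.Injective p) (a : Fin r → ℤ) :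
    ∃ C : ℝ, 0 ≤ C ∧ ∀ (N : ℕ) (T : ℝ), 1 ≤ T →
      ‖Tw (qP p) N T (mP p a) (nP p a) 0 - ((∏ i, rp (p i) ^ (a i).natAbs : ℝ) : ℂ) * Tw (qP p) N T 1 1 0‖ ≤
        C * ∑ h ∈ Finset.Icc 1 N, ∑ k ∈ Finset.Icc 1 N, gk h k := by
  set m := mP p a with hm
  set n := nP p a with hn
  set P : ℝ := ∏ i, rp (p i) ^ (a i).natAbs with hP
  have hm1 : 1 ≤ m := by
    rw [hm, mP]
    exact Nat.one_le_iff_ne_zero.2 (Finset.prod_ne_zero_iff.2 fun i _ => pow_ne_zero _ (hp i).ne_zero)
  have hn1 : 1 ≤ n := by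
    rw [hn, nP]
    exact Nat.one_le_iff_ne_zero.2 (Finset.prod_ne_zero_iff.2 fun i _ => pow_ne_zero _ (hp i).ne_zero)
  have hm0 : (0:ℝ) < m := by exact_mod_cast hm1
  have hn0 : (0:ℝ) < n := by exact_mod_cast hn1
  have hP0 : 0 ≤ P := Finset.prod_nonneg fun i _ => pow_nonneg (rp_mem (hp i)).1.le _
  have hsq : √((m:ℝ) * n) * P = 1 := A12_sqrt hp a
  have hss : √((m:ℝ) * n) * √((m:ℝ) * n) = m * n := Real.mul_self_sqrt (by positivity)
  have hlog : 0 ≤ Real.log ((n:ℝ) * m) := by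
    apply Real.log_nonneg
    have h1 : (1:ℝ) ≤ n := by exact_mod_cast hn1
    have h2 : (1:ℝ) ≤ m := by exact_mod_cast hm1
    nlinarith
  have hgk : ∀ h k : ℕ, 0 ≤ gk h k := by
    intro h k
    rw [← gmn_one]
    exact gmn_nonneg _ _ _ _
  refine ⟨P * Real.log ((n:ℝ) * m), by positivity, ?_⟩
  intro N T hT
  have key : ∀ h ∈ cs (qP p) N, ∀ k ∈ cs (qP p) N, gmn m n h k = P * gk h k := by
    intro h hh k hk
    rw [cs, Finset.mem_filter, Finset.mem_Icc] at hh hk
    have c1 : Nat.Coprime n m := A12_coprime hp hinj a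
    have c2 : Nat.Coprime n k := A12_cop_of (fun i => (-(a i)).toNat) hk.2
    have c3 : Nat.Coprime m h := A12_cop_of (fun i => (a i).toNat) hh.2
    have hg : Nat.gcd (n * h) (m * k) = Nat.gcd h k := by
      rw [Nat.Coprime.gcd_mul_left_cancel h (Nat.Coprime.mul_right c1 c2),
        Nat.Coprime.gcd_mul_left_cancel_right k c3]
    unfold gmn gk
    rw [hg]
    have hh0 : (0:ℝ) < h := by exact_mod_cast hh.1.1
    have hk0 : (0:ℝ) < k := by exact_mod_cast hk.1.1
    have hs0 : 0 < √((m:ℝ) * n) := Real.sqrt_pos.2 (by positivity)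
    have e1 : √((m:ℝ) * n) / (m * n) = P := by
      rw [div_eq_iff (by positivity)]
      calc √((m:ℝ) * n) = √((m:ℝ) * n) * (√((m:ℝ) * n) * P) := by rw [hsq, mul_one]
        _ = P * (√((m:ℝ) * n) * √((m:ℝ) * n)) := by ring
        _ = P * (m * n) := by rw [hss]
    rw [← e1]
    field_simp
  have hT1 : Tw (qP p) N T m n 0 = ∑ h ∈ cs (qP p) N, ∑ k ∈ cs (qP p) N,
      ((P * gk h k * ell T (n * h) (m * k) : ℝ) : ℂ) := by
    unfold Tw
    apply Finset.sum_congr rfl
    intro h hh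
    apply Finset.sum_congr rfl
    intro k hk
    rw [key h hh k hk]
    simp
  have hT2 : Tw (qP p) N T 1 1 0 = ∑ h ∈ cs (qP p) N, ∑ k ∈ cs (qP p) N,
      ((gk h k * ell T h k : ℝ) : ℂ) := by
    unfold Tw
    apply Finset.sum_congr rfl
    intro h hh
    apply Finset.sum_congr rfl
    intro k hk
    rw [gmn_one, one_mul, one_mul]
    simp
  rw [hT1, hT2, Finset.mul_sum, ← Finset.sum_sub_distrib]
  have hle : ∀ h ∈ cs (qP p) N, ‖∑ k ∈ cs (qP p) N, ((P * gk h k * ell T (n * h) (m * k) : ℝ) : ℂ) -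
      (P : ℂ) * ∑ k ∈ cs (qP p) N, ((gk h k * ell T h k : ℝ) : ℂ)‖ ≤
      ∑ k ∈ cs (qP p) N, P * Real.log ((n:ℝ) * m) * gk h k := by
    intro h hh
    rw [Finset.mul_sum, ← Finset.sum_sub_distrib]
    refine (norm_sum_le _ _).trans (Finset.sum_le_sum ?_)
    intro k hk
    have e2 : ((P * gk h k * ell T (n * h) (m * k) : ℝ) : ℂ) - (P : ℂ) * ((gk h k * ell T h k : ℝ) : ℂ) =
        ((P * gk h k * (ell T (n * h) (m * k) - ell T h k) : ℝ) : ℂ) := by
      push_cast
      ring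
    rw [e2, Complex.norm_real, Real.norm_eq_abs, abs_mul, abs_of_nonneg (mul_nonneg hP0 (hgk h k))]
    rw [cs, Finset.mem_filter, Finset.mem_Icc] at hh hk
    have e3 := ell_diff (T := T) (by linarith) hn1 hm1 hh.1.1 hk.1.1
    have e4 : 0 ≤ P * gk h k := mul_nonneg hP0 (hgk h k)
    calc P * gk h k * |ell T (n * h) (m * k) - ell T h k| ≤ P * gk h k * Real.log ((n:ℝ) * m) :=
          mul_le_mul_of_nonneg_left e3 e4
      _ = _ := by ring
  refine (norm_sum_le _ _).trans ((Finset.sum_le_sum hle).trans ?_)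
  have hsub : cs (qP p) N ⊆ Finset.Icc 1 N := Finset.filter_subset _ _
  rw [Finset.mul_sum]
  have hC0 : 0 ≤ P * Real.log ((n:ℝ) * m) := mul_nonneg hP0 hlog
  calc ∑ h ∈ cs (qP p) N, ∑ k ∈ cs (qP p) N, P * Real.log ((n:ℝ) * m) * gk h k
      ≤ ∑ h ∈ cs (qP p) N, ∑ k ∈ Finset.Icc 1 N, P * Real.log ((n:ℝ) * m) * gk h k := by
        apply Finset.sum_le_sum
        intro h _
        exact Finset.sum_le_sum_of_subset_of_nonneg hsub fun k _ _ => mul_nonneg hC0 (hgk h k)
    _ ≤ ∑ h ∈ Finset.Icc 1 N, ∑ k ∈ Finset.Icc 1 N, P * Real.log ((n:ℝ) * m) * gk h k :=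
        Finset.sum_le_sum_of_subset_of_nonneg hsub fun h _ _ =>
          Finset.sum_nonneg fun k _ => mul_nonneg hC0 (hgk h k)
    _ = _ := by
        apply Finset.sum_congr rfl
        intro h _
        rw [Finset.mul_sum]

end Pool.Agent.LibLaw15
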