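import Pool.Agent.LibLaw15.Defs

/-! Law of the prime phases, row A2. -/


set_option autoImplicit false

namespace Pool.Agent.LibLaw15

open MeasureTheory Set Filter Topology Complex ProbabilityTheory
open scoped NNReal ComplexConjugate
open Pool.Agent.LibZM Pool.Agent.LibM3

/-- ROW A2. Splitting off the powers of `p`.
Proof. `h = p^i * h'` with `i = h.factorization p` (`Nat.ordProj_mul_ordCompl_eq_self`, `Nat.coprime_ordCompl`), `h' = h / p^i` coprime to `p`.
`Finset.sum_sigma'` on the right, then `Finset.sum_bij'` (or `Finset.sum_nbij'`) between `cs q N` and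
`(range (N+1)).sigma fun i => cs (q*p) (N / p^i)`, maps `h ↦ ⟨h.factorization p, h / p^(h.factorization p)⟩`, `⟨i, h'⟩ ↦ p^i * h'`.
`i ≤ N` because `i < p^i ≤ h ≤ N` (`Nat.lt_pow_self`). `p^i h' ≤ N ↔ h' ≤ N / p^i` (`Nat.le_div_iff_mul_le`).
`Coprime (p^i h') q` from `¬ p ∣ q` and `Coprime h' (q*p)`. -/
theorem split_cs {p : ℕ} (hp : p.Prime) {q : ℕ} (hq : ¬ p ∣ q) (N : ℕ) (F : ℕ → ℂ) :
    ∑ h ∈ cs q N, F h = ∑ i ∈ Finset.range (N + 1), ∑ h ∈ cs (q * p) (N / p ^ i), F (p ^ i * h) := by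
  rw [Finset.sum_sigma']
  refine Finset.sum_bij' (fun h _ => (⟨h.factorization p, h / p ^ h.factorization p⟩ : Σ _ : ℕ, ℕ))
    (fun a _ => p ^ a.1 * a.2) ?_ ?_ ?_ ?_ ?_
  · intro h hh
    simp only [cs, Finset.mem_filter, Finset.mem_Icc] at hh
    obtain ⟨⟨h1, h2⟩, h3⟩ := hh
    have h0 : h ≠ 0 := by omega
    have hpow : 0 < p ^ h.factorization p := pow_pos hp.pos _
    have hle : p ^ h.factorization p ≤ h := Nat.ordProj_le p h0
    have hmul : p ^ h.factorization p * (h / p ^ h.factorization p) = h := Nat.ordProj_mul_ordCompl_eq_self h p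
    rw [Finset.mem_sigma]
    simp only [cs, Finset.mem_filter, Finset.mem_Icc, Finset.mem_range]
    have hlt : h.factorization p < p ^ h.factorization p := Nat.lt_pow_self hp.one_lt
    refine ⟨by omega, ⟨?_, ?_⟩, ?_⟩
    · exact Nat.div_pos hle hpow
    · exact Nat.div_le_div_right h2
    · refine Nat.Coprime.mul_right ?_ ?_
      · exact Nat.Coprime.coprime_dvd_left (Nat.div_dvd_of_dvd (Nat.ordProj_dvd h p)) h3
      · exact (Nat.coprime_ordCompl hp h0).symm
  · rintro ⟨i, h⟩ hh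
    rw [Finset.mem_sigma] at hh
    simp only [cs, Finset.mem_filter, Finset.mem_Icc, Finset.mem_range] at hh ⊢
    obtain ⟨hi, ⟨h1, h2⟩, h3⟩ := hh
    have hpow : 0 < p ^ i := pow_pos hp.pos _
    refine ⟨⟨Nat.mul_pos hpow (by omega), ?_⟩, ?_⟩
    · rw [mul_comm]
      exact (Nat.le_div_iff_mul_le hpow).1 h2
    · refine Nat.Coprime.mul_left ?_ ?_
      · exact Nat.Coprime.pow_left i ((Nat.Prime.coprime_iff_not_dvd hp).2 hq)
      · exact Nat.Coprime.coprime_dvd_right (Dvd.intro _ rfl) h3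
  · intro h hh
    exact Nat.ordProj_mul_ordCompl_eq_self h p
  · rintro ⟨i, h⟩ hh
    rw [Finset.mem_sigma] at hh
    simp only [cs, Finset.mem_filter, Finset.mem_Icc, Finset.mem_range] at hh
    obtain ⟨hi, ⟨h1, h2⟩, h3⟩ := hh
    have h0 : h ≠ 0 := by omega
    have hpow : 0 < p ^ i := pow_pos hp.pos _
    have hcop : Nat.Coprime h p := Nat.Coprime.coprime_dvd_right (Dvd.intro_left _ rfl) h3
    have hnd : ¬ p ∣ h := fun hd => by
      have := Nat.dvd_gcd hd (dvd_refl p)
      rw [hcop] at this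
      exact hp.one_lt.ne' (Nat.dvd_one.1 this)
    have hf : (p ^ i * h).factorization p = i := by
      rw [Nat.factorization_mul hpow.ne' h0, Nat.Prime.factorization_pow hp]
      simp [Nat.factorization_eq_zero_of_not_dvd hnd]
    simp only [hf]
    rw [Nat.mul_div_cancel_left _ hpow]
  · intro h hh
    simp only
    rw [Nat.ordProj_mul_ordCompl_eq_self h p]

end Pool.Agent.LibLaw15
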