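import Pool.Agent.LibLaw15.Defs

/-! Law of the prime phases, row A3. -/


set_option autoImplicit false

namespace Pool.Agent.LibLaw15

open MeasureTheory Set Filter Topology Complex ProbabilityTheory
open scoped NNReal ComplexConjugate
open Pool.Agent.LibZM Pool.Agent.LibM3

/-- ROW A3. Splitting of the weight.
Proof. `rp p = (√p)⁻¹`. `τ(p^i h) = dcoef (1/2) i * τ(h)` (`tau_isMultiplicative`, `tau_prime_pow`, coprimality), same for `k`.
`gcd (n * (p^i h)) (p^α m * (p^j k)) = p^(min i (α+j)) * gcd (n h) (m k)`: `n h` and `m k` are prime to `p`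
(e.g. `Nat.Coprime.gcd_mul`, or write `a = p^i * (n h)`, `b = p^(α+j) * (m k)`, wlog `i ≤ α+j`, `Nat.gcd_mul_left`, and
`gcd (n h) (p^c * (m k)) = gcd (n h) (m k)` by `Nat.Coprime.gcd_mul_left_cancel_right`).
`√(p^α m n) = (√p)^α √(mn)`. Then compare powers of `√p`: with `s = √p`, `p = s^2`, `c = min i (α+j)`, `M = max i (α+j)`, `c + M = i + α + j`:
`s^α * (s^2)^c / ((s^2)^i * (s^2)^(α+j)) = (s⁻¹)^(2 M - α)`. All variables are nonzero (a number not divisible by `p` is `≠ 0`). -/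
theorem gmn_split {p : ℕ} (hp : p.Prime) {m n h k : ℕ} (hm : ¬ p ∣ m) (hn : ¬ p ∣ n) (hh : ¬ p ∣ h) (hk : ¬ p ∣ k)
    (α i j : ℕ) : gmn (p ^ α * m) n (p ^ i * h) (p ^ j * k) = lam (rp p) α i j * gmn m n h k := by
  have hm0 : m ≠ 0 := fun h0 => hm (h0 ▸ dvd_zero p)
  have hn0 : n ≠ 0 := fun h0 => hn (h0 ▸ dvd_zero p)
  have hh0 : h ≠ 0 := fun h0 => hh (h0 ▸ dvd_zero p)
  have hk0 : k ≠ 0 := fun h0 => hk (h0 ▸ dvd_zero p)
  have hm' : (m:ℝ) ≠ 0 := by exact_mod_cast hm0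
  have hn' : (n:ℝ) ≠ 0 := by exact_mod_cast hn0
  have hh' : (h:ℝ) ≠ 0 := by exact_mod_cast hh0
  have hk' : (k:ℝ) ≠ 0 := by exact_mod_cast hk0
  have hp0 : (0:ℝ) < p := by exact_mod_cast hp.pos
  have htau : ∀ {x : ℕ}, ¬ p ∣ x → ∀ e : ℕ, tau (1/2) (p ^ e * x) = dcoef (1/2) e * tau (1/2) x := by
    intro x hx e
    have hco : Nat.Coprime (p ^ e) x :=
      Nat.Coprime.pow_left e ((Nat.Prime.coprime_iff_not_dvd hp).mpr hx)
    rw [(tau_isMultiplicative (1/2)).map_mul_of_coprime hco, tau_prime_pow (1/2) hp e]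
  have hcoX : ∀ {x y : ℕ}, ¬ p ∣ x → ¬ p ∣ y → ∀ e : ℕ, Nat.Coprime (p ^ e) (x * y) := by
    intro x y hx hy e
    exact Nat.Coprime.pow_left e ((Nat.Prime.coprime_iff_not_dvd hp).mpr
      (fun hd => (hp.dvd_mul.mp hd).elim hx hy))
  have hgcd : Nat.gcd (n * (p ^ i * h)) (p ^ α * m * (p ^ j * k)) =
      p ^ (min i (α + j)) * Nat.gcd (n * h) (m * k) := by
    have h1 : n * (p ^ i * h) = p ^ i * (n * h) := by ring
    have h2 : p ^ α * m * (p ^ j * k) = p ^ (α + j) * (m * k) := by rw [pow_add]; ring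
    rw [h1, h2]
    rcases le_total i (α + j) with hle | hle
    · have h3 : p ^ (α + j) * (m * k) = p ^ i * (p ^ (α + j - i) * (m * k)) := by
        rw [← mul_assoc (p ^ i), ← pow_add, Nat.add_sub_cancel' hle]
      rw [min_eq_left hle, h3, Nat.gcd_mul_left,
        Nat.Coprime.gcd_mul_left_cancel_right _ (hcoX hn hh _)]
    · have h3 : p ^ i * (n * h) = p ^ (α + j) * (p ^ (i - (α + j)) * (n * h)) := by
        rw [← mul_assoc (p ^ (α + j)), ← pow_add, Nat.add_sub_cancel' hle]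
      rw [min_eq_right hle, h3, Nat.gcd_mul_left,
        Nat.Coprime.gcd_mul_left_cancel _ (hcoX hm hk _)]
  set s := √(p:ℝ) with hs
  have hs0 : 0 < s := Real.sqrt_pos.mpr hp0
  have hs2 : (p:ℝ) = s ^ 2 := (Real.sq_sqrt hp0.le).symm
  have hsqrt : √(((p ^ α * m : ℕ):ℝ) * n) = s ^ α * √((m:ℝ) * n) := by
    have h1 : (((p ^ α * m : ℕ):ℝ) * n) = (s ^ α) ^ 2 * ((m:ℝ) * n) := by
      push_cast
      rw [hs2, ← pow_mul, ← pow_mul, mul_comm 2 α]; ring
    rw [h1, Real.sqrt_mul (by positivity), Real.sqrt_sq (by positivity)]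
  have hkey : s ^ α * (p:ℝ) ^ (min i (α + j)) / ((p:ℝ) ^ i * ((p:ℝ) ^ α * (p:ℝ) ^ j)) =
      (s⁻¹) ^ (2 * max i (α + j) - α) := by
    rw [inv_pow, div_eq_iff (by positivity), inv_mul_eq_div, eq_div_iff (by positivity)]
    rw [hs2, ← pow_mul, ← pow_mul, ← pow_mul, ← pow_mul, ← pow_add, ← pow_add, ← pow_add, ← pow_add]
    congr 1
    have h1 := min_add_max i (α + j)
    have h2 : α + j ≤ max i (α + j) := le_max_right _ _
    omega
  have hrp : rp p = s⁻¹ := rfl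
  unfold gmn lam
  rw [htau hh i, htau hk j, hgcd, hsqrt, hrp, ← hkey]
  push_cast
  have hpi : (p:ℝ) ^ i ≠ 0 := by positivity
  have hpj : (p:ℝ) ^ j ≠ 0 := by positivity
  have hpα : (p:ℝ) ^ α ≠ 0 := by positivity
  field_simp

end Pool.Agent.LibLaw15
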