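import Pool.Agent.LibLaw15.Defs

/-! Law of the prime phases, row A4. -/


set_option autoImplicit false

namespace Pool.Agent.LibLaw15

open MeasureTheory Set Filter Topology Complex ProbabilityTheory
open scoped NNReal ComplexConjugate
open Pool.Agent.LibZM Pool.Agent.LibM3

/-- ROW A4a. -/
theorem gmn_nonneg (m n h k : ℕ) : 0 ≤ gmn m n h k := by
  have h1 := tau_nonneg (α := 1/2) (by norm_num) h
  have h2 := tau_nonneg (α := 1/2) (by norm_num) k
  unfold gmn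
  positivity

/-- ROW A4b. Proof: `gcd (n h) (m k) ∣ n m gcd(h,k)`, so `gcd (n h) (m k) ≤ n m gcd(h,k)`. -/
theorem gmn_le {m n h k : ℕ} (hm : 1 ≤ m) (hn : 1 ≤ n) (hh : 1 ≤ h) (hk : 1 ≤ k) :
    gmn m n h k ≤ √((m:ℝ) * n) * gk h k := by
  have h1 := tau_nonneg (α := 1/2) (by norm_num) h
  have h2 := tau_nonneg (α := 1/2) (by norm_num) k
  have hm' : (0:ℝ) < m := by exact_mod_cast hm
  have hn' : (0:ℝ) < n := by exact_mod_cast hn
  have hh' : (0:ℝ) < h := by exact_mod_cast hh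
  have hk' : (0:ℝ) < k := by exact_mod_cast hk
  have hdvd : Nat.gcd (n * h) (m * k) ∣ (n * m) * Nat.gcd h k := by
    rw [← Nat.gcd_mul_left]
    apply Nat.dvd_gcd
    · refine (Nat.gcd_dvd_left _ _).trans ⟨m, by ring⟩
    · refine (Nat.gcd_dvd_right _ _).trans ⟨n, by ring⟩
  have hpos : 0 < (n * m) * Nat.gcd h k :=
    Nat.mul_pos (Nat.mul_pos hn hm) (Nat.gcd_pos_of_pos_left _ hh)
  have hle : (Nat.gcd (n * h) (m * k) : ℝ) ≤ (n * m) * (Nat.gcd h k : ℝ) := by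
    exact_mod_cast Nat.le_of_dvd hpos hdvd
  unfold gmn gk
  apply mul_le_mul_of_nonneg_left _ (Real.sqrt_nonneg _)
  rw [div_le_div_iff₀ (by positivity) (by positivity)]
  have h3 : 0 ≤ tau (1/2) h * tau (1/2) k := mul_nonneg h1 h2
  calc tau (1/2) h * tau (1/2) k * (Nat.gcd (n * h) (m * k) : ℝ) * ((h:ℝ) * k)
      ≤ tau (1/2) h * tau (1/2) k * ((n * m) * (Nat.gcd h k : ℝ)) * ((h:ℝ) * k) := by
        apply mul_le_mul_of_nonneg_right _ (by positivity)
        exact mul_le_mul_of_nonneg_left hle h3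
    _ = tau (1/2) h * tau (1/2) k * (Nat.gcd h k : ℝ) * ((n:ℝ) * h * (m * k)) := by ring

/-- ROW A4c. -/
theorem gmn_one (h k : ℕ) : gmn 1 1 h k = gk h k := by
  unfold gmn gk
  simp only [Nat.cast_one, one_mul, Real.sqrt_one]

end Pool.Agent.LibLaw15
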