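import Pool.Agent.LibLaw15.A2
import Pool.Agent.LibLaw15.A3
import Pool.Agent.LibLaw15.A4
import Pool.Agent.LibLaw15.A5
import Pool.Agent.LibLaw15.A6

/-! Law of the prime phases, row A7. -/


set_option autoImplicit false

namespace Pool.Agent.LibLaw15

open MeasureTheory Set Filter Topology Complex ProbabilityTheory
open scoped NNReal ComplexConjugate
open Pool.Agent.LibZM Pool.Agent.LibM3

/-- The inner sum for the exponents `i`, `j`. -/
noncomputable def Ein (Q N : ℕ) (T : ℝ) (m n : ℕ) (y : ℝ) (p α i j : ℕ) : ℂ :=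
  ∑ h ∈ cs Q (N / p ^ i), ∑ k ∈ cs Q (N / p ^ j),
    cexp (((y * (Real.log ((p ^ i * h : ℕ) : ℝ) - Real.log ((p ^ j * k : ℕ) : ℝ)) : ℝ) : ℂ) * I) *
      ((gmn m n h k * ell T (n * (p ^ i * h)) (p ^ α * m * (p ^ j * k)) : ℝ) : ℂ)

/-- Elements of `cs (q*p) M` are not divisible by `p`. -/
private lemma a7_not_dvd {p : ℕ} (hp : p.Prime) {q M h : ℕ} (h0 : h ∈ cs (q * p) M) : ¬ p ∣ h := by
  intro hd
  have h1 : Nat.Coprime h (q * p) := (Finset.mem_filter.mp h0).2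
  have h2 : Nat.Coprime h p := Nat.Coprime.coprime_mul_left_right h1
  have h3 : Nat.gcd h p = p := Nat.gcd_eq_right hd
  have h4 : p = 1 := by rw [← h3]; exact h2
  exact hp.one_lt.ne' h4

/-- ROW A7a. Proof: `split_cs` for both sums, then `gmn_split` (elements of `cs (q*p) M` are prime to `p`), `Finset.mul_sum`, `Finset.sum_comm`. -/
theorem Tw_split {p : ℕ} (hp : p.Prime) {q m n : ℕ} (hq : ¬ p ∣ q) (hm : ¬ p ∣ m) (hn : ¬ p ∣ n) (α N : ℕ) (T y : ℝ) :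
    Tw q N T (p ^ α * m) n y = ∑ i ∈ Finset.range (N + 1), ∑ j ∈ Finset.range (N + 1),
      ((lam (rp p) α i j : ℝ) : ℂ) * Ein (q * p) N T m n y p α i j := by
  unfold Tw
  rw [split_cs hp hq N]
  refine Finset.sum_congr rfl fun i _ => ?_
  have h1 : ∀ h ∈ cs (q * p) (N / p ^ i), (∑ k ∈ cs q N,
      cexp (((y * (Real.log ((p ^ i * h : ℕ) : ℝ) - Real.log (k : ℝ)) : ℝ) : ℂ) * I) *
        ((gmn (p ^ α * m) n (p ^ i * h) k * ell T (n * (p ^ i * h)) (p ^ α * m * k) : ℝ) : ℂ)) =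
      ∑ j ∈ Finset.range (N + 1), ∑ k ∈ cs (q * p) (N / p ^ j), ((lam (rp p) α i j : ℝ) : ℂ) *
        (cexp (((y * (Real.log ((p ^ i * h : ℕ) : ℝ) - Real.log ((p ^ j * k : ℕ) : ℝ)) : ℝ) : ℂ) * I) *
        ((gmn m n h k * ell T (n * (p ^ i * h)) (p ^ α * m * (p ^ j * k)) : ℝ) : ℂ)) := by
    intro h hh
    rw [split_cs hp hq N]
    refine Finset.sum_congr rfl fun j _ => Finset.sum_congr rfl fun k hk => ?_
    rw [gmn_split hp hm hn (a7_not_dvd hp hh) (a7_not_dvd hp hk) α i j]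
    push_cast
    ring
  rw [Finset.sum_congr rfl h1, Finset.sum_comm]
  refine Finset.sum_congr rfl fun j _ => ?_
  unfold Ein
  rw [Finset.mul_sum]
  refine Finset.sum_congr rfl fun h _ => ?_
  rw [Finset.mul_sum]

/-- Upper bound of `ell`. -/
private lemma a7_ell_le {T : ℝ} (hT : 1 ≤ T) (a b : ℕ) : ell T a b ≤ Real.log T := by
  have hlT : 0 ≤ Real.log T := Real.log_nonneg hT
  unfold ell
  refine max_le hlT ?_
  by_cases hg : Nat.gcd a b = 0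
  · rw [hg]; simpa using hlT
  have ha : a ≠ 0 ∨ b ≠ 0 := by
    by_contra hcon
    push Not at hcon
    exact hg (by rw [hcon.1, hcon.2]; simp)
  by_cases hab : (a:ℝ) * b = 0
  · rw [hab]; simpa using hlT
  have ha0 : a ≠ 0 := by rintro rfl; simp at hab
  have hb0 : b ≠ 0 := by rintro rfl; simp at hab
  have hapos : (0:ℝ) < a := by exact_mod_cast Nat.pos_of_ne_zero ha0
  have hbpos : (0:ℝ) < b := by exact_mod_cast Nat.pos_of_ne_zero hb0
  have hgpos : (0:ℝ) < (Nat.gcd a b : ℝ) := by exact_mod_cast Nat.pos_of_ne_zero hg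
  have h1 : (Nat.gcd a b : ℝ) ≤ a := by exact_mod_cast Nat.gcd_le_left b (Nat.pos_of_ne_zero ha0)
  have h2 : (Nat.gcd a b : ℝ) ≤ b := by exact_mod_cast Nat.gcd_le_right a (Nat.pos_of_ne_zero hb0)
  have h3 : (Nat.gcd a b : ℝ) ^ 2 ≤ (a:ℝ) * b := by
    rw [sq]; exact mul_le_mul h1 h2 hgpos.le hapos.le
  have hTpos : 0 < T := by linarith
  apply Real.log_le_log (by positivity)
  rw [div_le_iff₀ (by positivity)]
  exact mul_le_mul_of_nonneg_left h3 hTpos.le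

private lemma a7_ell_nonneg (T : ℝ) (a b : ℕ) : 0 ≤ ell T a b := le_max_left _ _

private lemma a7_cexp_norm (x : ℝ) : ‖cexp ((x : ℂ) * I)‖ = 1 := Complex.norm_exp_ofReal_mul_I x

private lemma a7_gk_nonneg (h k : ℕ) : 0 ≤ gk h k := by
  have := gmn_nonneg 1 1 h k
  rwa [gmn_one] at this

private lemma a7_gk_symm (h k : ℕ) : gk h k = gk k h := by
  unfold gk
  rw [Nat.gcd_comm h k, mul_comm (h:ℝ) (k:ℝ), mul_comm (tau (1/2) h) (tau (1/2) k)]

/-- One term. -/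
private lemma a7_term {m n : ℕ} (hm : 1 ≤ m) (hn : 1 ≤ n) {T : ℝ} (hT : 1 ≤ T) {h k : ℕ} (hh : 1 ≤ h) (hk : 1 ≤ k) (x : ℝ) (a b : ℕ) :
    ‖cexp ((x : ℂ) * I) * ((gmn m n h k * ell T a b : ℝ) : ℂ)‖ ≤ √((m:ℝ) * n) * (Real.log T * gk h k) := by
  rw [norm_mul, a7_cexp_norm, one_mul, Complex.norm_real, Real.norm_eq_abs,
    abs_of_nonneg (mul_nonneg (gmn_nonneg m n h k) (a7_ell_nonneg T a b))]
  calc gmn m n h k * ell T a b ≤ (√((m:ℝ) * n) * gk h k) * Real.log T :=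
        mul_le_mul (gmn_le hm hn hh hk) (a7_ell_le hT a b) (a7_ell_nonneg T a b)
          (mul_nonneg (Real.sqrt_nonneg _) (a7_gk_nonneg h k))
    _ = √((m:ℝ) * n) * (Real.log T * gk h k) := by ring

/-- Bound of a double sum over subsets of `Icc 1 N`. -/
private lemma a7_sum_le {N : ℕ} {s t : Finset ℕ} (hs : s ⊆ Finset.Icc 1 N) (ht : t ⊆ Finset.Icc 1 N) (f : ℕ → ℕ → ℂ) (c d : ℝ)
    (hc : 0 ≤ c) (hd : 0 ≤ d) (hf : ∀ h ∈ s, ∀ k ∈ t, ‖f h k‖ ≤ c * (d * gk h k)) :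
    ‖∑ h ∈ s, ∑ k ∈ t, f h k‖ ≤ c * (d * ∑ h ∈ Finset.Icc 1 N, ∑ k ∈ Finset.Icc 1 N, gk h k) := by
  calc ‖∑ h ∈ s, ∑ k ∈ t, f h k‖ ≤ ∑ h ∈ s, ∑ k ∈ t, ‖f h k‖ :=
        (norm_sum_le _ _).trans (Finset.sum_le_sum fun h _ => norm_sum_le _ _)
    _ ≤ ∑ h ∈ s, ∑ k ∈ t, c * (d * gk h k) := Finset.sum_le_sum fun h hh => Finset.sum_le_sum fun k hk => hf h hh k hk
    _ ≤ ∑ h ∈ s, ∑ k ∈ Finset.Icc 1 N, c * (d * gk h k) := Finset.sum_le_sum fun h hh =>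
        Finset.sum_le_sum_of_subset_of_nonneg ht fun k _ _ => mul_nonneg hc (mul_nonneg hd (a7_gk_nonneg h k))
    _ ≤ ∑ h ∈ Finset.Icc 1 N, ∑ k ∈ Finset.Icc 1 N, c * (d * gk h k) :=
        Finset.sum_le_sum_of_subset_of_nonneg hs fun h _ _ =>
          Finset.sum_nonneg fun k _ => mul_nonneg hc (mul_nonneg hd (a7_gk_nonneg h k))
    _ = _ := by simp only [Finset.mul_sum]

private lemma a7_cs_subset (q : ℕ) {M N : ℕ} (h : M ≤ N) : cs q M ⊆ Finset.Icc 1 N :=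
  (Finset.filter_subset _ _).trans (Finset.Icc_subset_Icc le_rfl h)

/-- ROW A7b. Proof: termwise, `‖exp‖ = 1`, `0 ≤ ell T a b ≤ log T` for `T ≥ 1` (`ell = max 0 (log (T gcd^2/(ab)))`, `gcd^2 ≤ ab`),
`gmn_le`, and the index sets are contained in `Finset.Icc 1 N`. -/
theorem Ein_le {p : ℕ} (hp : p.Prime) {m n : ℕ} (hm : 1 ≤ m) (hn : 1 ≤ n) (Q α i j N : ℕ) {T : ℝ} (hT : 1 ≤ T) (y : ℝ) :
    ‖Ein Q N T m n y p α i j‖ ≤ √((m:ℝ) * n) * (Real.log T * ∑ h ∈ Finset.Icc 1 N, ∑ k ∈ Finset.Icc 1 N, gk h k) := by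
  unfold Ein
  refine a7_sum_le (a7_cs_subset Q (Nat.div_le_self _ _)) (a7_cs_subset Q (Nat.div_le_self _ _)) _ _ _
    (Real.sqrt_nonneg _) (Real.log_nonneg hT) fun h hh k hk => ?_
  exact a7_term hm hn hT (Finset.mem_Icc.mp (a7_cs_subset Q (Nat.div_le_self N (p ^ i)) hh)).1
    (Finset.mem_Icc.mp (a7_cs_subset Q (Nat.div_le_self N (p ^ j)) hk)).1 _ _ _

/-- ROW A7b'. The same for `Tw`. -/
theorem Tw_le {m n : ℕ} (hm : 1 ≤ m) (hn : 1 ≤ n) (q N : ℕ) {T : ℝ} (hT : 1 ≤ T) (y : ℝ) :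
    ‖Tw q N T m n y‖ ≤ √((m:ℝ) * n) * (Real.log T * ∑ h ∈ Finset.Icc 1 N, ∑ k ∈ Finset.Icc 1 N, gk h k) := by
  unfold Tw
  refine a7_sum_le (a7_cs_subset q le_rfl) (a7_cs_subset q le_rfl) _ _ _
    (Real.sqrt_nonneg _) (Real.log_nonneg hT) fun h hh k hk => ?_
  exact a7_term hm hn hT (Finset.mem_Icc.mp (a7_cs_subset q le_rfl hh)).1
    (Finset.mem_Icc.mp (a7_cs_subset q le_rfl hk)).1 _ _ _

private lemma a7_exp_diff (a b : ℝ) : ‖cexp ((a : ℂ) * I) - cexp ((b : ℂ) * I)‖ ≤ |a - b| := by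
  have h1 : cexp ((a : ℂ) * I) - cexp ((b : ℂ) * I) = cexp ((b : ℂ) * I) * (cexp (I * ((a - b : ℝ) : ℂ)) - 1) := by
    rw [mul_sub, ← Complex.exp_add, mul_one]
    congr 2
    push_cast
    ring
  rw [h1, norm_mul, a7_cexp_norm, one_mul]
  simpa [Real.norm_eq_abs] using Real.norm_exp_I_mul_ofReal_sub_one_le (x := a - b)

/-- Difference of the terms. -/
private lemma a7_diff {p : ℕ} (hp : p.Prime) {m n : ℕ} (hm : 1 ≤ m) (hn : 1 ≤ n) (α i j : ℕ) {T : ℝ} (hT : 1 ≤ T) (y : ℝ)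
    {h k : ℕ} (hh : 1 ≤ h) (hk : 1 ≤ k) :
    ‖cexp (((y * (Real.log ((p ^ i * h : ℕ) : ℝ) - Real.log ((p ^ j * k : ℕ) : ℝ)) : ℝ) : ℂ) * I) *
        ((gmn m n h k * ell T (n * (p ^ i * h)) (p ^ α * m * (p ^ j * k)) : ℝ) : ℂ) -
      cexp (((y * (Real.log (h:ℝ) - Real.log (k:ℝ)) : ℝ) : ℂ) * I) *
        ((gmn m n h k * ell T (n * h) (m * k) : ℝ) : ℂ)‖ ≤
    √((m:ℝ) * n) * ((|y| * ((i + j) * Real.log p) * Real.log T + (i + j + α) * Real.log p) * gk h k) := by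
  have hp1 : (1:ℝ) ≤ p := by exact_mod_cast hp.one_lt.le
  have hp0 : (0:ℝ) < p := by linarith
  have hlp : 0 ≤ Real.log p := Real.log_nonneg hp1
  have hlT : 0 ≤ Real.log T := Real.log_nonneg hT
  have hh0 : (h:ℝ) ≠ 0 := by positivity
  have hk0 : (k:ℝ) ≠ 0 := by positivity
  set e1 := cexp (((y * (Real.log ((p ^ i * h : ℕ) : ℝ) - Real.log ((p ^ j * k : ℕ) : ℝ)) : ℝ) : ℂ) * I) with he1
  set e2 := cexp (((y * (Real.log (h:ℝ) - Real.log (k:ℝ)) : ℝ) : ℂ) * I) with he2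
  set l1 := ell T (n * (p ^ i * h)) (p ^ α * m * (p ^ j * k)) with hl1
  set l2 := ell T (n * h) (m * k) with hl2
  have hE1 : ‖e1‖ = 1 := a7_cexp_norm _
  have hE : ‖e1 - e2‖ ≤ |y| * ((i + j) * Real.log p) := by
    refine (a7_exp_diff _ _).trans ?_
    have h1 : y * (Real.log ((p ^ i * h : ℕ) : ℝ) - Real.log ((p ^ j * k : ℕ) : ℝ)) - y * (Real.log (h:ℝ) - Real.log (k:ℝ)) =
        y * (i * Real.log p - j * Real.log p) := by
      push_cast
      rw [Real.log_mul (by positivity) hh0, Real.log_mul (by positivity) hk0, Real.log_pow, Real.log_pow]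
      ring
    rw [h1, abs_mul]
    refine mul_le_mul_of_nonneg_left ?_ (abs_nonneg y)
    have hi : 0 ≤ (i:ℝ) * Real.log p := by positivity
    have hj : 0 ≤ (j:ℝ) * Real.log p := by positivity
    rw [abs_le]
    constructor <;> nlinarith
  have hL : |l1 - l2| ≤ (i + j + α) * Real.log p := by
    have h1 : n * (p ^ i * h) = p ^ i * (n * h) := by ring
    have h2 : p ^ α * m * (p ^ j * k) = p ^ (α + j) * (m * k) := by ring
    have h3 := ell_diff (T := T) (by linarith) (a := p ^ i) (b := p ^ (α + j)) (h := n * h) (k := m * k)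
      (Nat.one_le_pow _ _ hp.pos) (Nat.one_le_pow _ _ hp.pos) (Nat.mul_pos hn hh) (Nat.mul_pos hm hk)
    rw [hl1, hl2, h1, h2]
    refine h3.trans (le_of_eq ?_)
    push_cast
    rw [← pow_add, Real.log_pow]
    push_cast
    ring
  have hg0 : 0 ≤ gmn m n h k := gmn_nonneg m n h k
  have hg1 : gmn m n h k ≤ √((m:ℝ) * n) * gk h k := gmn_le hm hn hh hk
  have hgk : 0 ≤ gk h k := a7_gk_nonneg h k
  have hl20 : 0 ≤ l2 := a7_ell_nonneg T _ _
  have hl2T : l2 ≤ Real.log T := a7_ell_le hT _ _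
  have h4 : e1 * ((gmn m n h k * l1 : ℝ) : ℂ) - e2 * ((gmn m n h k * l2 : ℝ) : ℂ) =
      ((gmn m n h k : ℝ) : ℂ) * (e1 * ((l1 - l2 : ℝ) : ℂ) + (e1 - e2) * ((l2 : ℝ) : ℂ)) := by
    push_cast
    ring
  rw [h4, norm_mul, Complex.norm_real, Real.norm_eq_abs, abs_of_nonneg hg0]
  have h5 : ‖e1 * ((l1 - l2 : ℝ) : ℂ) + (e1 - e2) * ((l2 : ℝ) : ℂ)‖ ≤
      |y| * ((i + j) * Real.log p) * Real.log T + (i + j + α) * Real.log p := by
    refine (norm_add_le _ _).trans ?_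
    rw [norm_mul, norm_mul, hE1, one_mul, Complex.norm_real, Real.norm_eq_abs, Complex.norm_real, Real.norm_eq_abs, abs_of_nonneg hl20]
    have h6 : ‖e1 - e2‖ * l2 ≤ |y| * ((i + j) * Real.log p) * Real.log T :=
      mul_le_mul hE hl2T hl20 (by positivity)
    linarith
  calc gmn m n h k * ‖e1 * ((l1 - l2 : ℝ) : ℂ) + (e1 - e2) * ((l2 : ℝ) : ℂ)‖
      ≤ (√((m:ℝ) * n) * gk h k) * (|y| * ((i + j) * Real.log p) * Real.log T + (i + j + α) * Real.log p) :=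
        mul_le_mul hg1 h5 (norm_nonneg _) (by positivity)
    _ = _ := by ring

/-- ROW A7c. Proof: `Tw Q N T m n y` is the sum over `h, k ∈ cs Q N`; restricting to `h ≤ N/p^i`, `k ≤ N/p^j` costs at most
`√(mn) log T (∑_{h > N/p^i, k ≤ N} gk + ∑_{h ≤ N, k > N/p^j} gk)` (`gk h k = gk k h`); on the common range the phases differ by at most
`|y| |i log p - j log p| ≤ |y| (i + j) log p` (`Real.log` of a product, `‖exp(ia) - exp(ib)‖ ≤ |a - b|`) and the `ell` by at most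
`log (p^i * p^(α+j)) = (i + j + α) log p` (`ell_diff`, after `n * (p^i * h) = p^i * (n * h)`). -/
theorem Ein_sub_le {p : ℕ} (hp : p.Prime) {m n : ℕ} (hm : 1 ≤ m) (hn : 1 ≤ n) (Q α i j N : ℕ) {T : ℝ} (hT : 1 ≤ T) (y : ℝ) :
    ‖Ein Q N T m n y p α i j - Tw Q N T m n y‖ ≤ √((m:ℝ) * n) *
      ((|y| * ((i + j) * Real.log p) * Real.log T + (i + j + α) * Real.log p) * (∑ h ∈ Finset.Icc 1 N, ∑ k ∈ Finset.Icc 1 N, gk h k) +
        Real.log T * ((∑ h ∈ Finset.Icc 1 N, ∑ k ∈ Finset.Icc (N / p ^ i + 1) N, gk h k) +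
          ∑ h ∈ Finset.Icc 1 N, ∑ k ∈ Finset.Icc (N / p ^ j + 1) N, gk h k)) := by
  have hp1 : (1:ℝ) ≤ p := by exact_mod_cast hp.one_lt.le
  have hlp : 0 ≤ Real.log p := Real.log_nonneg hp1
  have hlT : 0 ≤ Real.log T := Real.log_nonneg hT
  set C : ℝ := |y| * ((i + j) * Real.log p) * Real.log T + (i + j + α) * Real.log p with hC
  have hC0 : 0 ≤ C := by positivity
  set G : ℕ → ℕ → ℂ := fun h k => cexp (((y * (Real.log ((p ^ i * h : ℕ) : ℝ) - Real.log ((p ^ j * k : ℕ) : ℝ)) : ℝ) : ℂ) * I) *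
      ((gmn m n h k * ell T (n * (p ^ i * h)) (p ^ α * m * (p ^ j * k)) : ℝ) : ℂ) with hG
  set F : ℕ → ℕ → ℂ := fun h k => cexp (((y * (Real.log (h:ℝ) - Real.log (k:ℝ)) : ℝ) : ℂ) * I) *
        ((gmn m n h k * ell T (n * h) (m * k) : ℝ) : ℂ) with hF
  have hset : ∀ M, M ≤ N → cs Q M = (Finset.Icc 1 N).filter fun h => h ≤ M ∧ Nat.Coprime h Q := by
    intro M hM
    ext h
    simp only [cs, Finset.mem_filter, Finset.mem_Icc]
    constructor
    · rintro ⟨⟨h1, h2⟩, h3⟩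
      exact ⟨⟨h1, h2.trans hM⟩, h2, h3⟩
    · rintro ⟨⟨h1, _⟩, h2, h3⟩
      exact ⟨⟨h1, h2⟩, h3⟩
  have hEin : Ein Q N T m n y p α i j = ∑ h ∈ Finset.Icc 1 N, ∑ k ∈ Finset.Icc 1 N,
      if (h ≤ N / p ^ i ∧ Nat.Coprime h Q) ∧ (k ≤ N / p ^ j ∧ Nat.Coprime k Q) then G h k else 0 := by
    unfold Ein
    rw [hset _ (Nat.div_le_self N (p ^ i)), hset _ (Nat.div_le_self N (p ^ j)), Finset.sum_filter]
    refine Finset.sum_congr rfl fun h _ => ?_
    by_cases h1 : h ≤ N / p ^ i ∧ Nat.Coprime h Q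
    · rw [if_pos h1, Finset.sum_filter]
      refine Finset.sum_congr rfl fun k _ => ?_
      by_cases h2 : k ≤ N / p ^ j ∧ Nat.Coprime k Q
      · rw [if_pos h2, if_pos ⟨h1, h2⟩]
      · rw [if_neg h2, if_neg (fun h3 => h2 h3.2)]
    · rw [if_neg h1]
      symm
      exact Finset.sum_eq_zero fun k _ => if_neg (fun h3 => h1 h3.1)
  have hTw : Tw Q N T m n y = ∑ h ∈ Finset.Icc 1 N, ∑ k ∈ Finset.Icc 1 N,
      if (h ≤ N ∧ Nat.Coprime h Q) ∧ (k ≤ N ∧ Nat.Coprime k Q) then F h k else 0 := by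
    unfold Tw
    rw [hset N le_rfl, Finset.sum_filter]
    refine Finset.sum_congr rfl fun h _ => ?_
    by_cases h1 : h ≤ N ∧ Nat.Coprime h Q
    · rw [if_pos h1, Finset.sum_filter]
      refine Finset.sum_congr rfl fun k _ => ?_
      by_cases h2 : k ≤ N ∧ Nat.Coprime k Q
      · rw [if_pos h2, if_pos ⟨h1, h2⟩]
      · rw [if_neg h2, if_neg (fun h3 => h2 h3.2)]
    · rw [if_neg h1]
      symm
      exact Finset.sum_eq_zero fun k _ => if_neg (fun h3 => h1 h3.1)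
  have hI : ∀ M, M ≤ N → Finset.Icc (M + 1) N = (Finset.Icc 1 N).filter fun h => M < h := by
    intro M hM
    ext h
    simp only [Finset.mem_filter, Finset.mem_Icc]
    omega
  have hpt : ∀ h ∈ Finset.Icc 1 N, ∀ k ∈ Finset.Icc 1 N,
      ‖(if (h ≤ N / p ^ i ∧ Nat.Coprime h Q) ∧ (k ≤ N / p ^ j ∧ Nat.Coprime k Q) then G h k else 0) -
        (if (h ≤ N ∧ Nat.Coprime h Q) ∧ (k ≤ N ∧ Nat.Coprime k Q) then F h k else 0)‖ ≤
      √((m:ℝ) * n) * (C * gk h k + Real.log T * ((if N / p ^ i < h then gk k h else 0) + (if N / p ^ j < k then gk h k else 0))) := by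
    intro h hh k hk
    obtain ⟨hh1, hhN⟩ := Finset.mem_Icc.mp hh
    obtain ⟨hk1, hkN⟩ := Finset.mem_Icc.mp hk
    have hs : 0 ≤ √((m:ℝ) * n) := Real.sqrt_nonneg _
    have hgk : 0 ≤ gk h k := a7_gk_nonneg h k
    have hgk' : 0 ≤ gk k h := a7_gk_nonneg k h
    have hsym : gk k h = gk h k := a7_gk_symm k h
    by_cases hc : Nat.Coprime h Q ∧ Nat.Coprime k Q
    · have hFF : (if (h ≤ N ∧ Nat.Coprime h Q) ∧ (k ≤ N ∧ Nat.Coprime k Q) then F h k else 0) = F h k :=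
        if_pos ⟨⟨hhN, hc.1⟩, hkN, hc.2⟩
      rw [hFF]
      by_cases hA : h ≤ N / p ^ i ∧ k ≤ N / p ^ j
      · rw [if_pos ⟨⟨hA.1, hc.1⟩, hA.2, hc.2⟩, if_neg (not_lt.mpr hA.1), if_neg (not_lt.mpr hA.2), add_zero, mul_zero, add_zero]
        exact a7_diff hp hm hn α i j hT y hh1 hk1
      · have hA2 : ¬ ((h ≤ N / p ^ i ∧ Nat.Coprime h Q) ∧ (k ≤ N / p ^ j ∧ Nat.Coprime k Q)) := fun h3 => hA ⟨h3.1.1, h3.2.1⟩
        rw [if_neg hA2, zero_sub, norm_neg]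
        have h5 : ‖F h k‖ ≤ √((m:ℝ) * n) * (Real.log T * gk h k) := a7_term hm hn hT hh1 hk1 _ _ _
        refine h5.trans (mul_le_mul_of_nonneg_left ?_ hs)
        have h6 : gk h k ≤ (if N / p ^ i < h then gk k h else 0) + (if N / p ^ j < k then gk h k else 0) := by
          rw [not_and_or, not_le, not_le] at hA
          rcases hA with hA | hA
          · rw [if_pos hA, hsym]
            have : (0:ℝ) ≤ (if N / p ^ j < k then gk h k else 0) := by split_ifs <;> simp [hgk]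
            linarith
          · rw [if_pos hA]
            have : (0:ℝ) ≤ (if N / p ^ i < h then gk k h else 0) := by split_ifs <;> simp [hgk']
            linarith
        have h7 : 0 ≤ C * gk h k := mul_nonneg hC0 hgk
        have h8 := mul_le_mul_of_nonneg_left h6 hlT
        linarith
    · have h1 : ¬ ((h ≤ N / p ^ i ∧ Nat.Coprime h Q) ∧ (k ≤ N / p ^ j ∧ Nat.Coprime k Q)) := fun h3 => hc ⟨h3.1.2, h3.2.2⟩
      have h2 : ¬ ((h ≤ N ∧ Nat.Coprime h Q) ∧ (k ≤ N ∧ Nat.Coprime k Q)) := fun h3 => hc ⟨h3.1.2, h3.2.2⟩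
      rw [if_neg h1, if_neg h2, sub_zero, norm_zero]
      have h3 : (0:ℝ) ≤ (if N / p ^ i < h then gk k h else 0) := by split_ifs <;> simp [hgk']
      have h4 : (0:ℝ) ≤ (if N / p ^ j < k then gk h k else 0) := by split_ifs <;> simp [hgk]
      positivity
  rw [hEin, hTw, ← Finset.sum_sub_distrib]
  simp_rw [← Finset.sum_sub_distrib]
  refine (norm_sum_le _ _).trans ?_
  refine (Finset.sum_le_sum fun h hh => (norm_sum_le _ _).trans (Finset.sum_le_sum fun k hk => hpt h hh k hk)).trans (le_of_eq ?_)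
  rw [hI _ (Nat.div_le_self N (p ^ i)), hI _ (Nat.div_le_self N (p ^ j))]
  simp only [Finset.sum_filter, ← Finset.mul_sum, Finset.sum_add_distrib]
  rw [Finset.sum_comm (f := fun h k => if N / p ^ i < h then gk k h else 0)]

end Pool.Agent.LibLaw15
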