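import Pool.Agent.LibLaw15.A1
import Pool.Agent.LibLaw15.A7
import Pool.Agent.LibM3.N2

/-! Law of the prime phases, row A8. -/


set_option autoImplicit false

namespace Pool.Agent.LibLaw15

open MeasureTheory Set Filter Topology Complex ProbabilityTheory
open scoped NNReal ComplexConjugate
open Pool.Agent.LibZM Pool.Agent.LibM3

/-- the inner sum is empty for large exponents -/
private theorem a8_Ein_zero {p : ℕ} (hp : p.Prime) (Q N : ℕ) (T : ℝ) (m n : ℕ) (y : ℝ) (α i j : ℕ)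
    (h : N < i ∨ N < j) : Ein Q N T m n y p α i j = 0 := by
  have h0 : ∀ i, N < i → cs Q (N / p ^ i) = ∅ := by
    intro i hi
    have h1 : N < p ^ i := hi.trans (Nat.lt_pow_self hp.one_lt)
    rw [Nat.div_eq_of_lt h1]
    simp [cs]
  unfold Ein
  rcases h with h | h
  · rw [h0 i h, Finset.sum_empty]
  · rw [h0 j h]
    simp

/-- the numerator as a series -/
private theorem a8_num {p : ℕ} (hp : p.Prime) {q m n : ℕ} (hq : ¬ p ∣ q) (hm : ¬ p ∣ m) (hn : ¬ p ∣ n)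
    (α N : ℕ) (T y : ℝ) :
    Tw q N T (p ^ α * m) n y - ((Lam (rp p) α : ℝ) : ℂ) * Tw (q * p) N T m n y =
      ∑' e : ℕ × ℕ, ((lam (rp p) α e.1 e.2 : ℝ) : ℂ) *
        (Ein (q * p) N T m n y p α e.1 e.2 - Tw (q * p) N T m n y) := by
  have hr := rp_mem hp
  have hs0 : Summable fun e : ℕ × ℕ => lam (rp p) α e.1 e.2 := lam_summable hr.1.le hr.2.1 α
  have hs : Summable fun e : ℕ × ℕ => ((lam (rp p) α e.1 e.2 : ℝ) : ℂ) :=
    Complex.summable_ofReal.2 hs0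
  have hz : ∀ e : ℕ × ℕ, e ∉ (Finset.range (N + 1)) ×ˢ (Finset.range (N + 1)) →
      ((lam (rp p) α e.1 e.2 : ℝ) : ℂ) * Ein (q * p) N T m n y p α e.1 e.2 = 0 := by
    intro e he
    rw [a8_Ein_zero hp, mul_zero]
    rw [Finset.mem_product, Finset.mem_range, Finset.mem_range] at he
    by_contra hcon
    apply he
    omega
  have hs1 : Summable fun e : ℕ × ℕ =>
      ((lam (rp p) α e.1 e.2 : ℝ) : ℂ) * Ein (q * p) N T m n y p α e.1 e.2 :=
    summable_of_ne_finset_zero hz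
  have hs2 : Summable fun e : ℕ × ℕ =>
      ((lam (rp p) α e.1 e.2 : ℝ) : ℂ) * Tw (q * p) N T m n y := hs.mul_right _
  have h1 : ∑' e : ℕ × ℕ, ((lam (rp p) α e.1 e.2 : ℝ) : ℂ) * Ein (q * p) N T m n y p α e.1 e.2 =
      Tw q N T (p ^ α * m) n y := by
    rw [tsum_eq_sum hz, Finset.sum_product, Tw_split hp hq hm hn]
  have h2 : ∑' e : ℕ × ℕ, ((lam (rp p) α e.1 e.2 : ℝ) : ℂ) * Tw (q * p) N T m n y =
      ((Lam (rp p) α : ℝ) : ℂ) * Tw (q * p) N T m n y := by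
    rw [tsum_mul_right]
    congr 1
    unfold Lam
    rw [Complex.ofReal_tsum]
  rw [← h1, ← h2, ← hs1.tsum_sub hs2]
  refine tsum_congr fun e => ?_
  ring

/-- ROW A8. Peeling off one prime.
Proof. By `Tw_split` and `Ein = 0` for `i > N` or `j > N` (then `N / p^i = 0`, `cs _ 0 = ∅`), the numerator is
`∑' (e : ℕ × ℕ), lam (rp p) α e.1 e.2 * (Ein (q*p) (Nf T) T m n y p α e.1 e.2 - Tw (q*p) (Nf T) T m n y)` (`Summable`: `lam_summable`, `Ein_le`, `Tw_le`).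
Divide by `(log T)^(9/4)` and use `tendsto_tsum_of_dominated_convergence` with the bound `lam * C'`: `∑ gk ≤ C (1 + log N)^(5/4)` (`sum_gk_le`, LibM3/N2),
`1 + log N ≤ 2 log T`, so `Ein_le`, `Tw_le` give `≤ C' (log T)^(9/4)`; pointwise limit `0` from `Ein_sub_le`: `yf T → 0`,
`(i+j+α) log p * (log T)^(5/4) = o((log T)^(9/4))`, and `edge (p^i)`, `edge (p^j)` composed with `Nf`. -/
theorem peel {p : ℕ} (hp : p.Prime) {q m n : ℕ} (hq : ¬ p ∣ q) (hm : ¬ p ∣ m) (hn : ¬ p ∣ n) (α : ℕ)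
    {Nf : ℝ → ℕ} {yf : ℝ → ℝ} (hN : Tendsto Nf atTop atTop) (hNT : ∀ᶠ T : ℝ in atTop, (Nf T : ℝ) ≤ T)
    (hy : Tendsto yf atTop (𝓝 0)) :
    Tendsto (fun T : ℝ => (Tw q (Nf T) T (p ^ α * m) n (yf T) - ((Lam (rp p) α : ℝ) : ℂ) * Tw (q * p) (Nf T) T m n (yf T)) /
      (((Real.log T) ^ (9/4 : ℝ) : ℝ) : ℂ)) atTop (𝓝 0) := by
  have hr := rp_mem hp
  have hs0 : Summable fun e : ℕ × ℕ => lam (rp p) α e.1 e.2 := lam_summable hr.1.le hr.2.1 α
  have hl0 : ∀ e : ℕ × ℕ, 0 ≤ lam (rp p) α e.1 e.2 := fun e => lam_nonneg hr.1.le α e.1 e.2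
  have hm1 : 1 ≤ m := Nat.one_le_iff_ne_zero.2 fun h => hm (h ▸ dvd_zero p)
  have hn1 : 1 ≤ n := Nat.one_le_iff_ne_zero.2 fun h => hn (h ▸ dvd_zero p)
  have hlp : 0 ≤ Real.log p := Real.log_nonneg (by exact_mod_cast hp.one_le)
  obtain ⟨C, hC, hS⟩ := sum_gk_le
  set κ : ℝ := (2 : ℝ) ^ (5/4 : ℝ) with hκ
  have hκ0 : 0 < κ := by positivity
  set s : ℝ := √((m:ℝ) * n) with hsdef
  have hs' : 0 ≤ s := Real.sqrt_nonneg _
  -- the basic facts for large `T`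
  have hbase : ∀ᶠ T : ℝ in atTop, 1 ≤ Real.log T ∧ 1 ≤ T ∧ 1 ≤ Nf T ∧
      (1 + Real.log (Nf T)) ^ (5/4 : ℝ) ≤ κ * (Real.log T) ^ (5/4 : ℝ) := by
    filter_upwards [hNT, hN.eventually_ge_atTop 1, eventually_ge_atTop (Real.exp 1)]
      with T h1 h2 h3
    have hT0 : 0 < T := (Real.exp_pos 1).trans_le h3
    have hx : 1 ≤ Real.log T := (Real.le_log_iff_exp_le hT0).2 h3
    have hT1 : 1 ≤ T := (Real.one_le_exp zero_le_one).trans h3
    have hNpos : (0:ℝ) < Nf T := by exact_mod_cast h2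
    have hlN : Real.log (Nf T) ≤ Real.log T := Real.log_le_log hNpos h1
    have hlN0 : 0 ≤ Real.log (Nf T) := Real.log_nonneg (by exact_mod_cast h2)
    refine ⟨hx, hT1, h2, ?_⟩
    rw [hκ, ← Real.mul_rpow (by norm_num) (by linarith)]
    exact Real.rpow_le_rpow (by linarith) (by linarith) (by norm_num)
  have hpow : ∀ x : ℝ, 1 ≤ x → x ^ (9/4 : ℝ) = x * x ^ (5/4 : ℝ) := by
    intro x hx
    have h9 : (9/4 : ℝ) = 1 + 5/4 := by norm_num
    rw [h9, Real.rpow_add (by linarith), Real.rpow_one]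
  have hfun : (fun T : ℝ => (Tw q (Nf T) T (p ^ α * m) n (yf T) -
        ((Lam (rp p) α : ℝ) : ℂ) * Tw (q * p) (Nf T) T m n (yf T)) /
      (((Real.log T) ^ (9/4 : ℝ) : ℝ) : ℂ)) =
      fun T : ℝ => ∑' e : ℕ × ℕ, ((lam (rp p) α e.1 e.2 : ℝ) : ℂ) *
        (Ein (q * p) (Nf T) T m n (yf T) p α e.1 e.2 - Tw (q * p) (Nf T) T m n (yf T)) /
      (((Real.log T) ^ (9/4 : ℝ) : ℝ) : ℂ) := by
    funext T
    rw [a8_num hp hq hm hn, tsum_div_const]
  rw [hfun]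
  have hnorm : ∀ (T : ℝ) (e : ℕ × ℕ), 1 ≤ Real.log T → ‖((lam (rp p) α e.1 e.2 : ℝ) : ℂ) *
        (Ein (q * p) (Nf T) T m n (yf T) p α e.1 e.2 - Tw (q * p) (Nf T) T m n (yf T)) /
      (((Real.log T) ^ (9/4 : ℝ) : ℝ) : ℂ)‖ = lam (rp p) α e.1 e.2 *
        (‖Ein (q * p) (Nf T) T m n (yf T) p α e.1 e.2 - Tw (q * p) (Nf T) T m n (yf T)‖ /
          (Real.log T) ^ (9/4 : ℝ)) := by
    intro T e hT
    have h9 : 0 ≤ (Real.log T) ^ (9/4 : ℝ) := Real.rpow_nonneg (by linarith) _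
    rw [norm_div, norm_mul, Complex.norm_real, Complex.norm_real, Real.norm_of_nonneg (hl0 e),
      Real.norm_of_nonneg h9, mul_div_assoc]
  have key : Tendsto (fun T : ℝ => ∑' e : ℕ × ℕ, ((lam (rp p) α e.1 e.2 : ℝ) : ℂ) *
        (Ein (q * p) (Nf T) T m n (yf T) p α e.1 e.2 - Tw (q * p) (Nf T) T m n (yf T)) /
      (((Real.log T) ^ (9/4 : ℝ) : ℝ) : ℂ)) atTop (𝓝 (∑' _ : ℕ × ℕ, (0 : ℂ))) := by
    refine tendsto_tsum_of_dominated_convergence
      (bound := fun e : ℕ × ℕ => lam (rp p) α e.1 e.2 * (2 * s * C * κ))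
      (hs0.mul_right _) ?_ ?_
    · rintro ⟨i, j⟩
      -- the pointwise limit
      have hE : ∀ i : ℕ, Tendsto (fun T : ℝ => (∑ h ∈ Finset.Icc 1 (Nf T),
          ∑ k ∈ Finset.Icc (Nf T / p ^ i + 1) (Nf T), gk h k) /
            (1 + Real.log (Nf T)) ^ (5/4 : ℝ)) atTop (𝓝 0) := fun i =>
        (edge (p ^ i) (Nat.one_le_pow _ _ hp.pos)).comp hN
      have hxinv : Tendsto (fun T : ℝ => (Real.log T)⁻¹) atTop (𝓝 0) :=
        tendsto_inv_atTop_zero.comp Real.tendsto_log_atTop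
      have hyabs : Tendsto (fun T : ℝ => |yf T|) atTop (𝓝 0) := by
        have := hy.abs
        rwa [abs_zero] at this
      have hlim : Tendsto (fun T : ℝ => lam (rp p) α i j * (s * (|yf T| * (((i:ℝ) + j) * Real.log p) * (C * κ) +
          ((i:ℝ) + j + α) * Real.log p * (C * κ) * (Real.log T)⁻¹ +
          κ * ((∑ h ∈ Finset.Icc 1 (Nf T), ∑ k ∈ Finset.Icc (Nf T / p ^ i + 1) (Nf T), gk h k) /
              (1 + Real.log (Nf T)) ^ (5/4 : ℝ) +
            (∑ h ∈ Finset.Icc 1 (Nf T), ∑ k ∈ Finset.Icc (Nf T / p ^ j + 1) (Nf T), gk h k) /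
              (1 + Real.log (Nf T)) ^ (5/4 : ℝ))))) atTop
          (𝓝 (lam (rp p) α i j * (s * (0 * (((i:ℝ) + j) * Real.log p) * (C * κ) +
            ((i:ℝ) + j + α) * Real.log p * (C * κ) * 0 + κ * (0 + 0))))) := by
        refine Tendsto.const_mul _ (Tendsto.const_mul _ (Tendsto.add (Tendsto.add ?_ ?_) ?_))
        · exact (hyabs.mul_const _).mul_const _
        · exact hxinv.const_mul _
        · exact ((hE i).add (hE j)).const_mul _
      have hz : lam (rp p) α i j * (s * (0 * (((i:ℝ) + j) * Real.log p) * (C * κ) +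
            ((i:ℝ) + j + α) * Real.log p * (C * κ) * 0 + κ * (0 + 0))) = 0 := by ring
      rw [hz] at hlim
      refine squeeze_zero_norm' ?_ hlim
      filter_upwards [hbase] with T hT
      obtain ⟨hx, hT1, hN1, hD⟩ := hT
      rw [hnorm T (i, j) hx]
      refine mul_le_mul_of_nonneg_left ?_ (hl0 (i, j))
      have h9 := hpow _ hx
      have hx0 : 0 < Real.log T := by linarith
      set x := Real.log T with hxdef
      set u : ℝ := x ^ (5/4 : ℝ) with hu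
      have hu0 : 0 < u := Real.rpow_pos_of_pos hx0 _
      rw [h9, div_le_iff₀ (mul_pos hx0 hu0)]
      have hSN := hS (Nf T) hN1
      set S : ℝ := ∑ h ∈ Finset.Icc 1 (Nf T), ∑ k ∈ Finset.Icc 1 (Nf T), gk h k with hSdef
      set D : ℝ := (1 + Real.log (Nf T)) ^ (5/4 : ℝ) with hDdef
      have hD0 : 0 < D := Real.rpow_pos_of_pos (by
        have : 0 ≤ Real.log (Nf T) := Real.log_nonneg (by exact_mod_cast hN1)
        linarith) _
      have hSu : S ≤ C * κ * u := by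
        calc S ≤ C * D := hSN
          _ ≤ C * (κ * u) := mul_le_mul_of_nonneg_left hD hC.le
          _ = _ := by ring
      have hgk0 : ∀ a b : ℕ, 0 ≤ gk a b := l4_gk_nonneg
      have hEi : ∀ i : ℕ, (∑ h ∈ Finset.Icc 1 (Nf T), ∑ k ∈ Finset.Icc (Nf T / p ^ i + 1) (Nf T), gk h k) ≤
          (∑ h ∈ Finset.Icc 1 (Nf T), ∑ k ∈ Finset.Icc (Nf T / p ^ i + 1) (Nf T), gk h k) / D * (κ * u) := by
        intro i
        set Ei := ∑ h ∈ Finset.Icc 1 (Nf T), ∑ k ∈ Finset.Icc (Nf T / p ^ i + 1) (Nf T), gk h k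
        have hE0 : 0 ≤ Ei := Finset.sum_nonneg fun a _ => Finset.sum_nonneg fun b _ => hgk0 a b
        rw [div_mul_eq_mul_div, le_div_iff₀ hD0]
        exact mul_le_mul_of_nonneg_left hD hE0
      have hmain := Ein_sub_le hp hm1 hn1 (q * p) α i j (Nf T) hT1 (yf T)
      rw [← hsdef, ← hxdef, ← hSdef] at hmain
      have hc1 : 0 ≤ |yf T| * (((i:ℝ) + j) * Real.log p) * x + ((i:ℝ) + j + α) * Real.log p := by
        positivity
      have h1 := mul_le_mul_of_nonneg_left hSu hc1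
      have h2 := mul_le_mul_of_nonneg_left (add_le_add (hEi i) (hEi j)) hx0.le
      refine hmain.trans ?_
      have h3 : (|yf T| * (((i:ℝ) + j) * Real.log p) * x + ((i:ℝ) + j + α) * Real.log p) * (C * κ * u) +
          x * ((∑ h ∈ Finset.Icc 1 (Nf T), ∑ k ∈ Finset.Icc (Nf T / p ^ i + 1) (Nf T), gk h k) / D * (κ * u) +
            (∑ h ∈ Finset.Icc 1 (Nf T), ∑ k ∈ Finset.Icc (Nf T / p ^ j + 1) (Nf T), gk h k) / D * (κ * u)) =
          (|yf T| * (((i:ℝ) + j) * Real.log p) * (C * κ) +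
            ((i:ℝ) + j + α) * Real.log p * (C * κ) * x⁻¹ +
            κ * ((∑ h ∈ Finset.Icc 1 (Nf T), ∑ k ∈ Finset.Icc (Nf T / p ^ i + 1) (Nf T), gk h k) / D +
            (∑ h ∈ Finset.Icc 1 (Nf T), ∑ k ∈ Finset.Icc (Nf T / p ^ j + 1) (Nf T), gk h k) / D)) * (x * u) := by
        field_simp
      have h4 := mul_le_mul_of_nonneg_left ((add_le_add h1 h2).trans_eq h3) hs'
      calc _ ≤ _ := h4
        _ = _ := by ring
    · filter_upwards [hbase] with T hT e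
      obtain ⟨hx, hT1, hN1, hD⟩ := hT
      rw [hnorm T e hx]
      refine mul_le_mul_of_nonneg_left ?_ (hl0 e)
      have h9 := hpow _ hx
      have hx0 : 0 < Real.log T := by linarith
      have hu0 : 0 < (Real.log T) ^ (5/4 : ℝ) := Real.rpow_pos_of_pos hx0 _
      rw [h9, div_le_iff₀ (mul_pos hx0 hu0)]
      have hSN := hS (Nf T) hN1
      have e1 := Ein_le hp hm1 hn1 (q * p) α e.1 e.2 (Nf T) hT1 (yf T)
      have e2 := Tw_le hm1 hn1 (q * p) (Nf T) hT1 (yf T)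
      rw [← hsdef] at e1 e2
      have h3 : (∑ h ∈ Finset.Icc 1 (Nf T), ∑ k ∈ Finset.Icc 1 (Nf T), gk h k) ≤
          C * (κ * (Real.log T) ^ (5/4 : ℝ)) := hSN.trans (mul_le_mul_of_nonneg_left hD hC.le)
      have h4 := mul_le_mul_of_nonneg_left (mul_le_mul_of_nonneg_left h3 hx0.le) hs'
      calc ‖Ein (q * p) (Nf T) T m n (yf T) p α e.1 e.2 - Tw (q * p) (Nf T) T m n (yf T)‖
          ≤ ‖Ein (q * p) (Nf T) T m n (yf T) p α e.1 e.2‖ + ‖Tw (q * p) (Nf T) T m n (yf T)‖ :=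
            norm_sub_le _ _
        _ ≤ s * (Real.log T * (C * (κ * (Real.log T) ^ (5/4 : ℝ)))) +
            s * (Real.log T * (C * (κ * (Real.log T) ^ (5/4 : ℝ)))) :=
            add_le_add (e1.trans h4) (e2.trans h4)
        _ = 2 * s * C * κ * (Real.log T * (Real.log T) ^ (5/4 : ℝ)) := by ring
  rw [tsum_zero] at key
  exact key

end Pool.Agent.LibLaw15
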