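import Pool.Agent.LibM3.Defs
import Mathlib.Analysis.Fourier.AddCircleMulti

/-! Law of the prime phases under the third moment of zeta: definitions. -/

set_option autoImplicit false

namespace Pool.Agent.LibLaw15

open MeasureTheory Set Filter Topology Complex ProbabilityTheory
open scoped NNReal ComplexConjugate
open Pool.Agent.LibZM Pool.Agent.LibM3

/-! ### Arithmetic side -/

/-- Positive integers up to `N` coprime to `q`. -/
def cs (q N : ℕ) : Finset ℕ := (Finset.Icc 1 N).filter fun h => Nat.Coprime h q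

/-- The truncation of `τ_{1/2}` to `n ≤ N` coprime to `q`. -/
noncomputable def cT (q N : ℕ) : ArithmeticFunction ℝ :=
  ⟨fun n => if n ≤ N ∧ Nat.Coprime n q then tau (1/2) n else 0, by simp⟩

/-- The Dirichlet polynomial of `τ_{1/2}` over the integers up to `N` coprime to `q`. -/
noncomputable def PQ (q N : ℕ) (s : ℂ) : ℂ := dp (cT q N) N s

/-- The character `(m/n)^{it}`. -/
noncomputable def chr (m n : ℕ) (t : ℝ) : ℂ := cexp (((t * (Real.log m - Real.log n) : ℝ) : ℂ) * I)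

/-- Twisted arithmetic weight. -/
noncomputable def gmn (m n h k : ℕ) : ℝ :=
  √((m:ℝ) * n) * (tau (1/2) h * tau (1/2) k * (Nat.gcd (n * h) (m * k) : ℝ) / (((n:ℝ) * h) * ((m:ℝ) * k)))

/-- Diagonal term of the twisted second moment. -/
noncomputable def Tw (q N : ℕ) (T : ℝ) (m n : ℕ) (y : ℝ) : ℂ :=
  ∑ h ∈ cs q N, ∑ k ∈ cs q N, cexp (((y * (Real.log h - Real.log k) : ℝ) : ℂ) * I) *
    ((gmn m n h k * ell T (n * h) (m * k) : ℝ) : ℂ)

/-- Local weight at a prime; `r = p^{-1/2}`. -/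
noncomputable def lam (r : ℝ) (α i j : ℕ) : ℝ :=
  dcoef (1/2) i * dcoef (1/2) j * r ^ (2 * max i (α + j) - α)

/-- Local factor at a prime. -/
noncomputable def Lam (r : ℝ) (α : ℕ) : ℝ := ∑' e : ℕ × ℕ, lam r α e.1 e.2

/-- `p^{-1/2}`. -/
noncomputable def rp (p : ℕ) : ℝ := (√(p:ℝ))⁻¹

/-- Numerator of the character with exponents `a`. -/
def mP {r : ℕ} (p : Fin r → ℕ) (a : Fin r → ℤ) : ℕ := ∏ i, p i ^ (a i).toNat

/-- Denominator of the character with exponents `a`. -/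
def nP {r : ℕ} (p : Fin r → ℕ) (a : Fin r → ℤ) : ℕ := ∏ i, p i ^ (-(a i)).toNat

/-- Product of the primes. -/
def qP {r : ℕ} (p : Fin r → ℕ) : ℕ := ∏ i, p i

/-! ### Torus side -/

/-- The torus. -/
abbrev Tor (r : ℕ) : Type := UnitAddTorus (Fin r)

/-- The Haar probability measure of the torus. -/
noncomputable def muT (r : ℕ) : Measure (Tor r) := Measure.pi fun _ => (AddCircle.haarAddCircle : Measure UnitAddCircle)

/-- `|1 - r e(x)|⁻¹`. -/
noncomputable def ab (r : ℝ) (x : UnitAddCircle) : ℝ := ‖1 - (r:ℂ) * fourier 1 x‖⁻¹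

/-- The modulus of the Euler product over the primes `p i`. -/
noncomputable def ET {r : ℕ} (p : Fin r → ℕ) (x : Tor r) : ℝ := ∏ i, ab (rp (p i)) (x i)

/-- `∏ (1 - 1/p)`. -/
noncomputable def cS {r : ℕ} (p : Fin r → ℕ) : ℝ := ∏ i, (1 - rp (p i) ^ 2)

/-- The tilted integral. -/
noncomputable def MT {r : ℕ} (p : Fin r → ℕ) (w : Tor r → ℝ) : ℝ := ∫ x, w x * ET p x ^ 3 ∂(muT r)

/-- The tilted mean. -/
noncomputable def TM {r : ℕ} (p : Fin r → ℕ) (w : Tor r → ℝ) : ℝ := MT p w / MT p 1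

/-- The phases `p^{it}`. -/
noncomputable def xt {r : ℕ} (p : Fin r → ℕ) (t : ℝ) : Tor r :=
  fun i => ((t * Real.log (p i) / (2 * Real.pi) : ℝ) : UnitAddCircle)

end Pool.Agent.LibLaw15
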