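import Pool.Agent.LibLaw15.Defs

/-! Law of the prime phases, row E1. -/


set_option autoImplicit false

namespace Pool.Agent.LibLaw15

open MeasureTheory Set Filter Topology Complex ProbabilityTheory
open scoped NNReal ComplexConjugate
open Pool.Agent.LibZM Pool.Agent.LibM3

/-- ROW E1. Bounded linear functionals tending to zero on characters tend to zero.
Proof. `w` is a limit of finite combinations `v` of characters (`UnitAddTorus.span_mFourier_closure_eq_top`); for `v` in the span the claim follows by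
`Submodule.span_induction` (linearity); for general `w` and `ε > 0` choose `v` with `(|B| + 1) ‖w - v‖ < ε/2` and write `Λ w = Λ v + Λ (w - v)`. -/
theorem equi {r : ℕ} {α : Type*} {l : Filter α} (Λ : α → (C(Tor r, ℂ) →ₗ[ℂ] ℂ)) (B : ℝ)
    (hB : ∀ᶠ i in l, ∀ w : C(Tor r, ℂ), ‖Λ i w‖ ≤ B * ‖w‖)
    (h : ∀ a : Fin r → ℤ, Tendsto (fun i => Λ i (UnitAddTorus.mFourier a)) l (𝓝 0)) (w : C(Tor r, ℂ)) :
    Tendsto (fun i => Λ i w) l (𝓝 0) := by
  have hspan : ∀ v ∈ Submodule.span ℂ (Set.range (UnitAddTorus.mFourier (d := Fin r))),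
      Tendsto (fun i => Λ i v) l (𝓝 0) := by
    intro v hv
    induction hv using Submodule.span_induction with
    | mem x hx =>
      obtain ⟨a, rfl⟩ := hx
      exact h a
    | zero =>
      simp only [map_zero]
      exact tendsto_const_nhds
    | add x y _ _ hx hy => simpa using hx.add hy
    | smul c x _ hx => simpa using hx.const_mul c
  have hw : w ∈ closure (Submodule.span ℂ (Set.range (UnitAddTorus.mFourier (d := Fin r))) :
      Set C(Tor r, ℂ)) := by
    rw [← Submodule.topologicalClosure_coe, UnitAddTorus.span_mFourier_closure_eq_top]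
    trivial
  rw [Metric.tendsto_nhds]
  intro ε hε
  have hB0 : 0 < |B| + 1 := by positivity
  obtain ⟨v, hv, hwv⟩ := Metric.mem_closure_iff.1 hw (ε / 2 / (|B| + 1)) (by positivity)
  rw [dist_eq_norm, lt_div_iff₀ hB0] at hwv
  have h1 := (Metric.tendsto_nhds.1 (hspan v hv)) (ε / 2) (by positivity)
  filter_upwards [h1, hB] with i h2 h3
  rw [dist_zero_right] at h2 ⊢
  have h4 : Λ i w = Λ i v + Λ i (w - v) := by rw [map_sub]; ring
  have h5 : ‖Λ i (w - v)‖ ≤ ‖w - v‖ * (|B| + 1) := by
    refine (h3 _).trans ?_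
    rw [mul_comm]
    apply mul_le_mul_of_nonneg_left _ (norm_nonneg _)
    linarith [le_abs_self B]
  calc ‖Λ i w‖ = ‖Λ i v + Λ i (w - v)‖ := by rw [h4]
    _ ≤ ‖Λ i v‖ + ‖Λ i (w - v)‖ := norm_add_le _ _
    _ < ε := by linarith

end Pool.Agent.LibLaw15
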