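import Pool.Agent.LibLaw15.T2

/-! Law of the prime phases, row T4. -/


set_option autoImplicit false

namespace Pool.Agent.LibLaw15

open MeasureTheory Set Filter Topology Complex ProbabilityTheory
open scoped NNReal ComplexConjugate
open Pool.Agent.LibZM Pool.Agent.LibM3

theorem T4_sum_pos (f : ℕ × ℕ → ℝ) (n : ℕ) :
    (∑' e : ℕ × ℕ, if (e.1:ℤ) + (n : ℤ) = (e.2:ℤ) then f e else 0) = ∑' i : ℕ, f (i, i + n) := by
  have hg : Function.Injective fun i : ℕ => (i, i + n) := fun i j h => (Prod.ext_iff.1 h).1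
  rw [← hg.tsum_eq (f := fun e : ℕ × ℕ => if (e.1:ℤ) + (n : ℤ) = (e.2:ℤ) then f e else 0)]
  · refine tsum_congr fun i => ?_
    simp
  · intro e he
    rw [Function.mem_support] at he
    have h1 : (e.1:ℤ) + (n : ℤ) = (e.2:ℤ) := by
      by_contra hne
      exact he (if_neg hne)
    exact ⟨e.1, Prod.ext rfl (by show e.1 + n = e.2; omega)⟩

theorem T4_sum_neg (f : ℕ × ℕ → ℝ) (n : ℕ) :
    (∑' e : ℕ × ℕ, if (e.1:ℤ) + -(n : ℤ) = (e.2:ℤ) then f e else 0) = ∑' i : ℕ, f (i + n, i) := by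
  have hg : Function.Injective fun i : ℕ => (i + n, i) := fun i j h => (Prod.ext_iff.1 h).2
  rw [← hg.tsum_eq (f := fun e : ℕ × ℕ => if (e.1:ℤ) + -(n : ℤ) = (e.2:ℤ) then f e else 0)]
  · refine tsum_congr fun i => ?_
    simp
  · intro e he
    rw [Function.mem_support] at he
    have h1 : (e.1:ℤ) + -(n : ℤ) = (e.2:ℤ) := by
      by_contra hne
      exact he (if_neg hne)
    exact ⟨e.2, Prod.ext (by show e.2 + n = e.1; omega) rfl⟩

theorem T4_summable {α r : ℝ} (hα : 0 ≤ α) (hr : 0 ≤ r) (hr1 : r < 1) :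
    Summable fun i : ℕ => |dcoef α i * r ^ i| := by
  have h : ∀ i : ℕ, 0 ≤ dcoef α i * r ^ i := fun i => mul_nonneg (dcoef_nonneg hα i) (pow_nonneg hr i)
  simp only [abs_of_nonneg (h _)]
  exact summable_of_sum_range_le h (fun N => partial_binomial_le' hα N hr hr1)

theorem T4_geo {r : ℝ} (hr : 0 ≤ r) (hr1 : r < 1) : Summable fun i : ℕ => |r ^ i| := by
  simp only [abs_of_nonneg (pow_nonneg hr _)]
  exact summable_geometric_of_lt_one hr hr1

theorem T4_sq {z : ℂ} {y : ℝ} (h : ‖z‖ ^ 2 = y) : z * conj z = ((y : ℝ) : ℂ) := by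
  rw [Complex.mul_conj', ← h]
  push_cast
  rfl

/-- ROW T4. The Poisson kernel. Proof: `geo_series` (`ab^2 = F * conj F`) and `circ_series` with `c = d = r^i`:
`∑_{(i,j) : i + a = j} r^(i+j) = r^|a| ∑_i r^(2i) = r^|a| / (1 - r^2)`. -/
theorem poisson {r : ℝ} (hr : 0 ≤ r) (hr1 : r < 1) (a : ℤ) :
    ∫ x : UnitAddCircle, fourier a x * ((ab r x ^ 2 : ℝ) : ℂ) ∂(AddCircle.haarAddCircle) = ((r ^ a.natAbs / (1 - r ^ 2) : ℝ) : ℂ) := by
  have h := circ_series (T4_geo hr hr1) (T4_geo hr hr1) a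
  have h1 : ∀ x : UnitAddCircle, (∑' i : ℕ, ((r ^ i : ℝ) : ℂ) * fourier (i:ℤ) x) *
      conj (∑' j : ℕ, ((r ^ j : ℝ) : ℂ) * fourier (j:ℤ) x) * fourier a x =
      fourier a x * ((ab r x ^ 2 : ℝ) : ℂ) := by
    intro x
    rw [T4_sq (y := ab r x ^ 2) (by rw [geo_series hr hr1]), mul_comm]
  rw [integral_congr_ae (Eventually.of_forall h1)] at h
  rw [h]
  congr 1
  have h2 : ∀ n : ℕ, ∑' i : ℕ, r ^ i * r ^ (i + n) = r ^ n / (1 - r ^ 2) := by
    intro n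
    have h3 : ∀ i : ℕ, r ^ i * r ^ (i + n) = r ^ n * (r ^ 2) ^ i := fun i => by ring
    simp only [h3]
    rw [tsum_mul_left, tsum_geometric_of_lt_one (by positivity) (by nlinarith), div_eq_mul_inv]
  rcases Int.natAbs_eq a with ha | ha
  · rw [ha, Int.natAbs_natCast]
    exact (T4_sum_pos (fun e => r ^ e.1 * r ^ e.2) _).trans (h2 _)
  · rw [ha, Int.natAbs_neg, Int.natAbs_natCast]
    refine (T4_sum_neg (fun e => r ^ e.1 * r ^ e.2) _).trans ?_
    rw [← h2]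
    exact tsum_congr fun i => mul_comm _ _

/-- ROW T5. The local factor is a Fourier coefficient of `|1 - r e(x)|^(-3)`.
Proof. `ab^3 = ab^2 * ‖F‖^2`, `F = ∑ dcoef (1/2) i r^i e_i` (`half_series`), `‖F‖^2 = F * conj F = ∑_{(i,j)} dc_i dc_j r^(i+j) e_{j-i}` (absolutely convergent,
bounded), so by `poisson` `(1-r^2) ∫ ab^3 e_a = ∑_{(i,j)} dc_i dc_j r^(i+j) r^|a + j - i|`; and `i + j + |a + j - i| = 2 max(i, a+j) - a` for `a ≥ 0`;
for `a < 0` exchange `i` and `j` (`Equiv.prodComm`). -/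
theorem lam_circle {r : ℝ} (hr : 0 ≤ r) (hr1 : r < 1) (a : ℤ) :
    ((Lam r a.natAbs : ℝ) : ℂ) = ((1 - r ^ 2 : ℝ) : ℂ) *
      ∫ x : UnitAddCircle, fourier a x * ((ab r x ^ 3 : ℝ) : ℂ) ∂(AddCircle.haarAddCircle) := by
  have hs := T4_summable (α := 1/2) (by norm_num) hr hr1
  have hw : Continuous fun x : UnitAddCircle => ((ab r x ^ 2 : ℝ) : ℂ) :=
    Complex.continuous_ofReal.comp ((ab_props hr hr1).1.pow 2)
  have h := (T1_gen hs hs a hw).tsum_eq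
  have h1 : ∀ x : UnitAddCircle, (∑' i : ℕ, ((dcoef (1/2) i * r ^ i : ℝ) : ℂ) * fourier (i:ℤ) x) *
      conj (∑' j : ℕ, ((dcoef (1/2) j * r ^ j : ℝ) : ℂ) * fourier (j:ℤ) x) * fourier a x *
        ((ab r x ^ 2 : ℝ) : ℂ) = fourier a x * ((ab r x ^ 3 : ℝ) : ℂ) := by
    intro x
    rw [T4_sq (half_series hr hr1 x)]
    push_cast
    ring
  rw [integral_congr_ae (Eventually.of_forall h1)] at h
  rw [← h]
  have hr2 : (1 - r ^ 2 : ℝ) ≠ 0 := by nlinarith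
  have h2 : ∀ e : ℕ × ℕ, ((dcoef (1/2) e.1 * r ^ e.1 * (dcoef (1/2) e.2 * r ^ e.2) : ℝ) : ℂ) *
      ∫ x : UnitAddCircle, fourier ((e.1 : ℤ) - e.2 + a) x * ((ab r x ^ 2 : ℝ) : ℂ) ∂(AddCircle.haarAddCircle) =
      ((dcoef (1/2) e.1 * dcoef (1/2) e.2 * r ^ (e.1 + e.2 + ((e.1 : ℤ) - e.2 + a).natAbs) / (1 - r ^ 2) : ℝ) : ℂ) := by
    intro e
    rw [poisson hr hr1, ← Complex.ofReal_mul]
    congr 1
    rw [pow_add, pow_add]
    ring
  simp only [h2]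
  rw [← Complex.ofReal_tsum, ← Complex.ofReal_mul]
  congr 1
  rw [← tsum_mul_left]
  have h3 : ∀ e : ℕ × ℕ, (1 - r ^ 2) * (dcoef (1/2) e.1 * dcoef (1/2) e.2 *
      r ^ (e.1 + e.2 + ((e.1 : ℤ) - e.2 + a).natAbs) / (1 - r ^ 2)) =
      dcoef (1/2) e.1 * dcoef (1/2) e.2 * r ^ (e.1 + e.2 + ((e.1 : ℤ) - e.2 + a).natAbs) := by
    intro e
    field_simp
  simp only [h3]
  unfold Lam lam
  rcases Int.natAbs_eq a with ha | ha
  · rw [← (Equiv.prodComm ℕ ℕ).tsum_eq]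
    refine tsum_congr fun e => ?_
    simp only [Equiv.prodComm_apply, Prod.fst_swap, Prod.snd_swap]
    rw [mul_comm (dcoef (1/2) e.2)]
    congr 2
    omega
  · refine tsum_congr fun e => ?_
    congr 2
    omega

/-- ROW T6. Parseval. Proof: `threehalf_series` and `circ_series` with `a = 0`, `c = d = dcoef (3/2) i r^i`; the diagonal sum is `∑ dcoef (3/2) i ^ 2 (r^2)^i`. -/
theorem gsum_circle {r : ℝ} (hr : 0 ≤ r) (hr1 : r < 1) :
    Gsum (3/2) (r ^ 2) = ∫ x : UnitAddCircle, ab r x ^ 3 ∂(AddCircle.haarAddCircle) := by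
  have hs := T4_summable (α := 3/2) (by norm_num) hr hr1
  have h := circ_series hs hs 0
  have h1 : ∀ x : UnitAddCircle, (∑' i : ℕ, ((dcoef (3/2) i * r ^ i : ℝ) : ℂ) * fourier (i:ℤ) x) *
      conj (∑' j : ℕ, ((dcoef (3/2) j * r ^ j : ℝ) : ℂ) * fourier (j:ℤ) x) * fourier 0 x =
      ((ab r x ^ 3 : ℝ) : ℂ) := by
    intro x
    rw [T4_sq (threehalf_series hr hr1 x), fourier_zero, mul_one]
  rw [integral_congr_ae (Eventually.of_forall h1), integral_complex_ofReal] at h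
  have h2 := Complex.ofReal_injective h
  rw [h2]
  have h3 := T4_sum_pos (fun e => dcoef (3/2) e.1 * r ^ e.1 * (dcoef (3/2) e.2 * r ^ e.2)) 0
  simp only [Nat.cast_zero, add_zero] at h3 ⊢
  rw [h3]
  unfold Gsum
  refine tsum_congr fun i => ?_
  ring

end Pool.Agent.LibLaw15
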