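import Pool.Agent.LibLaw15.T2
import Pool.Agent.LibLaw15.T4
import Pool.Agent.LibLaw15.A6

/-! Law of the prime phases, row T7. -/


set_option autoImplicit false

namespace Pool.Agent.LibLaw15

open MeasureTheory Set Filter Topology Complex ProbabilityTheory
open scoped NNReal ComplexConjugate
open Pool.Agent.LibZM Pool.Agent.LibM3

/-- ROW T7a. Proof: `UnitAddTorus.mFourier`, `ET` are products over `i`; `MeasureTheory.integral_fintype_prod_eq_prod` (for `Measure.pi`). -/
theorem torus_prod {r : ℕ} (p : Fin r → ℕ) (a : Fin r → ℤ) (k : ℕ) :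
    ∫ x, UnitAddTorus.mFourier a x * ((ET p x ^ k : ℝ) : ℂ) ∂(muT r) =
      ∏ i, ∫ x : UnitAddCircle, fourier (a i) x * ((ab (rp (p i)) x ^ k : ℝ) : ℂ) ∂(AddCircle.haarAddCircle) := by
  have h1 : ∀ x : Tor r, UnitAddTorus.mFourier a x * ((ET p x ^ k : ℝ) : ℂ) =
      ∏ i, (fourier (a i) (x i) * ((ab (rp (p i)) (x i) ^ k : ℝ) : ℂ)) := by
    intro x
    rw [Finset.prod_mul_distrib]
    unfold ET
    rw [← Finset.prod_pow]
    push_cast
    rfl
  simp_rw [h1]
  unfold muT
  exact MeasureTheory.integral_fintype_prod_eq_prod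
    (fun (i : Fin r) (x : UnitAddCircle) => fourier (a i) x * ((ab (rp (p i)) x ^ k : ℝ) : ℂ))

/-- ROW T7b. -/
theorem ET_props {r : ℕ} {p : Fin r → ℕ} (hp : ∀ i, (p i).Prime) : Continuous (ET p) ∧ ∀ x, 0 < ET p x := by
  have h := fun i => rp_mem (hp i)
  have h2 := fun i => ab_props (h i).1.le (h i).2.1
  refine ⟨?_, fun x => ?_⟩
  · unfold ET
    exact continuous_finsetProd _ fun i _ => (h2 i).1.comp (continuous_apply i)
  · unfold ET
    exact Finset.prod_pos fun i _ => (h2 i).2.1 _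

/-- ROW T7c. -/
instance muT_prob (r : ℕ) : IsProbabilityMeasure (muT r) := by
  unfold muT; infer_instance

/-- ROW T7d. `MT p 1 = ∏ ∫ ab^3`, and `cS p * MT p 1 = ∏ Lam (rp (p i)) 0` is in row T8. Positivity of `MT p 1`:
the integral of a continuous positive function against a probability measure (`integral_pos_iff_support_of_nonneg`), compactness gives integrability. -/
theorem MT_one_pos {r : ℕ} {p : Fin r → ℕ} (hp : ∀ i, (p i).Prime) : 0 < MT p 1 ∧ MT p 1 = ∏ i, Gsum (3/2) (rp (p i) ^ 2) := by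
  have h := fun i => rp_mem (hp i)
  have h1 : MT p 1 = ∏ i, Gsum (3/2) (rp (p i) ^ 2) := by
    unfold MT muT ET
    have e1 : ∀ x : Tor r, (1 : Tor r → ℝ) x * (∏ i, ab (rp (p i)) (x i)) ^ 3 = ∏ i, ab (rp (p i)) (x i) ^ 3 := by
      intro x
      rw [Pi.one_apply, one_mul, Finset.prod_pow]
    simp_rw [e1]
    rw [MeasureTheory.integral_fintype_prod_eq_prod
      (fun (i : Fin r) (x : UnitAddCircle) => ab (rp (p i)) x ^ 3)]
    apply Finset.prod_congr rfl
    intro i _
    exact (gsum_circle (h i).1.le (h i).2.1).symm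
  refine ⟨?_, h1⟩
  rw [h1]
  apply Finset.prod_pos
  intro i _
  have h3 : rp (p i) ^ 2 < 1 := by
    have := (h i).1
    have := (h i).2.1
    nlinarith
  have h4 := Gsum_ge (κ := 3/2) (by norm_num) (sq_nonneg (rp (p i))) h3
  have := sq_nonneg (rp (p i))
  nlinarith

end Pool.Agent.LibLaw15
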