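import Pool.Agent.LibLaw15.E1
import Pool.Agent.LibLaw15.T7

/-! Law of the prime phases, row E1b. -/


set_option autoImplicit false

namespace Pool.Agent.LibLaw15

open MeasureTheory Set Filter Topology Complex ProbabilityTheory
open scoped NNReal ComplexConjugate
open Pool.Agent.LibZM Pool.Agent.LibM3

/-- the weighted mean is integrable -/
theorem e1b_int_g {r : ℕ} {ξ : ℝ → Tor r} (hξ : Continuous ξ) {μ : Measure ℝ} {g : ℝ → ℝ}
    (hg : Integrable g μ) (w : C(Tor r, ℂ)) : Integrable (fun t => ((g t : ℝ) : ℂ) * w (ξ t)) μ :=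
  (hg.ofReal (𝕜 := ℂ)).mul_bdd (c := ‖w‖)
    ((w.continuous.comp hξ).aestronglyMeasurable)
    (Filter.Eventually.of_forall fun _ => w.norm_coe_le_norm _)

/-- continuous functions on the torus are integrable -/
theorem e1b_int_V {r : ℕ} {V : Tor r → ℝ} (hV : Continuous V) (w : C(Tor r, ℂ)) :
    Integrable (fun x => w x * ((V x : ℝ) : ℂ)) (muT r) :=
  (w.continuous.mul (Complex.continuous_ofReal.comp hV)).integrable_of_hasCompactSupport
    (HasCompactSupport.of_compactSpace _)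

open Classical in
/-- the linear functional -/
noncomputable def e1bL {r : ℕ} {ξ : ℝ → Tor r} (hξ : Continuous ξ) (μ : Measure ℝ) (g : ℝ → ℝ)
    {V : Tor r → ℝ} (hV : Continuous V) (κ : ℂ) (Nm : ℝ) : C(Tor r, ℂ) →ₗ[ℂ] ℂ :=
  if hgi : Integrable g μ then
    { toFun := fun w => ((∫ t, ((g t : ℝ) : ℂ) * w (ξ t) ∂μ) -
        κ * ∫ x, w x * ((V x : ℝ) : ℂ) ∂(muT r)) / ((Nm : ℝ) : ℂ)
      map_add' := by
        intro w1 w2
        have h1 : (∫ t, ((g t : ℝ) : ℂ) * (w1 + w2) (ξ t) ∂μ) =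
            (∫ t, ((g t : ℝ) : ℂ) * w1 (ξ t) ∂μ) + ∫ t, ((g t : ℝ) : ℂ) * w2 (ξ t) ∂μ := by
          rw [← integral_add (e1b_int_g hξ hgi w1) (e1b_int_g hξ hgi w2)]
          congr 1
          funext t
          simp only [ContinuousMap.add_apply]
          ring
        have h2 : (∫ x, (w1 + w2) x * ((V x : ℝ) : ℂ) ∂(muT r)) =
            (∫ x, w1 x * ((V x : ℝ) : ℂ) ∂(muT r)) + ∫ x, w2 x * ((V x : ℝ) : ℂ) ∂(muT r) := by
          rw [← integral_add (e1b_int_V hV w1) (e1b_int_V hV w2)]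
          congr 1
          funext t
          simp only [ContinuousMap.add_apply]
          ring
        rw [h1, h2]
        ring
      map_smul' := by
        intro c w
        have h1 : (∫ t, ((g t : ℝ) : ℂ) * (c • w) (ξ t) ∂μ) =
            c * ∫ t, ((g t : ℝ) : ℂ) * w (ξ t) ∂μ := by
          rw [← integral_const_mul]
          congr 1
          funext t
          simp only [ContinuousMap.smul_apply, smul_eq_mul]
          ring
        have h2 : (∫ x, (c • w) x * ((V x : ℝ) : ℂ) ∂(muT r)) =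
            c * ∫ x, w x * ((V x : ℝ) : ℂ) ∂(muT r) := by
          rw [← integral_const_mul]
          congr 1
          funext t
          simp only [ContinuousMap.smul_apply, smul_eq_mul]
          ring
        rw [h1, h2, RingHom.id_apply, smul_eq_mul]
        ring }
  else 0

theorem e1bL_apply {r : ℕ} {ξ : ℝ → Tor r} (hξ : Continuous ξ) {μ : Measure ℝ} {g : ℝ → ℝ}
    {V : Tor r → ℝ} (hV : Continuous V) (κ : ℂ) (Nm : ℝ) (hgi : Integrable g μ) (w : C(Tor r, ℂ)) :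
    e1bL hξ μ g hV κ Nm w = ((∫ t, ((g t : ℝ) : ℂ) * w (ξ t) ∂μ) -
        κ * ∫ x, w x * ((V x : ℝ) : ℂ) ∂(muT r)) / ((Nm : ℝ) : ℂ) := by
  unfold e1bL
  rw [dif_pos hgi]
  rfl

theorem e1bL_norm {r : ℕ} {ξ : ℝ → Tor r} (hξ : Continuous ξ) {μ : Measure ℝ} {g : ℝ → ℝ}
    (hg : ∀ t, 0 ≤ g t) (hgi : Integrable g μ)
    {V : Tor r → ℝ} (hV : Continuous V) {κ : ℂ} {Nm B : ℝ} (hNm : 0 < Nm)
    (hB1 : ∫ t, g t ∂μ ≤ B * Nm) (hB2 : ‖κ‖ ≤ B * Nm) (w : C(Tor r, ℂ)) :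
    ‖e1bL hξ μ g hV κ Nm w‖ ≤ (B + B * ∫ x, |V x| ∂(muT r)) * ‖w‖ := by
  rw [e1bL_apply hξ hV κ Nm hgi w, norm_div, Complex.norm_real, Real.norm_of_nonneg hNm.le,
    div_le_iff₀ hNm]
  have h1 : ‖∫ t, ((g t : ℝ) : ℂ) * w (ξ t) ∂μ‖ ≤ ‖w‖ * (B * Nm) := by
    calc ‖∫ t, ((g t : ℝ) : ℂ) * w (ξ t) ∂μ‖ ≤ ∫ t, ‖w‖ * g t ∂μ := by
          apply norm_integral_le_of_norm_le (hgi.const_mul _)
          filter_upwards with t
          rw [norm_mul, Complex.norm_real, Real.norm_of_nonneg (hg t), mul_comm]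
          exact mul_le_mul_of_nonneg_right (w.norm_coe_le_norm _) (hg t)
      _ = ‖w‖ * ∫ t, g t ∂μ := integral_const_mul _ _
      _ ≤ ‖w‖ * (B * Nm) := mul_le_mul_of_nonneg_left hB1 (norm_nonneg _)
  have hVi : Integrable (fun x => |V x|) (muT r) :=
    hV.abs.integrable_of_hasCompactSupport (HasCompactSupport.of_compactSpace _)
  have hV0 : 0 ≤ ∫ x, |V x| ∂(muT r) := integral_nonneg fun _ => abs_nonneg _
  have h2 : ‖∫ x, w x * ((V x : ℝ) : ℂ) ∂(muT r)‖ ≤ ‖w‖ * ∫ x, |V x| ∂(muT r) := by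
    calc ‖∫ x, w x * ((V x : ℝ) : ℂ) ∂(muT r)‖ ≤ ∫ x, ‖w‖ * |V x| ∂(muT r) := by
          apply norm_integral_le_of_norm_le (hVi.const_mul _)
          filter_upwards with x
          rw [norm_mul, Complex.norm_real, Real.norm_eq_abs]
          exact mul_le_mul_of_nonneg_right (w.norm_coe_le_norm _) (abs_nonneg _)
      _ = ‖w‖ * ∫ x, |V x| ∂(muT r) := integral_const_mul _ _
  calc ‖(∫ t, ((g t : ℝ) : ℂ) * w (ξ t) ∂μ) - κ * ∫ x, w x * ((V x : ℝ) : ℂ) ∂(muT r)‖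
      ≤ ‖∫ t, ((g t : ℝ) : ℂ) * w (ξ t) ∂μ‖ + ‖κ * ∫ x, w x * ((V x : ℝ) : ℂ) ∂(muT r)‖ :=
        norm_sub_le _ _
    _ ≤ ‖w‖ * (B * Nm) + (B * Nm) * (‖w‖ * ∫ x, |V x| ∂(muT r)) := by
        apply add_le_add h1
        rw [norm_mul]
        exact mul_le_mul hB2 h2 (norm_nonneg _) ((norm_nonneg _).trans hB2)
    _ = (B + B * ∫ x, |V x| ∂(muT r)) * ‖w‖ * Nm := by ring

/-- ROW E1b. The form for measures.
Proof. `equi` with `Λ P w = ((∫ t, g P t * w (ξ t) ∂μ P) - κ P * ∫ x, w x * V x ∂muT) / Nm P` if `Integrable (g P) (μ P)`, and `0` otherwise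
(`LinearMap` by `IsLinearMap.mk'` or a structure; integrability of `g P * w ∘ ξ` from `Integrable.bdd_mul`, of `w * V` by compactness),
`‖Λ P w‖ ≤ (B + B * ∫ |V|) ‖w‖`; apply it to the continuous map `x ↦ (w x : ℂ)`, `integral_ofReal`. -/
theorem equi_meas {r : ℕ} {l : Filter (ℝ × ℝ)} {ξ : ℝ → Tor r} (hξ : Continuous ξ) {μ : ℝ × ℝ → Measure ℝ}
    {g : ℝ × ℝ → ℝ → ℝ} (hg : ∀ P t, 0 ≤ g P t) (hgi : ∀ᶠ P in l, Integrable (g P) (μ P))
    {V : Tor r → ℝ} (hV : Continuous V) {κ : ℝ × ℝ → ℂ} {Nm : ℝ × ℝ → ℝ} (hNm : ∀ᶠ P in l, 0 < Nm P) {B : ℝ}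
    (hB1 : ∀ᶠ P in l, ∫ t, g P t ∂(μ P) ≤ B * Nm P) (hB2 : ∀ᶠ P in l, ‖κ P‖ ≤ B * Nm P)
    (h : ∀ a : Fin r → ℤ, Tendsto (fun P => ((∫ t, ((g P t : ℝ) : ℂ) * UnitAddTorus.mFourier a (ξ t) ∂(μ P)) -
      κ P * ∫ x, UnitAddTorus.mFourier a x * ((V x : ℝ) : ℂ) ∂(muT r)) / ((Nm P : ℝ) : ℂ)) l (𝓝 0))
    {w : Tor r → ℝ} (hw : Continuous w) :
    Tendsto (fun P => (((∫ t, g P t * w (ξ t) ∂(μ P) : ℝ) : ℂ) - κ P * ((∫ x, w x * V x ∂(muT r) : ℝ) : ℂ)) / ((Nm P : ℝ) : ℂ)) l (𝓝 0) := by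
  have key := equi (l := l) (fun P => e1bL hξ (μ P) (g P) hV (κ P) (Nm P))
    (B + B * ∫ x, |V x| ∂(muT r))
    (by
      filter_upwards [hgi, hNm, hB1, hB2] with P h1 h2 h3 h4 w
      exact e1bL_norm hξ (hg P) h1 hV h2 h3 h4 w)
    (by
      intro a
      refine (h a).congr' ?_
      filter_upwards [hgi] with P hP
      exact (e1bL_apply hξ hV (κ P) (Nm P) hP _).symm)
    ⟨fun x => ((w x : ℝ) : ℂ), Complex.continuous_ofReal.comp hw⟩
  refine key.congr' ?_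
  filter_upwards [hgi] with P hP
  rw [e1bL_apply hξ hV (κ P) (Nm P) hP _]
  simp only [ContinuousMap.coe_mk]
  have h1 : (∫ t, ((g P t : ℝ) : ℂ) * ((w (ξ t) : ℝ) : ℂ) ∂(μ P)) =
      ((∫ t, g P t * w (ξ t) ∂(μ P) : ℝ) : ℂ) := by
    rw [← integral_complex_ofReal]
    congr 1
    funext t
    push_cast
    rfl
  have h2 : (∫ x, ((w x : ℝ) : ℂ) * ((V x : ℝ) : ℂ) ∂(muT r)) =
      ((∫ x, w x * V x ∂(muT r) : ℝ) : ℂ) := by
    rw [← integral_complex_ofReal]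
    congr 1
    funext t
    push_cast
    rfl
  rw [h1, h2]

end Pool.Agent.LibLaw15
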