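import Pool.Agent.LibLaw15.T4
import Pool.Agent.LibLaw15.T7

/-! Law of the prime phases, row T8. -/


set_option autoImplicit false

namespace Pool.Agent.LibLaw15

open MeasureTheory Set Filter Topology Complex ProbabilityTheory
open scoped NNReal ComplexConjugate
open Pool.Agent.LibZM Pool.Agent.LibM3

/-- ROW T8a. Proof: `torus_prod` with `k = 3`, `lam_circle`, `Finset.prod_mul_distrib`. -/
theorem prod_Lam {r : ℕ} {p : Fin r → ℕ} (hp : ∀ i, (p i).Prime) (a : Fin r → ℤ) :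
    ((∏ i, Lam (rp (p i)) (a i).natAbs : ℝ) : ℂ) = ((cS p : ℝ) : ℂ) * ∫ x, UnitAddTorus.mFourier a x * ((ET p x ^ 3 : ℝ) : ℂ) ∂(muT r) := by
  have h := fun i => rp_mem (hp i)
  rw [torus_prod]
  unfold cS
  push_cast
  rw [← Finset.prod_mul_distrib]
  apply Finset.prod_congr rfl
  intro i _
  have := lam_circle (h i).1.le (h i).2.1 (a i)
  push_cast at this
  exact this

/-- ROW T8b. Proof: `torus_prod` with `k = 2`, `poisson`. -/
theorem prod_rp {r : ℕ} {p : Fin r → ℕ} (hp : ∀ i, (p i).Prime) (a : Fin r → ℤ) :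
    ((∏ i, rp (p i) ^ (a i).natAbs : ℝ) : ℂ) = ((cS p : ℝ) : ℂ) * ∫ x, UnitAddTorus.mFourier a x * ((ET p x ^ 2 : ℝ) : ℂ) ∂(muT r) := by
  have h := fun i => rp_mem (hp i)
  rw [torus_prod]
  unfold cS
  push_cast
  rw [← Finset.prod_mul_distrib]
  apply Finset.prod_congr rfl
  intro i _
  have h2 := poisson (h i).1.le (h i).2.1 (a i)
  push_cast at h2
  rw [h2]
  have h3 : (1 - (rp (p i) : ℂ) ^ 2) ≠ 0 := by
    have h4 : 1 - rp (p i) ^ 2 ≠ 0 := by
      have := (h i).1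
      have := (h i).2.1
      nlinarith
    exact_mod_cast h4
  field_simp

/-- ROW T8c. Proof: `prod_Lam` with `a = 0`. -/
theorem prod_Lam_zero {r : ℕ} {p : Fin r → ℕ} (hp : ∀ i, (p i).Prime) : ∏ i, Lam (rp (p i)) 0 = cS p * MT p 1 := by
  have h1 := prod_Lam hp (0 : Fin r → ℤ)
  have h2 : ∫ x, UnitAddTorus.mFourier (0 : Fin r → ℤ) x * ((ET p x ^ 3 : ℝ) : ℂ) ∂(muT r) = ((MT p 1 : ℝ) : ℂ) := by
    unfold MT
    rw [← integral_complex_ofReal]
    congr 1
    ext x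
    rw [UnitAddTorus.mFourier_zero]
    simp
  rw [h2] at h1
  simp only [Pi.zero_apply, Int.natAbs_zero] at h1
  exact_mod_cast h1

end Pool.Agent.LibLaw15
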