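import Pool.Agent.LibLaw15.Defs
import Pool.Agent.LibLaw15.A6

/-! Law of the prime phases, row T9. -/


set_option autoImplicit false

namespace Pool.Agent.LibLaw15

open MeasureTheory Set Filter Topology Complex ProbabilityTheory
open scoped NNReal ComplexConjugate
open Pool.Agent.LibZM Pool.Agent.LibM3

theorem t9_log {r : ℕ} {p : Fin r → ℕ} (hp : ∀ i, (p i).Prime) (c : Fin r → ℕ) :
    Real.log ((∏ i, p i ^ c i : ℕ) : ℝ) = ∑ i, (c i : ℝ) * Real.log (p i) := by
  rw [Nat.cast_prod, Real.log_prod]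
  · refine Finset.sum_congr rfl fun i _ => ?_
    rw [Nat.cast_pow, Real.log_pow]
  · intro i _
    have := (hp i).pos
    positivity

/-- ROW T9a. Proof: `fourier n (x : UnitAddCircle) = exp (2 π i n x)` (`fourier_coe_apply`), so the left side is `exp (i t ∑ a_i log p_i)`;
`log (mP) - log (nP) = ∑ (a_i.toNat - (-a_i).toNat) log p_i = ∑ a_i log p_i` (`Real.log_prod`, `Int.toNat_sub_toNat_neg`). -/
theorem mF_xt {r : ℕ} {p : Fin r → ℕ} (hp : ∀ i, (p i).Prime) (a : Fin r → ℤ) (t : ℝ) :
    UnitAddTorus.mFourier a (xt p t) = chr (mP p a) (nP p a) t := by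
  have h1 : Real.log (mP p a) - Real.log (nP p a) = ∑ i, (a i : ℝ) * Real.log (p i) := by
    unfold mP nP
    rw [t9_log hp, t9_log hp, ← Finset.sum_sub_distrib]
    refine Finset.sum_congr rfl fun i _ => ?_
    rw [← sub_mul]
    congr 1
    have h2 := Int.toNat_sub_toNat_neg (a i)
    have h3 : ((((a i).toNat : ℤ) - ((-(a i)).toNat : ℤ) : ℤ) : ℝ) = ((a i : ℤ) : ℝ) := by rw [h2]
    push_cast at h3
    exact h3
  unfold chr
  rw [h1]
  change ∏ i, fourier (a i) (xt p t i) = _
  have h4 : ∀ i, fourier (a i) (xt p t i) =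
      cexp (((t * ((a i : ℝ) * Real.log (p i)) : ℝ) : ℂ) * I) := by
    intro i
    unfold xt
    rw [fourier_coe_apply]
    congr 1
    push_cast
    have hpi : (Real.pi : ℂ) ≠ 0 := by exact_mod_cast Real.pi_ne_zero
    field_simp
  rw [Finset.prod_congr rfl fun i _ => h4 i, ← Complex.exp_sum]
  congr 1
  rw [← Finset.sum_mul, ← Complex.ofReal_sum, Finset.mul_sum]

/-- ROW T9b. -/
theorem xt_continuous {r : ℕ} (p : Fin r → ℕ) : Continuous (xt p) := by
  apply continuous_pi
  intro i
  unfold xt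
  exact (AddCircle.continuous_mk' (1 : ℝ)).comp (by fun_prop)

/-- ROW T9c. `mP`, `nP` are positive, coprime, and differ if `a ≠ 0` (unique factorisation). Their prime factors are among the `p i`. -/
theorem mnP {r : ℕ} {p : Fin r → ℕ} (hp : ∀ i, (p i).Prime) (hinj : Function.Injective p) (a : Fin r → ℤ) :
    1 ≤ mP p a ∧ 1 ≤ nP p a ∧ Nat.Coprime (mP p a) (nP p a) ∧ (a ≠ 0 → mP p a ≠ nP p a) ∧
      (∀ q : ℕ, Nat.Coprime q (qP p) → Nat.Coprime q (mP p a) ∧ Nat.Coprime q (nP p a)) := by
  have hm : 1 ≤ mP p a := Nat.one_le_iff_ne_zero.2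
    (Finset.prod_ne_zero_iff.2 fun i _ => pow_ne_zero _ (hp i).ne_zero)
  have hn : 1 ≤ nP p a := Nat.one_le_iff_ne_zero.2
    (Finset.prod_ne_zero_iff.2 fun i _ => pow_ne_zero _ (hp i).ne_zero)
  have hc : Nat.Coprime (mP p a) (nP p a) := by
    unfold mP nP
    apply Nat.Coprime.prod_left
    intro i _
    apply Nat.Coprime.prod_right
    intro j _
    by_cases h : i = j
    · subst h
      rcases le_total 0 (a i) with h0 | h0
      · have h1 : (-(a i)).toNat = 0 := by omega
        rw [h1, pow_zero]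
        exact Nat.coprime_one_right _
      · have h1 : (a i).toNat = 0 := by omega
        rw [h1, pow_zero]
        exact Nat.coprime_one_left _
    · exact Nat.Coprime.pow _ _ ((Nat.coprime_primes (hp i) (hp j)).2 fun h' => h (hinj h'))
  refine ⟨hm, hn, hc, ?_, ?_⟩
  · intro ha heq
    apply ha
    have h1 : mP p a = 1 := by
      rw [heq] at hc
      rw [heq]
      exact (Nat.coprime_self _).1 hc
    have h2 : nP p a = 1 := by rw [← heq, h1]
    funext i
    have h3 : p i ^ (a i).toNat = 1 := by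
      have h4 : p i ^ (a i).toNat ∣ 1 := by
        rw [← h1]
        exact Finset.dvd_prod_of_mem (fun i => p i ^ (a i).toNat) (Finset.mem_univ i)
      exact Nat.dvd_one.1 h4
    have h5 : p i ^ (-(a i)).toNat = 1 := by
      have h4 : p i ^ (-(a i)).toNat ∣ 1 := by
        rw [← h2]
        exact Finset.dvd_prod_of_mem (fun i => p i ^ (-(a i)).toNat) (Finset.mem_univ i)
      exact Nat.dvd_one.1 h4
    have h6 : ∀ k : ℕ, p i ^ k = 1 → k = 0 := by
      intro k hk
      by_contra hk0
      exact ((one_lt_pow₀ (hp i).one_lt hk0).ne') hk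
    have h7 := h6 _ h3
    have h8 := h6 _ h5
    simp only [Pi.zero_apply]
    omega
  · intro q hq
    have h1 : ∀ i, Nat.Coprime q (p i) := fun i =>
      Nat.Coprime.coprime_dvd_right (Finset.dvd_prod_of_mem p (Finset.mem_univ i)) hq
    exact ⟨Nat.Coprime.prod_right fun i _ => (h1 i).pow_right _,
      Nat.Coprime.prod_right fun i _ => (h1 i).pow_right _⟩

end Pool.Agent.LibLaw15
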