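import Pool.Agent.LibLaw15.Q4
import Pool.Agent.LibLaw15.A11
import Pool.Agent.LibLaw15.T8
import Pool.Agent.LibLaw15.T9
import Pool.Agent.LibLaw15.E1b
import Pool.Agent.LibLaw15.A12

/-! Law of the prime phases, row E2. -/


set_option autoImplicit false

namespace Pool.Agent.LibLaw15

open MeasureTheory Set Filter Topology Complex ProbabilityTheory
open scoped NNReal ComplexConjugate
open Pool.Agent.LibZM Pool.Agent.LibM3

/-- eventual bounds -/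
theorem E3_ev {Nf : ℝ → ℕ} (hNX : ∀ᶠ T : ℝ in atTop, 1 ≤ Nf T ∧ Nf T ≤ XN T) :
    ∀ᶠ T : ℝ in atTop, 1 ≤ T ∧ 1 ≤ Real.log T ∧ 1 ≤ Nf T ∧ Nf T ≤ XN T ∧
      1 + Real.log (Nf T) ≤ 2 * Real.log T := by
  have h1 : ∀ᶠ T : ℝ in atTop, 1 ≤ Real.log T := Real.tendsto_log_atTop.eventually_ge_atTop 1
  filter_upwards [eventually_ge_atTop 1, h1, hNX, par_log_XN] with T hT hL hN hX
  refine ⟨hT, hL, hN.1, hN.2, ?_⟩
  have h2 : Real.log (Nf T) ≤ Real.log (XN T) := by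
    apply Real.log_le_log
    · exact_mod_cast hN.1
    · exact_mod_cast hN.2
  have h3 : Real.log (Real.log T) ≤ Real.log T := (Real.log_le_sub_one_of_pos (by linarith)).trans (by linarith)
  linarith [hX.2.1]

/-- the sum of the weights in terms of `log T` -/
theorem E3_gk : ∃ C : ℝ, 0 < C ∧ ∀ (N : ℕ) (L : ℝ), 1 ≤ N → 1 ≤ L → 1 + Real.log N ≤ 2 * L →
    ∑ h ∈ Finset.Icc 1 N, ∑ k ∈ Finset.Icc 1 N, gk h k ≤ C * L ^ (5/4 : ℝ) := by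
  obtain ⟨C, hC, h⟩ := sum_gk_le
  refine ⟨C * 2 ^ (5/4 : ℝ), by positivity, fun N L hN hL hNL => ?_⟩
  have h0 : 0 ≤ 1 + Real.log N := by
    have := Real.log_nonneg (show (1:ℝ) ≤ N by exact_mod_cast hN)
    linarith
  calc ∑ h ∈ Finset.Icc 1 N, ∑ k ∈ Finset.Icc 1 N, gk h k ≤ C * (1 + Real.log N) ^ (5/4 : ℝ) := h N hN
    _ ≤ C * (2 * L) ^ (5/4 : ℝ) := by
        apply mul_le_mul_of_nonneg_left _ hC.le
        exact Real.rpow_le_rpow h0 hNL (by norm_num)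
    _ = C * 2 ^ (5/4 : ℝ) * L ^ (5/4 : ℝ) := by
        rw [Real.mul_rpow (by norm_num) (by linarith)]
        ring

theorem E3_cont {q N : ℕ} : Continuous fun t : ℝ => ‖riemannZeta (crit t)‖ ^ 2 * ‖PQ q N (crit t)‖ ^ 2 := by
  unfold PQ
  exact (continuous_zeta_crit.norm.pow 2).mul ((continuous_dp_crit _ _).norm.pow 2)

theorem E3_chr_one (t : ℝ) : chr 1 1 t = 1 := by
  unfold chr
  simp

theorem E2_cont {q N : ℕ} {y : ℝ} : Continuous fun t : ℝ => ‖riemannZeta (crit t)‖ ^ 2 * ‖PQ q N (crit t - (y : ℝ) * I)‖ ^ 2 := by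
  have h : (fun t : ℝ => ‖PQ q N (crit t - (y : ℝ) * I)‖ ^ 2) = fun t : ℝ => ‖PQ q N (crit (t - y))‖ ^ 2 := by
    funext t
    congr 3
    unfold crit
    push_cast
    ring
  have h2 : Continuous fun t : ℝ => ‖PQ q N (crit (t - y))‖ ^ 2 := by
    have h3 : Continuous fun t : ℝ => ‖PQ q N (crit t)‖ ^ 2 := by
      unfold PQ
      exact (continuous_dp_crit _ _).norm.pow 2
    exact h3.comp (continuous_id.sub continuous_const)
  rw [← h] at h2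
  exact (continuous_zeta_crit.norm.pow 2).mul h2

/-- ROW E2. The law of the phases under `|ζ|² |P|²`.
Proof. `equi_meas` with `μ P = (gaussianReal P.2 (vw P.1)).restrict (win P.2)`, `g P t = ‖ζ‖^2 ‖PQ 1 N (..)‖^2`, `V = ET p ^ 3`, `κ P = cS p * Tw (qP p) N T 1 1 y`,
`Nm P = (log P.1)^(9/4)`. For a character: `mF_xt`, `twisted_mean` (`q = 1`, `m = mP p a`, `n = nP p a`), `peel_all` (composed with `Fl_fst η`; `XN T ≤ T` for
large `T`), `prod_Lam`. Bounds: `Tw_le`, `sum_gk_le` (LibM3/N2) and `1 + log N ≤ 2 log T`; the total mass by the case `a = 0`. Integrability: continuity on the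
compact window. -/
theorem law_two {η : ℝ} (hη : 0 < η) {r : ℕ} {p : Fin r → ℕ} (hp : ∀ i, (p i).Prime) (hinj : Function.Injective p)
    {Nf : ℝ → ℕ} {yf : ℝ → ℝ} (hN : Tendsto Nf atTop atTop) (hNX : ∀ᶠ T : ℝ in atTop, Nf T ≤ XN T)
    (hy : Tendsto yf atTop (𝓝 0)) {w : Tor r → ℝ} (hw : Continuous w) :
    Tendsto (fun P : ℝ × ℝ => (((∫ t in win P.2, (‖riemannZeta (crit t)‖ ^ 2 * ‖PQ 1 (Nf P.1) (crit t - (yf P.1 : ℝ) * I)‖ ^ 2) * w (xt p t)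
        ∂(gaussianReal P.2 (vw P.1)) : ℝ) : ℂ) - ((cS p : ℝ) : ℂ) * Tw (qP p) (Nf P.1) P.1 1 1 (yf P.1) * ((MT p w : ℝ) : ℂ)) /
      (((Real.log P.1) ^ (9/4 : ℝ) : ℝ) : ℂ)) (Fl η) (𝓝 0) := by
  obtain ⟨C0, hC0, hgk⟩ := E3_gk
  obtain ⟨C1, hC1, htm1⟩ := twisted_mean hη 1 (m := 1) (n := 1) le_rfl le_rfl
  have hNX2 : ∀ᶠ T : ℝ in atTop, 1 ≤ Nf T ∧ Nf T ≤ XN T := (hN.eventually_ge_atTop 1).and hNX
  have hev := (Fl_fst η).eventually (E3_ev hNX2)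
  -- the bound of `Tw q 1 1 y`
  have hTw : ∀ q : ℕ, ∀ᶠ P : ℝ × ℝ in Fl η, ‖Tw q (Nf P.1) P.1 1 1 (yf P.1)‖ ≤ C0 * (Real.log P.1) ^ (9/4 : ℝ) := by
    intro q
    filter_upwards [hev] with P hP
    obtain ⟨hT, hL, hN1, hNX', hNL⟩ := hP
    have h1 := Tw_le (m := 1) (n := 1) le_rfl le_rfl q (Nf P.1) hT (yf P.1)
    have h2 := hgk (Nf P.1) (Real.log P.1) hN1 hL hNL
    have h3 : √(((1:ℕ):ℝ) * ((1:ℕ):ℝ)) = 1 := by simp
    rw [h3, one_mul] at h1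
    have h4 : (Real.log P.1) ^ (9/4 : ℝ) = Real.log P.1 * (Real.log P.1) ^ (5/4 : ℝ) := by
      rw [show (9/4 : ℝ) = 1 + 5/4 by norm_num, Real.rpow_add (by linarith), Real.rpow_one]
    rw [h4]
    calc ‖Tw q (Nf P.1) P.1 1 1 (yf P.1)‖ ≤ Real.log P.1 * ∑ h ∈ Finset.Icc 1 (Nf P.1), ∑ k ∈ Finset.Icc 1 (Nf P.1), gk h k := h1
      _ ≤ Real.log P.1 * (C0 * (Real.log P.1) ^ (5/4 : ℝ)) := mul_le_mul_of_nonneg_left h2 (by linarith)
      _ = C0 * (Real.log P.1 * (Real.log P.1) ^ (5/4 : ℝ)) := by ring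
  -- integrability on the window
  have hint : ∀ P : ℝ × ℝ, Integrable (fun t : ℝ => ‖riemannZeta (crit t)‖ ^ 2 * ‖PQ 1 (Nf P.1) (crit t - (yf P.1 : ℝ) * I)‖ ^ 2)
      ((gaussianReal P.2 (vw P.1)).restrict (win P.2)) := fun P => E2_cont.integrableOn_Icc
  have hlow : ∀ L : ℝ, 1 ≤ L → L ^ (2 + 1/8 : ℝ) ≤ L ^ (9/4 : ℝ) := fun L hL =>
    Real.rpow_le_rpow_of_exponent_le hL (by norm_num)
  have hNT : ∀ᶠ T : ℝ in atTop, (Nf T : ℝ) ≤ T := by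
    have hlog : ∀ᶠ T : ℝ in atTop, Real.log T ≤ T ^ (1/2 : ℝ) := by
      have := (isLittleO_log_rpow_atTop (show (0:ℝ) < 1/2 by norm_num)).def (show (0:ℝ) < 1 by norm_num)
      filter_upwards [this, eventually_ge_atTop 1] with T hT h1
      rw [one_mul, Real.norm_eq_abs, Real.norm_eq_abs, abs_of_nonneg (Real.log_nonneg h1), abs_of_nonneg (by positivity)] at hT
      exact hT
    have h1 : ∀ᶠ T : ℝ in atTop, 1 ≤ Real.log T := Real.tendsto_log_atTop.eventually_ge_atTop 1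
    filter_upwards [hNX, hlog, h1, eventually_ge_atTop 1] with T hX hL hL1 hT
    have h2 : (Nf T : ℝ) ≤ XN T := by exact_mod_cast hX
    refine h2.trans ((par_XN_le hT).trans ?_)
    have h3 : (Real.log T) ^ (1/16 : ℝ) ≤ (Real.log T) ^ (1 : ℝ) := Real.rpow_le_rpow_of_exponent_le hL1 (by norm_num)
    rw [Real.rpow_one] at h3
    calc T ^ (1/2 : ℝ) * (Real.log T) ^ (1/16 : ℝ) ≤ T ^ (1/2 : ℝ) * T ^ (1/2 : ℝ) := by
          apply mul_le_mul_of_nonneg_left (h3.trans hL); positivity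
      _ = T := by rw [← Real.rpow_add (by linarith)]; norm_num
  refine equi_meas (ξ := xt p) (xt_continuous p)
    (μ := fun P => (gaussianReal P.2 (vw P.1)).restrict (win P.2))
    (g := fun P t => ‖riemannZeta (crit t)‖ ^ 2 * ‖PQ 1 (Nf P.1) (crit t - (yf P.1 : ℝ) * I)‖ ^ 2)
    (fun P t => by positivity) (Eventually.of_forall hint) (V := fun x => ET p x ^ 3)
    ((ET_props hp).1.pow 3) (κ := fun P => ((cS p : ℝ) : ℂ) * Tw (qP p) (Nf P.1) P.1 1 1 (yf P.1))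
    (Nm := fun P => (Real.log P.1) ^ (9/4 : ℝ)) ?_ (B := (C1 + C0) + |cS p| * C0) ?_ ?_ ?_ hw
  · filter_upwards [hev] with P hP
    exact Real.rpow_pos_of_pos (by linarith [hP.2.1]) _
  · filter_upwards [hev, hTw 1, htm1] with P hP hT1 ht1
    obtain ⟨hT, hL, hN1, hNX', hNL⟩ := hP
    have h1 := ht1 (Nf P.1) hNX' (yf P.1)
    have h2 : (∫ t in win P.2, ((‖riemannZeta (crit t)‖ ^ 2 : ℝ) : ℂ) *
          (((‖PQ 1 (Nf P.1) (crit t - ((yf P.1:ℝ):ℝ) * I)‖ ^ 2 : ℝ) : ℂ) * chr 1 1 t) ∂(gaussianReal P.2 (vw P.1))) =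
        ((∫ t, ‖riemannZeta (crit t)‖ ^ 2 * ‖PQ 1 (Nf P.1) (crit t - (yf P.1 : ℝ) * I)‖ ^ 2
          ∂((gaussianReal P.2 (vw P.1)).restrict (win P.2)) : ℝ) : ℂ) := by
      rw [← integral_complex_ofReal]
      congr 1
      funext t
      rw [E3_chr_one, mul_one]
      push_cast
      ring
    rw [h2] at h1
    have h3 : ∫ t, ‖riemannZeta (crit t)‖ ^ 2 * ‖PQ 1 (Nf P.1) (crit t - (yf P.1 : ℝ) * I)‖ ^ 2
          ∂((gaussianReal P.2 (vw P.1)).restrict (win P.2)) ≤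
        ‖((∫ t, ‖riemannZeta (crit t)‖ ^ 2 * ‖PQ 1 (Nf P.1) (crit t - (yf P.1 : ℝ) * I)‖ ^ 2
          ∂((gaussianReal P.2 (vw P.1)).restrict (win P.2)) : ℝ) : ℂ)‖ := by
      rw [Complex.norm_real]
      exact le_abs_self _
    have h4 := norm_sub_norm_le ((∫ t, ‖riemannZeta (crit t)‖ ^ 2 * ‖PQ 1 (Nf P.1) (crit t - (yf P.1 : ℝ) * I)‖ ^ 2
          ∂((gaussianReal P.2 (vw P.1)).restrict (win P.2)) : ℝ) : ℂ) (Tw 1 (Nf P.1) P.1 1 1 (yf P.1))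
    have h5 : C1 * Real.log P.1 ^ (2 + 1/8 : ℝ) ≤ C1 * Real.log P.1 ^ (9/4 : ℝ) :=
      mul_le_mul_of_nonneg_left (hlow _ hL) hC1.le
    have h6 : 0 ≤ |cS p| * C0 * Real.log P.1 ^ (9/4 : ℝ) := by
      have : 0 < Real.log P.1 := by linarith
      positivity
    have h7 : (C1 + C0 + |cS p| * C0) * Real.log P.1 ^ (9/4 : ℝ) =
      C1 * Real.log P.1 ^ (9/4 : ℝ) + C0 * Real.log P.1 ^ (9/4 : ℝ) + |cS p| * C0 * Real.log P.1 ^ (9/4 : ℝ) := by ring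
    rw [h7]
    linarith
  · filter_upwards [hev, hTw (qP p)] with P hP hT1
    rw [norm_mul, Complex.norm_real, Real.norm_eq_abs]
    have h1 := mul_le_mul_of_nonneg_left hT1 (abs_nonneg (cS p))
    have h2 : 0 ≤ (C1 + C0) * Real.log P.1 ^ (9/4 : ℝ) := by
      have : 0 < Real.log P.1 := by linarith [hP.2.1]
      positivity
    calc |cS p| * ‖Tw (qP p) (Nf P.1) P.1 1 1 (yf P.1)‖ ≤ |cS p| * (C0 * Real.log P.1 ^ (9/4 : ℝ)) := h1
      _ ≤ (C1 + C0 + |cS p| * C0) * Real.log P.1 ^ (9/4 : ℝ) := by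
        rw [add_mul]
        linarith
  · intro a
    obtain ⟨hm1, hn1, -⟩ := mnP hp hinj a
    obtain ⟨Ca, hCa, htma⟩ := twisted_mean hη 1 hm1 hn1
    have hpe := (tendsto_zero_iff_norm_tendsto_zero.1 (peel_all hp hinj a hN hNT hy)).comp (Fl_fst η)
    have hlim : Tendsto (fun P : ℝ × ℝ => Ca * (Real.log P.1) ^ (-(1/8) : ℝ) + ‖(Tw 1 (Nf P.1) P.1 (mP p a) (nP p a) (yf P.1) -
      ((∏ i, Lam (rp (p i)) (a i).natAbs : ℝ) : ℂ) * Tw (qP p) (Nf P.1) P.1 1 1 (yf P.1)) /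
      (((Real.log P.1) ^ (9/4 : ℝ) : ℝ) : ℂ)‖)
        (Fl η) (𝓝 (Ca * 0 + 0)) := by
      have hlog : Tendsto (fun P : ℝ × ℝ => Real.log P.1) (Fl η) atTop := Real.tendsto_log_atTop.comp (Fl_fst η)
      exact (((tendsto_rpow_neg_atTop (by norm_num : (0:ℝ) < 1/8)).comp hlog).const_mul _).add hpe
    rw [mul_zero, add_zero] at hlim
    refine squeeze_zero_norm' ?_ hlim
    filter_upwards [hev, htma] with P hP hta
    obtain ⟨hT, hL, hN1, hNX', hNL⟩ := hP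
    have hLp : 0 < Real.log P.1 := by linarith
    have h1 := hta (Nf P.1) hNX' (yf P.1)
    have e1 : (∫ t, ((‖riemannZeta (crit t)‖ ^ 2 * ‖PQ 1 (Nf P.1) (crit t - (yf P.1 : ℝ) * I)‖ ^ 2 : ℝ) : ℂ) *
          UnitAddTorus.mFourier a (xt p t) ∂((gaussianReal P.2 (vw P.1)).restrict (win P.2))) =
        ∫ t in win P.2, ((‖riemannZeta (crit t)‖ ^ 2 : ℝ) : ℂ) *
          (((‖PQ 1 (Nf P.1) (crit t - ((yf P.1:ℝ):ℝ) * I)‖ ^ 2 : ℝ) : ℂ) * chr (mP p a) (nP p a) t)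
            ∂(gaussianReal P.2 (vw P.1)) := by
      congr 1
      funext t
      rw [mF_xt hp a t]
      push_cast
      ring
    have e2 : ((cS p : ℝ) : ℂ) * Tw (qP p) (Nf P.1) P.1 1 1 (yf P.1) *
        ∫ x, UnitAddTorus.mFourier a x * ((ET p x ^ 3 : ℝ) : ℂ) ∂(muT r) =
        ((∏ i, Lam (rp (p i)) (a i).natAbs : ℝ) : ℂ) * Tw (qP p) (Nf P.1) P.1 1 1 (yf P.1) := by
      rw [prod_Lam hp a]
      ring
    rw [e1, e2]
    have e3 : ‖(((Real.log P.1) ^ (9/4 : ℝ) : ℝ) : ℂ)‖ = (Real.log P.1) ^ (9/4 : ℝ) := by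
      rw [Complex.norm_real, Real.norm_eq_abs, abs_of_pos (Real.rpow_pos_of_pos hLp _)]
    rw [norm_div, norm_div, e3, div_le_iff₀ (Real.rpow_pos_of_pos hLp _), add_mul, div_mul_cancel₀ _ (Real.rpow_pos_of_pos hLp _).ne',
      mul_assoc Ca, ← Real.rpow_add hLp, show (-(1/8) : ℝ) + 9/4 = 2 + 1/8 by norm_num]
    have h4 := norm_sub_le_norm_sub_add_norm_sub
      (∫ t in win P.2, ((‖riemannZeta (crit t)‖ ^ 2 : ℝ) : ℂ) *
          (((‖PQ 1 (Nf P.1) (crit t - ((yf P.1:ℝ):ℝ) * I)‖ ^ 2 : ℝ) : ℂ) * chr (mP p a) (nP p a) t)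
            ∂(gaussianReal P.2 (vw P.1)))
      (Tw 1 (Nf P.1) P.1 (mP p a) (nP p a) (yf P.1))
      (((∏ i, Lam (rp (p i)) (a i).natAbs : ℝ) : ℂ) * Tw (qP p) (Nf P.1) P.1 1 1 (yf P.1))
    linarith

/-- ROW E3. The law of the phases under `|ζ|² |P|²` for the polynomial over integers coprime to the primes.
Proof. As E2 with `q = qP p`, `y = 0` (`twisted_mean`), `smooth_twist` instead of `peel_all`, `prod_rp` instead of `prod_Lam`, `V = ET p ^ 2`. -/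
theorem law_two' {η : ℝ} (hη : 0 < η) {r : ℕ} {p : Fin r → ℕ} (hp : ∀ i, (p i).Prime) (hinj : Function.Injective p)
    {Nf : ℝ → ℕ} (hNX : ∀ᶠ T : ℝ in atTop, 1 ≤ Nf T ∧ Nf T ≤ XN T) {w : Tor r → ℝ} (hw : Continuous w) :
    Tendsto (fun P : ℝ × ℝ => (((∫ t in win P.2, (‖riemannZeta (crit t)‖ ^ 2 * ‖PQ (qP p) (Nf P.1) (crit t)‖ ^ 2) * w (xt p t)
        ∂(gaussianReal P.2 (vw P.1)) : ℝ) : ℂ) - ((cS p : ℝ) : ℂ) * Tw (qP p) (Nf P.1) P.1 1 1 0 * ((∫ x, w x * ET p x ^ 2 ∂(muT r) : ℝ) : ℂ)) /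
      (((Real.log P.1) ^ (9/4 : ℝ) : ℝ) : ℂ)) (Fl η) (𝓝 0) := by
  obtain ⟨C0, hC0, hgk⟩ := E3_gk
  obtain ⟨C1, hC1, htm1⟩ := twisted_mean hη (qP p) (m := 1) (n := 1) le_rfl le_rfl
  have hev := (Fl_fst η).eventually (E3_ev hNX)
  -- the bound of `Tw 1 1 0`
  have hTw : ∀ᶠ P : ℝ × ℝ in Fl η, ‖Tw (qP p) (Nf P.1) P.1 1 1 0‖ ≤ C0 * (Real.log P.1) ^ (9/4 : ℝ) := by
    filter_upwards [hev] with P hP
    obtain ⟨hT, hL, hN1, hNX', hNL⟩ := hP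
    have h1 := Tw_le (m := 1) (n := 1) le_rfl le_rfl (qP p) (Nf P.1) hT 0
    have h2 := hgk (Nf P.1) (Real.log P.1) hN1 hL hNL
    have h3 : √(((1:ℕ):ℝ) * ((1:ℕ):ℝ)) = 1 := by simp
    rw [h3, one_mul] at h1
    have h4 : (Real.log P.1) ^ (9/4 : ℝ) = Real.log P.1 * (Real.log P.1) ^ (5/4 : ℝ) := by
      rw [show (9/4 : ℝ) = 1 + 5/4 by norm_num, Real.rpow_add (by linarith), Real.rpow_one]
    rw [h4]
    calc ‖Tw (qP p) (Nf P.1) P.1 1 1 0‖ ≤ Real.log P.1 * ∑ h ∈ Finset.Icc 1 (Nf P.1), ∑ k ∈ Finset.Icc 1 (Nf P.1), gk h k := h1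
      _ ≤ Real.log P.1 * (C0 * (Real.log P.1) ^ (5/4 : ℝ)) := mul_le_mul_of_nonneg_left h2 (by linarith)
      _ = C0 * (Real.log P.1 * (Real.log P.1) ^ (5/4 : ℝ)) := by ring
  -- integrability on the window
  have hcont : ∀ P : ℝ × ℝ, Continuous fun t : ℝ => ‖riemannZeta (crit t)‖ ^ 2 * ‖PQ (qP p) (Nf P.1) (crit t)‖ ^ 2 :=
    fun P => E3_cont
  have hint : ∀ P : ℝ × ℝ, Integrable (fun t : ℝ => ‖riemannZeta (crit t)‖ ^ 2 * ‖PQ (qP p) (Nf P.1) (crit t)‖ ^ 2)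
      ((gaussianReal P.2 (vw P.1)).restrict (win P.2)) := fun P => (hcont P).integrableOn_Icc
  have hlow : ∀ L : ℝ, 1 ≤ L → L ^ (2 + 1/8 : ℝ) ≤ L ^ (9/4 : ℝ) := fun L hL =>
    Real.rpow_le_rpow_of_exponent_le hL (by norm_num)
  refine equi_meas (ξ := xt p) (xt_continuous p)
    (μ := fun P => (gaussianReal P.2 (vw P.1)).restrict (win P.2))
    (g := fun P t => ‖riemannZeta (crit t)‖ ^ 2 * ‖PQ (qP p) (Nf P.1) (crit t)‖ ^ 2)
    (fun P t => by positivity) (Eventually.of_forall hint) (V := fun x => ET p x ^ 2)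
    ((ET_props hp).1.pow 2) (κ := fun P => ((cS p : ℝ) : ℂ) * Tw (qP p) (Nf P.1) P.1 1 1 0)
    (Nm := fun P => (Real.log P.1) ^ (9/4 : ℝ)) ?_ (B := (C1 + C0) + |cS p| * C0) ?_ ?_ ?_ hw
  · filter_upwards [hev] with P hP
    exact Real.rpow_pos_of_pos (by linarith [hP.2.1]) _
  · filter_upwards [hev, hTw, htm1] with P hP hT1 ht1
    obtain ⟨hT, hL, hN1, hNX', hNL⟩ := hP
    have h1 := ht1 (Nf P.1) hNX' 0
    have h2 : (∫ t in win P.2, ((‖riemannZeta (crit t)‖ ^ 2 : ℝ) : ℂ) *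
          (((‖PQ (qP p) (Nf P.1) (crit t - ((0:ℝ):ℝ) * I)‖ ^ 2 : ℝ) : ℂ) * chr 1 1 t) ∂(gaussianReal P.2 (vw P.1))) =
        ((∫ t, ‖riemannZeta (crit t)‖ ^ 2 * ‖PQ (qP p) (Nf P.1) (crit t)‖ ^ 2
          ∂((gaussianReal P.2 (vw P.1)).restrict (win P.2)) : ℝ) : ℂ) := by
      rw [← integral_complex_ofReal]
      congr 1
      funext t
      rw [E3_chr_one, ofReal_zero, zero_mul, sub_zero, mul_one]
      push_cast
      ring
    rw [h2] at h1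
    have h3 : ∫ t, ‖riemannZeta (crit t)‖ ^ 2 * ‖PQ (qP p) (Nf P.1) (crit t)‖ ^ 2
          ∂((gaussianReal P.2 (vw P.1)).restrict (win P.2)) ≤
        ‖((∫ t, ‖riemannZeta (crit t)‖ ^ 2 * ‖PQ (qP p) (Nf P.1) (crit t)‖ ^ 2
          ∂((gaussianReal P.2 (vw P.1)).restrict (win P.2)) : ℝ) : ℂ)‖ := by
      rw [Complex.norm_real]
      exact le_abs_self _
    have h4 := norm_sub_norm_le ((∫ t, ‖riemannZeta (crit t)‖ ^ 2 * ‖PQ (qP p) (Nf P.1) (crit t)‖ ^ 2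
          ∂((gaussianReal P.2 (vw P.1)).restrict (win P.2)) : ℝ) : ℂ) (Tw (qP p) (Nf P.1) P.1 1 1 0)
    have h5 : C1 * Real.log P.1 ^ (2 + 1/8 : ℝ) ≤ C1 * Real.log P.1 ^ (9/4 : ℝ) :=
      mul_le_mul_of_nonneg_left (hlow _ hL) hC1.le
    have h6 : 0 ≤ |cS p| * C0 * Real.log P.1 ^ (9/4 : ℝ) := by
      have : 0 < Real.log P.1 := by linarith
      positivity
    have h7 : (C1 + C0 + |cS p| * C0) * Real.log P.1 ^ (9/4 : ℝ) =
      C1 * Real.log P.1 ^ (9/4 : ℝ) + C0 * Real.log P.1 ^ (9/4 : ℝ) + |cS p| * C0 * Real.log P.1 ^ (9/4 : ℝ) := by ring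
    rw [h7]
    linarith
  · filter_upwards [hev, hTw] with P hP hT1
    rw [norm_mul, Complex.norm_real, Real.norm_eq_abs]
    have h1 := mul_le_mul_of_nonneg_left hT1 (abs_nonneg (cS p))
    have h2 : 0 ≤ (C1 + C0) * Real.log P.1 ^ (9/4 : ℝ) := by
      have : 0 < Real.log P.1 := by linarith [hP.2.1]
      positivity
    calc |cS p| * ‖Tw (qP p) (Nf P.1) P.1 1 1 0‖ ≤ |cS p| * (C0 * Real.log P.1 ^ (9/4 : ℝ)) := h1
      _ ≤ (C1 + C0 + |cS p| * C0) * Real.log P.1 ^ (9/4 : ℝ) := by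
        rw [add_mul]
        linarith
  · intro a
    obtain ⟨hm1, hn1, -⟩ := mnP hp hinj a
    obtain ⟨Ca, hCa, htma⟩ := twisted_mean hη (qP p) hm1 hn1
    obtain ⟨Cb, hCb, hst⟩ := smooth_twist hp hinj a
    have hlim : Tendsto (fun P : ℝ × ℝ => Ca * (Real.log P.1) ^ (-(1/8) : ℝ) + Cb * C0 * (Real.log P.1) ^ (-1 : ℝ))
        (Fl η) (𝓝 (Ca * 0 + Cb * C0 * 0)) := by
      have hlog : Tendsto (fun P : ℝ × ℝ => Real.log P.1) (Fl η) atTop := Real.tendsto_log_atTop.comp (Fl_fst η)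
      exact (((tendsto_rpow_neg_atTop (by norm_num : (0:ℝ) < 1/8)).comp hlog).const_mul _).add
        (((tendsto_rpow_neg_atTop (by norm_num : (0:ℝ) < 1)).comp hlog).const_mul _)
    rw [mul_zero, mul_zero, add_zero] at hlim
    refine squeeze_zero_norm' ?_ hlim
    filter_upwards [hev, htma] with P hP hta
    obtain ⟨hT, hL, hN1, hNX', hNL⟩ := hP
    have hLp : 0 < Real.log P.1 := by linarith
    have h1 := hta (Nf P.1) hNX' 0
    have h2 := hst (Nf P.1) P.1 hT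
    have h3 := hgk (Nf P.1) (Real.log P.1) hN1 hL hNL
    have e1 : (∫ t, ((‖riemannZeta (crit t)‖ ^ 2 * ‖PQ (qP p) (Nf P.1) (crit t)‖ ^ 2 : ℝ) : ℂ) *
          UnitAddTorus.mFourier a (xt p t) ∂((gaussianReal P.2 (vw P.1)).restrict (win P.2))) =
        ∫ t in win P.2, ((‖riemannZeta (crit t)‖ ^ 2 : ℝ) : ℂ) *
          (((‖PQ (qP p) (Nf P.1) (crit t - ((0:ℝ):ℝ) * I)‖ ^ 2 : ℝ) : ℂ) * chr (mP p a) (nP p a) t)
            ∂(gaussianReal P.2 (vw P.1)) := by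
      congr 1
      funext t
      rw [mF_xt hp a t, ofReal_zero, zero_mul, sub_zero]
      push_cast
      ring
    have e2 : ((cS p : ℝ) : ℂ) * Tw (qP p) (Nf P.1) P.1 1 1 0 *
        ∫ x, UnitAddTorus.mFourier a x * ((ET p x ^ 2 : ℝ) : ℂ) ∂(muT r) =
        ((∏ i, rp (p i) ^ (a i).natAbs : ℝ) : ℂ) * Tw (qP p) (Nf P.1) P.1 1 1 0 := by
      rw [prod_rp hp a]
      ring
    rw [e1, e2, norm_div]
    have e3 : ‖(((Real.log P.1) ^ (9/4 : ℝ) : ℝ) : ℂ)‖ = (Real.log P.1) ^ (9/4 : ℝ) := by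
      rw [Complex.norm_real, Real.norm_eq_abs, abs_of_pos (Real.rpow_pos_of_pos hLp _)]
    rw [e3, div_le_iff₀ (Real.rpow_pos_of_pos hLp _)]
    have e4 : (Ca * (Real.log P.1) ^ (-(1/8) : ℝ) + Cb * C0 * (Real.log P.1) ^ (-1 : ℝ)) * (Real.log P.1) ^ (9/4 : ℝ) =
        Ca * (Real.log P.1) ^ (2 + 1/8 : ℝ) + Cb * (C0 * (Real.log P.1) ^ (5/4 : ℝ)) := by
      rw [add_mul, mul_assoc Ca, mul_assoc (Cb * C0), ← Real.rpow_add hLp, ← Real.rpow_add hLp,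
        show (-(1/8) : ℝ) + 9/4 = 2 + 1/8 by norm_num, show (-1 : ℝ) + 9/4 = 5/4 by norm_num]
      ring
    rw [e4]
    have h4 := norm_sub_le_norm_sub_add_norm_sub
      (∫ t in win P.2, ((‖riemannZeta (crit t)‖ ^ 2 : ℝ) : ℂ) *
          (((‖PQ (qP p) (Nf P.1) (crit t - ((0:ℝ):ℝ) * I)‖ ^ 2 : ℝ) : ℂ) * chr (mP p a) (nP p a) t)
            ∂(gaussianReal P.2 (vw P.1)))
      (Tw (qP p) (Nf P.1) P.1 (mP p a) (nP p a) 0)
      (((∏ i, rp (p i) ^ (a i).natAbs : ℝ) : ℂ) * Tw (qP p) (Nf P.1) P.1 1 1 0)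
    have h5 := mul_le_mul_of_nonneg_left h3 hCb
    linarith

end Pool.Agent.LibLaw15
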