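import Pool.Agent.LibLaw15.T9
import Pool.Agent.LibM3.G3
import Pool.Agent.LibM3.E2

/-! Law of the prime phases, row L1. -/


set_option autoImplicit false

namespace Pool.Agent.LibLaw15

open MeasureTheory Set Filter Topology Complex ProbabilityTheory
open scoped NNReal ComplexConjugate
open Pool.Agent.LibZM Pool.Agent.LibM3

lemma l1_log {A B M : ℕ} (hA : 1 ≤ A) (hAB : A < B) (hBM : B ≤ M) :
    1 / (M:ℝ) ≤ Real.log B - Real.log A := by
  have hA0 : (0:ℝ) < A := by exact_mod_cast hA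
  have hB0 : (0:ℝ) < B := by exact_mod_cast (hA.trans hAB.le)
  have h1 : 1 - ((B:ℝ) / A)⁻¹ ≤ Real.log ((B:ℝ) / A) := Real.one_sub_inv_le_log_of_pos (by positivity)
  rw [Real.log_div hB0.ne' hA0.ne', inv_div] at h1
  refine le_trans ?_ h1
  have h2 : (A:ℝ) + 1 ≤ B := by exact_mod_cast hAB
  have h3 : (B:ℝ) ≤ M := by exact_mod_cast hBM
  have h4 : 1 - (A:ℝ) / B = (B - A) / B := by field_simp
  rw [h4]
  calc 1 / (M:ℝ) ≤ 1 / (B:ℝ) := one_div_le_one_div_of_le hB0 h3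
    _ ≤ (B - A) / B := by gcongr; linarith

lemma l1_cT_nonneg (q N n : ℕ) : 0 ≤ cT q N n := by
  show 0 ≤ if n ≤ N ∧ Nat.Coprime n q then tau (1/2) n else 0
  split_ifs
  · exact tau_nonneg (by norm_num) n
  · exact le_rfl

lemma l1_cT_le (q N n : ℕ) : cT q N n ≤ halfTrunc N n := by
  rw [halfTrunc_apply]
  show (if n ≤ N ∧ Nat.Coprime n q then tau (1/2) n else 0) ≤ _
  have := tau_nonneg (α := 1/2) (by norm_num) n
  split_ifs with h1 h2 h2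
  · exact le_rfl
  · exact absurd h1.1 h2
  · exact this
  · exact le_rfl

lemma l1_cT_supp (q N : ℕ) : SuppLe (cT q N) N := by
  intro n hn
  show (if n ≤ N ∧ Nat.Coprime n q then tau (1/2) n else 0) = 0
  rw [if_neg (fun h => absurd h.1 (not_le.mpr hn))]

/-- ROW L1a. The Fourier transform of the Gaussian.
Proof: `e2_char` (LibM3/E2.lean) or `charFun_gaussianReal`: `= exp (-v x^2/2)`. If `A ≠ B` are positive integers `≤ M` then `|log A - log B| ≥ 1/M`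
(`log (B/A) ≥ 1 - A/B ≥ 1/B` for `A < B`). -/
theorem char_int_le (u : ℝ) (v : ℝ≥0) {A B M : ℕ} (hA : 1 ≤ A) (hB : 1 ≤ B) (hAM : A ≤ M) (hBM : B ≤ M) (hAB : A ≠ B) :
    ‖∫ t, cexp (((t * (Real.log A - Real.log B) : ℝ) : ℂ) * I) ∂(gaussianReal u v)‖ ≤ Real.exp (-(v : ℝ) / (2 * (M:ℝ) ^ 2)) := by
  have h0 : Real.toNNReal ((Real.sqrt v) ^ 2) = v := by
    rw [Real.sq_sqrt (NNReal.coe_nonneg v), Real.toNNReal_coe]
  have h1 := e2_char u (H := Real.sqrt v) (Real.log A - Real.log B)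
  rw [h0] at h1
  rw [h1, Real.sq_sqrt (NNReal.coe_nonneg v)]
  apply Real.exp_le_exp.mpr
  have hM : (0:ℝ) < M := by
    have : 1 ≤ M := hA.trans hAM
    exact_mod_cast this
  have key : 1 / (M:ℝ) ≤ |Real.log A - Real.log B| := by
    rcases lt_or_gt_of_ne hAB with h | h
    · rw [abs_sub_comm]
      exact (l1_log hA h hBM).trans (le_abs_self _)
    · exact (l1_log hB h hAM).trans (le_abs_self _)
  have h2 : (1 / (M:ℝ)) ^ 2 ≤ (Real.log A - Real.log B) ^ 2 := by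
    rw [← sq_abs (Real.log A - Real.log B)]
    exact pow_le_pow_left₀ (by positivity) key 2
  rw [neg_div]
  apply neg_le_neg
  calc (v:ℝ) / (2 * (M:ℝ) ^ 2) = v * (1 / (M:ℝ)) ^ 2 / 2 := by
        field_simp
    _ ≤ v * (Real.log A - Real.log B) ^ 2 / 2 := by
        have := mul_le_mul_of_nonneg_left h2 (NNReal.coe_nonneg v)
        change (v:ℝ) * (1 / (M:ℝ)) ^ 2 / 2 ≤ v * (Real.log A - Real.log B) ^ 2 / 2
        have h3 : (v:ℝ) * (1 / (M:ℝ)) ^ 2 ≤ (v:ℝ) * (Real.log A - Real.log B) ^ 2 := this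
        linarith

lemma L1b_nonneg (q N n : ℕ) : 0 ≤ cT q N n := by
  change (0:ℝ) ≤ if n ≤ N ∧ Nat.Coprime n q then tau (1/2) n else 0
  split_ifs
  · exact tau_nonneg (by norm_num) n
  · exact le_rfl

lemma L1b_le_one (q N n : ℕ) : cT q N n ≤ 1 := by
  have h := halfTrunc_le_one N n
  change (if n ≤ N ∧ Nat.Coprime n q then tau (1/2) n else 0) ≤ (1:ℝ)
  split_ifs with h1
  · have h2 : halfTrunc N n = tau (1/2) n := by
      change (if n ≤ N then tau (1/2) n else 0) = _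
      rw [if_pos h1.1]
    rw [← h2]
    exact h
  · norm_num

lemma L1b_supp (q N : ℕ) : SuppLe (cT q N) N := by
  intro n hn
  change (if n ≤ N ∧ Nat.Coprime n q then tau (1/2) n else 0) = (0:ℝ)
  rw [if_neg (fun h => by omega)]

lemma L1b_cop (q N j n : ℕ) (h : (cT q N ^ j) n ≠ 0) : Nat.Coprime n q := by
  induction j generalizing n with
  | zero =>
    rw [pow_zero, ArithmeticFunction.one_apply] at h
    split_ifs at h with h1
    · rw [h1]; exact Nat.coprime_one_left q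
    · exact absurd rfl h
  | succ j ih =>
    rw [pow_succ, ArithmeticFunction.mul_apply] at h
    obtain ⟨a, ha, hne⟩ := Finset.exists_ne_zero_of_sum_ne_zero h
    rw [Nat.mem_divisorsAntidiagonal] at ha
    have h1 := ih a.1 (left_ne_zero_of_mul hne)
    have h2 : Nat.Coprime a.2 q := by
      by_contra hc
      apply right_ne_zero_of_mul hne
      change (if a.2 ≤ N ∧ Nat.Coprime a.2 q then tau (1/2) a.2 else 0) = (0:ℝ)
      rw [if_neg (fun h => hc h.2)]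
    rw [← ha.1]
    exact Nat.Coprime.mul_left h1 h2

lemma L1b_sum (q N : ℕ) : ∑ n ∈ Finset.Icc 1 N, cT q N n ≤ N := by
  calc ∑ n ∈ Finset.Icc 1 N, cT q N n ≤ ∑ n ∈ Finset.Icc 1 N, (1:ℝ) := Finset.sum_le_sum fun n _ => L1b_le_one q N n
    _ = N := by simp

/-- `k^{-1/2}` -/
noncomputable def L1b_e (k : ℕ) : ℝ := Real.exp (-(Real.log k) / 2)

lemma L1b_e_le {k : ℕ} (hk : 1 ≤ k) : 0 ≤ L1b_e k ∧ L1b_e k ≤ 1 := by
  unfold L1b_e
  refine ⟨(Real.exp_pos _).le, Real.exp_le_one_iff.2 ?_⟩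
  have : 0 ≤ Real.log k := Real.log_natCast_nonneg k
  linarith

lemma L1b_dp (f : ArithmeticFunction ℝ) (X : ℕ) (t : ℝ) : dp f X (crit t) =
    ∑ k ∈ Finset.Icc 1 X, ((f k * L1b_e k : ℝ) : ℂ) * cexp (((-(t * Real.log k) : ℝ) : ℂ) * I) := by
  unfold dp
  refine Finset.sum_congr rfl fun k hk => ?_
  have hk1 : 1 ≤ k := (Finset.mem_Icc.1 hk).1
  have hk0 : (k:ℂ) ≠ 0 := by exact_mod_cast (by omega : k ≠ 0)
  have h1 : (k:ℂ) ^ (-crit t) = ((L1b_e k : ℝ) : ℂ) * cexp (((-(t * Real.log k) : ℝ) : ℂ) * I) := by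
    rw [Complex.cpow_def_of_ne_zero hk0, L1b_e, Complex.ofReal_exp, ← Complex.exp_add, ← Complex.natCast_log]
    congr 1
    unfold crit
    push_cast
    ring
  rw [h1]
  push_cast
  ring

/-- the product of the squared polynomial and a character as a double sum -/
lemma L1b_expand {f : ArithmeticFunction ℝ} (X : ℕ) {m n : ℕ} (hm : 1 ≤ m) (hn : 1 ≤ n) (t : ℝ) :
    ((‖dp f X (crit t)‖ ^ 2 : ℝ) : ℂ) * chr m n t =
    ∑ k ∈ Finset.Icc 1 X, ∑ l ∈ Finset.Icc 1 X, (((f k * L1b_e k) * (f l * L1b_e l) : ℝ) : ℂ) *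
      cexp (((t * (Real.log ((m * l : ℕ) : ℝ) - Real.log ((n * k : ℕ) : ℝ)) : ℝ) : ℂ) * I) := by
  have h1 : ((‖dp f X (crit t)‖ ^ 2 : ℝ) : ℂ) = dp f X (crit t) * conj (dp f X (crit t)) := by
    rw [Complex.mul_conj, Complex.normSq_eq_norm_sq]
  have h2 : conj (dp f X (crit t)) =
      ∑ l ∈ Finset.Icc 1 X, ((f l * L1b_e l : ℝ) : ℂ) * cexp (((t * Real.log l : ℝ) : ℂ) * I) := by
    rw [L1b_dp, map_sum]
    refine Finset.sum_congr rfl fun l _ => ?_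
    rw [map_mul, Complex.conj_ofReal, ← Complex.exp_conj, map_mul, Complex.conj_ofReal, Complex.conj_I]
    congr 2
    push_cast
    ring
  rw [h1, h2, L1b_dp, Finset.sum_mul_sum, Finset.sum_mul]
  refine Finset.sum_congr rfl fun k hk => ?_
  rw [Finset.sum_mul]
  refine Finset.sum_congr rfl fun l hl => ?_
  have hk1 : (1:ℝ) ≤ k := by exact_mod_cast (Finset.mem_Icc.1 hk).1
  have hl1 : (1:ℝ) ≤ l := by exact_mod_cast (Finset.mem_Icc.1 hl).1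
  have hm1 : (1:ℝ) ≤ m := by exact_mod_cast hm
  have hn1 : (1:ℝ) ≤ n := by exact_mod_cast hn
  have e1 : Real.log ((m * l : ℕ) : ℝ) = Real.log m + Real.log l := by
    push_cast
    rw [Real.log_mul (by linarith) (by linarith)]
  have e2 : Real.log ((n * k : ℕ) : ℝ) = Real.log n + Real.log k := by
    push_cast
    rw [Real.log_mul (by linarith) (by linarith)]
  unfold chr
  rw [e1, e2]
  have e3 : cexp (((t * (Real.log m + Real.log l - (Real.log n + Real.log k)) : ℝ) : ℂ) * I) =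
      cexp (((-(t * Real.log k) : ℝ) : ℂ) * I) * cexp (((t * Real.log l : ℝ) : ℂ) * I) *
      cexp (((t * (Real.log m - Real.log n) : ℝ) : ℂ) * I) := by
    rw [← Complex.exp_add, ← Complex.exp_add]
    congr 1
    push_cast
    ring
  rw [e3]
  push_cast
  ring

lemma L1b_bound {f : ArithmeticFunction ℝ} (hf : ∀ n, 0 ≤ f n) (X : ℕ) {m n : ℕ} (hm : 1 ≤ m) (hn : 1 ≤ n)
    (hne : ∀ k l, 1 ≤ k → 1 ≤ l → f k ≠ 0 → f l ≠ 0 → m * l ≠ n * k) (u : ℝ) (v : ℝ≥0) :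
    ‖∫ t, ((‖dp f X (crit t)‖ ^ 2 : ℝ) : ℂ) * chr m n t ∂(gaussianReal u v)‖ ≤
      (∑ k ∈ Finset.Icc 1 X, f k) ^ 2 * Real.exp (-(v : ℝ) / (2 * ((max m n * X : ℕ) : ℝ) ^ 2)) := by
  simp_rw [L1b_expand X hm hn]
  have hint : ∀ k l : ℕ, Integrable (fun t : ℝ => (((f k * L1b_e k) * (f l * L1b_e l) : ℝ) : ℂ) *
      cexp (((t * (Real.log ((m * l : ℕ) : ℝ) - Real.log ((n * k : ℕ) : ℝ)) : ℝ) : ℂ) * I)) (gaussianReal u v) := by
    intro k l
    refine Integrable.mono' (g := fun _ => |(f k * L1b_e k) * (f l * L1b_e l)|) (integrable_const _)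
      (by fun_prop) (Eventually.of_forall fun t => ?_)
    rw [norm_mul, Complex.norm_exp_ofReal_mul_I, mul_one, Complex.norm_real, Real.norm_eq_abs]
  rw [integral_finsetSum _ fun k _ => integrable_finsetSum _ fun l _ => hint k l]
  have h1 : ∀ k ∈ Finset.Icc 1 X, ∀ l ∈ Finset.Icc 1 X,
      ‖∫ t, (((f k * L1b_e k) * (f l * L1b_e l) : ℝ) : ℂ) *
      cexp (((t * (Real.log ((m * l : ℕ) : ℝ) - Real.log ((n * k : ℕ) : ℝ)) : ℝ) : ℂ) * I) ∂(gaussianReal u v)‖ ≤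
      f k * f l * Real.exp (-(v : ℝ) / (2 * ((max m n * X : ℕ) : ℝ) ^ 2)) := by
    intro k hk l hl
    rw [Finset.mem_Icc] at hk hl
    rw [integral_const_mul, norm_mul, Complex.norm_real, Real.norm_eq_abs]
    have ek := L1b_e_le hk.1
    have el := L1b_e_le hl.1
    have hfk := hf k
    have hfl := hf l
    rcases eq_or_ne (f k) 0 with h0 | h0
    · rw [h0]; simp
    rcases eq_or_ne (f l) 0 with h0' | h0'
    · rw [h0']; simp
    have hab : |(f k * L1b_e k) * (f l * L1b_e l)| ≤ f k * f l := by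
      rw [abs_of_nonneg (mul_nonneg (mul_nonneg hfk ek.1) (mul_nonneg hfl el.1))]
      exact mul_le_mul (mul_le_of_le_one_right hfk ek.2) (mul_le_of_le_one_right hfl el.2)
        (mul_nonneg hfl el.1) hfk
    have hA : m * l ≤ max m n * X := Nat.mul_le_mul (le_max_left _ _) hl.2
    have hB : n * k ≤ max m n * X := Nat.mul_le_mul (le_max_right _ _) hk.2
    have h2 := char_int_le u v (A := m * l) (B := n * k) (M := max m n * X) (Nat.mul_pos hm hl.1)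
      (Nat.mul_pos hn hk.1) hA hB (hne k l hk.1 hl.1 h0 h0')
    exact mul_le_mul hab h2 (norm_nonneg _) (mul_nonneg hfk hfl)
  calc ‖∑ k ∈ Finset.Icc 1 X, ∫ t, ∑ l ∈ Finset.Icc 1 X, (((f k * L1b_e k) * (f l * L1b_e l) : ℝ) : ℂ) *
      cexp (((t * (Real.log ((m * l : ℕ) : ℝ) - Real.log ((n * k : ℕ) : ℝ)) : ℝ) : ℂ) * I) ∂(gaussianReal u v)‖
      ≤ ∑ k ∈ Finset.Icc 1 X, ∑ l ∈ Finset.Icc 1 X, f k * f l *
          Real.exp (-(v : ℝ) / (2 * ((max m n * X : ℕ) : ℝ) ^ 2)) := by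
        refine (norm_sum_le _ _).trans (Finset.sum_le_sum fun k hk => ?_)
        rw [integral_finsetSum _ fun l _ => hint k l]
        exact (norm_sum_le _ _).trans (Finset.sum_le_sum fun l hl => h1 k hk l hl)
    _ = _ := by
        generalize Real.exp (-(v : ℝ) / (2 * ((max m n * X : ℕ) : ℝ) ^ 2)) = E
        rw [sq, Finset.sum_mul_sum, Finset.sum_mul]
        refine Finset.sum_congr rfl fun k _ => ?_
        rw [Finset.sum_mul]

/-- the numerical part -/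
lemma L1b_num {θ : ℝ} (hθ0 : 0 < θ) (hθ : θ < 1/3) {M : ℕ} (hM : 1 ≤ M) : ∀ᶠ T : ℝ in atTop,
    ((⌊T ^ θ⌋₊ : ℝ) ^ 3) ^ 2 * Real.exp (-(vw T : ℝ) / (2 * ((M * ⌊T ^ θ⌋₊ ^ 3 : ℕ) : ℝ) ^ 2)) ≤ 1 := by
  have hε : 0 < 1 - 3 * θ := by linarith
  have hM0 : (0:ℝ) < M := by exact_mod_cast hM
  obtain ⟨a, hadef⟩ : ∃ a : ℝ, a = 1 / (2 * (M:ℝ) ^ 2) := ⟨_, rfl⟩
  have ha : 0 < a := by rw [hadef]; positivity
  have hlim := lim_exp_nat ha hε 2
  have hlogp : ∀ᶠ T : ℝ in atTop, (Real.log T) ^ (3/2 : ℝ) ≤ T ^ (1 - 3 * θ) := by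
    have := isLittleO_log_rpow_rpow_atTop (3/2 : ℝ) hε
    filter_upwards [this.def (show (0:ℝ) < 1 by norm_num), eventually_gt_atTop 1] with T hT hT1
    have hl := Real.log_pos hT1
    rw [Real.norm_eq_abs, Real.norm_eq_abs, abs_of_pos (by positivity), abs_of_pos (by positivity), one_mul] at hT
    exact hT
  filter_upwards [hlim.eventually_lt_const (show (0:ℝ) < 1 by norm_num), hlogp, eventually_gt_atTop 1] with T h1 h2 hT
  have hT0 : 0 < T := by linarith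
  have hl : 0 < Real.log T := Real.log_pos hT
  obtain ⟨l, hld⟩ : ∃ l, l = (Real.log T) ^ (3/2 : ℝ) := ⟨_, rfl⟩
  have hl0 : 0 < l := by rw [hld]; positivity
  have hv : (vw T : ℝ) = T ^ 2 / l := by
    unfold vw
    rw [Real.coe_toNNReal _ (by positivity)]
    unfold Hw
    rw [div_pow, hld, ← Real.rpow_natCast ((Real.log T) ^ (3/4:ℝ)) 2, ← Real.rpow_mul hl.le]
    norm_num
  rw [← hld] at h2
  obtain ⟨N, hN⟩ : ∃ N, N = ⌊T ^ θ⌋₊ := ⟨_, rfl⟩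
  rw [← hN]
  have hN1 : 1 ≤ N := by
    rw [hN]
    apply Nat.le_floor
    simpa using Real.one_le_rpow hT.le hθ0.le
  have hN0 : (0:ℝ) < N := by exact_mod_cast hN1
  have hNle : (N:ℝ) ≤ T ^ θ := by rw [hN]; exact Nat.floor_le (by positivity)
  have hN6 : ((N:ℝ) ^ 3) ^ 2 ≤ T ^ (6 * θ) := by
    calc ((N:ℝ) ^ 3) ^ 2 = (N:ℝ) ^ 6 := by ring
      _ ≤ (T ^ θ) ^ 6 := by gcongr
      _ = T ^ (6 * θ) := by rw [← Real.rpow_natCast, ← Real.rpow_mul hT0.le]; congr 1; push_cast; ring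
  have hN6' : ((N:ℝ) ^ 3) ^ 2 ≤ T ^ 2 := by
    refine hN6.trans ?_
    rw [← Real.rpow_natCast T 2]
    apply Real.rpow_le_rpow_of_exponent_le hT.le
    push_cast
    linarith
  have hE : Real.exp (-(vw T : ℝ) / (2 * ((M * N ^ 3 : ℕ) : ℝ) ^ 2)) ≤ Real.exp (-(a * T ^ (1 - 3 * θ))) := by
    apply Real.exp_le_exp.mpr
    rw [neg_div, neg_le_neg_iff, hv, le_div_iff₀ (by positivity)]
    push_cast
    calc a * T ^ (1 - 3 * θ) * (2 * ((M:ℝ) * (N:ℝ) ^ 3) ^ 2) = T ^ (1 - 3 * θ) * ((N:ℝ) ^ 3) ^ 2 := by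
          rw [hadef]; field_simp
      _ ≤ T ^ (1 - 3 * θ) * T ^ (6 * θ) := by gcongr
      _ = T ^ 2 / T ^ (1 - 3 * θ) := by
          rw [eq_div_iff (by positivity), ← Real.rpow_natCast T 2, ← Real.rpow_add hT0, ← Real.rpow_add hT0]
          congr 1; push_cast; ring
      _ ≤ T ^ 2 / l := by gcongr
  calc ((N:ℝ) ^ 3) ^ 2 * Real.exp (-(vw T : ℝ) / (2 * ((M * N ^ 3 : ℕ) : ℝ) ^ 2)) ≤
      T ^ 2 * Real.exp (-(a * T ^ (1 - 3 * θ))) := by gcongr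
    _ ≤ 1 := h1.le

/-- ROW L1b. Proof: with `b = (cT (qP p) N)^3`, `X = N^3`: `‖PQ‖^6 = ‖dp b X (crit t)‖^2` (`dp_pow`, as in `g3_six`) `= ∑_{k,l ≤ X} b k b l (k l)^(-1/2) (l/k)^{it}`;
`b k ≠ 0` only for `k` coprime to `qP p` (product of three such). So for `b k b l ≠ 0` and `m = mP p a ≠ n = nP p a` (`mnP`): `m l ≠ n k` (if `m l = n k`, then `m ∣ n k`,
`m` coprime to `n` and to `k`, so `m = 1`, likewise `n = 1`), and `mF_xt`, `char_int_le` with `A = m l`, `B = n k`, `M = max m n * X` give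
`≤ (∑ b)^2 exp (-v/(2 M^2))`, `∑ b = (∑ cT)^3 ≤ N^3` (`sum_coeff_pow`). With `N = ⌊T^θ⌋₊`, `v = vw T = T^2/(log T)^(3/2)` this tends to `0` (as `g3_err`). -/
theorem six_char {η : ℝ} {θ : ℝ} (hθ0 : 0 < θ) (hθ : θ < 1/3) {r : ℕ} {p : Fin r → ℕ} (hp : ∀ i, (p i).Prime) (hinj : Function.Injective p)
    {a : Fin r → ℤ} (ha : a ≠ 0) : ∀ᶠ P : ℝ × ℝ in Fl η,
      ‖∫ t, ((‖PQ (qP p) ⌊P.1 ^ θ⌋₊ (crit t)‖ ^ 6 : ℝ) : ℂ) * UnitAddTorus.mFourier a (xt p t) ∂(gaussianReal P.2 (vw P.1))‖ ≤ 1 := by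
  obtain ⟨hm, hn, hmn, hne, hco⟩ := mnP hp hinj a
  have hne' := hne ha
  obtain ⟨m, hmd⟩ : ∃ m, m = mP p a := ⟨_, rfl⟩
  obtain ⟨n, hnd⟩ : ∃ n, n = nP p a := ⟨_, rfl⟩
  simp_rw [mF_xt hp a]
  rw [← hmd, ← hnd] at hmn hne'
  rw [← hmd] at hm
  rw [← hnd] at hn
  simp_rw [← hmd, ← hnd] at hco ⊢
  have hM : 1 ≤ max m n := le_max_of_le_left hm
  filter_upwards [(Fl_fst η).eventually (L1b_num hθ0 hθ hM)] with P hP
  obtain ⟨N, hN⟩ : ∃ N, N = ⌊P.1 ^ θ⌋₊ := ⟨_, rfl⟩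
  rw [← hN] at hP ⊢
  obtain ⟨q, hq⟩ : ∃ q, q = qP p := ⟨_, rfl⟩
  rw [← hq] at hco ⊢
  have hpow : ∀ t, dp (cT q N ^ 3) (N ^ 3) (crit t) = PQ q N (crit t) ^ 3 := fun t =>
    dp_pow (L1b_supp q N) (crit_ne_zero t) 3
  have e : ∀ t, ‖PQ q N (crit t)‖ ^ 6 = ‖dp (cT q N ^ 3) (N ^ 3) (crit t)‖ ^ 2 := fun t => by
    rw [hpow, norm_pow, ← pow_mul]
  simp_rw [e]
  have hb := pow_nonneg_af (L1b_nonneg q N) 3
  have h1 := L1b_bound hb (N ^ 3) hm hn (fun k l hk hl hk0 hl0 heq => by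
    have ck := L1b_cop q N 3 k hk0
    have cl := L1b_cop q N 3 l hl0
    obtain ⟨ckm, ckn⟩ := hco k ck
    obtain ⟨clm, cln⟩ := hco l cl
    have d1 : m ∣ n * k := ⟨l, heq.symm⟩
    have d2 : n ∣ m * l := ⟨k, heq⟩
    have m1 : m = 1 := by
      have := Nat.Coprime.dvd_of_dvd_mul_left hmn d1
      have h3 := Nat.dvd_gcd this (dvd_refl m)
      rw [ckm] at h3
      exact Nat.dvd_one.1 h3
    have n1 : n = 1 := by
      have := Nat.Coprime.dvd_of_dvd_mul_left hmn.symm d2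
      have h3 := Nat.dvd_gcd this (dvd_refl n)
      rw [cln] at h3
      exact Nat.dvd_one.1 h3
    exact hne' (m1.trans n1.symm)) P.2 (vw P.1)
  refine h1.trans ?_
  rw [sum_coeff_pow (L1b_supp q N)]
  refine le_trans ?_ hP
  have h0 : 0 ≤ ∑ n ∈ Finset.Icc 1 N, cT q N n := Finset.sum_nonneg fun n _ => L1b_nonneg q N n
  have hs := L1b_sum q N
  gcongr

/-- ROW L1c. Proof: exactly as in the proof of `g3_six` (LibM3/G3.lean), with `cT q N` instead of `halfTrunc N` (`mean_square`, `sum_coeff_pow`, `dp_pow`; `cT q N n ≤ halfTrunc N n`,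
so `g3_err` gives the bound of the error by `1`). -/
theorem six_zero {η : ℝ} {θ : ℝ} (hθ0 : 0 < θ) (hθ : θ < 1/3) (q : ℕ) : ∀ᶠ P : ℝ × ℝ in Fl η,
      |(∫ t, ‖PQ q ⌊P.1 ^ θ⌋₊ (crit t)‖ ^ 6 ∂(gaussianReal P.2 (vw P.1))) - diag (cT q ⌊P.1 ^ θ⌋₊ ^ 3) (⌊P.1 ^ θ⌋₊ ^ 3)| ≤ 1 := by
  filter_upwards [(Fl_fst η).eventually (g3_err hθ0 hθ)] with P he
  obtain ⟨N, hN⟩ : ∃ N, N = ⌊P.1 ^ θ⌋₊ := ⟨_, rfl⟩
  rw [← hN] at he ⊢
  obtain ⟨hv, he⟩ := he
  have hb := l1_cT_nonneg q N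
  have hx := l1_cT_supp q N
  have h3 := mean_square P.2 hv (pow_nonneg_af hb 3) (N ^ 3)
  rw [sum_coeff_pow hx] at h3
  have hBk : ∀ t, dp (cT q N ^ 3) (N ^ 3) (crit t) = PQ q N (crit t) ^ 3 :=
    fun t => dp_pow hx (crit_ne_zero t) 3
  have h4 : (∫ t, ‖PQ q N (crit t)‖ ^ 6 ∂(gaussianReal P.2 (vw P.1))) =
      ∫ t, ‖dp (cT q N ^ 3) (N ^ 3) (crit t)‖ ^ 2 ∂(gaussianReal P.2 (vw P.1)) := by
    congr 1; ext t; rw [hBk, norm_pow, ← pow_mul]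
  rw [h4]
  refine h3.trans (le_trans ?_ he)
  have h5 : ((∑ n ∈ Finset.Icc 1 N, cT q N n) ^ 3) ^ 2 ≤
      (∑ n ∈ Finset.Icc 1 N, halfTrunc N n) ^ (2 * 3) := by
    rw [← pow_mul]
    refine pow_le_pow_left₀ (Finset.sum_nonneg fun n _ => hb n) ?_ _
    exact Finset.sum_le_sum fun n _ => l1_cT_le q N n
  exact mul_le_mul_of_nonneg_left h5 (by positivity)

end Pool.Agent.LibLaw15
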