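import Pool.Agent.LibLaw15.L2
import Pool.Agent.LibLaw15.T7
import Pool.Agent.LibM3.G3

/-! Law of the prime phases, row L3. -/


set_option autoImplicit false

namespace Pool.Agent.LibLaw15

open MeasureTheory Set Filter Topology Complex ProbabilityTheory
open scoped NNReal ComplexConjugate
open Pool.Agent.LibZM Pool.Agent.LibM3

/-- ROW L3a. `cT 1 N = halfTrunc N`. -/
theorem cT_one (N : ℕ) : cT 1 N = halfTrunc N := by
  ext n
  simp [cT, halfTrunc]

/-- the comparison over a set of indices -/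
theorem L3_aux {r : ℕ} {p : Fin r → ℕ} (hp : ∀ i, (p i).Prime) (hinj : Function.Injective p) (E : ℕ)
    (s : Finset (Fin r)) : ∀ N : ℕ,
    (∏ i ∈ s, ∑ e ∈ Finset.range (E + 1), dcoef (3/2) e ^ 2 * (rp (p i) ^ 2) ^ e) *
        diag (cT (∏ i ∈ s, p i) N ^ 3) (N ^ 3) ≤
      diag (cT 1 ((∏ i ∈ s, p i) ^ E * N) ^ 3) (((∏ i ∈ s, p i) ^ E * N) ^ 3) := by
  classical
  induction s using Finset.induction_on with
  | empty =>
    intro N
    simp only [Finset.prod_empty, one_pow, one_mul]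
    exact le_rfl
  | insert i s hi ih =>
    intro N
    have hnd : ¬ p i ∣ ∏ j ∈ s, p j := by
      intro hd
      obtain ⟨j, hj, hdj⟩ := (Prime.dvd_finsetProd_iff (hp i).prime _).1 hd
      have h1 : p i = p j := (Nat.prime_dvd_prime_iff_eq (hp i) (hp j)).1 hdj
      exact hi (hinj h1 ▸ hj)
    have h1 := diag_step (hp i) hnd E (le_refl (p i ^ E)) N
    have h2 := ih (p i ^ E * N)
    have h0 : 0 ≤ ∏ j ∈ s, ∑ e ∈ Finset.range (E + 1), dcoef (3/2) e ^ 2 * (rp (p j) ^ 2) ^ e :=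
      Finset.prod_nonneg fun j _ => Finset.sum_nonneg fun e _ => by positivity
    have h3 := mul_le_mul_of_nonneg_left h1 h0
    have e1 : (∏ j ∈ insert i s, p j) = (∏ j ∈ s, p j) * p i := by
      rw [Finset.prod_insert hi, mul_comm]
    have e2 : (∏ j ∈ insert i s, p j) ^ E * N = (∏ j ∈ s, p j) ^ E * (p i ^ E * N) := by
      rw [e1, mul_pow, mul_assoc]
    rw [e2, Finset.prod_insert hi, e1]
    refine le_trans (le_of_eq ?_) (h3.trans h2)
    ring

/-- ROW L3b. All primes. Proof: induction over a finset `s` of indices: `(∏_{i ∈ s} ∑_{e ≤ E}) * diag (cT (∏_{i∈s} p i) N ^3) (N^3) ≤ diag (cT 1 ((∏_{i∈s} p i)^E * N) ^ 3) (..)`,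
with `diag_step` for `q = ∏_{i∈s} p i` (`p i₀ ∤ q`), `B = p i₀ ^ E`. (Order: to add `i₀`, apply the induction hypothesis at `N' = p i₀ ^ E * N` to `diag (cT q N')`.) -/
theorem diag_all {r : ℕ} {p : Fin r → ℕ} (hp : ∀ i, (p i).Prime) (hinj : Function.Injective p) (E N : ℕ) :
    (∏ i, ∑ e ∈ Finset.range (E + 1), dcoef (3/2) e ^ 2 * (rp (p i) ^ 2) ^ e) * diag (cT (qP p) N ^ 3) (N ^ 3) ≤
      diag (halfTrunc (qP p ^ E * N) ^ 3) ((qP p ^ E * N) ^ 3) := by
  have h := L3_aux hp hinj E Finset.univ N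
  rw [cT_one] at h
  exact h

theorem L4_mul_mono {f g f' g' : ArithmeticFunction ℝ} (hf : ∀ n, 0 ≤ f n) (hf' : ∀ n, 0 ≤ f' n)
    (hg : ∀ n, f n ≤ g n) (hg' : ∀ n, f' n ≤ g' n) (n : ℕ) : (f * f') n ≤ (g * g') n := by
  rw [ArithmeticFunction.mul_apply, ArithmeticFunction.mul_apply]
  apply Finset.sum_le_sum
  intro x _
  exact mul_le_mul (hg _) (hg' _) (hf' _) ((hf _).trans (hg _))

theorem L4_pow_mono {f g : ArithmeticFunction ℝ} (hf : ∀ n, 0 ≤ f n) (hg : ∀ n, f n ≤ g n) (k n : ℕ) :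
    (f ^ k) n ≤ (g ^ k) n := by
  induction k generalizing n with
  | zero => simp
  | succ k ih =>
    rw [pow_succ, pow_succ]
    exact L4_mul_mono (pow_nonneg_af hf k) hf ih hg n

theorem L4_diag_mono {x y : ℕ} (h : x ≤ y) : diag (halfTrunc x ^ 3) (x ^ 3) ≤ diag (halfTrunc y ^ 3) (y ^ 3) := by
  have h0 := halfTrunc_nonneg x
  have h1 : ∀ n, halfTrunc x n ≤ halfTrunc y n := by
    intro n
    rw [halfTrunc_apply, halfTrunc_apply]
    by_cases hn : n ≤ x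
    · rw [if_pos hn, if_pos (hn.trans h)]
    · rw [if_neg hn]
      have := halfTrunc_nonneg y n
      rwa [halfTrunc_apply] at this
  unfold diag
  calc ∑ q ∈ Finset.Icc 1 (x ^ 3), ((halfTrunc x ^ 3) q) ^ 2 * (q:ℝ)⁻¹
      ≤ ∑ q ∈ Finset.Icc 1 (x ^ 3), ((halfTrunc y ^ 3) q) ^ 2 * (q:ℝ)⁻¹ := by
        apply Finset.sum_le_sum
        intro q _
        have h2 := L4_pow_mono h0 h1 3 q
        have h3 := pow_nonneg_af h0 3 q
        gcongr
    _ ≤ ∑ q ∈ Finset.Icc 1 (y ^ 3), ((halfTrunc y ^ 3) q) ^ 2 * (q:ℝ)⁻¹ := by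
        apply Finset.sum_le_sum_of_subset_of_nonneg
        · apply Finset.Icc_subset_Icc_right
          exact Nat.pow_le_pow_left h 3
        · intro q _ _
          positivity

/-- ROW L4. Upper bound for the sixth moment of the polynomial over integers coprime to the primes.
Proof. `MT p 1 = ∏ Gsum (3/2) (rp (p i)^2)` (`MT_one_pos`) is the limit of `∏ ∑_{e ≤ E}` as `E → ∞` (`summable_G`), so choose `E` and `c' > Aconst (3/2) * g3_V` with
`c' / ∏ ∑_{e ≤ E} < c`. With `θ < θ' < 1/3`: `qP p ^ E * ⌊T^θ⌋₊ ≤ ⌊T^θ'⌋₊` for large `T`, `diag (halfTrunc x ^3) (x^3)` is monotone in `x` (`halfTrunc` is, pointwise; powers of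
nonnegative functions are, pointwise), `g3_diag` at `θ'` with `c'`, and `diag_all`. -/
theorem six_upper {θ : ℝ} (hθ0 : 0 < θ) (hθ : θ < 1/3) {r : ℕ} {p : Fin r → ℕ} (hp : ∀ i, (p i).Prime) (hinj : Function.Injective p)
    {c : ℝ} (hc : Aconst (3/2) * g3_V / MT p 1 < c) :
    ∀ᶠ T : ℝ in atTop, diag (cT (qP p) ⌊T ^ θ⌋₊ ^ 3) (⌊T ^ θ⌋₊ ^ 3) ≤ c * (Real.log T) ^ (9/4 : ℝ) := by
  obtain ⟨hM, hMG⟩ := MT_one_pos hp
  have hr := fun i => rp_mem (hp i)
  have hr2 : ∀ i, rp (p i) ^ 2 < 1 := by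
    intro i
    have := (hr i).1
    have := (hr i).2.1
    nlinarith
  have hA := Aconst_pos (κ := 3/2) (by norm_num)
  have hV := g3_V_pos
  have hK : 0 < Aconst (3/2) * g3_V := mul_pos hA hV
  have hc0 : 0 < c := lt_trans (div_pos hK hM) hc
  have hcM : Aconst (3/2) * g3_V < c * MT p 1 := by
    rwa [div_lt_iff₀ hM] at hc
  -- the partial products
  have hlim : Tendsto (fun E : ℕ => c * ∏ i, ∑ e ∈ Finset.range (E + 1), dcoef (3/2) e ^ 2 * (rp (p i) ^ 2) ^ e)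
      atTop (𝓝 (c * MT p 1)) := by
    rw [hMG]
    apply Tendsto.const_mul
    apply tendsto_finsetProd
    intro i _
    have h1 := (summable_G (κ := 3/2) (by norm_num) (sq_nonneg (rp (p i))) (hr2 i)).hasSum.tendsto_sum_nat
    exact h1.comp (tendsto_add_atTop_nat 1)
  obtain ⟨E, hE⟩ := (hlim.eventually (lt_mem_nhds hcM)).exists
  set SE : ℝ := ∏ i, ∑ e ∈ Finset.range (E + 1), dcoef (3/2) e ^ 2 * (rp (p i) ^ 2) ^ e with hSE
  have hSE0 : 0 < SE := by
    by_contra hneg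
    push Not at hneg
    have : c * SE ≤ 0 := mul_nonpos_of_nonneg_of_nonpos hc0.le hneg
    linarith
  obtain ⟨θ', h1, h2⟩ := exists_between hθ
  have hq : 0 < θ' := hθ0.trans h1
  have hev := g3_diag hq h2 hE
  have hgrow : ∀ᶠ T : ℝ in atTop, ((qP p ^ E : ℕ) : ℝ) ≤ T ^ (θ' - θ) :=
    (tendsto_rpow_atTop (by linarith : 0 < θ' - θ)).eventually (eventually_ge_atTop _)
  filter_upwards [hev, hgrow, eventually_gt_atTop 1] with T h3 h4 hT
  have hT0 : 0 < T := by linarith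
  have h5 : qP p ^ E * ⌊T ^ θ⌋₊ ≤ ⌊T ^ θ'⌋₊ := by
    apply Nat.le_floor
    push_cast
    have h6 : (⌊T ^ θ⌋₊ : ℝ) ≤ T ^ θ := Nat.floor_le (by positivity)
    push_cast at h4
    calc (qP p : ℝ) ^ E * (⌊T ^ θ⌋₊ : ℝ) ≤ T ^ (θ' - θ) * T ^ θ := by
          apply mul_le_mul h4 h6 (by positivity) (by positivity)
      _ = T ^ θ' := by
          rw [← Real.rpow_add hT0]
          congr 1
          ring
  have h7 := (diag_all hp hinj E ⌊T ^ θ⌋₊).trans ((L4_diag_mono h5).trans h3)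
  rw [← hSE] at h7
  have h8 : SE * diag (cT (qP p) ⌊T ^ θ⌋₊ ^ 3) (⌊T ^ θ⌋₊ ^ 3) ≤ SE * (c * (Real.log T) ^ (9/4 : ℝ)) := by
    calc _ ≤ _ := h7
      _ = _ := by ring
  exact le_of_mul_le_mul_left h8 hSE0

end Pool.Agent.LibLaw15
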