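import Pool.Agent.LibLaw15.E1b
import Pool.Agent.LibLaw15.L1
import Pool.Agent.LibLaw15.L3

/-! Law of the prime phases, row E4. -/


set_option autoImplicit false

namespace Pool.Agent.LibLaw15

open MeasureTheory Set Filter Topology Complex ProbabilityTheory
open scoped NNReal ComplexConjugate
open Pool.Agent.LibZM Pool.Agent.LibM3

theorem e4_fourier {n : ℤ} (hn : n ≠ 0) : ∫ x : UnitAddCircle, fourier n x ∂(AddCircle.haarAddCircle) = (0:ℂ) := by
  have h := integral_eq_zero_of_add_right_eq_neg (μ := (AddCircle.haarAddCircle : Measure UnitAddCircle))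
    (f := fun x : UnitAddCircle => fourier n x) (fourier_add_half_inv_index hn (by norm_num))
  exact h

theorem e4_char {r : ℕ} (p : Fin r → ℕ) {a : Fin r → ℤ} (ha : a ≠ 0) :
    ∫ x, UnitAddTorus.mFourier a x * (((1:ℝ) : ℝ) : ℂ) ∂(muT r) = 0 := by
  have h := torus_prod p a 0
  simp only [pow_zero] at h
  rw [h]
  obtain ⟨i, hi⟩ : ∃ i, a i ≠ 0 := by
    by_contra hcon
    push Not at hcon
    exact ha (funext hcon)
  refine Finset.prod_eq_zero (Finset.mem_univ i) ?_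
  simp only [Complex.ofReal_one, mul_one]
  exact e4_fourier hi

theorem e4_char_zero (r : ℕ) : ∫ x, UnitAddTorus.mFourier (0 : Fin r → ℤ) x * (((1:ℝ) : ℝ) : ℂ) ∂(muT r) = 1 := by
  have h1 : ∀ x : Tor r, UnitAddTorus.mFourier (0 : Fin r → ℤ) x * (((1:ℝ) : ℝ) : ℂ) = 1 := by
    intro x
    simp [UnitAddTorus.mFourier]
  simp_rw [h1]
  simp

theorem e4_cT_nonneg (q N n : ℕ) : 0 ≤ cT q N n := by
  unfold cT
  simp only [ArithmeticFunction.coe_mk]
  split_ifs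
  · exact tau_nonneg (by norm_num) n
  · exact le_rfl

theorem e4_small {α : Type*} {l : Filter α} {X : α → ℂ} {Nm : α → ℝ} (hX : ∀ᶠ P in l, ‖X P‖ ≤ 1) (hN : Tendsto Nm l atTop) :
    Tendsto (fun P => X P / ((Nm P : ℝ) : ℂ)) l (𝓝 0) := by
  rw [tendsto_zero_iff_norm_tendsto_zero]
  have h1 : Tendsto (fun P => (Nm P)⁻¹) l (𝓝 0) := tendsto_inv_atTop_zero.comp hN
  refine tendsto_of_tendsto_of_tendsto_of_le_of_le' tendsto_const_nhds h1 (Eventually.of_forall fun P => norm_nonneg _) ?_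
  filter_upwards [hX, hN.eventually_gt_atTop 0] with P h2 h3
  rw [norm_div, Complex.norm_real, Real.norm_eq_abs, abs_of_pos h3, div_eq_mul_inv]
  exact mul_le_of_le_one_left (by positivity) h2

/-- ROW E4. The law of the phases under the sixth moment of the polynomial over integers coprime to the primes.
Proof. `equi_meas` with `μ P = gaussianReal P.2 (vw P.1)`, `g P t = ‖PQ‖^6`, `V = 1`, `κ P = diag`, `Nm P = (log P.1)^(9/4)`. For `a ≠ 0` the character has integral `0` over the torus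
(`torus_prod` with `k = 0`, `poisson`-free: `∫ fourier n = 0` for `n ≠ 0`, e.g. `circ_series`) and `six_char`; for `a = 0`: `six_zero`, `mFourier 0 = 1`. Bounds: `six_upper` and `six_zero`.
Integrability: bounded continuous (`norm_dp_crit_le`). -/
theorem law_six {η : ℝ} {θ : ℝ} (hθ0 : 0 < θ) (hθ : θ < 1/3) {r : ℕ} {p : Fin r → ℕ} (hp : ∀ i, (p i).Prime) (hinj : Function.Injective p)
    {w : Tor r → ℝ} (hw : Continuous w) :
    Tendsto (fun P : ℝ × ℝ => ((∫ t, ‖PQ (qP p) ⌊P.1 ^ θ⌋₊ (crit t)‖ ^ 6 * w (xt p t) ∂(gaussianReal P.2 (vw P.1))) -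
      diag (cT (qP p) ⌊P.1 ^ θ⌋₊ ^ 3) (⌊P.1 ^ θ⌋₊ ^ 3) * ∫ x, w x ∂(muT r)) / (Real.log P.1) ^ (9/4 : ℝ)) (Fl η) (𝓝 0) := by
  have hlog : Tendsto (fun P : ℝ × ℝ => Real.log P.1) (Fl η) atTop := Real.tendsto_log_atTop.comp (Fl_fst η)
  have hNm : Tendsto (fun P : ℝ × ℝ => (Real.log P.1) ^ (9/4 : ℝ)) (Fl η) atTop := (tendsto_rpow_atTop (by norm_num)).comp hlog
  obtain ⟨c, hc⟩ : ∃ c, Aconst (3/2) * g3_V / MT p 1 < c := ⟨_, lt_add_one _⟩
  have hup := (Fl_fst η).eventually (six_upper hθ0 hθ hp hinj hc)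
  have hze := six_zero (η := η) hθ0 hθ (qP p)
  have hD0 : ∀ P : ℝ × ℝ, 0 ≤ diag (cT (qP p) ⌊P.1 ^ θ⌋₊ ^ 3) (⌊P.1 ^ θ⌋₊ ^ 3) := fun P => by
    unfold diag
    exact Finset.sum_nonneg fun n _ => by positivity
  have hgi : ∀ P : ℝ × ℝ, Integrable (fun t => ‖PQ (qP p) ⌊P.1 ^ θ⌋₊ (crit t)‖ ^ 6) (gaussianReal P.2 (vw P.1)) := by
    intro P
    have hBc : Continuous (fun t : ℝ => PQ (qP p) ⌊P.1 ^ θ⌋₊ (crit t)) := continuous_dp_crit _ _
    refine Integrable.mono' (g := fun _ => (∑ n ∈ Finset.Icc 1 ⌊P.1 ^ θ⌋₊, cT (qP p) ⌊P.1 ^ θ⌋₊ n) ^ 6) (integrable_const _)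
      (hBc.norm.pow 6).aestronglyMeasurable (Eventually.of_forall fun t => ?_)
    rw [Real.norm_eq_abs, abs_of_nonneg (by positivity)]
    have : ‖PQ (qP p) ⌊P.1 ^ θ⌋₊ (crit t)‖ ≤ ∑ n ∈ Finset.Icc 1 ⌊P.1 ^ θ⌋₊, cT (qP p) ⌊P.1 ^ θ⌋₊ n :=
      norm_dp_crit_le (e4_cT_nonneg _ _) _ t
    gcongr
  have hmain := equi_meas (r := r) (l := Fl η) (ξ := xt p) (xt_continuous p) (μ := fun P => gaussianReal P.2 (vw P.1))
    (g := fun P t => ‖PQ (qP p) ⌊P.1 ^ θ⌋₊ (crit t)‖ ^ 6) (fun P t => by positivity) (Eventually.of_forall hgi)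
    (V := fun _ => (1:ℝ)) continuous_const
    (κ := fun P => ((diag (cT (qP p) ⌊P.1 ^ θ⌋₊ ^ 3) (⌊P.1 ^ θ⌋₊ ^ 3) : ℝ) : ℂ))
    (Nm := fun P => (Real.log P.1) ^ (9/4 : ℝ)) (hNm.eventually_gt_atTop 0) (B := c + 1)
    (by
      filter_upwards [hup, hze, hNm.eventually_ge_atTop 1] with P h1 h2 h3
      have h4 := (abs_le.mp h2).2
      nlinarith)
    (by
      filter_upwards [hup, hNm.eventually_ge_atTop 1] with P h1 h3
      rw [Complex.norm_real, Real.norm_eq_abs, abs_of_nonneg (hD0 P)]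
      nlinarith)
    (by
      intro a
      rcases eq_or_ne a 0 with rfl | ha
      · refine e4_small ?_ hNm
        filter_upwards [hze] with P h2
        rw [e4_char_zero, mul_one]
        have e1 : ∀ t, ((‖PQ (qP p) ⌊P.1 ^ θ⌋₊ (crit t)‖ ^ 6 : ℝ) : ℂ) * UnitAddTorus.mFourier (0 : Fin r → ℤ) (xt p t) =
            ((‖PQ (qP p) ⌊P.1 ^ θ⌋₊ (crit t)‖ ^ 6 : ℝ) : ℂ) := fun t => by
          simp [UnitAddTorus.mFourier]
        simp_rw [e1]
        have e2 : ∫ t, ((‖PQ (qP p) ⌊P.1 ^ θ⌋₊ (crit t)‖ ^ 6 : ℝ) : ℂ) ∂(gaussianReal P.2 (vw P.1)) =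
            ((∫ t, ‖PQ (qP p) ⌊P.1 ^ θ⌋₊ (crit t)‖ ^ 6 ∂(gaussianReal P.2 (vw P.1)) : ℝ) : ℂ) := integral_ofReal
        rw [e2, ← Complex.ofReal_sub, Complex.norm_real, Real.norm_eq_abs]
        exact h2
      · refine e4_small ?_ hNm
        filter_upwards [six_char (η := η) hθ0 hθ hp hinj ha] with P h2
        rw [e4_char p ha, mul_zero, sub_zero]
        exact h2) hw
  have hre := (Complex.continuous_re.tendsto 0).comp hmain
  rw [Complex.zero_re] at hre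
  refine hre.congr fun P => ?_
  simp only [Function.comp_apply, mul_one]
  rw [← Complex.ofReal_mul, ← Complex.ofReal_sub, ← Complex.ofReal_div, Complex.ofReal_re]

end Pool.Agent.LibLaw15
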