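import Pool.Agent.LibLaw15.A6
import Pool.Agent.LibZM.CS9

/-! Law of the prime phases, row L2. -/


set_option autoImplicit false

namespace Pool.Agent.LibLaw15

open MeasureTheory Set Filter Topology Complex ProbabilityTheory
open scoped NNReal ComplexConjugate
open Pool.Agent.LibZM Pool.Agent.LibM3

/-- `τ_{1/2}` restricted to the divisors of `p ^ E`. -/
noncomputable def L2_e (p E : ℕ) : ArithmeticFunction ℝ :=
  ⟨fun n => if n ∣ p ^ E then tau (1/2) n else 0, by simp⟩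

theorem L2_e_apply (p E n : ℕ) : L2_e p E n = if n ∣ p ^ E then tau (1/2) n else 0 := rfl

theorem L2_cT_apply (q N n : ℕ) :
    cT q N n = if n ≤ N ∧ Nat.Coprime n q then tau (1/2) n else 0 := rfl

theorem L2_e_nonneg (p E n : ℕ) : 0 ≤ L2_e p E n := by
  rw [L2_e_apply]
  split_ifs
  · exact tau_nonneg (by norm_num) n
  · exact le_rfl

theorem L2_cT_nonneg (q N n : ℕ) : 0 ≤ cT q N n := by
  rw [L2_cT_apply]
  split_ifs
  · exact tau_nonneg (by norm_num) n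
  · exact le_rfl

theorem L2_mul_nonneg {f g : ArithmeticFunction ℝ} (hf : ∀ n, 0 ≤ f n) (hg : ∀ n, 0 ≤ g n) (n : ℕ) :
    0 ≤ (f * g) n := by
  rw [ArithmeticFunction.mul_apply]
  exact Finset.sum_nonneg fun x _ => mul_nonneg (hf _) (hg _)

theorem L2_mono {f g f' g' : ArithmeticFunction ℝ} (hf : ∀ n, 0 ≤ f n) (hg : ∀ n, 0 ≤ g n)
    (hff : ∀ n, f n ≤ f' n) (hgg : ∀ n, g n ≤ g' n) (n : ℕ) : (f * g) n ≤ (f' * g') n := by
  rw [ArithmeticFunction.mul_apply, ArithmeticFunction.mul_apply]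
  exact Finset.sum_le_sum fun x _ =>
    mul_le_mul (hff _) (hgg _) (hg _) ((hf _).trans (hff _))

theorem L2_supp {f g : ArithmeticFunction ℝ} {P : ℕ} (hf : ∀ n, f n ≠ 0 → Nat.Coprime n P)
    (hg : ∀ n, g n ≠ 0 → Nat.Coprime n P) (n : ℕ) (h : (f * g) n ≠ 0) : Nat.Coprime n P := by
  rw [ArithmeticFunction.mul_apply] at h
  obtain ⟨z, hz, hne⟩ := Finset.exists_ne_zero_of_sum_ne_zero h
  have hz' := Nat.mem_divisorsAntidiagonal.1 hz
  rw [← hz'.1]
  exact Nat.Coprime.mul_left (hf _ (left_ne_zero_of_mul hne)) (hg _ (right_ne_zero_of_mul hne))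

theorem L2_uniq {p : ℕ} (hp : p.Prime) {i j y y' : ℕ} (h : p ^ i * y = p ^ j * y')
    (hy : Nat.Coprime y p) (hy' : Nat.Coprime y' p) : i = j ∧ y = y' := by
  have key : ∀ {i j y y' : ℕ}, p ^ i * y = p ^ j * y' → Nat.Coprime y' p → i ≤ j := by
    intro i j y y' h hy'
    have h1 : p ^ i ∣ p ^ j * y' := ⟨y, h.symm⟩
    have h2 : p ^ i ∣ p ^ j := Nat.Coprime.dvd_of_dvd_mul_right (Nat.Coprime.pow_left i hy'.symm) h1
    exact (Nat.pow_dvd_pow_iff_le_right hp.one_lt).1 h2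
  have hij : i = j := le_antisymm (key h hy') (key h.symm hy)
  subst hij
  exact ⟨rfl, Nat.eq_of_mul_eq_mul_left (pow_pos hp.pos i) h⟩

theorem L2_step1 {p : ℕ} (hp : p.Prime) {q : ℕ} (hq : ¬ p ∣ q) (E : ℕ) {B : ℕ} (hB : p ^ E ≤ B)
    (N n : ℕ) : (L2_e p E * cT (q * p) N) n ≤ cT q (B * N) n := by
  rw [ArithmeticFunction.mul_apply]
  have key : ∀ z ∈ n.divisorsAntidiagonal, L2_e p E z.1 * cT (q * p) N z.2 ≠ 0 →
      ∃ i ≤ E, z.1 = p ^ i ∧ z.2 ≤ N ∧ Nat.Coprime z.2 (q * p) := by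
    intro z _ hne
    have h1 := left_ne_zero_of_mul hne
    have h2 := right_ne_zero_of_mul hne
    rw [L2_e_apply] at h1
    rw [L2_cT_apply] at h2
    have h3 : z.1 ∣ p ^ E := by
      by_contra hc
      exact h1 (if_neg hc)
    have h4 : z.2 ≤ N ∧ Nat.Coprime z.2 (q * p) := by
      by_contra hc
      exact h2 (if_neg hc)
    obtain ⟨i, hi, hzi⟩ := (Nat.dvd_prime_pow hp).1 h3
    exact ⟨i, hi, hzi, h4⟩
  by_cases H : ∀ z ∈ n.divisorsAntidiagonal, L2_e p E z.1 * cT (q * p) N z.2 = 0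
  · rw [Finset.sum_eq_zero H]
    exact L2_cT_nonneg _ _ _
  · push Not at H
    obtain ⟨z, hz, hne⟩ := H
    have hz' := Nat.mem_divisorsAntidiagonal.1 hz
    obtain ⟨i, hi, hzi, hzN, hzc⟩ := key z hz hne
    have hcp : Nat.Coprime z.2 p := Nat.Coprime.coprime_mul_left_right hzc
    have hcq : Nat.Coprime z.2 q := Nat.Coprime.coprime_mul_right_right hzc
    rw [Finset.sum_eq_single z]
    · have hpi : z.1 ∣ p ^ E := by rw [hzi]; exact pow_dvd_pow _ hi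
      rw [L2_e_apply, if_pos hpi, L2_cT_apply, if_pos ⟨hzN, hzc⟩]
      have hc1 : Nat.Coprime z.1 z.2 := by rw [hzi]; exact Nat.Coprime.pow_left _ hcp.symm
      rw [← (tau_isMultiplicative (1/2)).map_mul_of_coprime hc1, hz'.1, L2_cT_apply, if_pos]
      refine ⟨?_, ?_⟩
      · rw [← hz'.1]
        refine Nat.mul_le_mul ?_ hzN
        rw [hzi]
        exact (Nat.pow_le_pow_right hp.pos hi).trans hB
      · rw [← hz'.1, hzi]
        exact Nat.Coprime.mul_left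
          (Nat.Coprime.pow_left _ ((Nat.Prime.coprime_iff_not_dvd hp).2 hq)) hcq
    · intro z' hz'' hzz
      by_contra hne'
      obtain ⟨j, hj, hzj, hzN', hzc'⟩ := key z' hz'' hne'
      have h1 := Nat.mem_divisorsAntidiagonal.1 hz''
      have h2 : p ^ j * z'.2 = p ^ i * z.2 := by rw [← hzi, ← hzj, hz'.1, h1.1]
      obtain ⟨h3, h4⟩ := L2_uniq hp h2 (Nat.Coprime.coprime_mul_left_right hzc') hcp
      exact hzz (Prod.ext (by rw [hzj, hzi, h3]) h4)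
    · intro h
      exact absurd hz h

theorem L2_e_pow {p : ℕ} (hp : p.Prime) {E i : ℕ} (hi : i ≤ E) :
    L2_e p E (p ^ i) = dcoef (1/2) i := by
  rw [L2_e_apply, if_pos (pow_dvd_pow _ hi), tau_prime_pow _ hp]

theorem L2_e3 {p : ℕ} (hp : p.Prime) {E i : ℕ} (hi : i ≤ E) :
    (L2_e p E ^ 3) (p ^ i) = dcoef (3/2) i := by
  have h2 : ∀ j ≤ E, (L2_e p E * L2_e p E) (p ^ j) = dcoef 1 j := by
    intro j hj
    rw [mul_apply_prime_pow _ _ hp, show (1 : ℝ) = 1/2 + 1/2 by norm_num, ← dcoef_add]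
    refine Finset.sum_congr rfl fun k hk => ?_
    rw [Finset.mem_range] at hk
    rw [L2_e_pow hp (by omega), L2_e_pow hp (by omega)]
  rw [show L2_e p E ^ 3 = L2_e p E * L2_e p E * L2_e p E by ring,
    mul_apply_prime_pow _ _ hp, show (3/2 : ℝ) = 1 + 1/2 by norm_num, ← dcoef_add]
  refine Finset.sum_congr rfl fun k hk => ?_
  rw [Finset.mem_range] at hk
  rw [h2 k (by omega), L2_e_pow hp (by omega)]

/-- ROW L2. One step of the comparison of the sixth moments (`diag c X = ∑_{q ≤ X} c q ^ 2 / q`).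
Proof. Let `g = cT (q*p) N`, `f = cT q (B*N)`, `e` the arithmetic function with `e (p^i) = dcoef (1/2) i` for `i ≤ E`, `0` elsewhere. Pointwise `e * g ≤ f`
(`(e * g) (p^i c) = dcoef (1/2) i * g c` for `p ∤ c`, `i ≤ E`, zero otherwise; `p^i c ≤ B N`, coprime to `q`, `tau` multiplicative), all are `≥ 0`, so `(e*g)^3 = e^3 * g^3 ≤ f^3`
pointwise. For `p ∤ c`, `i ≤ E`: `(e^3 * g^3) (p^i c) = e^3 (p^i) * g^3 c` (`g^3` vanishes on multiples of `p`, `e^3` outside the powers of `p`) and `e^3 (p^i) = dcoef (3/2) i`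
(`mul_apply_prime_pow`, `dcoef_add`). So `∑_{n ≤ (BN)^3} (f^3 n)^2/n ≥ ∑_{i ≤ E} ∑_{c ≤ N^3, p ∤ c} (dcoef (3/2) i)^2 (g^3 c)^2 / (p^i c)` (the map `(i,c) ↦ p^i c` is injective on `p ∤ c`,
`p^i c ≤ B N^3 ≤ (B N)^3`), and `g^3 c = 0` if `p ∣ c`. -/
theorem diag_step {p : ℕ} (hp : p.Prime) {q : ℕ} (hq : ¬ p ∣ q) (E : ℕ) {B : ℕ} (hB : p ^ E ≤ B) (N : ℕ) :
    (∑ i ∈ Finset.range (E + 1), dcoef (3/2) i ^ 2 * (rp p ^ 2) ^ i) * diag (cT (q * p) N ^ 3) (N ^ 3) ≤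
      diag (cT q (B * N) ^ 3) ((B * N) ^ 3) := by
  classical
  set e := L2_e p E with he
  set g := cT (q * p) N with hg
  set f := cT q (B * N) with hf
  have he0 : ∀ n, 0 ≤ e n := L2_e_nonneg p E
  have hg0 : ∀ n, 0 ≤ g n := L2_cT_nonneg _ _
  have hf0 : ∀ n, 0 ≤ f n := L2_cT_nonneg _ _
  have heg0 : ∀ n, 0 ≤ (e * g) n := L2_mul_nonneg he0 hg0
  have he3 : ∀ n, 0 ≤ (e ^ 3) n := by
    rw [show e ^ 3 = e * e * e by ring]
    exact L2_mul_nonneg (L2_mul_nonneg he0 he0) he0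
  have hg3 : ∀ n, 0 ≤ (g ^ 3) n := by
    rw [show g ^ 3 = g * g * g by ring]
    exact L2_mul_nonneg (L2_mul_nonneg hg0 hg0) hg0
  have hle : ∀ n, (e * g) n ≤ f n := L2_step1 hp hq E hB N
  have hle3 : ∀ n, (e ^ 3 * g ^ 3) n ≤ (f ^ 3) n := by
    rw [show e ^ 3 * g ^ 3 = (e * g) * (e * g) * (e * g) by ring, show f ^ 3 = f * f * f by ring]
    exact L2_mono (L2_mul_nonneg heg0 heg0) heg0 (L2_mono heg0 heg0 hle hle) hle
  have hgs : ∀ n, g n ≠ 0 → Nat.Coprime n p := by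
    intro n hn
    rw [hg, L2_cT_apply] at hn
    have h4 : n ≤ N ∧ Nat.Coprime n (q * p) := by
      by_contra hc
      exact hn (if_neg hc)
    exact Nat.Coprime.coprime_mul_left_right h4.2
  have hg3s : ∀ n, (g ^ 3) n ≠ 0 → Nat.Coprime n p := by
    rw [show g ^ 3 = g * g * g by ring]
    exact L2_supp (L2_supp hgs hgs) hgs
  have hterm : ∀ i ≤ E, ∀ c, 1 ≤ c → dcoef (3/2) i * (g ^ 3) c ≤ (f ^ 3) (p ^ i * c) := by
    intro i hi c hc
    refine le_trans ?_ (hle3 _)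
    rw [ArithmeticFunction.mul_apply, ← L2_e3 hp hi]
    refine Finset.single_le_sum (f := fun x : ℕ × ℕ => (e ^ 3) x.1 * (g ^ 3) x.2)
      (a := (p ^ i, c)) (fun x _ => mul_nonneg (he3 _) (hg3 _)) ?_
    rw [Nat.mem_divisorsAntidiagonal]
    exact ⟨rfl, Nat.mul_ne_zero (pow_ne_zero _ hp.ne_zero) (by omega)⟩
  have hB1 : 1 ≤ B := (Nat.one_le_pow _ _ hp.pos).trans hB
  have hrp : rp p ^ 2 = (p:ℝ)⁻¹ := (rp_mem hp).2.2
  unfold diag
  rw [Finset.sum_mul_sum, ← Finset.sum_product']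
  rw [← Finset.sum_filter_of_ne (p := fun x : ℕ × ℕ => Nat.Coprime x.2 p)]
  · have hinj : Set.InjOn (fun x : ℕ × ℕ => p ^ x.1 * x.2)
        ((Finset.range (E + 1) ×ˢ Finset.Icc 1 (N ^ 3)).filter fun x : ℕ × ℕ => Nat.Coprime x.2 p) := by
      intro x hx y hy hxy
      rw [Finset.mem_coe, Finset.mem_filter] at hx hy
      obtain ⟨h3, h4⟩ := L2_uniq hp hxy hx.2 hy.2
      exact Prod.ext h3 h4
    calc ∑ x ∈ (Finset.range (E + 1) ×ˢ Finset.Icc 1 (N ^ 3)).filter (fun x : ℕ × ℕ => Nat.Coprime x.2 p),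
          dcoef (3/2) x.1 ^ 2 * (rp p ^ 2) ^ x.1 * ((g ^ 3) x.2 ^ 2 * (x.2 : ℝ)⁻¹)
        ≤ ∑ x ∈ (Finset.range (E + 1) ×ˢ Finset.Icc 1 (N ^ 3)).filter (fun x : ℕ × ℕ => Nat.Coprime x.2 p),
          (f ^ 3) (p ^ x.1 * x.2) ^ 2 * ((p ^ x.1 * x.2 : ℕ) : ℝ)⁻¹ := by
          refine Finset.sum_le_sum fun x hx => ?_
          rw [Finset.mem_filter, Finset.mem_product, Finset.mem_range, Finset.mem_Icc] at hx
          have h1 := hterm x.1 (by omega) x.2 hx.1.2.1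
          have h0 : 0 ≤ dcoef (3/2) x.1 * (g ^ 3) x.2 :=
            mul_nonneg (dcoef_nonneg (by norm_num) _) (hg3 _)
          have h2 : (dcoef (3/2) x.1 * (g ^ 3) x.2) ^ 2 ≤ (f ^ 3) (p ^ x.1 * x.2) ^ 2 :=
            pow_le_pow_left₀ h0 h1 2
          calc dcoef (3/2) x.1 ^ 2 * (rp p ^ 2) ^ x.1 * ((g ^ 3) x.2 ^ 2 * (x.2 : ℝ)⁻¹)
              = (dcoef (3/2) x.1 * (g ^ 3) x.2) ^ 2 * ((p ^ x.1 * x.2 : ℕ) : ℝ)⁻¹ := by
                rw [hrp]
                push_cast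
                rw [mul_inv, inv_pow]
                ring
            _ ≤ _ := mul_le_mul_of_nonneg_right h2 (by positivity)
      _ = ∑ n ∈ ((Finset.range (E + 1) ×ˢ Finset.Icc 1 (N ^ 3)).filter
            (fun x : ℕ × ℕ => Nat.Coprime x.2 p)).image (fun x : ℕ × ℕ => p ^ x.1 * x.2),
            (f ^ 3) n ^ 2 * (n : ℝ)⁻¹ := (Finset.sum_image
              (f := fun n : ℕ => (f ^ 3) n ^ 2 * (n : ℝ)⁻¹) hinj).symm
      _ ≤ _ := by
          refine Finset.sum_le_sum_of_subset_of_nonneg ?_ fun n _ _ => by positivity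
          intro n hn
          rw [Finset.mem_image] at hn
          obtain ⟨x, hx, rfl⟩ := hn
          rw [Finset.mem_filter, Finset.mem_product, Finset.mem_range, Finset.mem_Icc] at hx
          rw [Finset.mem_Icc]
          refine ⟨Nat.mul_pos (pow_pos hp.pos _) hx.1.2.1, ?_⟩
          rw [mul_pow]
          refine Nat.mul_le_mul ?_ hx.1.2.2
          calc p ^ x.1 ≤ p ^ E := Nat.pow_le_pow_right hp.pos (by omega)
            _ ≤ B := hB
            _ = B ^ 1 := (pow_one B).symm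
            _ ≤ B ^ 3 := Nat.pow_le_pow_right hB1 (by norm_num)
  · intro x _ hne
    refine hg3s _ fun h0 => hne ?_
    rw [h0]
    ring

end Pool.Agent.LibLaw15
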