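import Pool.Agent.LibLaw15.A11
import Pool.Agent.LibLaw15.A4
import Pool.Agent.LibLaw15.T8
import Pool.Agent.LibM3.G2

/-! Law of the prime phases, row L5. -/


set_option autoImplicit false

namespace Pool.Agent.LibLaw15

open MeasureTheory Set Filter Topology Complex ProbabilityTheory
open scoped NNReal ComplexConjugate
open Pool.Agent.LibZM Pool.Agent.LibM3

theorem l5_Tw_one (N : ℕ) (T : ℝ) :
    Tw 1 N T 1 1 0 = ((∑ h ∈ Finset.Icc 1 N, ∑ k ∈ Finset.Icc 1 N, gk h k * ell T h k : ℝ) : ℂ) := by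
  unfold Tw
  have h1 : cs 1 N = Finset.Icc 1 N := by
    unfold cs
    ext x
    simp
  rw [h1]
  push_cast
  refine Finset.sum_congr rfl fun h _ => Finset.sum_congr rfl fun k _ => ?_
  rw [gmn_one]
  simp

theorem l5_mP_zero {r : ℕ} (p : Fin r → ℕ) : mP p 0 = 1 := by
  unfold mP; simp

theorem l5_nP_zero {r : ℕ} (p : Fin r → ℕ) : nP p 0 = 1 := by
  unfold nP; simp

theorem l5_cS_pos {r : ℕ} {p : Fin r → ℕ} (hp : ∀ i, (p i).Prime) : 0 < cS p := by
  unfold cS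
  refine Finset.prod_pos fun i _ => ?_
  obtain ⟨h1, h2, h3⟩ := rp_mem (hp i)
  nlinarith

theorem l5_floor {θ : ℝ} (hθ0 : 0 < θ) : Tendsto (fun T : ℝ => ⌊T ^ θ⌋₊) atTop atTop :=
  (tendsto_nat_floor_atTop).comp (tendsto_rpow_atTop hθ0)

/-- ROW L5. Lower bound for the second moment sum over integers coprime to the primes.
Proof. `peel_all` with `a = 0` (`mP = nP = 1`), `Nf T = ⌊T^θ⌋₊`, `yf = 0`, and `prod_Lam_zero`: `Tw 1 N T 1 1 0 - cS p * MT p 1 * Tw (qP p) N T 1 1 0 = o((log T)^(9/4))`.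
`Tw 1 N T 1 1 0 = ∑∑ gk h k * ell T h k` (real; `gmn_one`, `cs 1 N = Icc 1 N`), which is `≥ c' (log T)^(9/4)` for every `c' < Aconst (3/2) * g1_cl θ` by `g2_form`.
Take real parts. -/
theorem second_lower {θ : ℝ} (hθ0 : 0 < θ) (hθ : θ ≤ 1/2) {r : ℕ} {p : Fin r → ℕ} (hp : ∀ i, (p i).Prime) (hinj : Function.Injective p)
    {c : ℝ} (hc : c < Aconst (3/2) * g1_cl θ / (cS p * MT p 1)) :
    ∀ᶠ T : ℝ in atTop, c * (Real.log T) ^ (9/4 : ℝ) ≤ (Tw (qP p) ⌊T ^ θ⌋₊ T 1 1 0).re := by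
  obtain ⟨K, hK⟩ : ∃ K, K = cS p * MT p 1 := ⟨_, rfl⟩
  have hKpos : 0 < K := by
    rw [hK]; exact mul_pos (l5_cS_pos hp) (MT_one_pos hp).1
  rw [← hK] at hc
  have hcK : c * K < Aconst (3/2) * g1_cl θ := by
    rwa [lt_div_iff₀ hKpos] at hc
  obtain ⟨c', h1, h2⟩ := exists_between hcK
  have hpeel := peel_all hp hinj (0 : Fin r → ℤ) (Nf := fun T : ℝ => ⌊T ^ θ⌋₊) (yf := fun _ => 0)
    (l5_floor hθ0) (by
      filter_upwards [eventually_ge_atTop (1:ℝ)] with T hT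
      calc (⌊T ^ θ⌋₊ : ℝ) ≤ T ^ θ := Nat.floor_le (by positivity)
        _ ≤ T ^ (1:ℝ) := Real.rpow_le_rpow_of_exponent_le hT (by linarith)
        _ = T := Real.rpow_one T) tendsto_const_nhds
  have hprod : (∏ i : Fin r, Lam (rp (p i)) ((0 : Fin r → ℤ) i).natAbs) = K := by
    rw [hK, ← prod_Lam_zero hp]
    simp
  rw [hprod, l5_mP_zero, l5_nP_zero] at hpeel
  have hε : 0 < c' - c * K := by linarith
  have hre := (Complex.continuous_re.tendsto 0).comp hpeel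
  simp only [Complex.zero_re] at hre
  filter_upwards [hre.eventually_lt_const hε, g2_form hθ0 hθ h2, eventually_gt_atTop (1:ℝ)] with T hT1 hT2 hT3
  have hlog : 0 < Real.log T := Real.log_pos hT3
  have hL : 0 < (Real.log T) ^ (9/4 : ℝ) := Real.rpow_pos_of_pos hlog _
  rw [Function.comp_apply, Complex.div_ofReal_re, l5_Tw_one, Complex.sub_re, Complex.ofReal_re, Complex.re_ofReal_mul,
    div_lt_iff₀ hL] at hT1
  have h3 : K * (c * (Real.log T) ^ (9/4 : ℝ)) ≤ K * (Tw (qP p) ⌊T ^ θ⌋₊ T 1 1 0).re := by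
    nlinarith
  exact le_of_mul_le_mul_left h3 hKpos

end Pool.Agent.LibLaw15
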