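import Pool.Agent.LibLaw15.E2
import Pool.Agent.LibM3.F6

/-! Law of the prime phases: the window bound from above. -/

set_option autoImplicit false

namespace Pool.Agent.LibLaw15

open MeasureTheory Set Filter Topology Complex ProbabilityTheory
open scoped NNReal ComplexConjugate
open Pool.Agent.LibZM Pool.Agent.LibM3

lemma u1_PQ (N : ℕ) (s : ℂ) : PQ 1 N s = PP N s := by
  have h : cT 1 N = halfTrunc N := by
    ext n
    show (if n ≤ N ∧ Nat.Coprime n 1 then tau (1/2) n else 0) = if n ≤ N then tau (1/2) n else 0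
    simp
  unfold PQ
  rw [h]
  rfl

lemma u1_bdd {r : ℕ} {w : Tor r → ℝ} (hw : Continuous w) : ∃ W : ℝ, 0 < W ∧ ∀ x, w x ≤ W := by
  obtain ⟨C, hC⟩ := isCompact_univ.exists_bound_of_continuousOn (f := w) hw.continuousOn
  refine ⟨|C| + 1, by positivity, fun x => ?_⟩
  have h1 := hC x (mem_univ x)
  have h2 := le_abs_self (w x)
  rw [Real.norm_eq_abs] at h1
  have h3 := le_abs_self C
  linarith

/-- The weighted second moments. -/
noncomputable def Qw {r : ℕ} (p : Fin r → ℕ) (w : Tor r → ℝ) (P : ℝ × ℝ) (j : ℤ) : ℝ :=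
  ∫ t in win P.2, (‖riemannZeta (crit t)‖ ^ 2 * ‖PP (XN P.1) (crit t - (yj (XN P.1) j : ℝ) * I)‖ ^ 2) * w (xt p t)
    ∂(gaussianReal P.2 (vw P.1))

lemma u1_cont {r : ℕ} (p : Fin r → ℕ) {w : Tor r → ℝ} (hw : Continuous w) (N : ℕ) (y : ℝ) :
    Continuous fun t => (‖riemannZeta (crit t)‖ ^ 2 * ‖PP N (crit t - (y : ℝ) * I)‖ ^ 2) * w (xt p t) :=
  ((continuous_zeta_crit.norm.pow 2).mul ((f4_continuous_PP N y).pow 2)).mul (hw.comp (xt_continuous p))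

lemma u1_Qw_nonneg {r : ℕ} (p : Fin r → ℕ) {w : Tor r → ℝ} (hw0 : ∀ x, 0 ≤ w x) (P : ℝ × ℝ) (j : ℤ) : 0 ≤ Qw p w P j :=
  integral_nonneg fun t => mul_nonneg (by positivity) (hw0 _)

lemma u1_Qw_le {r : ℕ} (p : Fin r → ℕ) {w : Tor r → ℝ} (hw : Continuous w) {W : ℝ} (hW : ∀ x, w x ≤ W) (P : ℝ × ℝ) (j : ℤ) :
    Qw p w P j ≤ W * Qj P.1 P.2 j := by
  unfold Qw Qj
  rw [← integral_const_mul]
  have hint : ∀ f : ℝ → ℝ, Continuous f → IntegrableOn f (win P.2) (gaussianReal P.2 (vw P.1)) := fun f hf =>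
    hf.continuousOn.integrableOn_compact isCompact_Icc
  apply setIntegral_mono_on (hint _ (u1_cont p hw _ _)) _ measurableSet_Icc
  · intro t _
    have h1 := hW (xt p t)
    have h2 : 0 ≤ ‖riemannZeta (crit t)‖ ^ 2 * ‖PP (XN P.1) (crit t - (yj (XN P.1) j : ℝ) * I)‖ ^ 2 := by positivity
    nlinarith
  · exact hint _ (((continuous_zeta_crit.norm.pow 2).mul ((f4_continuous_PP _ _).pow 2)).const_mul W)

theorem u1_tendsto {η : ℝ} (hη : 0 < η) {r : ℕ} {p : Fin r → ℕ} (hp : ∀ i, (p i).Prime) (hinj : Function.Injective p)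
    {w : Tor r → ℝ} (hw : Continuous w) (j : ℤ) :
    Tendsto (fun P : ℝ × ℝ => Qw p w P j / (Real.log P.1) ^ (9/4 : ℝ)) (Fl η) (𝓝 (Aconst (3/2) * qf (2 * Real.pi * j) * TM p w)) := by
  have hJ := (MT_one_pos hp).1
  have hN : Tendsto XN atTop atTop := by
    have := f5_XN_tendsto
    exact tendsto_natCast_atTop_iff.mp this
  have hy : Tendsto (fun T : ℝ => yj (XN T) j) atTop (𝓝 0) := by
    have h1 : Tendsto (fun T : ℝ => 1 / per (XN T)) atTop (𝓝 0) := l4_del.mono_right nhdsWithin_le_nhds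
    have h2 := h1.const_mul (2 * Real.pi * j)
    rw [mul_zero] at h2
    refine h2.congr fun T => ?_
    unfold yj
    ring
  have key : ∀ v : Tor r → ℝ, Continuous v → Tendsto (fun P : ℝ × ℝ => ((Qw p v P j : ℝ) : ℂ) / (((Real.log P.1) ^ (9/4 : ℝ) : ℝ) : ℂ) -
      (((cS p : ℝ) : ℂ) * Tw (qP p) (XN P.1) P.1 1 1 (yj (XN P.1) j) / (((Real.log P.1) ^ (9/4 : ℝ) : ℝ) : ℂ)) * ((MT p v : ℝ) : ℂ)) (Fl η) (𝓝 0) := by
    intro v hv
    have h := law_two hη hp hinj hN (Eventually.of_forall fun T => le_rfl) hy hv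
    refine h.congr fun P => ?_
    simp only [u1_PQ]
    unfold Qw
    ring
  have k1 := key (fun _ => 1) continuous_const
  have e1 : ∀ P : ℝ × ℝ, Qw p (fun _ => 1) P j = Qj P.1 P.2 j := by
    intro P
    unfold Qw Qj
    simp only [mul_one]
  have h1 := f3_tendsto hη j
  have h1c : Tendsto (fun P : ℝ × ℝ => ((Qw p (fun _ => 1) P j : ℝ) : ℂ) / (((Real.log P.1) ^ (9/4 : ℝ) : ℝ) : ℂ)) (Fl η)
      (𝓝 ((Aconst (3/2) * qf (2 * Real.pi * j) : ℝ) : ℂ)) := by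
    have := (Complex.continuous_ofReal.tendsto _).comp h1
    refine this.congr fun P => ?_
    simp only [Function.comp_apply]
    rw [e1]
    push_cast
    rfl
  have hJc : ((MT p (fun _ => 1) : ℝ) : ℂ) ≠ 0 := by
    have : MT p (fun _ => 1) = MT p 1 := rfl
    rw [this]
    exact_mod_cast hJ.ne'
  have k2 : Tendsto (fun P : ℝ × ℝ => ((cS p : ℝ) : ℂ) * Tw (qP p) (XN P.1) P.1 1 1 (yj (XN P.1) j) / (((Real.log P.1) ^ (9/4 : ℝ) : ℝ) : ℂ)) (Fl η)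
      (𝓝 (((Aconst (3/2) * qf (2 * Real.pi * j) : ℝ) : ℂ) / ((MT p (fun _ => 1) : ℝ) : ℂ))) := by
    have h2 := (h1c.sub k1).div_const ((MT p (fun _ => 1) : ℝ) : ℂ)
    rw [sub_zero] at h2
    refine h2.congr fun P => ?_
    field_simp
    ring
  have k3 := (key w hw).add (k2.mul_const ((MT p w : ℝ) : ℂ))
  rw [zero_add] at k3
  have k4 : Tendsto (fun P : ℝ × ℝ => (((Qw p w P j / (Real.log P.1) ^ (9/4 : ℝ) : ℝ)) : ℂ)) (Fl η)
      (𝓝 ((Aconst (3/2) * qf (2 * Real.pi * j) * TM p w : ℝ) : ℂ)) := by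
    have e2 : ((Aconst (3/2) * qf (2 * Real.pi * j) * TM p w : ℝ) : ℂ) = 
        ((Aconst (3/2) * qf (2 * Real.pi * j) : ℝ) : ℂ) / ((MT p (fun _ => 1) : ℝ) : ℂ) * ((MT p w : ℝ) : ℂ) := by
      have : MT p (fun _ => 1) = MT p 1 := rfl
      rw [this]
      unfold TM
      push_cast
      ring
    rw [e2]
    refine k3.congr fun P => ?_
    push_cast
    ring
  have k5 := (Complex.continuous_re.tendsto _).comp k4
  rw [Complex.ofReal_re] at k5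
  refine k5.congr fun P => ?_
  simp only [Function.comp_apply, Complex.ofReal_re]

/-- The central part. -/
theorem u1_center {η : ℝ} (hη : 0 < η) {r : ℕ} {p : Fin r → ℕ} (hp : ∀ i, (p i).Prime) (hinj : Function.Injective p)
    {w : Tor r → ℝ} (hw : Continuous w) (hI : 0 ≤ TM p w) (J : ℕ) {ε : ℝ} (hε : 0 < ε) : ∃ ε₂ : ℝ, 0 < ε₂ ∧ ∀ᶠ P : ℝ × ℝ in Fl η, 
    ∑ j ∈ Finset.Icc (-(J:ℤ)) J, (cinf j + ε₂) * Qw p w P j ≤ (CI * Aconst (3/2) * TM p w + ε) * (Real.log P.1) ^ (9/4 : ℝ) := by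
  have hA := Aconst_pos (κ := 3/2) (by norm_num)
  obtain ⟨K, hK⟩ : ∃ K, K = TM p w := ⟨_, rfl⟩
  rw [← hK] at hI ⊢
  obtain ⟨S, hS⟩ : ∃ S, S = ∑ j ∈ Finset.Icc (-(J:ℤ)) J, Aconst (3/2) * qf (2 * Real.pi * j) * K := ⟨_, rfl⟩
  have hS0 : 0 ≤ S := by
    rw [hS]
    exact Finset.sum_nonneg fun j _ => mul_nonneg (mul_nonneg hA.le (f3_qf_nonneg j)) hI
  refine ⟨ε / (2 * (1 + S)), by positivity, ?_⟩
  obtain ⟨ε₂, hε₂⟩ : ∃ ε₂, ε₂ = ε / (2 * (1 + S)) := ⟨_, rfl⟩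
  rw [← hε₂]
  have h1 : Tendsto (fun P : ℝ × ℝ => ∑ j ∈ Finset.Icc (-(J:ℤ)) J, (cinf j + ε₂) * (Qw p w P j / (Real.log P.1) ^ (9/4 : ℝ))) (Fl η)
      (𝓝 (∑ j ∈ Finset.Icc (-(J:ℤ)) J, (cinf j + ε₂) * (Aconst (3/2) * qf (2 * Real.pi * j) * K))) := by
    rw [hK]
    exact tendsto_finsetSum _ fun j _ => (u1_tendsto hη hp hinj hw j).const_mul _
  have h2 : ∑ j ∈ Finset.Icc (-(J:ℤ)) J, (cinf j + ε₂) * (Aconst (3/2) * qf (2 * Real.pi * j) * K) < CI * Aconst (3/2) * K + ε := by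
    have h3 : ∑ j ∈ Finset.Icc (-(J:ℤ)) J, (cinf j + ε₂) * (Aconst (3/2) * qf (2 * Real.pi * j) * K) = 
        Aconst (3/2) * (SJ J / 2) * K + ε₂ * S := by
      have e1 : SJ J / 2 = ∑ j ∈ Finset.Icc (-(J:ℤ)) J, cinf j * qf (2 * Real.pi * j) := by unfold SJ; ring
      rw [e1, hS, Finset.mul_sum, Finset.mul_sum, Finset.sum_mul, ← Finset.sum_add_distrib]
      apply Finset.sum_congr rfl
      intro j _
      ring
    rw [h3]
    have h4 : SJ J ≤ 2 * CI := SJ_le_CI f3_qf_nonneg J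
    have h6 : ε₂ * S ≤ ε / 2 := by
      rw [hε₂, div_mul_eq_mul_div, div_le_div_iff₀ (by positivity) (by norm_num)]
      nlinarith
    have h7 : Aconst (3/2) * (SJ J / 2) * K ≤ Aconst (3/2) * CI * K := by
      apply mul_le_mul_of_nonneg_right _ hI
      apply mul_le_mul_of_nonneg_left _ hA.le
      linarith
    linarith
  have hlog : Tendsto (fun p : ℝ × ℝ => Real.log p.1) (Fl η) atTop := Real.tendsto_log_atTop.comp (Fl_fst η)
  filter_upwards [h1.eventually_lt_const h2, hlog.eventually_ge_atTop 1] with P hP hL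
  have hL0 : 0 < Real.log P.1 := by linarith
  have hLp : 0 < (Real.log P.1) ^ (9/4 : ℝ) := by positivity
  have e2 : ∑ j ∈ Finset.Icc (-(J:ℤ)) J, (cinf j + ε₂) * Qw p w P j = 
      (∑ j ∈ Finset.Icc (-(J:ℤ)) J, (cinf j + ε₂) * (Qw p w P j / (Real.log P.1) ^ (9/4 : ℝ))) * (Real.log P.1) ^ (9/4 : ℝ) := by
    rw [Finset.sum_mul]
    apply Finset.sum_congr rfl
    intro j _
    field_simp
  rw [e2]
  exact mul_le_mul_of_nonneg_right hP.le hLp.le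

/-- Integrated bound with a weight. -/
theorem u1_int {N : ℕ} {u : ℝ} {v : ℝ≥0} {M : ℕ} {b : ℤ → ℝ} {κ ε : ℝ} {V : ℝ → ℝ} (hV : Continuous V) (hV0 : ∀ t, 0 ≤ V t)
    {W : ℝ} (hW : ∀ t, V t ≤ W)
    (hE : IntegrableOn (fun t => ‖Etail N t‖ ^ 3) (win u) (gaussianReal u v))
    (h : ∀ t ∈ win u, (1 - ε) * ‖riemannZeta (crit t)‖ ^ 3 ≤ 
      2 * ∑ j ∈ Finset.Icc (-(M:ℤ)) M, b j * (‖riemannZeta (crit t)‖ ^ 2 * ‖PP N (crit t - (yj N j : ℝ) * I)‖ ^ 2) + 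
      κ * ‖riemannZeta (crit t)‖ ^ 2 + 8 / ε ^ 2 * ‖Etail N t‖ ^ 3) (hκ : 0 ≤ κ) :
    (1 - ε) * ∫ t in win u, ‖riemannZeta (crit t)‖ ^ 3 * V t ∂(gaussianReal u v) ≤ 
      2 * ∑ j ∈ Finset.Icc (-(M:ℤ)) M, b j * ∫ t in win u, (‖riemannZeta (crit t)‖ ^ 2 * ‖PP N (crit t - (yj N j : ℝ) * I)‖ ^ 2) * V t ∂(gaussianReal u v) + 
      κ * (W * ∫ t in win u, ‖riemannZeta (crit t)‖ ^ 2 ∂(gaussianReal u v)) + 
      8 / ε ^ 2 * (W * ∫ t in win u, ‖Etail N t‖ ^ 3 ∂(gaussianReal u v)) := by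
  have hz := continuous_zeta_crit.norm
  have hint : ∀ f : ℝ → ℝ, Continuous f → IntegrableOn f (win u) (gaussianReal u v) := fun f hf =>
    hf.continuousOn.integrableOn_compact isCompact_Icc
  have i1 : IntegrableOn (fun t => (1 - ε) * (‖riemannZeta (crit t)‖ ^ 3 * V t)) (win u) (gaussianReal u v) := hint _ (by fun_prop)
  have i2 : ∀ j ∈ Finset.Icc (-(M:ℤ)) M, IntegrableOn (fun t => b j * ((‖riemannZeta (crit t)‖ ^ 2 * ‖PP N (crit t - (yj N j : ℝ) * I)‖ ^ 2) * V t)) (win u) (gaussianReal u v) := by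
    intro j _
    have := f4_continuous_PP N (yj N j)
    exact hint _ (by fun_prop)
  have i3 : IntegrableOn (fun t => 2 * ∑ j ∈ Finset.Icc (-(M:ℤ)) M, b j * ((‖riemannZeta (crit t)‖ ^ 2 * ‖PP N (crit t - (yj N j : ℝ) * I)‖ ^ 2) * V t)) (win u) (gaussianReal u v) :=
    (integrable_finsetSum _ i2).const_mul 2
  have i4 : IntegrableOn (fun t => κ * (W * ‖riemannZeta (crit t)‖ ^ 2)) (win u) (gaussianReal u v) := hint _ (by fun_prop)
  have i5 : IntegrableOn (fun t => 8 / ε ^ 2 * (W * ‖Etail N t‖ ^ 3)) (win u) (gaussianReal u v) := (hE.const_mul W).const_mul _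
  have i6 : IntegrableOn (fun t => 2 * ∑ j ∈ Finset.Icc (-(M:ℤ)) M, b j * ((‖riemannZeta (crit t)‖ ^ 2 * ‖PP N (crit t - (yj N j : ℝ) * I)‖ ^ 2) * V t) + 
      κ * (W * ‖riemannZeta (crit t)‖ ^ 2)) (win u) (gaussianReal u v) := i3.add i4
  have hpt : ∀ t ∈ win u, (1 - ε) * (‖riemannZeta (crit t)‖ ^ 3 * V t) ≤ 
      (2 * ∑ j ∈ Finset.Icc (-(M:ℤ)) M, b j * ((‖riemannZeta (crit t)‖ ^ 2 * ‖PP N (crit t - (yj N j : ℝ) * I)‖ ^ 2) * V t) + 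
      κ * (W * ‖riemannZeta (crit t)‖ ^ 2)) + 8 / ε ^ 2 * (W * ‖Etail N t‖ ^ 3) := by
    intro t ht
    have h1 := mul_le_mul_of_nonneg_right (h t ht) (hV0 t)
    have h2 : (2 * ∑ j ∈ Finset.Icc (-(M:ℤ)) M, b j * (‖riemannZeta (crit t)‖ ^ 2 * ‖PP N (crit t - (yj N j : ℝ) * I)‖ ^ 2) + 
      κ * ‖riemannZeta (crit t)‖ ^ 2 + 8 / ε ^ 2 * ‖Etail N t‖ ^ 3) * V t = 
      2 * ∑ j ∈ Finset.Icc (-(M:ℤ)) M, b j * ((‖riemannZeta (crit t)‖ ^ 2 * ‖PP N (crit t - (yj N j : ℝ) * I)‖ ^ 2) * V t) + 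
      κ * (V t * ‖riemannZeta (crit t)‖ ^ 2) + 8 / ε ^ 2 * (V t * ‖Etail N t‖ ^ 3) := by
      have e0 : (∑ j ∈ Finset.Icc (-(M:ℤ)) M, b j * (‖riemannZeta (crit t)‖ ^ 2 * ‖PP N (crit t - (yj N j : ℝ) * I)‖ ^ 2)) * V t = 
          ∑ j ∈ Finset.Icc (-(M:ℤ)) M, b j * ((‖riemannZeta (crit t)‖ ^ 2 * ‖PP N (crit t - (yj N j : ℝ) * I)‖ ^ 2) * V t) := by
        rw [Finset.sum_mul]
        apply Finset.sum_congr rfl
        intro j _
        ring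
      rw [← e0]
      ring
    rw [h2] at h1
    have h3 : κ * (V t * ‖riemannZeta (crit t)‖ ^ 2) ≤ κ * (W * ‖riemannZeta (crit t)‖ ^ 2) := by
      have := hW t
      gcongr
    have h4 : 8 / ε ^ 2 * (V t * ‖Etail N t‖ ^ 3) ≤ 8 / ε ^ 2 * (W * ‖Etail N t‖ ^ 3) := by
      have := hW t
      gcongr
    calc (1 - ε) * (‖riemannZeta (crit t)‖ ^ 3 * V t) = (1 - ε) * ‖riemannZeta (crit t)‖ ^ 3 * V t := by ring
      _ ≤ _ := h1
      _ ≤ _ := by linarith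
  have h1 := setIntegral_mono_on i1 (i6.add i5) measurableSet_Icc hpt
  rw [integral_const_mul] at h1
  refine h1.trans (le_of_eq ?_)
  have e1 := integral_add (μ := (gaussianReal u v).restrict (win u)) i6 i5
  have e2 := integral_add (μ := (gaussianReal u v).restrict (win u)) i3 i4
  have e3 := integral_finsetSum (μ := (gaussianReal u v).restrict (win u)) _ i2
  simp only [Pi.add_apply]
  rw [e1, e2, integral_const_mul, e3, integral_const_mul, integral_const_mul, integral_const_mul, integral_const_mul]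
  congr 3
  apply Finset.sum_congr rfl
  intro j _
  rw [integral_const_mul]

lemma u1_TM_nonneg {r : ℕ} {p : Fin r → ℕ} (hp : ∀ i, (p i).Prime) {w : Tor r → ℝ} (hw0 : ∀ x, 0 ≤ w x) : 0 ≤ TM p w := by
  unfold TM
  apply div_nonneg _ (MT_one_pos hp).1.le
  unfold MT
  apply integral_nonneg
  intro x
  have := (ET_props hp).2 x
  exact mul_nonneg (hw0 x) (by positivity)

/-- The window bound from above. -/
theorem window_upper {η : ℝ} (hη : 0 < η) {r : ℕ} {p : Fin r → ℕ} (hp : ∀ i, (p i).Prime) (hinj : Function.Injective p)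
    {w : Tor r → ℝ} (hw : Continuous w) (hw0 : ∀ x, 0 ≤ w x) {ε : ℝ} (hε : 0 < ε) :
    ∀ᶠ P : ℝ × ℝ in Fl η, ∫ t in win P.2, ‖riemannZeta (crit t)‖ ^ 3 * w (xt p t) ∂(gaussianReal P.2 (vw P.1)) ≤
      (2 * CI * TM p w + ε) * La3 P.1 := by
  have hA := Aconst_pos (κ := 3/2) (by norm_num)
  obtain ⟨a, ha⟩ : ∃ a, a = Aconst (3/2) := ⟨_, rfl⟩
  rw [← ha] at hA
  obtain ⟨W, hW0, hW⟩ := u1_bdd hw
  have hI := u1_TM_nonneg hp hw0
  have hcen0 := u1_center hη hp hinj hw hI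
  obtain ⟨K, hK⟩ : ∃ K, K = TM p w := ⟨_, rfl⟩
  rw [← hK] at hI hcen0 ⊢
  have hCI := f3_CI_nonneg
  obtain ⟨c, hc⟩ : ∃ c, c = 2 * CI * K + ε := ⟨_, rfl⟩
  have hc0 : 0 < c := by rw [hc]; positivity
  obtain ⟨e, he⟩ : ∃ e, e = ε / (2 * c) := ⟨_, rfl⟩
  obtain ⟨ε₁, hε₁⟩ : ∃ ε₁, ε₁ = ε * a / 16 := ⟨_, rfl⟩
  have he0 : 0 < e := by rw [he]; positivity
  have he1 : e < 1 := by
    rw [he, div_lt_one (by linarith), hc]
    have : 0 ≤ 2 * CI * K := by positivity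
    linarith
  have hε₁0 : 0 < ε₁ := by rw [hε₁]; positivity
  have hfin : 2 * CI * a * K + 8 * ε₁ ≤ (1 - e) * (c * a) := by
    have e1 : e * (c * a) = ε * a / 2 := by rw [he]; field_simp
    rw [sub_mul, e1, hε₁, hc]
    linarith
  obtain ⟨C, hC, hDp⟩ := Dpoly_le
  obtain ⟨C₀, t₀, hC₀, ht₀, hz⟩ := zeta_le_Dt
  obtain ⟨C₂, hC₂, hsq⟩ := one_sq_le hη
  obtain ⟨J, hJ⟩ := f1_mid hη (ε := ε₁ / (C * W)) (by positivity)
  have hmid := hJ J le_rfl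
  obtain ⟨ε₂, hε₂, hcen⟩ := hcen0 J (ε := ε₁) hε₁0
  have hfar := f1_far hη (ε := ε₁ / (C * W)) (by positivity)
  have hE := Etail_small hη 1
  have hcsh := f2_csh hη C hε₂
  have hlog : Tendsto (fun p : ℝ × ℝ => Real.log p.1) (Fl η) atTop := Real.tendsto_log_atTop.comp (Fl_fst η)
  have hX := (Fl_fst η).eventually par_log_XN
  have hXt := f5_XN_tendsto.comp (Fl_fst η)
  obtain ⟨κ, hκd⟩ : ∃ κ, κ = ε₁ / (C₂ * W) := ⟨_, rfl⟩
  have hκ0 : 0 < κ := by rw [hκd]; positivity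
  have hκ1 : ∀ᶠ p : ℝ × ℝ in Fl η, Real.log (XN p.1) ≤ κ / (4 * C) * (XN p.1 : ℝ) := by
    have h1 := (Real.isLittleO_log_id_atTop).def (show (0:ℝ) < κ / (4 * C) by positivity)
    have h2 := hXt.eventually h1
    filter_upwards [h2] with p hp
    have h3 : |Real.log (XN p.1)| ≤ κ / (4 * C) * |(XN p.1 : ℝ)| := by simpa using hp
    rw [Nat.abs_cast] at h3
    exact (le_abs_self _).trans h3
  have hκ2 : ∀ᶠ p : ℝ × ℝ in Fl η, C₀ * (η / 2 * p.1) ^ (-(1/2) : ℝ) ≤ κ / 2 := by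
    have h1 : Tendsto (fun p : ℝ × ℝ => η / 2 * p.1) (Fl η) atTop := (Fl_fst η).const_mul_atTop (by positivity)
    have h2 : Tendsto (fun p : ℝ × ℝ => C₀ * (η / 2 * p.1) ^ (-(1/2) : ℝ)) (Fl η) (𝓝 (C₀ * 0)) :=
      ((tendsto_rpow_neg_atTop (show (0:ℝ) < 1/2 by norm_num)).comp h1).const_mul C₀
    rw [mul_zero] at h2
    exact (h2.eventually_lt_const (show 0 < κ / 2 by positivity)).mono fun _ h => h.le
  have ht0 : ∀ᶠ p : ℝ × ℝ in Fl η, t₀ ≤ η / 2 * p.1 := 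
    ((Fl_fst η).const_mul_atTop (show 0 < η / 2 by positivity)).eventually_ge_atTop t₀
  have hLbig : ∀ᶠ p : ℝ × ℝ in Fl η, 8 / e ^ 2 * W ≤ ε₁ * Real.log p.1 := 
    (hlog.const_mul_atTop hε₁0).eventually_ge_atTop _
  filter_upwards [hsq, hmid, hcen, hfar, hE, hcsh, hX, hκ1, hκ2, ht0, hLbig, par_tt hη, hlog.eventually_ge_atTop 1] with 
    P hsqp hmidp hcenp hfarp hEp hcshp hXp hκ1p hκ2p ht0p hLbp http hL
  obtain ⟨N, hN⟩ : ∃ N, N = XN P.1 := ⟨_, rfl⟩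
  obtain ⟨L, hLd⟩ : ∃ L, L = Real.log P.1 := ⟨_, rfl⟩
  obtain ⟨R, hR⟩ : ∃ R : ℕ, R = ⌊(Real.log P.1) ^ (9/8:ℝ)⌋₊ := ⟨_, rfl⟩
  rw [← hR] at hmidp
  simp only [← hR] at hfarp
  have hN8 : 8 ≤ N := by rw [hN]; exact hXp.2.2
  have hN0' : 0 < N := by omega
  have hN0 : (0:ℝ) < N := by exact_mod_cast hN0'
  have hlN : 0 ≤ Real.log N := Real.log_natCast_nonneg N
  obtain ⟨M, hM⟩ : ∃ M : ℕ, M = N ^ 3 := ⟨_, rfl⟩
  have hM1 : 1 ≤ M := by rw [hM]; exact Nat.one_le_pow _ _ (by omega)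
  have hT0 : 0 < η / 2 * P.1 := by linarith
  have hL9 : 1 ≤ L ^ (9/4:ℝ) := Real.one_le_rpow (by rw [hLd]; exact hL) (by norm_num)
  -- pointwise
  have hpt : ∀ t ∈ win P.2, (1 - e) * ‖riemannZeta (crit t)‖ ^ 3 ≤ 
      2 * ∑ j ∈ Finset.Icc (-(M:ℤ)) M, bj C ε₂ (Real.log N) J R j * (‖riemannZeta (crit t)‖ ^ 2 * ‖PP N (crit t - (yj N j : ℝ) * I)‖ ^ 2) + 
      κ * ‖riemannZeta (crit t)‖ ^ 2 + 8 / e ^ 2 * ‖Etail N t‖ ^ 3 := by
    intro t ht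
    obtain ⟨g1, g2, -, g4, -⟩ := http t ht
    rw [← hN] at g2
    obtain ⟨cc, k1, k2, k3, k4, k5⟩ := hDp N hN8 (tt t) g1 g2
    apply f4_point hN8 (c := cc) (C := C) (C₀ := C₀) (M := M) _ (hz t (ht0p.trans g4)) (k5 t M hM1) _ he0
    · intro j
      unfold bj
      split_ifs with w1 w2
      · have w3 := hcshp t ht j
        rw [← hN] at w3
        exact (k4 j).trans w3
      · exact k2 j (by omega)
      · exact k3 j (by omega)
    · have e1 : 2 * (C * Real.log N * (N:ℝ) ^ 2 / M) ≤ κ / 2 := by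
        rw [← hN] at hκ1p
        rw [hM]
        push_cast
        have e2 : 2 * (C * Real.log N * (N:ℝ) ^ 2 / (N:ℝ) ^ 3) = (2 * C * Real.log N) / N := by field_simp
        rw [e2, div_le_iff₀ hN0]
        calc 2 * C * Real.log N ≤ 2 * C * (κ / (4 * C) * N) := by gcongr
          _ = κ / 2 * N := by field_simp; ring
      have e3 : C₀ * t ^ (-(1/2) : ℝ) ≤ κ / 2 := by
        refine le_trans ?_ hκ2p
        apply mul_le_mul_of_nonneg_left _ hC₀.le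
        exact Real.rpow_le_rpow_of_nonpos hT0 g4 (by norm_num)
      linarith
  rw [← hN] at hEp
  have hint := u1_int (V := fun t => w (xt p t)) (hw.comp (xt_continuous p)) (fun t => hw0 _) (W := W) (fun t => hW _) hEp.1 hpt hκ0.le
  have hQ0 : ∀ j, 0 ≤ Qw p w P j := u1_Qw_nonneg p hw0 P
  have hQle : ∀ j, Qw p w P j ≤ W * Qj P.1 P.2 j := u1_Qw_le p hw hW P
  have hQe : ∀ j : ℤ, ∫ t in win P.2, (‖riemannZeta (crit t)‖ ^ 2 * ‖PP N (crit t - (yj N j : ℝ) * I)‖ ^ 2) * w (xt p t) ∂(gaussianReal P.2 (vw P.1)) = Qw p w P j := by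
    intro j; rw [hN]; rfl
  simp only [hQe] at hint
  have hsp := f4_split hC.le hε₂.le hlN J R M hQ0
  have hfarM := hfarp M
  rw [← hN] at hfarM
  rw [← hLd] at hsqp hmidp hcenp hfarM hEp hLbp hL
  unfold La3
  rw [← ha, ← hLd]
  have h1 : ∑ j ∈ Finset.Icc (-(M:ℤ)) M, bj C ε₂ (Real.log N) J R j * Qw p w P j ≤ (CI * a * K + 3 * ε₁) * L ^ (9/4:ℝ) := by
    refine hsp.trans ?_
    have m1 : C * ∑ j ∈ (Finset.Icc (-(R:ℤ)) R).filter (fun j => J < j.natAbs), Qw p w P j / |(j:ℝ)| ≤ ε₁ * L ^ (9/4:ℝ) := by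
      have q1 : ∑ j ∈ (Finset.Icc (-(R:ℤ)) R).filter (fun j => J < j.natAbs), Qw p w P j / |(j:ℝ)| ≤ 
          W * ∑ j ∈ (Finset.Icc (-(R:ℤ)) R).filter (fun j => J < j.natAbs), Qj P.1 P.2 j / |(j:ℝ)| := by
        rw [Finset.mul_sum]
        apply Finset.sum_le_sum
        intro j _
        rw [← mul_div_assoc]
        exact div_le_div_of_nonneg_right (hQle j) (abs_nonneg _)
      calc _ ≤ C * (W * (ε₁ / (C * W) * L ^ (9/4:ℝ))) := by gcongr; exact q1.trans (by gcongr)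
        _ = _ := by field_simp
    have m2 : C * (Real.log N * ∑ j ∈ (Finset.Icc (-(M:ℤ)) M).filter (fun j => R < j.natAbs), Qw p w P j / (j:ℝ) ^ 2) ≤ ε₁ * L ^ (9/4:ℝ) := by
      have q1 : Real.log N * ∑ j ∈ (Finset.Icc (-(M:ℤ)) M).filter (fun j => R < j.natAbs), Qw p w P j / (j:ℝ) ^ 2 ≤ 
          W * (Real.log N * ∑ j ∈ (Finset.Icc (-(M:ℤ)) M).filter (fun j => R < j.natAbs), Qj P.1 P.2 j / (j:ℝ) ^ 2) := by
        have q2 : ∑ j ∈ (Finset.Icc (-(M:ℤ)) M).filter (fun j => R < j.natAbs), Qw p w P j / (j:ℝ) ^ 2 ≤ 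
            W * ∑ j ∈ (Finset.Icc (-(M:ℤ)) M).filter (fun j => R < j.natAbs), Qj P.1 P.2 j / (j:ℝ) ^ 2 := by
          rw [Finset.mul_sum]
          apply Finset.sum_le_sum
          intro j _
          rw [← mul_div_assoc]
          exact div_le_div_of_nonneg_right (hQle j) (sq_nonneg _)
        calc _ ≤ Real.log N * (W * ∑ j ∈ (Finset.Icc (-(M:ℤ)) M).filter (fun j => R < j.natAbs), Qj P.1 P.2 j / (j:ℝ) ^ 2) := by gcongr
          _ = _ := by ring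
      calc _ ≤ C * (W * (ε₁ / (C * W) * L ^ (9/4:ℝ))) := 
            mul_le_mul_of_nonneg_left (q1.trans (mul_le_mul_of_nonneg_left hfarM hW0.le)) hC.le
        _ = _ := by field_simp
    rw [← ha] at hcenp
    nlinarith
  have h2 : κ * (W * ∫ t in win P.2, ‖riemannZeta (crit t)‖ ^ 2 ∂(gaussianReal P.2 (vw P.1))) ≤ ε₁ * L ^ (9/4:ℝ) := by
    calc _ ≤ κ * (W * (C₂ * L ^ (9/4:ℝ))) := by gcongr
      _ = _ := by rw [hκd]; field_simp
  have h3 : 8 / e ^ 2 * (W * ∫ t in win P.2, ‖Etail N t‖ ^ 3 ∂(gaussianReal P.2 (vw P.1))) ≤ ε₁ * L ^ (9/4:ℝ) := by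
    have hL0 : 0 < L := by linarith
    have w1 : L ^ (-(1:ℝ)) = L⁻¹ := Real.rpow_neg_one L
    calc _ ≤ 8 / e ^ 2 * (W * L ^ (-(1:ℝ))) := by
          apply mul_le_mul_of_nonneg_left _ (by positivity)
          apply mul_le_mul_of_nonneg_left hEp.2 hW0.le
      _ = (8 / e ^ 2 * W) * L⁻¹ := by rw [w1]; ring
      _ ≤ (ε₁ * L) * L⁻¹ := by gcongr
      _ = ε₁ := by field_simp
      _ ≤ _ := by nlinarith
  have h4 : (1 - e) * ∫ t in win P.2, ‖riemannZeta (crit t)‖ ^ 3 * w (xt p t) ∂(gaussianReal P.2 (vw P.1)) ≤ (1 - e) * ((2 * CI * K + ε) * (a * L ^ (9/4:ℝ))) := by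
    calc _ ≤ _ := hint
      _ ≤ 2 * ((CI * a * K + 3 * ε₁) * L ^ (9/4:ℝ)) + ε₁ * L ^ (9/4:ℝ) + ε₁ * L ^ (9/4:ℝ) := by linarith
      _ = (2 * CI * a * K + 8 * ε₁) * L ^ (9/4:ℝ) := by ring
      _ ≤ ((1 - e) * (c * a)) * L ^ (9/4:ℝ) := by gcongr
      _ = _ := by rw [hc]; ring
  exact le_of_mul_le_mul_left h4 (by linarith)

end Pool.Agent.LibLaw15
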