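import Pool.Agent.LibLaw15.E2
import Pool.Agent.LibLaw15.E4
import Pool.Agent.LibLaw15.L5
import Pool.Agent.LibLaw15.U1
import Pool.Agent.LibM3.G5

/-! Law of the prime phases: the window bound from below. -/

set_option autoImplicit false

namespace Pool.Agent.LibLaw15

open MeasureTheory Set Filter Topology Complex ProbabilityTheory
open scoped NNReal ComplexConjugate
open Pool.Agent.LibZM Pool.Agent.LibM3

/-- Choice of the parameters (from the proof of `g4_window`). -/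
lemma l6_param {c : ℝ} (hc0 : 0 < c) (hc : c < g4_C) : ∃ θ V' I' : ℝ, 0 < θ ∧ θ < 1/3 ∧ g3_V < V' ∧ 0 < I' ∧ I' < g1_cl θ ∧
    c ^ 2 * V' < I' ^ 3 := by
  have hV := g3_V_pos
  have hc2 : c ^ 2 * g3_V < g1_cl (1/3) ^ 3 := by
    have h1 : c ^ 2 < g1_cl (1/3) ^ 3 / g3_V := by
      have := (Real.lt_sqrt hc0.le).mp hc
      exact this
    rwa [lt_div_iff₀ hV] at h1
  have hcl : 0 < g1_cl (1/3) := by
    by_contra hcon
    push Not at hcon
    have h3 : g1_cl (1/3) ^ 3 ≤ 0 := by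
      have : g1_cl (1/3) ^ 3 = g1_cl (1/3) * g1_cl (1/3) ^ 2 := by ring
      rw [this]
      exact mul_nonpos_of_nonpos_of_nonneg hcon (sq_nonneg _)
    have : 0 < c ^ 2 * g3_V := by positivity
    linarith
  obtain ⟨V', hV1, hV2⟩ : ∃ V' : ℝ, g3_V < V' ∧ c ^ 2 * V' < g1_cl (1/3) ^ 3 := by
    have h1 : g3_V < g1_cl (1/3) ^ 3 / c ^ 2 := by
      rw [lt_div_iff₀ (by positivity)]; linarith
    obtain ⟨V', a1, a2⟩ := exists_between h1
    refine ⟨V', a1, ?_⟩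
    rw [lt_div_iff₀ (by positivity)] at a2
    linarith
  obtain ⟨θ, hθ0, hθ1, hθ2, hθ3⟩ : ∃ θ : ℝ, 0 < θ ∧ θ < 1/3 ∧ c ^ 2 * V' < g1_cl θ ^ 3 ∧ 0 < g1_cl θ := by
    have hcont : ContinuousAt (fun x => g1_cl x ^ 3) (1/3) := (g2_cl_cont (by norm_num)).pow 3
    have e1 : ∀ᶠ x in 𝓝 (1/3 : ℝ), c ^ 2 * V' < g1_cl x ^ 3 := hcont.eventually_const_lt hV2
    have e4 : ∀ᶠ x in 𝓝 (1/3 : ℝ), 0 < g1_cl x := (g2_cl_cont (by norm_num)).eventually_const_lt hcl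
    have e2 : ∀ᶠ x in 𝓝[<] (1/3 : ℝ), c ^ 2 * V' < g1_cl x ^ 3 ∧ 0 < g1_cl x := (e1.and e4).filter_mono nhdsWithin_le_nhds
    have e3 : ∀ᶠ x in 𝓝[<] (1/3 : ℝ), 0 < x := (lt_mem_nhds (by norm_num)).filter_mono nhdsWithin_le_nhds
    obtain ⟨x, ⟨a1, a2⟩, b, d⟩ := (e2.and (e3.and self_mem_nhdsWithin)).exists
    exact ⟨x, b, d, a1, a2⟩
  obtain ⟨I', hI1, hI2, hI3⟩ : ∃ I' : ℝ, I' < g1_cl θ ∧ c ^ 2 * V' < I' ^ 3 ∧ 0 < I' := by
    have hcont : ContinuousAt (fun x : ℝ => x ^ 3) (g1_cl θ) := by fun_prop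
    have e1 : ∀ᶠ x in 𝓝 (g1_cl θ), c ^ 2 * V' < x ^ 3 := hcont.eventually_const_lt hθ2
    have e2 : ∀ᶠ x in 𝓝[<] (g1_cl θ), c ^ 2 * V' < x ^ 3 := e1.filter_mono nhdsWithin_le_nhds
    have e3 : ∀ᶠ x in 𝓝[<] (g1_cl θ), 0 < x := (lt_mem_nhds hθ3).filter_mono nhdsWithin_le_nhds
    obtain ⟨x, a1, b, d⟩ := (e2.and (e3.and self_mem_nhdsWithin)).exists
    exact ⟨x, d, a1, b⟩
  exact ⟨θ, V', I', hθ0, hθ1, hV1, hI3, hI1, hI2⟩

lemma l6_cS {r : ℕ} {p : Fin r → ℕ} (hp : ∀ i, (p i).Prime) : 0 < cS p := by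
  unfold cS
  apply Finset.prod_pos
  intro i _
  obtain ⟨h1, h2, -⟩ := rp_mem (hp i)
  nlinarith

/-- Hoelder's inequality with the weight. -/
lemma l6_holder {r : ℕ} {p : Fin r → ℕ} (hp : ∀ i, (p i).Prime) {w : Tor r → ℝ} (hw : Continuous w) (hw0 : ∀ x, 0 ≤ w x) (u : ℝ) (v : ℝ≥0)
    (q N : ℕ) :
    (∫ t in win u, (‖riemannZeta (crit t)‖ ^ 2 * ‖PQ q N (crit t)‖ ^ 2) * (ET p (xt p t) * w (xt p t)) ∂(gaussianReal u v)) ^ 3 ≤
      (∫ t in win u, ‖riemannZeta (crit t)‖ ^ 3 * w (xt p t) ∂(gaussianReal u v)) ^ 2 *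
        ∫ t in win u, ‖PQ q N (crit t)‖ ^ 6 * (ET p (xt p t) ^ 3 * w (xt p t)) ∂(gaussianReal u v) := by
  obtain ⟨α, hα⟩ : ∃ α : ℝ → ℝ, α = fun t => (w (xt p t)) ^ (1/6 : ℝ) := ⟨_, rfl⟩
  obtain ⟨E, hE⟩ : ∃ E : ℝ → ℝ, E = fun t => ET p (xt p t) := ⟨_, rfl⟩
  have hwc : Continuous fun t => w (xt p t) := hw.comp (xt_continuous p)
  have hαc : Continuous α := by rw [hα]; exact hwc.rpow_const fun t => Or.inr (by norm_num)
  have hα0 : ∀ t, 0 ≤ α t := fun t => by rw [hα]; exact Real.rpow_nonneg (hw0 _) _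
  have hα6 : ∀ t, α t ^ 6 = w (xt p t) := fun t => by
    rw [hα]
    simp only
    rw [← Real.rpow_natCast, ← Real.rpow_mul (hw0 _)]
    norm_num
  have hEc : Continuous E := by rw [hE]; exact (ET_props hp).1.comp (xt_continuous p)
  have hE0 : ∀ t, 0 ≤ E t := fun t => by rw [hE]; exact ((ET_props hp).2 _).le
  have hsE : ∀ t, √(E t) ^ 2 = E t := fun t => Real.sq_sqrt (hE0 t)
  have hPc : Continuous (fun t : ℝ => PQ q N (crit t)) := continuous_dp_crit (cT q N) N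
  obtain ⟨f, hf⟩ : ∃ f : ℝ → ℝ, f = fun t => ‖riemannZeta (crit t)‖ * α t ^ 2 := ⟨_, rfl⟩
  obtain ⟨g, hg⟩ : ∃ g : ℝ → ℝ, g = fun t => ‖PQ q N (crit t)‖ * (√(E t) * α t) := ⟨_, rfl⟩
  have hfc : Continuous f := by rw [hf]; exact continuous_zeta_crit.norm.mul (hαc.pow 2)
  have hgc : Continuous g := by rw [hg]; exact hPc.norm.mul (hEc.sqrt.mul hαc)
  obtain ⟨A, hA⟩ := (isCompact_Icc (a := u / 2) (b := 2 * u)).exists_bound_of_continuousOn hfc.continuousOn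
  obtain ⟨B, hB⟩ := (isCompact_Icc (a := u / 2) (b := 2 * u)).exists_bound_of_continuousOn hgc.continuousOn
  have hH := holder_two (μ := (gaussianReal u v).restrict (win u)) (f := f) (g := g)
    hfc.aestronglyMeasurable hgc.aestronglyMeasurable 
    (fun t => by rw [hf]; exact mul_nonneg (norm_nonneg _) (sq_nonneg _)) 
    (fun t => by rw [hg]; exact mul_nonneg (norm_nonneg _) (mul_nonneg (Real.sqrt_nonneg _) (hα0 t))) (A := A) (B := B)
    ((ae_restrict_iff' measurableSet_Icc).mpr (Eventually.of_forall fun t ht => (le_abs_self _).trans (hA t ht)))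
    ((ae_restrict_iff' measurableSet_Icc).mpr (Eventually.of_forall fun t ht => (le_abs_self _).trans (hB t ht)))
    (r := 1) (m := 1) (k := 3) le_rfl (by norm_num)
  simp only [mul_one, pow_one] at hH
  norm_num at hH
  have e1 : ∀ t, f t ^ 2 * g t ^ 2 = (‖riemannZeta (crit t)‖ ^ 2 * ‖PQ q N (crit t)‖ ^ 2) * (ET p (xt p t) * w (xt p t)) := by
    intro t
    rw [hf, hg, ← hα6 t]
    simp only
    have : ET p (xt p t) = √(E t) ^ 2 := by rw [hsE, hE]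
    rw [this]
    ring
  have e2 : ∀ t, f t ^ 3 = ‖riemannZeta (crit t)‖ ^ 3 * w (xt p t) := by
    intro t
    rw [hf, ← hα6 t]
    ring
  have e3 : ∀ t, g t ^ 6 = ‖PQ q N (crit t)‖ ^ 6 * (ET p (xt p t) ^ 3 * w (xt p t)) := by
    intro t
    rw [hg, ← hα6 t]
    simp only
    have : ET p (xt p t) = √(E t) ^ 2 := by rw [hsE, hE]
    rw [this]
    ring
  simp only [e1, e2, e3] at hH
  exact hH

/-- The window bound from below. -/
theorem window_lower {η : ℝ} (hη : 0 < η) {r : ℕ} {p : Fin r → ℕ} (hp : ∀ i, (p i).Prime) (hinj : Function.Injective p)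
    {w : Tor r → ℝ} (hw : Continuous w) (hw0 : ∀ x, 0 ≤ w x) {ε : ℝ} (hε : 0 < ε) :
    ∀ᶠ P : ℝ × ℝ in Fl η, (g4_C * TM p w - ε) * La3 P.1 ≤
      ∫ t in win P.2, ‖riemannZeta (crit t)‖ ^ 3 * w (xt p t) ∂(gaussianReal P.2 (vw P.1)) := by
  have hA := Aconst_pos (κ := 3/2) (by norm_num)
  obtain ⟨a, ha⟩ : ∃ a, a = Aconst (3/2) := ⟨_, rfl⟩
  have ha0 : 0 < a := by rw [ha]; exact hA
  have hlog : Tendsto (fun p : ℝ × ℝ => Real.log p.1) (Fl η) atTop := Real.tendsto_log_atTop.comp (Fl_fst η)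
  have hI0 := u1_TM_nonneg hp hw0
  obtain ⟨K, hK⟩ : ∃ K, K = TM p w := ⟨_, rfl⟩
  rw [← hK] at hI0 ⊢
  have hZ0 : ∀ P : ℝ × ℝ, 0 ≤ ∫ t in win P.2, ‖riemannZeta (crit t)‖ ^ 3 * w (xt p t) ∂(gaussianReal P.2 (vw P.1)) := fun P =>
    integral_nonneg fun t => mul_nonneg (by positivity) (hw0 _)
  rcases le_or_gt (g4_C * K - ε) 0 with hneg | hpos
  · filter_upwards [hlog.eventually_gt_atTop 0] with P hL
    refine le_trans ?_ (hZ0 P)
    apply mul_nonpos_of_nonpos_of_nonneg hneg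
    unfold La3
    positivity
  have hK0 : 0 < K := by
    rcases eq_or_lt_of_le hI0 with h | h
    · rw [← h] at hpos
      linarith
    · exact h
  obtain ⟨c, hc⟩ : ∃ c, c = (g4_C * K - ε) / K := ⟨_, rfl⟩
  have hc0 : 0 < c := by rw [hc]; positivity
  have hcK : c * K = g4_C * K - ε := by rw [hc]; field_simp
  have hcC : c < g4_C := by
    have : c * K < g4_C * K := by rw [hcK]; linarith
    exact lt_of_mul_lt_mul_right this hI0
  obtain ⟨θ, V', I', hθ0, hθ1, hV', hI', hIθ, hcVI⟩ := l6_param hc0 hcC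
  obtain ⟨I2, hI21, hI22⟩ := exists_between hIθ
  obtain ⟨V2, hV21, hV22⟩ := exists_between hV'
  have hV := g3_V_pos
  have hJ := (MT_one_pos hp).1
  have hcS := l6_cS hp
  obtain ⟨J, hJd⟩ : ∃ J, J = MT p 1 := ⟨_, rfl⟩
  obtain ⟨s, hs⟩ : ∃ s, s = cS p := ⟨_, rfl⟩
  have hM : MT p w = K * J := by
    rw [hK, hJd]
    unfold TM
    field_simp
  have hJ0 : 0 < J := by rw [hJd]; exact hJ
  have hs0 : 0 < s := by rw [hs]; exact hcS
  -- the second moment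
  have k1 := (Fl_fst η).eventually (second_lower hθ0 (by linarith) hp hinj (c := a * I2 / (s * J)) (by
    rw [← hs, ← hJd, ← ha]
    gcongr))
  have hNX : ∀ᶠ T : ℝ in atTop, 1 ≤ ⌊T ^ θ⌋₊ ∧ ⌊T ^ θ⌋₊ ≤ XN T := by
    filter_upwards [eventually_ge_atTop 1, Real.tendsto_log_atTop.eventually_ge_atTop 1] with T hT hL
    constructor
    · apply Nat.le_floor
      simpa using Real.one_le_rpow hT hθ0.le
    · apply Nat.floor_le_floor
      calc T ^ θ ≤ T ^ (1/2:ℝ) := Real.rpow_le_rpow_of_exponent_le hT (by linarith)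
        _ = T ^ (1/2:ℝ) * 1 := by ring
        _ ≤ _ := mul_le_mul_of_nonneg_left (Real.one_le_rpow hL (by norm_num)) (by positivity)
  have hEw : Continuous fun x => ET p x * w x := (ET_props hp).1.mul hw
  have hE3w : Continuous fun x => ET p x ^ 3 * w x := ((ET_props hp).1.pow 3).mul hw
  have k2 := law_two' hη hp hinj (Nf := fun T => ⌊T ^ θ⌋₊) hNX hEw
  have k3 := law_six (η := η) hθ0 hθ1 hp hinj hE3w
  have k4 := (Fl_fst η).eventually (six_upper hθ0 hθ1 hp hinj (c := a * V2 / J) (by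
    rw [← hJd, ← ha]
    gcongr))
  have eM1 : ∫ x, (ET p x * w x) * ET p x ^ 2 ∂(muT r) = K * J := by
    rw [← hM]
    unfold MT
    congr 1
    ext x
    ring
  have eM2 : ∫ x, ET p x ^ 3 * w x ∂(muT r) = K * J := by
    rw [← hM]
    unfold MT
    congr 1
    ext x
    ring
  rw [eM1, ← hs] at k2
  rw [eM2] at k3
  have k2' := (Complex.continuous_re.tendsto _).comp k2
  rw [Complex.zero_re] at k2'
  have hδ1 : 0 < a * (I2 - I') * K := by
    have : 0 < I2 - I' := by linarith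
    positivity
  have hδ2 : 0 < a * (V' - V2) * K := by
    have : 0 < V' - V2 := by linarith
    positivity
  filter_upwards [k1, k2'.eventually (lt_mem_nhds (show -(a * (I2 - I') * K) < 0 by linarith)), 
    k3.eventually (gt_mem_nhds hδ2), k4, hlog.eventually_gt_atTop 0] with P h1 h2 h3 h4 hL
  obtain ⟨N, hN⟩ : ∃ N, N = ⌊P.1 ^ θ⌋₊ := ⟨_, rfl⟩
  obtain ⟨L9, hL9⟩ : ∃ L9, L9 = (Real.log P.1) ^ (9/4 : ℝ) := ⟨_, rfl⟩
  have hL90 : 0 < L9 := by rw [hL9]; positivity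
  rw [← hN, ← hL9] at h1 h3 h4
  simp only [Function.comp_apply] at h2
  rw [← hN, ← hL9] at h2
  obtain ⟨Z, hZ⟩ : ∃ Z, Z = ∫ t in win P.2, ‖riemannZeta (crit t)‖ ^ 3 * w (xt p t) ∂(gaussianReal P.2 (vw P.1)) := ⟨_, rfl⟩
  have hZn : 0 ≤ Z := by rw [hZ]; exact hZ0 P
  have hH := l6_holder hp hw hw0 P.2 (vw P.1) (qP p) N
  rw [← hZ] at hH ⊢
  obtain ⟨X, hX⟩ : ∃ X, X = ∫ t in win P.2, (‖riemannZeta (crit t)‖ ^ 2 * ‖PQ (qP p) N (crit t)‖ ^ 2) * (ET p (xt p t) * w (xt p t))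
    ∂(gaussianReal P.2 (vw P.1)) := ⟨_, rfl⟩
  obtain ⟨Y, hY⟩ : ∃ Y, Y = ∫ t in win P.2, ‖PQ (qP p) N (crit t)‖ ^ 6 * (ET p (xt p t) ^ 3 * w (xt p t)) ∂(gaussianReal P.2 (vw P.1)) := ⟨_, rfl⟩
  obtain ⟨Y0, hY0⟩ : ∃ Y0, Y0 = ∫ t, ‖PQ (qP p) N (crit t)‖ ^ 6 * (ET p (xt p t) ^ 3 * w (xt p t)) ∂(gaussianReal P.2 (vw P.1)) := ⟨_, rfl⟩
  rw [← hX, ← hY] at hH
  rw [← hX] at h2
  rw [← hY0] at h3
  have hYY : Y ≤ Y0 := by
    rw [hY, hY0]
    apply setIntegral_le_integral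
    · have hPc : Continuous (fun t : ℝ => PQ (qP p) N (crit t)) := continuous_dp_crit (cT (qP p) N) N
      have hE3c : Continuous fun t => ET p (xt p t) ^ 3 * w (xt p t) := hE3w.comp (xt_continuous p)
      obtain ⟨W, hW0, hW⟩ := u1_bdd hE3w
      have hb : ∀ n, 0 ≤ cT (qP p) N n := fun n => by
        show 0 ≤ (if n ≤ N ∧ Nat.Coprime n (qP p) then tau (1/2) n else 0)
        split_ifs
        · exact tau_nonneg (by norm_num) n
        · exact le_rfl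
      refine Integrable.mono' (g := fun _ => (∑ n ∈ Finset.Icc 1 N, cT (qP p) N n) ^ 6 * W) (integrable_const _)
        ((hPc.norm.pow 6).mul hE3c).aestronglyMeasurable (Eventually.of_forall fun t => ?_)
      have h5 : 0 ≤ ET p (xt p t) ^ 3 * w (xt p t) := mul_nonneg (pow_nonneg ((ET_props hp).2 _).le 3) (hw0 _)
      rw [Real.norm_eq_abs, abs_of_nonneg (mul_nonneg (by positivity) h5)]
      have h6 : ‖PQ (qP p) N (crit t)‖ ≤ ∑ n ∈ Finset.Icc 1 N, cT (qP p) N n := norm_dp_crit_le hb N t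
      have h7 := hW (xt p t)
      have h8 : 0 ≤ ∑ n ∈ Finset.Icc 1 N, cT (qP p) N n := Finset.sum_nonneg fun n _ => hb n
      gcongr
    · exact Eventually.of_forall fun t => mul_nonneg (by positivity) (mul_nonneg (pow_nonneg ((ET_props hp).2 _).le 3) (hw0 _))
  -- the bounds
  have hXge : a * I' * K * L9 ≤ X := by
    have e1 : ((((X : ℝ) : ℂ) - ((s : ℝ) : ℂ) * Tw (qP p) N P.1 1 1 0 * ((K * J : ℝ) : ℂ)) / ((L9 : ℝ) : ℂ)).re = 
        (X - s * (Tw (qP p) N P.1 1 1 0).re * (K * J)) / L9 := by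
      rw [Complex.div_ofReal_re, Complex.sub_re, Complex.ofReal_re, Complex.re_mul_ofReal, Complex.re_ofReal_mul]
    rw [e1, lt_div_iff₀ hL90] at h2
    have e2 : s * (a * I2 / (s * J) * L9) * (K * J) ≤ s * (Tw (qP p) N P.1 1 1 0).re * (K * J) := by gcongr
    have e3 : s * (a * I2 / (s * J) * L9) * (K * J) = a * I2 * K * L9 := by field_simp
    have e4 : a * I' * K * L9 = a * I2 * K * L9 - a * (I2 - I') * K * L9 := by ring
    linarith
  have hYle : Y ≤ a * V' * K * L9 := by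
    rw [div_lt_iff₀ hL90] at h3
    have e2 : diag (cT (qP p) N ^ 3) (N ^ 3) * (K * J) ≤ (a * V2 / J * L9) * (K * J) := by gcongr
    have e3 : (a * V2 / J * L9) * (K * J) = a * V2 * K * L9 := by field_simp
    have e4 : a * V' * K * L9 = a * V2 * K * L9 + a * (V' - V2) * K * L9 := by ring
    linarith
  have hLa : La3 P.1 = a * L9 := by unfold La3; rw [hL9, ha]
  rw [hLa, ← hcK]
  have hX0 : 0 ≤ a * I' * K * L9 := by positivity
  have hV'0 : 0 < V' := hV.trans hV'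
  have h5 : (c * K * (a * L9)) ^ 2 * (a * V' * K * L9) ≤ Z ^ 2 * (a * V' * K * L9) := by
    calc (c * K * (a * L9)) ^ 2 * (a * V' * K * L9) = (c ^ 2 * V') * (a * K * L9) ^ 3 := by ring
      _ ≤ I' ^ 3 * (a * K * L9) ^ 3 := by
          have : 0 < a * K * L9 := by positivity
          gcongr
      _ = (a * I' * K * L9) ^ 3 := by ring
      _ ≤ X ^ 3 := by gcongr
      _ ≤ Z ^ 2 * Y := hH
      _ ≤ _ := by gcongr
  have h6 : (c * K * (a * L9)) ^ 2 ≤ Z ^ 2 := le_of_mul_le_mul_right h5 (by positivity)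
  exact (pow_le_pow_iff_left₀ (by positivity) hZn two_ne_zero).mp h6

end Pool.Agent.LibLaw15
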