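import Pool.Agent.LibLaw15.Defs

/-! Law of the prime phases, row Q3. -/


set_option autoImplicit false

namespace Pool.Agent.LibLaw15

open MeasureTheory Set Filter Topology Complex ProbabilityTheory
open scoped NNReal ComplexConjugate
open Pool.Agent.LibZM Pool.Agent.LibM3

lemma q3_conj_crit (t : ℝ) : conj (crit t) = 1 - crit t := by
  unfold crit
  simp only [map_add, map_mul, map_div₀, map_one, conj_ofReal, conj_I]
  rw [show (starRingEnd ℂ) 2 = 2 from Complex.conj_ofNat 2]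
  ring

lemma q3_cpow_shift {n : ℕ} (hn : 1 ≤ n) (s : ℂ) (y : ℝ) :
    (n:ℂ) ^ (-(s - (y:ℝ) * I)) = (n:ℂ) ^ (-s) * cexp (((y * Real.log n : ℝ) : ℂ) * I) := by
  have hn0 : (n:ℂ) ≠ 0 := by exact_mod_cast (by omega : n ≠ 0)
  rw [show -(s - (y:ℝ) * I) = -s + (y:ℝ) * I by ring, Complex.cpow_add _ _ hn0]
  congr 1
  rw [Complex.cpow_def_of_ne_zero hn0, ← Complex.natCast_log]
  congr 1
  push_cast
  ring

lemma q3_PQ (q N : ℕ) (s : ℂ) :
    PQ q N s = ∑ h ∈ cs q N, ((tau (1/2) h : ℝ) : ℂ) * (h:ℂ) ^ (-s) := by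
  unfold PQ dp cs
  rw [Finset.sum_filter]
  refine Finset.sum_congr rfl fun h hh => ?_
  have h1 : (cT q N) h = if h ≤ N ∧ Nat.Coprime h q then tau (1/2) h else 0 := rfl
  rw [h1]
  have h2 : h ≤ N := (Finset.mem_Icc.1 hh).2
  by_cases h3 : Nat.Coprime h q
  · rw [if_pos ⟨h2, h3⟩, if_pos h3]
  · rw [if_neg fun h4 => h3 h4.2, if_neg h3, ofReal_zero, zero_mul]

lemma q3_chr {m n : ℕ} (hm : 1 ≤ m) (hn : 1 ≤ n) (t : ℝ) :
    chr m n t = ((√((m:ℝ) * n) : ℝ) : ℂ) * ((n:ℂ) ^ (-crit t) * (m:ℂ) ^ (-(1 - crit t))) := by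
  have hn0 : (n:ℂ) ≠ 0 := by exact_mod_cast (by omega : n ≠ 0)
  have hm0 : (m:ℂ) ≠ 0 := by exact_mod_cast (by omega : m ≠ 0)
  have hn1 : (0:ℝ) < n := by exact_mod_cast hn
  have hm1 : (0:ℝ) < m := by exact_mod_cast hm
  have h1 : √((m:ℝ) * n) = Real.exp ((Real.log m + Real.log n) / 2) := by
    rw [Real.exp_half, Real.exp_add, Real.exp_log hm1, Real.exp_log hn1]
  rw [h1, chr, Complex.cpow_def_of_ne_zero hn0, Complex.cpow_def_of_ne_zero hm0, Complex.ofReal_exp,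
    ← Complex.exp_add, ← Complex.exp_add, ← Complex.natCast_log, ← Complex.natCast_log]
  congr 1
  unfold crit
  push_cast
  ring

/-- ROW Q3. The squared modulus of the polynomial times a character as a double sum.
Proof. Model: `PP_sq_eq` in LibM3/Q5.lean (and `q5a_conj_crit`, `q5a_cpow_shift` there). Unfold `PQ`, `dp`, `cT`: the sum over
`Finset.Icc 1 N` of `(if n ≤ N ∧ Coprime n q then tau (1/2) n else 0) * n ^ (-s)` is the sum over `cs q N`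
(`Finset.sum_filter`). `‖z‖^2 = z * conj z`; for `n ≥ 1`: `(n:ℂ)^(-(s - y I)) = n^(-s) * exp(i y log n)`; `conj (crit t) = 1 - crit t`.
`chr m n t = m^{it} n^{-it}`, `(n h)^(-crit t) = n^(-crit t) h^(-crit t)` (`Complex.natCast_mul_natCast_cpow`),
`n^(-crit t) = n^(-1/2) n^(-it)`, `m^(-(1 - crit t)) = m^(-1/2) m^{it}`, `√(mn) * m^(-1/2) * n^(-1/2) = 1`. -/
theorem PQ_sq_chr {q N m n : ℕ} (hm : 1 ≤ m) (hn : 1 ≤ n) (y t : ℝ) :
    ((‖PQ q N (crit t - (y:ℝ) * I)‖ ^ 2 : ℝ) : ℂ) * chr m n t =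
      ∑ h ∈ cs q N, ∑ k ∈ cs q N, cexp (((y * (Real.log h - Real.log k) : ℝ) : ℂ) * I) *
        ((√((m:ℝ) * n) * (tau (1/2) h * tau (1/2) k) : ℝ) : ℂ) *
        (((n * h : ℕ) : ℂ) ^ (-crit t) * ((m * k : ℕ) : ℂ) ^ (-(1 - crit t))) := by
  have h1 : ((‖PQ q N (crit t - (y:ℝ) * I)‖ ^ 2 : ℝ) : ℂ) =
      PQ q N (crit t - (y:ℝ) * I) * conj (PQ q N (crit t - (y:ℝ) * I)) := by
    rw [Complex.mul_conj, Complex.normSq_eq_norm_sq]
  rw [h1, q3_PQ, map_sum, Finset.sum_mul_sum, Finset.sum_mul]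
  refine Finset.sum_congr rfl fun h hh => ?_
  rw [Finset.sum_mul]
  refine Finset.sum_congr rfl fun k hk => ?_
  have hh1 : 1 ≤ h := (Finset.mem_Icc.1 (Finset.mem_filter.1 hh).1).1
  have hk1 : 1 ≤ k := (Finset.mem_Icc.1 (Finset.mem_filter.1 hk).1).1
  have hkarg : (k:ℂ).arg ≠ Real.pi := by
    rw [show (k:ℂ) = ((k:ℝ):ℂ) by simp, Complex.arg_ofReal_of_nonneg (by positivity)]
    exact Real.pi_pos.ne
  have ec : conj ((k:ℂ) ^ (-(crit t - (y:ℝ) * I))) =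
      (k:ℂ) ^ (-(1 - crit t)) * cexp (-(((y * Real.log k : ℝ) : ℂ) * I)) := by
    rw [q3_cpow_shift hk1, map_mul, ← Complex.exp_conj]
    congr 1
    · rw [← q3_conj_crit t]
      have := Complex.cpow_conj (k:ℂ) (-(crit t)) hkarg
      rw [Complex.conj_natCast, map_neg] at this
      exact this.symm
    · congr 1
      rw [map_mul, conj_ofReal, conj_I]
      ring
  have e3 : cexp (((y * (Real.log h - Real.log k) : ℝ) : ℂ) * I) =
      cexp (((y * Real.log h : ℝ) : ℂ) * I) * cexp (-(((y * Real.log k : ℝ) : ℂ) * I)) := by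
    rw [← Complex.exp_add]
    congr 1
    push_cast
    ring
  have e4 : ((n * h : ℕ) : ℂ) ^ (-crit t) = (n:ℂ) ^ (-crit t) * (h:ℂ) ^ (-crit t) := by
    rw [Nat.cast_mul, Complex.natCast_mul_natCast_cpow]
  have e5 : ((m * k : ℕ) : ℂ) ^ (-(1 - crit t)) = (m:ℂ) ^ (-(1 - crit t)) * (k:ℂ) ^ (-(1 - crit t)) := by
    rw [Nat.cast_mul, Complex.natCast_mul_natCast_cpow]
  rw [map_mul, conj_ofReal, ec, q3_cpow_shift hh1, q3_chr hm hn t, e3, e4, e5, Complex.ofReal_mul (√((m:ℝ) * n)),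
    Complex.ofReal_mul (tau (1/2) h)]
  ring

end Pool.Agent.LibLaw15
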