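import Pool.Agent.LibLaw15.Defs

/-! Law of the prime phases, row Q5. -/


set_option autoImplicit false

namespace Pool.Agent.LibLaw15

open MeasureTheory Set Filter Topology Complex ProbabilityTheory
open scoped NNReal ComplexConjugate
open Pool.Agent.LibZM Pool.Agent.LibM3

lemma q5_dcoef_super (a b : ℕ) :
    dcoef (1/2) a * dcoef (1/2) b ≤ dcoef (1/2) (a + b) := by
  have h0 : 0 ≤ dcoef (1/2) a := dcoef_nonneg (by norm_num) a
  have h1 : dcoef (1/2) (a + b) = dcoef (1/2) a *
      ∏ i ∈ Finset.range b, ((1/2 : ℝ) + ((a + i : ℕ) : ℝ)) / (((a + i : ℕ) : ℝ) + 1) := by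
    unfold dcoef
    rw [Finset.prod_range_add]
  rw [h1]
  refine mul_le_mul_of_nonneg_left ?_ h0
  unfold dcoef
  refine Finset.prod_le_prod (fun i _ => by positivity) fun i _ => ?_
  have ha : (0 : ℝ) ≤ a := Nat.cast_nonneg a
  have hi : (0 : ℝ) ≤ i := Nat.cast_nonneg i
  rw [Nat.cast_add, div_le_div_iff₀ (by positivity) (by positivity)]
  nlinarith

/-- ROW Q5. Supermultiplicativity of `τ_{1/2}`.
Proof. `dcoef (1/2) (a+b) ≥ dcoef (1/2) a * dcoef (1/2) b`: `dcoef α a = ∏_{i<a} (α+i)/(i+1)` (LibZM/Tau.lean), so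
`dcoef (1/2) (a+b) = dcoef (1/2) a * ∏_{i<b} (1/2+a+i)/(a+i+1)` (`Finset.prod_range_add`) and `(1/2+a+i)/(a+i+1) ≥ (1/2+i)/(i+1)`.
If `n = 0` or `h = 0` both sides are `0`. Otherwise `tau_apply`, `Nat.factorization_mul`; write all three `Finsupp.prod` as products over
the finset `(n*h).primeFactors` (`Finsupp.prod_of_support_subset`, `dcoef_zero`), then `Finset.prod_mul_distrib`, `Finset.prod_le_prod`. -/
theorem tau_super (n h : ℕ) : tau (1/2) n * tau (1/2) h ≤ tau (1/2) (n * h) := by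
  by_cases hn : n = 0
  · rw [hn, zero_mul, ArithmeticFunction.map_zero, zero_mul]
  by_cases hh : h = 0
  · rw [hh, mul_zero, ArithmeticFunction.map_zero, mul_zero]
  have hnh : n * h ≠ 0 := mul_ne_zero hn hh
  have key : ∀ m : ℕ, m ≠ 0 → m ∣ n * h →
      tau (1/2) m = ∏ p ∈ (n * h).primeFactors, dcoef (1/2) (m.factorization p) := by
    intro m hm hd
    rw [tau_apply hm]
    refine Finsupp.prod_of_support_subset _ ?_ _ fun p _ => dcoef_zero _
    rw [Nat.support_factorization]
    exact Nat.primeFactors_mono hd hnh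
  rw [key n hn (Dvd.intro _ rfl), key h hh (Dvd.intro_left _ rfl), key (n * h) hnh dvd_rfl,
    ← Finset.prod_mul_distrib]
  refine Finset.prod_le_prod (fun p _ => mul_nonneg (dcoef_nonneg (by norm_num) _)
    (dcoef_nonneg (by norm_num) _)) fun p _ => ?_
  rw [Nat.factorization_mul hn hh, Finsupp.add_apply]
  exact q5_dcoef_super _ _

end Pool.Agent.LibLaw15
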