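import Pool.Agent.LibLaw15.QM
import Pool.Agent.LibLaw15.Q3
import Pool.Agent.LibLaw15.Q5
import Pool.Agent.LibLaw15.A4
import Pool.Agent.LibM3.Q5

/-! Law of the prime phases, row Q4. -/


set_option autoImplicit false

namespace Pool.Agent.LibLaw15

open MeasureTheory Set Filter Topology Complex ProbabilityTheory
open scoped NNReal ComplexConjugate
open Pool.Agent.LibZM Pool.Agent.LibM3

lemma q4_tau_pos {n : ℕ} (hn : 1 ≤ n) : 0 < tau (1/2) n := by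
  rw [tau_apply (by omega)]
  refine Finset.prod_pos fun i _ => ?_
  unfold dcoef
  exact Finset.prod_pos fun j _ => by positivity

lemma q4_sum {n M N q : ℕ} (hn : 1 ≤ n) (hM : n * N ≤ M) (g : ℕ → ℂ) :
    ∑ H ∈ Finset.Icc 1 M, (if n ∣ H ∧ H / n ∈ cs q N then g H else 0) = ∑ h ∈ cs q N, g (n * h) := by
  rw [← Finset.sum_filter]
  symm
  refine Finset.sum_bij (fun h _ => n * h) ?_ ?_ ?_ ?_
  · intro h hh
    have hh' := hh
    unfold cs at hh'
    rw [Finset.mem_filter, Finset.mem_Icc] at hh'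
    rw [Finset.mem_filter, Finset.mem_Icc, Nat.mul_div_cancel_left _ (by omega)]
    exact ⟨⟨Nat.mul_pos (by omega) (by omega), (Nat.mul_le_mul_left n hh'.1.2).trans hM⟩,
      dvd_mul_right _ _, hh⟩
  · intro a _ b _ h
    exact Nat.eq_of_mul_eq_mul_left (by omega) h
  · intro H hH
    rw [Finset.mem_filter] at hH
    exact ⟨H / n, hH.2.2, Nat.mul_div_cancel' hH.2.1⟩
  · intro h _
    rfl

noncomputable def q4E (m n : ℕ) (y : ℝ) (H K : ℕ) : ℂ :=
  cexp (((y * (Real.log ((H / n : ℕ) : ℝ) - Real.log ((K / m : ℕ) : ℝ)) : ℝ) : ℂ) * I) *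
    ((√((m:ℝ) * n) * (tau (1/2) (H / n) * tau (1/2) (K / m)) / (tau (1/2) H * tau (1/2) K) : ℝ) : ℂ)

noncomputable def q4K (q N m n : ℕ) (y : ℝ) (H K : ℕ) : ℂ :=
  if n ∣ H ∧ H / n ∈ cs q N then (if m ∣ K ∧ K / m ∈ cs q N then q4E m n y H K else 0) else 0

lemma q4_sum2 {q N m n M : ℕ} (hm : 1 ≤ m) (hn : 1 ≤ n) (hnM : n * N ≤ M) (hmM : m * N ≤ M) (y : ℝ)
    (G : ℕ → ℕ → ℂ) : ∑ H ∈ Finset.Icc 1 M, ∑ K ∈ Finset.Icc 1 M, q4K q N m n y H K * G H K =
      ∑ h ∈ cs q N, ∑ k ∈ cs q N, q4E m n y (n * h) (m * k) * G (n * h) (m * k) := by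
  rw [← q4_sum hn hnM (fun H => ∑ k ∈ cs q N, q4E m n y H (m * k) * G H (m * k))]
  refine Finset.sum_congr rfl fun H _ => ?_
  rw [← q4_sum hm hmM (fun K => q4E m n y H K * G H K)]
  unfold q4K
  split_ifs with h1
  · refine Finset.sum_congr rfl fun K _ => ?_
    split_ifs
    · rfl
    · rw [zero_mul]
  · refine Finset.sum_eq_zero fun K _ => ?_
    rw [zero_mul]

lemma q4_E_norm (m n : ℕ) (y : ℝ) (H K : ℕ) : ‖q4E m n y H K‖ =
    √((m:ℝ) * n) * (tau (1/2) (H / n) * tau (1/2) (K / m)) / (tau (1/2) H * tau (1/2) K) := by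
  unfold q4E
  rw [norm_mul, Complex.norm_exp_ofReal_mul_I, one_mul, Complex.norm_real, Real.norm_of_nonneg]
  have h1 := tau_nonneg (α := 1/2) (by norm_num) (H / n)
  have h2 := tau_nonneg (α := 1/2) (by norm_num) (K / m)
  have h3 := tau_nonneg (α := 1/2) (by norm_num) H
  have h4 := tau_nonneg (α := 1/2) (by norm_num) K
  positivity

lemma q4_K_norm {q N m n : ℕ} (hm : 1 ≤ m) (hn : 1 ≤ n) (y : ℝ) (H K : ℕ) :
    ‖q4K q N m n y H K‖ ≤ √((m:ℝ) * n) / (tau (1/2) n * tau (1/2) m) := by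
  have h1 := q4_tau_pos hn
  have h2 := q4_tau_pos hm
  have h0 : 0 ≤ √((m:ℝ) * n) / (tau (1/2) n * tau (1/2) m) := by positivity
  unfold q4K
  split_ifs with hH hK
  · obtain ⟨hH1, hH2⟩ := hH
    obtain ⟨hK1, hK2⟩ := hK
    unfold cs at hH2 hK2
    rw [Finset.mem_filter, Finset.mem_Icc] at hH2 hK2
    have e1 : n * (H / n) = H := Nat.mul_div_cancel' hH1
    have e2 : m * (K / m) = K := Nat.mul_div_cancel' hK1
    have s1 := tau_super n (H / n)
    have s2 := tau_super m (K / m)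
    rw [e1] at s1
    rw [e2] at s2
    have p1 := q4_tau_pos hH2.1.1
    have p2 := q4_tau_pos hK2.1.1
    have p3 : 0 < tau (1/2) H := lt_of_lt_of_le (mul_pos h1 p1) s1
    have p4 : 0 < tau (1/2) K := lt_of_lt_of_le (mul_pos h2 p2) s2
    rw [q4_E_norm, div_le_div_iff₀ (by positivity) (by positivity), mul_assoc]
    apply mul_le_mul_of_nonneg_left _ (Real.sqrt_nonneg _)
    calc tau (1/2) (H / n) * tau (1/2) (K / m) * (tau (1/2) n * tau (1/2) m) =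
        (tau (1/2) n * tau (1/2) (H / n)) * (tau (1/2) m * tau (1/2) (K / m)) := by ring
      _ ≤ tau (1/2) H * tau (1/2) K := mul_le_mul s1 s2 (by positivity) p3.le
  · rw [norm_zero]
    exact h0
  · rw [norm_zero]
    exact h0

lemma q4_form {q N m n M : ℕ} (hm : 1 ≤ m) (hn : 1 ≤ n) (hnM : n * N ≤ M) (hmM : m * N ≤ M) (y t : ℝ) :
    ((‖PQ q N (crit t - (y:ℝ) * I)‖ ^ 2 : ℝ) : ℂ) * chr m n t = QForm M (q4K q N m n y) t := by
  unfold QForm
  have e : ∀ h k : ℕ, q4K q N m n y h k * ((tau (1/2) h * tau (1/2) k : ℝ) : ℂ) *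
      ((h:ℂ) ^ (-crit t) * (k:ℂ) ^ (-(1 - crit t))) = q4K q N m n y h k *
      (((tau (1/2) h * tau (1/2) k : ℝ) : ℂ) * ((h:ℂ) ^ (-crit t) * (k:ℂ) ^ (-(1 - crit t)))) :=
    fun h k => mul_assoc _ _ _
  simp_rw [e]
  rw [PQ_sq_chr hm hn, q4_sum2 hm hn hnM hmM y (fun H K => (((tau (1/2) H * tau (1/2) K : ℝ) : ℂ) *
    ((H:ℂ) ^ (-crit t) * (K:ℂ) ^ (-(1 - crit t)))))]
  refine Finset.sum_congr rfl fun h hh => Finset.sum_congr rfl fun k hk => ?_
  unfold cs at hh hk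
  rw [Finset.mem_filter, Finset.mem_Icc] at hh hk
  unfold q4E
  rw [Nat.mul_div_cancel_left _ (by omega), Nat.mul_div_cancel_left _ (by omega)]
  have p1 := q4_tau_pos (n := n * h) (Nat.mul_pos (by omega) (by omega))
  have p2 := q4_tau_pos (n := m * k) (Nat.mul_pos (by omega) (by omega))
  have e2 : √((m:ℝ) * n) * (tau (1/2) h * tau (1/2) k) =
      √((m:ℝ) * n) * (tau (1/2) h * tau (1/2) k) / (tau (1/2) (n * h) * tau (1/2) (m * k)) *
        (tau (1/2) (n * h) * tau (1/2) (m * k)) := by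
    field_simp
  conv_lhs => rw [e2, Complex.ofReal_mul (_ / _)]
  ring

lemma q4_diag {q N m n M : ℕ} (hm : 1 ≤ m) (hn : 1 ≤ n) (hnM : n * N ≤ M) (hmM : m * N ≤ M) (y T : ℝ) :
    ∑ H ∈ Finset.Icc 1 M, ∑ K ∈ Finset.Icc 1 M, q4K q N m n y H K * ((gk H K * ell T H K : ℝ) : ℂ) =
      Tw q N T m n y := by
  unfold Tw
  rw [q4_sum2 hm hn hnM hmM y (fun H K => ((gk H K * ell T H K : ℝ) : ℂ))]
  refine Finset.sum_congr rfl fun h hh => Finset.sum_congr rfl fun k hk => ?_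
  unfold cs at hh hk
  rw [Finset.mem_filter, Finset.mem_Icc] at hh hk
  unfold q4E
  rw [Nat.mul_div_cancel_left _ (by omega), Nat.mul_div_cancel_left _ (by omega), mul_assoc,
    ← Complex.ofReal_mul]
  congr 2
  have p1 := q4_tau_pos (n := n * h) (Nat.mul_pos (by omega) (by omega))
  have p2 := q4_tau_pos (n := m * k) (Nat.mul_pos (by omega) (by omega))
  unfold gk gmn
  have n0 : (n:ℝ) ≠ 0 := by exact_mod_cast (by omega : n ≠ 0)
  have m0 : (m:ℝ) ≠ 0 := by exact_mod_cast (by omega : m ≠ 0)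
  have h0 : (h:ℝ) ≠ 0 := by exact_mod_cast (by omega : h ≠ 0)
  have k0 : (k:ℝ) ≠ 0 := by exact_mod_cast (by omega : k ≠ 0)
  push_cast
  field_simp

/-- ROW Q4. The twisted second moment.
Proof. Let `D = max m n`. For `N ≤ XN T` put
`K H K' = if n ∣ H ∧ m ∣ K' ∧ H / n ∈ cs q N ∧ K' / m ∈ cs q N then exp(i y (log(H/n) - log(K'/m))) * √(mn) * τ(H/n) τ(K'/m) / (τ(H) τ(K')) else 0`
(complex). `tau_super`: `τ(H) = τ(n h) ≥ τ(n) τ(h)`, `τ(h) > 0` for `h ≥ 1` (LibM3: `tau_pos`-type lemma or from the product formula), so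
`‖K‖ ≤ K0 := √(mn) / (τ(n) τ(m))`. With `M := D * N` the form `QForm M K t` is the double sum of `PQ_sq_chr` (reindex `H = n h`, `K' = m k`;
the map `h ↦ n h` is injective, `n h ≤ M`; `Finset.sum_bij` or `Finset.sum_image` + `Finset.sum_subset`), and
`∑_{H,K' ≤ M} K H K' * (gk H K' * ell T H K') = Tw q N T m n y` since `τ(H)τ(K') gcd(H,K')/(H K')` times `K` is `gmn`.
Apply `qform_mean'` (row file QM) with this `M`: `1 ≤ M` if `N ≥ 1` and `M ≤ D * XN T ≤ D T^{1/2} (log T)^{1/16} ≤ T^{1/2} (log T)^{1/8}` for large `T`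
(`par_XN_le`). If `N = 0` everything is `0`. -/
theorem twisted_mean {η : ℝ} (hη : 0 < η) (q : ℕ) {m n : ℕ} (hm : 1 ≤ m) (hn : 1 ≤ n) :
    ∃ C : ℝ, 0 < C ∧ ∀ᶠ p : ℝ × ℝ in Fl η, ∀ N : ℕ, N ≤ XN p.1 → ∀ y : ℝ,
      ‖(∫ t in win p.2, ((‖riemannZeta (crit t)‖ ^ 2 : ℝ) : ℂ) *
          (((‖PQ q N (crit t - (y:ℝ) * I)‖ ^ 2 : ℝ) : ℂ) * chr m n t) ∂(gaussianReal p.2 (vw p.1))) - Tw q N p.1 m n y‖ ≤
        C * (Real.log p.1) ^ (2 + 1/8 : ℝ) := by
  obtain ⟨C, hC, hQ⟩ := qform_mean' hη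
  set K0 : ℝ := √((m:ℝ) * n) / (tau (1/2) n * tau (1/2) m) with hK0
  have hK0p : 0 < K0 := by
    have h1 := q4_tau_pos hn
    have h2 := q4_tau_pos hm
    have h3 : (0:ℝ) < m := by exact_mod_cast hm
    have h4 : (0:ℝ) < n := by exact_mod_cast hn
    rw [hK0]
    positivity
  refine ⟨C * K0, by positivity, ?_⟩
  have hlog : Tendsto (fun p : ℝ × ℝ => Real.log p.1) (Fl η) atTop := Real.tendsto_log_atTop.comp (Fl_fst η)
  have hD : ∀ᶠ p : ℝ × ℝ in Fl η, ((max m n : ℕ) : ℝ) ≤ (Real.log p.1) ^ (1/16 : ℝ) :=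
    ((tendsto_rpow_atTop (by norm_num : (0:ℝ) < 1/16)).comp hlog).eventually_ge_atTop _
  filter_upwards [hQ, hD, hlog.eventually_ge_atTop 1, (Fl_fst η).eventually (eventually_ge_atTop (1:ℝ))]
    with p hp hDp hL hT N hN y
  have hL0 : 0 < Real.log p.1 := by linarith
  have hnM : n * N ≤ max m n * N := Nat.mul_le_mul_right N (le_max_right m n)
  have hmM : m * N ≤ max m n * N := Nat.mul_le_mul_right N (le_max_left m n)
  simp_rw [q4_form (q := q) hm hn hnM hmM y]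
  rw [← q4_diag hm hn hnM hmM y p.1]
  rcases Nat.eq_zero_or_pos N with h0 | hN1
  · subst h0
    have hM0 : max m n * 0 = 0 := Nat.mul_zero _
    rw [hM0]
    unfold QForm
    simp only [Finset.Icc_eq_empty (by norm_num : ¬ (1:ℕ) ≤ 0), Finset.sum_empty, mul_zero,
      integral_zero, sub_zero, norm_zero]
    positivity
  · refine hp (max m n * N) (Nat.mul_pos (lt_of_lt_of_le hm (le_max_left m n)) hN1) ?_ _ K0
      (fun h k => q4_K_norm hm hn y h k)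
    have h1 : (N:ℝ) ≤ XN p.1 := by exact_mod_cast hN
    have h2 := par_XN_le hT
    have h3 : (Real.log p.1) ^ (1/8 : ℝ) = (Real.log p.1) ^ (1/16 : ℝ) * (Real.log p.1) ^ (1/16 : ℝ) := by
      rw [← Real.rpow_add hL0]
      norm_num
    push_cast
    push_cast at hDp
    calc max (m:ℝ) n * N ≤ (Real.log p.1) ^ (1/16 : ℝ) * (p.1 ^ (1/2:ℝ) * (Real.log p.1) ^ (1/16:ℝ)) :=
          mul_le_mul hDp (h1.trans h2) (Nat.cast_nonneg _) (by positivity)
      _ = p.1 ^ (1/2 : ℝ) * (Real.log p.1) ^ (1/8 : ℝ) := by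
          rw [h3]
          ring

end Pool.Agent.LibLaw15
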