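import Pool.Agent.LibLaw15.Defs
import Pool.Agent.LibM3.Q4

/-! Law of the prime phases: the twisted second moment form at all lengths up to `T^{1/2} (log T)^{1/8}`. -/

set_option autoImplicit false

namespace Pool.Agent.LibLaw15

open MeasureTheory Set Filter Topology Complex ProbabilityTheory
open scoped NNReal ComplexConjugate
open Pool.Agent.LibZM Pool.Agent.LibM3

theorem offdiag_sum' : ∃ C : ℝ, 0 < C ∧ ∀ᶠ T : ℝ in atTop, ∀ N : ℕ, 1 ≤ N → (N:ℝ) ≤ T ^ (1/2:ℝ) * (Real.log T) ^ (1/8:ℝ) →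
    Summable (fun q : ℕ × ℕ => ∑ h ∈ Finset.Icc 1 N, ∑ k ∈ Finset.Icc 1 N, offw T q.1 q.2 h k) ∧
    ∑' q : ℕ × ℕ, ∑ h ∈ Finset.Icc 1 N, ∑ k ∈ Finset.Icc 1 N, offw T q.1 q.2 h k ≤ C * (Real.log T) ^ (2 + 1/8 : ℝ) := by
  obtain ⟨C, hC, hlat⟩ := lattice_off
  refine ⟨C * (3 ^ (5/4 : ℝ) + 9), by positivity, ?_⟩
  have hlog : Tendsto Real.log atTop atTop := Real.tendsto_log_atTop
  -- L^(3/4) * L^2 ≤ T
  have h1 : ∀ᶠ T : ℝ in atTop, (Real.log T) ^ (11/4 : ℝ) ≤ T := by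
    have := (isLittleO_log_rpow_rpow_atTop (11/4 : ℝ) (s := 1) one_pos).bound one_pos
    filter_upwards [this, eventually_ge_atTop 1] with T hT hT1
    rw [one_mul, Real.rpow_one, Real.norm_of_nonneg (by linarith : (0:ℝ) ≤ T)] at hT
    exact le_trans (le_abs_self _) hT
  have h2 : ∀ᶠ T : ℝ in atTop, (Real.log T) ^ (1/8 : ℝ) ≤ T := by
    have := (isLittleO_log_rpow_rpow_atTop (1/8 : ℝ) (s := 1) one_pos).bound one_pos
    filter_upwards [this, eventually_ge_atTop 1] with T hT hT1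
    rw [one_mul, Real.rpow_one, Real.norm_of_nonneg (by linarith : (0:ℝ) ≤ T)] at hT
    exact le_trans (le_abs_self _) hT
  filter_upwards [h1, h2, eventually_ge_atTop 4, hlog.eventually_ge_atTop 1] with T hT1 hT2 hT4 hL N hN1 hNle
  set L := Real.log T with hLdef
  have hT0 : 0 < T := by linarith
  have hL0 : 0 < L := by linarith
  have hHdef : Hw T = T / L ^ (3/4 : ℝ) := rfl
  have hH0 : 0 < Hw T := by rw [hHdef]; positivity
  have hHL : L ^ 2 ≤ Hw T := by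
    rw [hHdef, le_div_iff₀ (by positivity)]
    calc L ^ 2 * L ^ (3/4:ℝ) = L ^ (11/4 : ℝ) := by
          rw [← Real.rpow_natCast, ← Real.rpow_add hL0]; norm_num
      _ ≤ T := hT1
  have hH1 : 1 ≤ Hw T := le_trans (one_le_pow₀ hL) hHL
  set Y := T ^ (1/2:ℝ) * N with hYdef
  have hT12 : T ^ (1/2:ℝ) * T ^ (1/2:ℝ) = T := by
    rw [← Real.rpow_add hT0]; norm_num
  have hY2 : T * (N:ℝ) ^ 2 ≤ Y ^ 2 := by
    rw [hYdef, mul_pow, sq (T ^ (1/2:ℝ)), hT12]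
  have hTge2 : (2:ℝ) ≤ T ^ (1/2:ℝ) := by
    have : (4:ℝ) ^ (1/2:ℝ) = 2 := by
      rw [show (4:ℝ) = 2 ^ (2:ℝ) by norm_num, ← Real.rpow_mul (by norm_num)]; norm_num
    exact le_of_eq_of_le this.symm (Real.rpow_le_rpow (by norm_num) hT4 (by norm_num))
  have hY2' : 2 ≤ Y := by
    rw [hYdef]
    have : (1:ℝ) ≤ N := by exact_mod_cast hN1
    nlinarith
  have hYle : Y ≤ T * L ^ (1/8:ℝ) := by
    rw [hYdef]
    calc T ^ (1/2:ℝ) * N ≤ T ^ (1/2:ℝ) * (T ^ (1/2:ℝ) * L ^ (1/8:ℝ)) := mul_le_mul_of_nonneg_left hNle (by positivity)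
      _ = T * L ^ (1/8:ℝ) := by rw [← mul_assoc, hT12]
  have hYH : Y / Hw T ≤ L ^ (7/8:ℝ) := by
    rw [hHdef, div_le_iff₀ (by positivity)]
    have e : L ^ (7/8:ℝ) * (T / L ^ (3/4:ℝ)) = T * L ^ (1/8:ℝ) := by
      rw [show (7/8:ℝ) = 1/8 + 3/4 by norm_num, Real.rpow_add hL0]
      field_simp
    rw [e]; exact hYle
  have hlogY : 1 + Real.log Y ≤ 3 * L := by
    have : Real.log Y ≤ 2 * L := by
      have h3 : Y ≤ T * T := le_trans hYle (mul_le_mul_of_nonneg_left hT2 hT0.le)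
      have h4 := Real.log_le_log (by linarith) h3
      rw [Real.log_mul hT0.ne' hT0.ne'] at h4
      linarith
    linarith
  have hlogY0 : 0 ≤ 1 + Real.log Y := by
    have := Real.log_nonneg (by linarith : (1:ℝ) ≤ Y)
    linarith
  obtain ⟨hs, hle⟩ := hlat Y (Hw T) hH1 hY2'
  obtain ⟨hs', hle'⟩ := q2_reindex T Y (Hw T) N hT0 hY2 rfl hs
  refine ⟨hs', hle'.trans (hle.trans ?_)⟩
  have k1 : Y / Hw T * (1 + Real.log Y) ^ (5/4 : ℝ) ≤ 3 ^ (5/4:ℝ) * L ^ (2 + 1/8 : ℝ) := by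
    calc Y / Hw T * (1 + Real.log Y) ^ (5/4 : ℝ) ≤ L ^ (7/8:ℝ) * (3 * L) ^ (5/4:ℝ) :=
          mul_le_mul hYH (Real.rpow_le_rpow hlogY0 hlogY (by norm_num)) (by positivity) (by positivity)
      _ = 3 ^ (5/4:ℝ) * (L ^ (7/8:ℝ) * L ^ (5/4:ℝ)) := by
          rw [Real.mul_rpow (by norm_num) hL0.le]; ring
      _ = 3 ^ (5/4:ℝ) * L ^ (17/8:ℝ) := by rw [← Real.rpow_add hL0]; norm_num
      _ ≤ _ := mul_le_mul_of_nonneg_left (Real.rpow_le_rpow_of_exponent_le hL (by norm_num)) (by positivity)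
  have k2 : Y * (1 + Real.log Y) ^ 2 / Hw T ^ 2 ≤ 9 * L ^ (2 + 1/8 : ℝ) := by
    calc Y * (1 + Real.log Y) ^ 2 / Hw T ^ 2 = (Y / Hw T) * ((1 + Real.log Y) ^ 2 / Hw T) := by
          field_simp
      _ ≤ L ^ (7/8:ℝ) * 9 := by
          refine mul_le_mul hYH ?_ (by positivity) (by positivity)
          rw [div_le_iff₀ hH0]
          calc (1 + Real.log Y) ^ 2 ≤ (3 * L) ^ 2 := pow_le_pow_left₀ hlogY0 hlogY 2
            _ = 9 * L ^ 2 := by ring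
            _ ≤ 9 * Hw T := by linarith
      _ = 9 * L ^ (7/8:ℝ) := by ring
      _ ≤ _ := mul_le_mul_of_nonneg_left (Real.rpow_le_rpow_of_exponent_le hL (by norm_num)) (by positivity)
  calc C * (Y / Hw T * (1 + Real.log Y) ^ (5/4 : ℝ) + Y * (1 + Real.log Y) ^ 2 / Hw T ^ 2)
      ≤ C * (3 ^ (5/4:ℝ) * L ^ (2 + 1/8 : ℝ) + 9 * L ^ (2 + 1/8 : ℝ)) := mul_le_mul_of_nonneg_left (add_le_add k1 k2) hC.le
    _ = _ := by ring


theorem qm_log {T : ℝ} (hT : Real.exp 2 ≤ T) {N : ℕ} (hN : 1 ≤ N) (hN2 : (N:ℝ) ≤ T ^ (1/2 : ℝ) * (Real.log T) ^ (1/8 : ℝ)) :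
    Real.log (N:ℝ) ≤ Real.log T := by
  have hT0 : 0 < T := (Real.exp_pos 2).trans_le hT
  have hL : 2 ≤ Real.log T := by
    rw [Real.le_log_iff_exp_le hT0]
    exact hT
  have hN0 : (0:ℝ) < N := by exact_mod_cast hN
  have h1 := Real.log_le_log hN0 hN2
  rw [Real.log_mul (by positivity) (by positivity), Real.log_rpow hT0, Real.log_rpow (by linarith)] at h1
  have h2 := Real.log_le_self (show 0 ≤ Real.log T by linarith)
  linarith

/-- The twisted second moment form at all lengths up to `T^{1/2} (log T)^{1/8}`. -/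
theorem qform_mean' {η : ℝ} (hη : 0 < η) : ∃ C : ℝ, 0 < C ∧ ∀ᶠ p : ℝ × ℝ in Fl η, ∀ N : ℕ, 1 ≤ N →
    (N:ℝ) ≤ p.1 ^ (1/2 : ℝ) * (Real.log p.1) ^ (1/8 : ℝ) → ∀ K : ℕ → ℕ → ℂ, ∀ K0 : ℝ, (∀ h k, ‖K h k‖ ≤ K0) →
    ‖(∫ t in win p.2, ((‖riemannZeta (crit t)‖ ^ 2 : ℝ) : ℂ) * QForm N K t ∂(gaussianReal p.2 (vw p.1))) -
      ∑ h ∈ Finset.Icc 1 N, ∑ k ∈ Finset.Icc 1 N, K h k * ((gk h k * ell p.1 h k : ℝ) : ℂ)‖ ≤
      C * K0 * (Real.log p.1) ^ (2 + 1/8 : ℝ) := by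
  obtain ⟨C1, t0, hC1, -, hzeta⟩ := zeta_sq_approx
  obtain ⟨C2, hC2, hosc⟩ := osc hη
  obtain ⟨C3, hC3, hoff⟩ := offdiag_sum' 
  obtain ⟨C4, hC4, hdiag⟩ := diag_sum hη
  obtain ⟨C5, hC5, hgk⟩ := sum_gk_le
  set B1 : ℝ := C1 * (Real.exp 1 * (η / 2) ^ (-(1/2) : ℝ)) with hB1
  have hB10 : 0 < B1 := by positivity
  refine ⟨4 * B1 + 2 * (C2 * C3) + C4 * C5 * (2:ℝ) ^ (5/4 : ℝ), by positivity, ?_⟩
  have hT1 : ∀ᶠ p : ℝ × ℝ in Fl η, Real.exp 2 ≤ p.1 :=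
    (Fl_fst η).eventually (eventually_ge_atTop _)
  have hT2 : ∀ᶠ p : ℝ × ℝ in Fl η, 2 * t0 / η ≤ p.1 :=
    (Fl_fst η).eventually (eventually_ge_atTop _)
  filter_upwards [hT1, hT2, Fl_range η, hosc, (Fl_fst η).eventually hoff, hdiag] with p hT ht0 hr
    hosc hoff hdiag N hN1 hN2 K K0 hK
  obtain ⟨T, u⟩ := p
  simp only at hT ht0 hr hosc hoff hdiag hN2 ⊢
  obtain ⟨hr1, hr2⟩ := hr
  have hK0 : 0 ≤ K0 := (norm_nonneg _).trans (hK 0 0)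
  have hT0 : 0 < T := (Real.exp_pos 2).trans_le hT
  have hu : 0 < u := (mul_pos hη hT0).trans_le hr1
  have hL : 2 ≤ Real.log T := by
    rw [Real.le_log_iff_exp_le hT0]
    exact hT
  have hL0 : 0 < Real.log T := by linarith
  have ht0' : t0 ≤ η * T / 2 := by
    rw [div_le_iff₀ hη] at ht0
    linarith
  replace hoff := hoff N hN1 hN2
  have hN3 : Real.log (N:ℝ) ≤ Real.log T := qm_log hT hN1 hN2
  set μ := gaussianReal u (vw T) with hμ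
  -- the approximate functional equation
  have hi1 : IntegrableOn (fun t => ((‖riemannZeta (crit t)‖ ^ 2 : ℝ) : ℂ) * QForm N K t)
      (win u) μ := by
    refine q4_intOn (Continuous.continuousOn ?_)
    exact (Complex.continuous_ofReal.comp (continuous_zeta_crit.norm.pow 2)).mul
      (q4_continuous_QForm N K)
  have hi2 : IntegrableOn (fun t => (∑' p : ℕ × ℕ, W2 t p) * QForm N K t) (win u) μ :=
    q4_intOn ((q4_contOn_tsum hu hr2).mul (q4_continuous_QForm N K).continuousOn)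
  have hE : ‖(∫ t in win u, ((‖riemannZeta (crit t)‖ ^ 2 : ℝ) : ℂ) * QForm N K t ∂μ) -
      2 * ∫ t in win u, (∑' p : ℕ × ℕ, W2 t p) * QForm N K t ∂μ‖ ≤
      4 * B1 * K0 * (Real.log T) ^ (2 + 1/8 : ℝ) := by
    rw [← integral_const_mul, ← integral_sub hi1 (hi2.const_mul 2)]
    have hB : 0 ≤ (B1 * (T ^ (-(1/2) : ℝ) * (Real.log T) ^ 2)) * (K0 * (4 * N)) := by positivity
    have h3 := q4_norm_int_le (T := T) (u := u)
      (f := fun t => ((‖riemannZeta (crit t)‖ ^ 2 : ℝ) : ℂ) * QForm N K t -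
        2 * ((∑' p : ℕ × ℕ, W2 t p) * QForm N K t)) hB (fun t ht => by
        have e : ((‖riemannZeta (crit t)‖ ^ 2 : ℝ) : ℂ) * QForm N K t -
            2 * ((∑' p : ℕ × ℕ, W2 t p) * QForm N K t) =
            (((‖riemannZeta (crit t)‖ ^ 2 : ℝ) : ℂ) - 2 * ∑' p : ℕ × ℕ, W2 t p) *
              QForm N K t := by ring
        rw [e, norm_mul]
        exact mul_le_mul (q4_err hη hC1 hzeta hT ht0' hr1 hr2 ht) (q4_norm_QForm_le hK t)
          (norm_nonneg _) (by positivity))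
    refine h3.trans ?_
    have h4 : T ^ (-(1/2) : ℝ) * (N:ℝ) ≤ (Real.log T) ^ (1/8 : ℝ) := by
      calc T ^ (-(1/2) : ℝ) * (N:ℝ) ≤ T ^ (-(1/2) : ℝ) *
            (T ^ (1/2 : ℝ) * (Real.log T) ^ (1/8 : ℝ)) :=
            mul_le_mul_of_nonneg_left hN2 (by positivity)
        _ = (T ^ (-(1/2) : ℝ) * T ^ (1/2 : ℝ)) * (Real.log T) ^ (1/8 : ℝ) := by ring
        _ = (Real.log T) ^ (1/8 : ℝ) := by
            rw [← Real.rpow_add hT0]
            norm_num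
    have h5 : (Real.log T) ^ 2 * (Real.log T) ^ (1/8 : ℝ) ≤ (Real.log T) ^ (2 + 1/8 : ℝ) := by
      rw [← Real.rpow_natCast, ← Real.rpow_add hL0]
      exact Real.rpow_le_rpow_of_exponent_le (by linarith) (by norm_num)
    calc (B1 * (T ^ (-(1/2) : ℝ) * (Real.log T) ^ 2)) * (K0 * (4 * N))
        = 4 * B1 * K0 * ((Real.log T) ^ 2 * (T ^ (-(1/2) : ℝ) * (N:ℝ))) := by ring
      _ ≤ 4 * B1 * K0 * ((Real.log T) ^ 2 * (Real.log T) ^ (1/8 : ℝ)) := by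
          refine mul_le_mul_of_nonneg_left ?_ (by positivity)
          exact mul_le_mul_of_nonneg_left h4 (by positivity)
      _ ≤ 4 * B1 * K0 * (Real.log T) ^ (2 + 1/8 : ℝ) :=
          mul_le_mul_of_nonneg_left h5 (by positivity)
  -- the sum
  have hsum := q4_hasSum hu hr2 N hK
  have hosc' : ∀ x : ℝ, 1 ≤ x → ∀ l : ℝ, l ≠ 0 → ‖q4_J T u x l‖ ≤
      C2 * min 1 ((T / x) ^ 4) * min 1 ((Hw T)⁻¹ ^ 2 * (1 + (l ^ 2)⁻¹)) := hosc
  set fd : ℕ × ℕ → ℂ := fun p => ∑ h ∈ Finset.Icc 1 N, ∑ k ∈ Finset.Icc 1 N,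
    if p.1 * h = p.2 * k then q4_co K p.1 p.2 h k *
      q4_J T u ((p.1:ℝ) * p.2) (Real.log (((p.1:ℝ) * h) / ((p.2:ℝ) * k))) else 0 with hfd
  set fo : ℕ × ℕ → ℂ := fun p => ∑ h ∈ Finset.Icc 1 N, ∑ k ∈ Finset.Icc 1 N,
    if p.1 * h = p.2 * k then 0 else q4_co K p.1 p.2 h k *
      q4_J T u ((p.1:ℝ) * p.2) (Real.log (((p.1:ℝ) * h) / ((p.2:ℝ) * k))) with hfo
  have hsplit : ∀ p : ℕ × ℕ, ∫ t in win u, W2 t p * QForm N K t ∂μ = fd p + fo p := by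
    rintro ⟨a, b⟩
    rw [hμ, q4_term hu N K a b, hfd, hfo]
    simp only
    rw [← Finset.sum_add_distrib]
    refine Finset.sum_congr rfl fun h _ => ?_
    rw [← Finset.sum_add_distrib]
    refine Finset.sum_congr rfl fun k _ => ?_
    split_ifs
    · rw [add_zero]
    · rw [zero_add]
  -- the diagonal
  set S : ℕ → ℕ → ℝ := fun h k => ∑' j : ℕ, (j:ℝ)⁻¹ *
    q4_Jr T u ((j:ℝ) ^ 2 * (((h:ℝ) * k) / (Nat.gcd h k : ℝ) ^ 2)) with hS
  have hx : ∀ h k : ℕ, 1 ≤ h → 1 ≤ k → (1:ℝ) ≤ ((h:ℝ) * k) / (Nat.gcd h k : ℝ) ^ 2 := by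
    intro h k hh hk
    have hg0 : 0 < Nat.gcd h k := Nat.gcd_pos_of_pos_left k hh
    have hgr : (0:ℝ) < (Nat.gcd h k : ℝ) := by exact_mod_cast hg0
    rw [le_div_iff₀ (by positivity), one_mul, sq]
    have e1 : (Nat.gcd h k : ℝ) ≤ h := by exact_mod_cast Nat.gcd_le_left k hh
    have e2 : (Nat.gcd h k : ℝ) ≤ k := by exact_mod_cast Nat.gcd_le_right h hk
    exact mul_le_mul e1 e2 hgr.le (by positivity)
  have hDsum : HasSum fd (∑ h ∈ Finset.Icc 1 N, ∑ k ∈ Finset.Icc 1 N,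
      K h k * ((gk h k * S h k : ℝ) : ℂ)) := by
    refine hasSum_sum fun h hh => hasSum_sum fun k hk => ?_
    have hh1 := (Finset.mem_Icc.1 hh).1
    have hk1 := (Finset.mem_Icc.1 hk).1
    exact q4_diag hh1 hk1 K (hdiag _ (hx h k hh1 hk1)).1.hasSum
  -- the off-diagonal
  have hfo_le : ∀ p : ℕ × ℕ, ‖fo p‖ ≤ K0 * C2 * ∑ h ∈ Finset.Icc 1 N, ∑ k ∈ Finset.Icc 1 N,
      offw T p.1 p.2 h k := by
    intro p
    rw [Finset.mul_sum]
    refine (norm_sum_le _ _).trans (Finset.sum_le_sum fun h hh => ?_)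
    rw [Finset.mul_sum]
    refine (norm_sum_le _ _).trans (Finset.sum_le_sum fun k hk => ?_)
    exact q4_off_le hC2 hosc' hK p.1 p.2 (Finset.mem_Icc.1 hh).1 (Finset.mem_Icc.1 hk).1
  have hoffs := hoff.1.hasSum.mul_left (K0 * C2)
  have hfos : Summable fo := Summable.of_norm_bounded hoffs.summable hfo_le
  have hfo_norm : ‖∑' p, fo p‖ ≤ K0 * C2 * (C3 * (Real.log T) ^ (2 + 1/8 : ℝ)) :=
    (tsum_of_norm_bounded hoffs hfo_le).trans
      (mul_le_mul_of_nonneg_left hoff.2 (by positivity))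
  have htot : (∫ t in win u, (∑' p : ℕ × ℕ, W2 t p) * QForm N K t ∂μ) =
      (∑ h ∈ Finset.Icc 1 N, ∑ k ∈ Finset.Icc 1 N, K h k * ((gk h k * S h k : ℝ) : ℂ)) +
        ∑' p, fo p := by
    have h1 := hDsum.add hfos.hasSum
    have h2 : (fun p : ℕ × ℕ => ∫ t in win u, W2 t p * QForm N K t ∂μ) =
        fun p => fd p + fo p := funext hsplit
    rw [h2] at hsum
    exact hsum.unique h1
  -- the comparison with `ell`
  have hgk0 : ∀ h k : ℕ, 0 ≤ gk h k := fun h k => by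
    have h1 := q4_tau_nonneg h
    have h2 := q4_tau_nonneg k
    unfold gk
    positivity
  have hD : ‖2 * (∑ h ∈ Finset.Icc 1 N, ∑ k ∈ Finset.Icc 1 N,
      K h k * ((gk h k * S h k : ℝ) : ℂ)) -
      ∑ h ∈ Finset.Icc 1 N, ∑ k ∈ Finset.Icc 1 N, K h k * ((gk h k * ell T h k : ℝ) : ℂ)‖ ≤
      C4 * C5 * (2:ℝ) ^ (5/4 : ℝ) * K0 * (Real.log T) ^ (2 + 1/8 : ℝ) := by
    have e1 : 2 * (∑ h ∈ Finset.Icc 1 N, ∑ k ∈ Finset.Icc 1 N,
        K h k * ((gk h k * S h k : ℝ) : ℂ)) -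
        ∑ h ∈ Finset.Icc 1 N, ∑ k ∈ Finset.Icc 1 N, K h k * ((gk h k * ell T h k : ℝ) : ℂ) =
        ∑ h ∈ Finset.Icc 1 N, ∑ k ∈ Finset.Icc 1 N,
          K h k * ((gk h k * (2 * S h k - ell T h k) : ℝ) : ℂ) := by
      rw [Finset.mul_sum, ← Finset.sum_sub_distrib]
      refine Finset.sum_congr rfl fun h _ => ?_
      rw [Finset.mul_sum, ← Finset.sum_sub_distrib]
      refine Finset.sum_congr rfl fun k _ => ?_
      push_cast
      ring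
    rw [e1]
    have e2 : ∀ h ∈ Finset.Icc 1 N, ∀ k ∈ Finset.Icc 1 N,
        ‖K h k * ((gk h k * (2 * S h k - ell T h k) : ℝ) : ℂ)‖ ≤ K0 * C4 * gk h k := by
      intro h hh k hk
      have hh1 := (Finset.mem_Icc.1 hh).1
      have hk1 := (Finset.mem_Icc.1 hk).1
      have h1 := (hdiag _ (hx h k hh1 hk1)).2
      have h2 : T / (((h:ℝ) * k) / (Nat.gcd h k : ℝ) ^ 2) =
          T * (Nat.gcd h k : ℝ) ^ 2 / ((h:ℝ) * k) := by
        rw [div_div_eq_mul_div]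
      rw [h2] at h1
      have h3 : |2 * S h k - ell T h k| ≤ C4 := h1
      rw [norm_mul, Complex.norm_real, Real.norm_eq_abs, abs_mul, abs_of_nonneg (hgk0 h k)]
      calc ‖K h k‖ * (gk h k * |2 * S h k - ell T h k|) ≤ K0 * (gk h k * C4) :=
            mul_le_mul (hK h k) (mul_le_mul_of_nonneg_left h3 (hgk0 h k))
              (mul_nonneg (hgk0 h k) (abs_nonneg _)) hK0
        _ = K0 * C4 * gk h k := by ring
    have e3 : ‖∑ h ∈ Finset.Icc 1 N, ∑ k ∈ Finset.Icc 1 N,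
        K h k * ((gk h k * (2 * S h k - ell T h k) : ℝ) : ℂ)‖ ≤
        K0 * C4 * ∑ h ∈ Finset.Icc 1 N, ∑ k ∈ Finset.Icc 1 N, gk h k := by
      rw [Finset.mul_sum]
      refine (norm_sum_le _ _).trans (Finset.sum_le_sum fun h hh => ?_)
      rw [Finset.mul_sum]
      exact (norm_sum_le _ _).trans (Finset.sum_le_sum fun k hk => e2 h hh k hk)
    refine e3.trans ?_
    have e4 : (1 + Real.log (N:ℝ)) ^ (5/4 : ℝ) ≤
        (2:ℝ) ^ (5/4 : ℝ) * (Real.log T) ^ (2 + 1/8 : ℝ) := by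
      have h0 : 0 ≤ Real.log (N:ℝ) := Real.log_natCast_nonneg N
      calc (1 + Real.log (N:ℝ)) ^ (5/4 : ℝ) ≤ (2 * Real.log T) ^ (5/4 : ℝ) :=
            Real.rpow_le_rpow (by linarith) (by linarith) (by norm_num)
        _ = (2:ℝ) ^ (5/4 : ℝ) * (Real.log T) ^ (5/4 : ℝ) :=
            Real.mul_rpow (by norm_num) hL0.le
        _ ≤ (2:ℝ) ^ (5/4 : ℝ) * (Real.log T) ^ (2 + 1/8 : ℝ) := by
            refine mul_le_mul_of_nonneg_left ?_ (by positivity)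
            exact Real.rpow_le_rpow_of_exponent_le (by linarith) (by norm_num)
    calc K0 * C4 * ∑ h ∈ Finset.Icc 1 N, ∑ k ∈ Finset.Icc 1 N, gk h k
        ≤ K0 * C4 * (C5 * ((2:ℝ) ^ (5/4 : ℝ) * (Real.log T) ^ (2 + 1/8 : ℝ))) := by
          refine mul_le_mul_of_nonneg_left ?_ (by positivity)
          exact (hgk N hN1).trans (mul_le_mul_of_nonneg_left e4 hC5.le)
      _ = _ := by ring
  -- conclusion
  rw [htot] at hE
  set E := (∫ t in win u, ((‖riemannZeta (crit t)‖ ^ 2 : ℝ) : ℂ) * QForm N K t ∂μ)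
  set D := ∑ h ∈ Finset.Icc 1 N, ∑ k ∈ Finset.Icc 1 N, K h k * ((gk h k * S h k : ℝ) : ℂ)
  set F := ∑ h ∈ Finset.Icc 1 N, ∑ k ∈ Finset.Icc 1 N, K h k * ((gk h k * ell T h k : ℝ) : ℂ)
  have e5 : E - F = (E - 2 * (D + ∑' p, fo p)) + 2 * (∑' p, fo p) + (2 * D - F) := by ring
  rw [e5]
  refine (norm_add_le _ _).trans ?_
  have e6 := norm_add_le (E - 2 * (D + ∑' p, fo p)) (2 * (∑' p, fo p))
  have e7 : ‖2 * (∑' p, fo p)‖ = 2 * ‖∑' p, fo p‖ := by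
    rw [norm_mul]
    norm_num
  rw [e7] at e6
  have e8 : (4 * B1 + 2 * (C2 * C3) + C4 * C5 * (2:ℝ) ^ (5/4 : ℝ)) * K0 *
      (Real.log T) ^ (2 + 1/8 : ℝ) = 4 * B1 * K0 * (Real.log T) ^ (2 + 1/8 : ℝ) +
      2 * (K0 * C2 * (C3 * (Real.log T) ^ (2 + 1/8 : ℝ))) +
      C4 * C5 * (2:ℝ) ^ (5/4 : ℝ) * K0 * (Real.log T) ^ (2 + 1/8 : ℝ) := by ring
  rw [e8]
  linarith


end Pool.Agent.LibLaw15
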