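import Pool.Agent.LibLaw15.Defs

/-! Law of the prime phases, row T1. -/


set_option autoImplicit false

namespace Pool.Agent.LibLaw15

open MeasureTheory Set Filter Topology Complex ProbabilityTheory
open scoped NNReal ComplexConjugate
open Pool.Agent.LibZM Pool.Agent.LibM3

theorem T1_int (n : ℤ) : ∫ x : UnitAddCircle, fourier n x ∂(AddCircle.haarAddCircle) = if n = 0 then 1 else 0 := by
  split_ifs with h
  · subst h
    simp
  · have h1 := integral_add_right_eq_self (μ := (AddCircle.haarAddCircle : Measure UnitAddCircle))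
      (fun x : UnitAddCircle => (fourier n x : ℂ)) (((1 : ℝ) / 2 / n : ℝ) : UnitAddCircle)
    simp only [fourier_add_half_inv_index h one_pos, integral_neg] at h1
    have h2 : (2 : ℂ) * ∫ x : UnitAddCircle, fourier n x ∂(AddCircle.haarAddCircle) = 0 := by
      linear_combination -h1
    simpa using h2

theorem T1_gen {c d : ℕ → ℝ} (hc : Summable fun i => |c i|) (hd : Summable fun i => |d i|) (a : ℤ)
    {w : UnitAddCircle → ℂ} (hw : Continuous w) :
    HasSum (fun e : ℕ × ℕ => ((c e.1 * d e.2 : ℝ) : ℂ) *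
        ∫ x : UnitAddCircle, fourier ((e.1 : ℤ) - e.2 + a) x * w x ∂(AddCircle.haarAddCircle))
      (∫ x : UnitAddCircle, (∑' i : ℕ, ((c i : ℝ) : ℂ) * fourier (i:ℤ) x) *
        conj (∑' j : ℕ, ((d j : ℝ) : ℂ) * fourier (j:ℤ) x) * fourier a x * w x ∂(AddCircle.haarAddCircle)) := by
  have hn : ∀ (n : ℤ) (x : UnitAddCircle), ‖(fourier n x : ℂ)‖ = 1 := fun n x => by
    simp [fourier_apply]
  have hint : ∀ n : ℤ, Integrable (fun x : UnitAddCircle => (fourier n x : ℂ) * w x)
      (AddCircle.haarAddCircle) := fun n =>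
    ((map_continuous (fourier n)).mul hw).integrable_of_hasCompactSupport
      (HasCompactSupport.of_compactSpace _)
  have hwi : Integrable w (AddCircle.haarAddCircle : Measure UnitAddCircle) :=
    hw.integrable_of_hasCompactSupport (HasCompactSupport.of_compactSpace _)
  let F : ℕ × ℕ → UnitAddCircle → ℂ := fun e x =>
    ((c e.1 * d e.2 : ℝ) : ℂ) * (fourier ((e.1 : ℤ) - e.2 + a) x * w x)
  have hF : ∀ e, Integrable (F e) (AddCircle.haarAddCircle : Measure UnitAddCircle) :=
    fun e => (hint _).const_mul _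
  have hFn : ∀ e x, ‖F e x‖ = |c e.1| * |d e.2| * ‖w x‖ := by
    intro e x
    simp only [F, norm_mul, hn, Complex.norm_real, Real.norm_eq_abs, one_mul]
  have hprod : Summable fun e : ℕ × ℕ => |c e.1| * |d e.2| :=
    Summable.mul_of_nonneg hc hd (fun _ => abs_nonneg _) fun _ => abs_nonneg _
  have hsum : Summable fun e => ∫ x, ‖F e x‖ ∂(AddCircle.haarAddCircle : Measure UnitAddCircle) := by
    have : (fun e => ∫ x, ‖F e x‖ ∂(AddCircle.haarAddCircle : Measure UnitAddCircle)) =
        fun e : ℕ × ℕ => |c e.1| * |d e.2| * ∫ x, ‖w x‖ ∂(AddCircle.haarAddCircle : Measure UnitAddCircle) := by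
      funext e
      rw [← integral_const_mul]
      exact integral_congr_ae (Eventually.of_forall fun x => hFn e x)
    rw [this]
    exact hprod.mul_right _
  have hmain := hasSum_integral_of_summable_integral_norm hF hsum
  have h1 : (fun e => ∫ x, F e x ∂(AddCircle.haarAddCircle : Measure UnitAddCircle)) =
      fun e : ℕ × ℕ => ((c e.1 * d e.2 : ℝ) : ℂ) *
        ∫ x : UnitAddCircle, fourier ((e.1 : ℤ) - e.2 + a) x * w x ∂(AddCircle.haarAddCircle) := by
    funext e
    exact integral_const_mul _ _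
  rw [h1] at hmain
  have h2 : ∀ x : UnitAddCircle, (∑' e, F e x) = (∑' i : ℕ, ((c i : ℝ) : ℂ) * fourier (i:ℤ) x) *
        conj (∑' j : ℕ, ((d j : ℝ) : ℂ) * fourier (j:ℤ) x) * fourier a x * w x := by
    intro x
    have hs1 : Summable fun i : ℕ => ‖((c i : ℝ) : ℂ) * fourier (i:ℤ) x‖ := by
      refine hc.congr fun i => ?_
      rw [norm_mul, hn, mul_one, Complex.norm_real, Real.norm_eq_abs]
    have hs2 : Summable fun j : ℕ => ‖conj (((d j : ℝ) : ℂ) * fourier (j:ℤ) x)‖ := by
      refine hd.congr fun i => ?_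
      rw [Complex.norm_conj, norm_mul, hn, mul_one, Complex.norm_real, Real.norm_eq_abs]
    rw [Complex.conj_tsum, tsum_mul_tsum_of_summable_norm hs1 hs2, ← tsum_mul_right, ← tsum_mul_right]
    refine tsum_congr fun e => ?_
    simp only [F]
    rw [fourier_add, sub_eq_add_neg, fourier_add, fourier_neg, map_mul, Complex.conj_ofReal]
    push_cast
    ring
  rw [← integral_congr_ae (Eventually.of_forall h2)]
  exact hmain

/-- ROW T1. Product of two absolutely convergent series against a character.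
Proof. `(∑' i, c_i e_i)(∑' j, d_j conj e_j) e_a = ∑'_{(i,j)} c_i d_j e_{i - j + a}` pointwise (`tsum_mul_tsum_of_summable_norm`, `fourier_neg`, `fourier_add`),
the functions are bounded by the summable `|c_i||d_j|` (`‖fourier n x‖ = 1`), so integrate termwise (`MeasureTheory.hasSum_integral_of_summable_integral_norm`
or `integral_tsum`); `∫ fourier n = if n = 0 then 1 else 0` for the Haar probability measure (from `orthonormal_fourier`/`fourierCoeff`, or
`fourier_zero` and, for `n ≠ 0`, invariance: `integral_add_right_eq_self`, `fourier_add_half_inv_index`). -/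
theorem circ_series {c d : ℕ → ℝ} (hc : Summable fun i => |c i|) (hd : Summable fun i => |d i|) (a : ℤ) :
    ∫ x : UnitAddCircle, (∑' i : ℕ, ((c i : ℝ) : ℂ) * fourier (i:ℤ) x) * conj (∑' j : ℕ, ((d j : ℝ) : ℂ) * fourier (j:ℤ) x) *
        fourier a x ∂(AddCircle.haarAddCircle) =
      ((∑' e : ℕ × ℕ, if (e.1:ℤ) + a = (e.2:ℤ) then c e.1 * d e.2 else 0 : ℝ) : ℂ) := by
  have h := (T1_gen hc hd a (w := fun _ => 1) continuous_const).tsum_eq
  simp only [mul_one] at h
  rw [← h, Complex.ofReal_tsum]
  refine tsum_congr fun e => ?_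
  rw [T1_int]
  have hiff : ((e.1 : ℤ) - e.2 + a = 0) ↔ ((e.1:ℤ) + a = (e.2:ℤ)) := by omega
  by_cases he : (e.1:ℤ) + a = (e.2:ℤ)
  · rw [if_pos he, if_pos (hiff.2 he), mul_one]
  · rw [if_neg he, if_neg (fun h => he (hiff.1 h)), mul_zero, Complex.ofReal_zero]

end Pool.Agent.LibLaw15
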