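import Pool.Agent.LibLaw15.T1

/-! Law of the prime phases, row T2. -/


set_option autoImplicit false

namespace Pool.Agent.LibLaw15

open MeasureTheory Set Filter Topology Complex ProbabilityTheory
open scoped NNReal ComplexConjugate
open Pool.Agent.LibZM Pool.Agent.LibM3

lemma t2_norm {r : ℝ} (hr : 0 ≤ r) (x : UnitAddCircle) : ‖(r:ℂ) * fourier 1 x‖ = r := by
  rw [norm_mul, Complex.norm_real, Real.norm_of_nonneg hr]
  have h : ‖(fourier 1 x : ℂ)‖ = 1 := by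
    rw [fourier_apply]; exact Circle.norm_coe _
  rw [h, mul_one]

lemma t2_pow (r : ℝ) (x : UnitAddCircle) (i : ℕ) :
    ((r ^ i : ℝ) : ℂ) * fourier (i:ℤ) x = ((r:ℂ) * fourier 1 x) ^ i := by
  have h : (fourier (i:ℤ) x : ℂ) = (fourier 1 x) ^ i := by
    induction i with
    | zero => simp
    | succ n ih =>
      rw [pow_succ, ← ih, Nat.cast_succ, fourier_add]
  rw [h, mul_pow, Complex.ofReal_pow]

lemma t2_summ {r : ℝ} (hr : 0 ≤ r) (hr1 : r < 1) (x : UnitAddCircle) :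
    Summable fun i : ℕ => ‖((r:ℂ) * fourier 1 x) ^ i‖ := by
  simp only [norm_pow, t2_norm hr]
  exact summable_geometric_of_lt_one hr hr1

lemma t2_half_le (i : ℕ) : dcoef (1/2) i ≤ 1 := by
  have h := dcoef_mono (α := 1/2) (β := 1) (by norm_num) (by norm_num) i
  rwa [dcoef_one_left] at h

lemma t2_dpow (κ r : ℝ) (x : UnitAddCircle) (i : ℕ) :
    ((dcoef κ i * r ^ i : ℝ) : ℂ) * fourier (i:ℤ) x = (dcoef κ i : ℂ) * ((r:ℂ) * fourier 1 x) ^ i := by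
  rw [← t2_pow, Complex.ofReal_mul, mul_assoc]

lemma t2_summ_half {r : ℝ} (hr : 0 ≤ r) (hr1 : r < 1) (x : UnitAddCircle) :
    Summable fun i : ℕ => ‖(dcoef (1/2) i : ℂ) * ((r:ℂ) * fourier 1 x) ^ i‖ := by
  refine Summable.of_nonneg_of_le (fun i => norm_nonneg _) (fun i => ?_) (t2_summ hr hr1 x)
  rw [norm_mul, Complex.norm_real, Real.norm_of_nonneg (dcoef_nonneg (by norm_num) i)]
  exact mul_le_of_le_one_left (norm_nonneg _) (t2_half_le i)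

lemma t2_cauchy {κ ρ : ℝ} (z : ℂ) (hκ : Summable fun i : ℕ => ‖(dcoef κ i : ℂ) * z ^ i‖)
    (hρ : Summable fun i : ℕ => ‖(dcoef ρ i : ℂ) * z ^ i‖) :
    (∑' i : ℕ, (dcoef κ i : ℂ) * z ^ i) * (∑' i : ℕ, (dcoef ρ i : ℂ) * z ^ i) =
      ∑' i : ℕ, (dcoef (κ + ρ) i : ℂ) * z ^ i := by
  rw [tsum_mul_tsum_eq_tsum_sum_range_of_summable_norm hκ hρ]
  refine tsum_congr fun n => ?_
  rw [← dcoef_add κ ρ n, Complex.ofReal_sum, Finset.sum_mul]
  refine Finset.sum_congr rfl fun i hi => ?_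
  have hi' : i ≤ n := by rw [Finset.mem_range] at hi; omega
  have hz : z ^ n = z ^ i * z ^ (n - i) := by rw [← pow_add, Nat.add_sub_cancel' hi']
  rw [Complex.ofReal_mul, hz]; ring

/-- ROW T2a. Geometric series: `‖r e(x)‖ = r < 1`, `fourier i x = (fourier 1 x)^i`. -/
theorem geo_series {r : ℝ} (hr : 0 ≤ r) (hr1 : r < 1) (x : UnitAddCircle) :
    ab r x = ‖∑' i : ℕ, ((r ^ i : ℝ) : ℂ) * fourier (i:ℤ) x‖ := by
  have h : ∑' i : ℕ, ((r ^ i : ℝ) : ℂ) * fourier (i:ℤ) x = (1 - (r:ℂ) * fourier 1 x)⁻¹ := by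
    rw [← tsum_geometric_of_norm_lt_one (by rw [t2_norm hr]; exact hr1)]
    exact tsum_congr fun i => t2_pow r x i
  rw [h, norm_inv]; rfl

lemma t2_inv {r : ℝ} (hr : 0 ≤ r) (hr1 : r < 1) (x : UnitAddCircle) :
    ‖∑' i : ℕ, (dcoef 1 i : ℂ) * ((r:ℂ) * fourier 1 x) ^ i‖ = ab r x := by
  rw [geo_series hr hr1]
  congr 1
  refine tsum_congr fun i => ?_
  rw [dcoef_one_left, t2_pow]; simp

lemma t2_summ_one {r : ℝ} (hr : 0 ≤ r) (hr1 : r < 1) (x : UnitAddCircle) :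
    Summable fun i : ℕ => ‖(dcoef 1 i : ℂ) * ((r:ℂ) * fourier 1 x) ^ i‖ := by
  simpa [dcoef_one_left] using t2_summ hr hr1 x

/-- ROW T2b. `(∑ dcoef (1/2) i z^i)^2 = ∑ dcoef 1 n z^n = 1/(1-z)` for `|z| < 1` (Cauchy product `tsum_mul_tsum_eq_tsum_sum_range_of_summable_norm`,
`dcoef_add`, `dcoef_one_left`, `dcoef (1/2) i ≤ 1`), `z = r e(x)`; take norms. -/
theorem half_series {r : ℝ} (hr : 0 ≤ r) (hr1 : r < 1) (x : UnitAddCircle) :
    ‖∑' i : ℕ, ((dcoef (1/2) i * r ^ i : ℝ) : ℂ) * fourier (i:ℤ) x‖ ^ 2 = ab r x := by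
  rw [tsum_congr fun i => t2_dpow (1/2) r x i, ← norm_pow, pow_two,
    t2_cauchy _ (t2_summ_half hr hr1 x) (t2_summ_half hr hr1 x), ← t2_inv hr hr1 x]
  norm_num

/-- ROW T2c. `(∑ dcoef (1/2) i z^i)^3 = ∑ dcoef (3/2) n z^n` (two Cauchy products, `dcoef_add`), norms squared. -/
theorem threehalf_series {r : ℝ} (hr : 0 ≤ r) (hr1 : r < 1) (x : UnitAddCircle) :
    ‖∑' i : ℕ, ((dcoef (3/2) i * r ^ i : ℝ) : ℂ) * fourier (i:ℤ) x‖ ^ 2 = ab r x ^ 3 := by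
  have h := half_series hr hr1 x
  rw [tsum_congr fun i => t2_dpow (1/2) r x i] at h
  have e : (3/2 : ℝ) = 1/2 + 1 := by norm_num
  rw [tsum_congr fun i => t2_dpow (3/2) r x i, e,
    ← t2_cauchy _ (t2_summ_half hr hr1 x) (t2_summ_one hr hr1 x), norm_mul, mul_pow, h, t2_inv hr hr1 x]
  ring

/-- ROW T2d. `0 < ab r x`, `ab r x ≤ 1/(1-r)`, continuity. -/
theorem ab_props {r : ℝ} (hr : 0 ≤ r) (hr1 : r < 1) : Continuous (ab r) ∧ (∀ x, 0 < ab r x) ∧ ∀ x, ab r x ≤ (1 - r)⁻¹ := by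
  have hlow : ∀ x : UnitAddCircle, 1 - r ≤ ‖1 - (r:ℂ) * fourier 1 x‖ := by
    intro x
    have h := norm_sub_norm_le (1:ℂ) ((r:ℂ) * fourier 1 x)
    rwa [norm_one, t2_norm hr] at h
  have hpos : ∀ x : UnitAddCircle, 0 < ‖1 - (r:ℂ) * fourier 1 x‖ := fun x =>
    lt_of_lt_of_le (by linarith) (hlow x)
  refine ⟨?_, fun x => inv_pos.mpr (hpos x), fun x => ?_⟩
  · refine Continuous.inv₀ ?_ (fun x => (hpos x).ne')
    exact (continuous_const.sub (continuous_const.mul (map_continuous _))).norm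
  · exact inv_anti₀ (by linarith) (hlow x)

end Pool.Agent.LibLaw15
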