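import Pool.Agent.LibLaw15.L6
import Pool.Agent.LibLaw15.U1

/-! Law of the prime phases: from Gaussian windows to the full moment. -/

set_option autoImplicit false

namespace Pool.Agent.LibLaw15

open MeasureTheory Set Filter Topology Complex ProbabilityTheory
open scoped NNReal ComplexConjugate
open Pool.Agent.LibZM Pool.Agent.LibM3

/-- One block of the transfer. -/
theorem z_block {f : ℝ → ℝ} (hfc : Continuous f) (hf0 : ∀ t, 0 ≤ f t) {c₀ c₁ : ℝ} (hc0 : 0 < c₀) (hc : c₀ < c₁)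
    (h : ∀ η : ℝ, 0 < η → ∀ᶠ p : ℝ × ℝ in Fl η, ∫ t in win p.2, f t ∂(gaussianReal p.2 (vw p.1)) ≤ c₀ * La3 p.1) : 
    ∀ᶠ T : ℝ in atTop, ∫ t in Icc (3/4 * T) T, f t ≤ (1 - 3/4) * (c₁ * (T * La3 T)) := by
  obtain ⟨δ, hδ0, hδ1, hδ⟩ : ∃ δ : ℝ, 0 < δ ∧ δ < 1/16 ∧ (1/4 + 2 * δ) * (1 + δ) ^ 3 * c₀ < (1 - δ) * (1/4 * c₁) := by
    have hcont : ContinuousAt (fun δ : ℝ => (1 - δ) * (1/4 * c₁) - (1/4 + 2 * δ) * (1 + δ) ^ 3 * c₀) 0 := by fun_prop
    have h1 : ∀ᶠ δ : ℝ in 𝓝 0, 0 < (1 - δ) * (1/4 * c₁) - (1/4 + 2 * δ) * (1 + δ) ^ 3 * c₀ := 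
      hcont.eventually_const_lt (by norm_num; exact hc)
    have h2 : ∀ᶠ δ : ℝ in 𝓝[>] 0, 0 < (1 - δ) * (1/4 * c₁) - (1/4 + 2 * δ) * (1 + δ) ^ 3 * c₀ := h1.filter_mono nhdsWithin_le_nhds
    have h3 : ∀ᶠ δ : ℝ in 𝓝[>] 0, δ < 1/16 := by
      apply Filter.Eventually.filter_mono nhdsWithin_le_nhds
      exact gt_mem_nhds (by norm_num)
    obtain ⟨δ, a, b, c⟩ := (h2.and (h3.and self_mem_nhdsWithin)).exists
    exact ⟨δ, c, b, by linarith⟩
  have hscale : Tendsto (fun T : ℝ => (1 + δ) * T) atTop atTop := tendsto_id.const_mul_atTop (by linarith)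
  have k1 := hscale.eventually (Fl_iff.mp (h (1/4) (by norm_num)))
  have k2 := hscale.eventually (f6_mass (ρ := δ / (1 + δ)) (by positivity) hδ0)
  filter_upwards [k1, k2, La3_dilate hδ0 (by linarith), eventually_gt_atTop 1] with T h1 h2 h8 hT
  obtain ⟨S, hS⟩ : ∃ S : ℝ, S = (1 + δ) * T := ⟨_, rfl⟩
  rw [← hS] at h1 h2 h8
  have hT0 : 0 < T := by linarith
  have hST : S = T + δ * T := by rw [hS]; ring
  have hδT : 0 < δ * T := by positivity
  have hδT16 : δ * T ≤ 1/16 * T := by gcongr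
  have hS1 : 1 < S := by linarith
  have hS0 : 0 < S := by linarith
  have hLS := La3_pos hS1
  have hLT := La3_pos hT
  have hRS : δ / (1 + δ) * S = δ * T := by rw [hS]; field_simp
  rw [hRS] at h2
  have hv0 : 0 < vw S := by
    unfold vw
    exact Real.toNNReal_pos.2 (pow_pos (f6_Hw_pos hS1) 2)
  have hmain : (1 - δ) * ∫ t in Icc (3/4 * T) T, f t ≤ (c₀ * La3 S) * (S - (3/4 * T - δ * T)) := by
    apply f6_moment_le (v := vw S) hv0.ne' hfc hf0 (by linarith)
    · intro u hu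
      have a1 := h1 u (by linarith [hu.1]) (by linarith [hu.2])
      refine le_trans ?_ a1
      apply setIntegral_mono_set
      · exact hfc.continuousOn.integrableOn_compact isCompact_Icc
      · exact Eventually.of_forall fun t => hf0 t
      · apply LE.le.eventuallyLE
        apply Icc_subset_Icc
        · show u / 2 ≤ 3/4 * T
          linarith [hu.2]
        · show T ≤ 2 * u
          linarith [hu.1]
    · intro t ht
      have hin : Icc (t - δ * T) (t + δ * T) ⊆ Icc (3/4 * T - δ * T) S := by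
        apply Icc_subset_Icc
        · linarith [ht.1]
        · linarith [ht.2]
      have s1 : ∫ u in Icc (t - δ * T) (t + δ * T), gaussianPDFReal t (vw S) u ≤ ∫ u in Icc (3/4 * T - δ * T) S, gaussianPDFReal t (vw S) u := by
        apply setIntegral_mono_set (integrable_gaussianPDFReal t (vw S)).integrableOn _ (LE.le.eventuallyLE hin)
        exact Eventually.of_forall fun u => gaussianPDFReal_nonneg t (vw S) u
      have s3 := mass_in t hv0 hδT
      linarith
  obtain ⟨J, hJ⟩ : ∃ J : ℝ, J = ∫ t in Icc (3/4 * T) T, f t := ⟨_, rfl⟩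
  rw [← hJ] at hmain ⊢
  have hTL : 0 < T * La3 T := by positivity
  have hJ3 : (1 - δ) * J ≤ (1 - δ) * ((1 - 3/4) * (c₁ * (T * La3 T))) := by
    calc (1 - δ) * J ≤ (c₀ * La3 S) * (S - (3/4 * T - δ * T)) := hmain
      _ = (c₀ * La3 S) * ((1/4 + 2 * δ) * T) := by rw [hST]; ring
      _ ≤ (c₀ * ((1 + δ) ^ 3 * La3 T)) * ((1/4 + 2 * δ) * T) := by gcongr
      _ = ((1/4 + 2 * δ) * (1 + δ) ^ 3 * c₀) * (T * La3 T) := by ring
      _ ≤ ((1 - δ) * (1/4 * c₁)) * (T * La3 T) := by gcongr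
      _ = _ := by ring
  exact le_of_mul_le_mul_left hJ3 (by linarith)

/-- The transfer. -/
theorem transfer_upper {f : ℝ → ℝ} (hfc : Continuous f) (hf0 : ∀ t, 0 ≤ f t) {c₀ c₂ : ℝ} (hc0 : 0 < c₀) (hc : c₀ < c₂)
    (h : ∀ η : ℝ, 0 < η → ∀ᶠ p : ℝ × ℝ in Fl η, ∫ t in win p.2, f t ∂(gaussianReal p.2 (vw p.1)) ≤ c₀ * La3 p.1) : 
    ∀ᶠ T : ℝ in atTop, ∫ t in Icc 0 T, f t ≤ c₂ * (T * La3 T) := by
  obtain ⟨c₁, hc1, hc2⟩ := exists_between hc
  have hl := z_block hfc hf0 hc0 hc1 h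
  obtain ⟨T0, hT0⟩ := eventually_atTop.mp (hl.and (eventually_ge_atTop 1))
  have hT01 : 1 ≤ T0 := (hT0 T0 le_rfl).2
  have hfi : ∀ a b : ℝ, IntegrableOn f (Icc a b) := fun a b => hfc.continuousOn.integrableOn_compact isCompact_Icc
  have hc1p : 0 < c₁ := hc0.trans hc1
  obtain ⟨C0, hC0⟩ : ∃ C0 : ℝ, C0 = ∫ t in Icc 0 T0, f t := ⟨_, rfl⟩
  have hsplit : ∀ a T : ℝ, 0 ≤ a → a ≤ T → ∫ t in Icc 0 T, f t ≤ (∫ t in Icc 0 a, f t) + ∫ t in Icc a T, f t := by
    intro a T ha haT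
    rw [← Icc_union_Icc_eq_Icc ha haT]
    have hu := MeasureTheory.setIntegral_union₀ (μ := volume) (f := f) (s := Icc 0 a) (t := Icc a T) ?_ measurableSet_Icc.nullMeasurableSet (hfi 0 a) (hfi a T)
    · rw [hu]
    · rw [AEDisjoint, Icc_inter_Icc_eq_singleton ha haT]; simp
  have key : ∀ n : ℕ, ∀ T : ℝ, T0 ≤ T → (3/4:ℝ) ^ n * T ≤ T0 → ∫ t in Icc 0 T, f t ≤ C0 + c₁ * (T * La3 T) := by
    intro n
    induction n with
    | zero =>
      intro T h1 h2
      rw [pow_zero, one_mul] at h2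
      have : T = T0 := le_antisymm h2 h1
      rw [this, hC0]
      have h3 := La3_nonneg hT01
      have : 0 ≤ c₁ * (T0 * La3 T0) := by positivity
      linarith
    | succ n ih =>
      intro T h1 h2
      have hTpos : 0 < T := by linarith
      have hTge : 1 ≤ T := by linarith
      have hblock := (hT0 T h1).1
      have hb : ∫ t in Icc (3/4 * T) T, f t ≤ (1 - 3/4) * (c₁ * (T * La3 T)) := hblock
      have hLT := La3_nonneg hTge
      have hlT : 3/4 * T ≤ T := by linarith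
      have hs := hsplit (3/4 * T) T (by positivity) hlT
      rcases le_or_gt T0 (3/4 * T) with h3 | h3
      · have h4 := ih (3/4 * T) h3 (by rw [pow_succ] at h2; linarith)
        have h5 : La3 (3/4 * T) ≤ La3 T := La3_mono (by linarith) hlT
        have h6 : c₁ * (3/4 * T * La3 (3/4 * T)) ≤ c₁ * (3/4 * T * La3 T) := by gcongr
        calc ∫ t in Icc 0 T, f t ≤ _ := hs
          _ ≤ (C0 + c₁ * (3/4 * T * La3 T)) + (1 - 3/4) * (c₁ * (T * La3 T)) := by linarith
          _ = _ := by ring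
      · have h4 : ∫ t in Icc 0 (3/4 * T), f t ≤ C0 := by
          rw [hC0]
          apply setIntegral_mono_set (hfi 0 T0) (Eventually.of_forall fun t => hf0 t)
          apply LE.le.eventuallyLE
          exact Icc_subset_Icc le_rfl h3.le
        have h5 : (1 - 3/4) * (c₁ * (T * La3 T)) ≤ c₁ * (T * La3 T) := by
          have : 0 ≤ c₁ * (T * La3 T) := by positivity
          nlinarith
        linarith
  have hfin : ∀ᶠ T : ℝ in atTop, C0 ≤ (c₂ - c₁) * (T * La3 T) := by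
    have h1 : Tendsto (fun T : ℝ => (c₂ - c₁) * (T * La3 T)) atTop atTop := 
      (tendsto_id.atTop_mul_atTop₀ La3_tendsto).const_mul_atTop (by linarith)
    exact h1.eventually_ge_atTop C0
  filter_upwards [hfin, eventually_ge_atTop T0] with T h1 h2
  have hn : ∃ n : ℕ, (3/4:ℝ) ^ n * T ≤ T0 := by
    have h3 : Tendsto (fun n : ℕ => (3/4:ℝ) ^ n * T) atTop (𝓝 (0 * T)) := 
      (tendsto_pow_atTop_nhds_zero_of_lt_one (by norm_num) (by norm_num)).mul_const T
    rw [zero_mul] at h3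
    obtain ⟨n, hn⟩ := (h3.eventually_lt_const (show (0:ℝ) < T0 by linarith)).exists
    exact ⟨n, hn.le⟩
  obtain ⟨n, hn⟩ := hn
  have h3 := key n T h2 hn
  have h4 : c₁ * (T * La3 T) + (c₂ - c₁) * (T * La3 T) = c₂ * (T * La3 T) := by ring
  linarith

/-- The lower bound of the third moment. -/
theorem transfer_lower {f : ℝ → ℝ} (hfc : Continuous f) (hf0 : ∀ t, 0 ≤ f t) {B : ℝ} (hB0 : 0 < B)
    (hB : ∀ᶠ T : ℝ in atTop, ∫ t in Icc 0 T, f t ≤ B * (T * La3 T)) {c c₁ : ℝ} (hc0 : 0 < c) (hc1 : c < c₁)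
    (h : ∀ η : ℝ, 0 < η → ∀ᶠ p : ℝ × ℝ in Fl η, c₁ * La3 p.1 ≤ ∫ t in win p.2, f t ∂(gaussianReal p.2 (vw p.1))) :
    ∀ᶠ T : ℝ in atTop, c * (T * La3 T) ≤ ∫ t in Icc 0 T, f t := by
  have hc10 : 0 < c₁ := hc0.trans hc1
  obtain ⟨δ, hδ⟩ : ∃ δ : ℝ, δ = (c₁ - c) / (6 * c₁) := ⟨_, rfl⟩
  obtain ⟨ε, hε⟩ : ∃ ε : ℝ, ε = (c₁ - c) / (32 * B) := ⟨_, rfl⟩
  have hδ0 : 0 < δ := by rw [hδ]; exact div_pos (by linarith) (by linarith)
  have hε0 : 0 < ε := by rw [hε]; exact div_pos (by linarith) (by linarith)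
  have hδ1 : δ < 1/6 := by
    rw [hδ, div_lt_iff₀ (by linarith)]; linarith
  have hδe : 3 * δ * c₁ = (c₁ - c) / 2 := by rw [hδ]; field_simp; ring
  have hεe : 16 * ε * B = (c₁ - c) / 2 := by rw [hε]; field_simp; ring
  have k1 := Fl_iff.mp (h δ hδ0)
  have k2 := f6_mass hδ0 hε0
  have k3 := (tendsto_id.const_mul_atTop (show (0:ℝ) < 2 by norm_num)).eventually hB
  have k4 := La3_dilate (δ := 1) one_pos le_rfl
  filter_upwards [k1, k2, k3, k4, eventually_gt_atTop 1] with T h1 h2 h3 h4 hT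
  have hT0 : 0 < T := by linarith
  have hLT := La3_pos hT
  have hv0 : 0 < vw T := by
    unfold vw
    exact Real.toNNReal_pos.2 (pow_pos (f6_Hw_pos hT) 2)
  have hδT : 0 < δ * T := by positivity
  simp only [id] at h3
  have hmain := g5_avg (v := vw T) hv0.ne' (h := f) hfc
    hf0 (α := δ * T) (β := (1 - 2 * δ) * T) (T := T) (c := c₁ * La3 T) (ε := ε)
    (by nlinarith) hT0.le hε0.le
    (by
      intro u hu
      refine (h1 u hu.1 (by nlinarith [hu.2])).trans ?_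
      apply setIntegral_mono_set
      · exact hfc.continuousOn.integrableOn_compact isCompact_Icc
      · exact Eventually.of_forall fun t => hf0 t
      · apply LE.le.eventuallyLE
        apply Icc_subset_Icc
        · linarith [hu.1]
        · nlinarith [hu.2])
    (by
      intro t ht1 ht2
      have s3 := mass_in t hv0 hδT
      have hdisj : Disjoint (Icc (δ * T) ((1 - 2 * δ) * T)) (Icc (t - δ * T) (t + δ * T)) := by
        rw [Set.disjoint_left]
        intro x hx1 hx2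
        have := hx1.2
        have := hx2.1
        nlinarith
      have hi := integrable_gaussianPDFReal t (vw T)
      have hun : (∫ u in Icc (δ * T) ((1 - 2 * δ) * T), gaussianPDFReal t (vw T) u) + 
          ∫ u in Icc (t - δ * T) (t + δ * T), gaussianPDFReal t (vw T) u ≤ 1 := by
        rw [← setIntegral_union hdisj measurableSet_Icc hi.integrableOn hi.integrableOn, ← integral_gaussianPDFReal_eq_one t hv0.ne']
        exact setIntegral_le_integral hi (Eventually.of_forall fun u => gaussianPDFReal_nonneg t (vw T) u)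
      linarith)
  have e1 : (1 - 2 * δ) * T - δ * T = (1 - 3 * δ) * T := by ring
  rw [e1] at hmain
  have h5 : ε * ∫ t in Icc 0 (2 * T), f t ≤ (16 * ε * B) * (T * La3 T) := by
    have h4' : La3 (2 * T) ≤ 8 * La3 T := by
      have e : (1 + 1 : ℝ) * T = 2 * T := by ring
      rw [e] at h4
      norm_num at h4
      exact h4
    calc ε * ∫ t in Icc 0 (2 * T), f t ≤ ε * (B * (2 * T * La3 (2 * T))) := by gcongr
      _ ≤ ε * (B * (2 * T * (8 * La3 T))) := by gcongr
      _ = _ := by ring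
  have h6 : c₁ * La3 T * ((1 - 3 * δ) * T) = (c₁ - 3 * δ * c₁) * (T * La3 T) := by ring
  rw [h6, hδe] at hmain
  rw [hεe] at h5
  have h7 : (c₁ - (c₁ - c) / 2) * (T * La3 T) - (c₁ - c) / 2 * (T * La3 T) = c * (T * La3 T) := by ring
  linarith


/-- The main theorem. -/
theorem law15_main {r : ℕ} {p : Fin r → ℕ} (hp : ∀ i, (p i).Prime) (hinj : Function.Injective p)
    {w : Tor r → ℝ} (hw : Continuous w) (hw0 : ∀ x, 0 ≤ w x) {ε : ℝ} (hε : 0 < ε) : ∀ᶠ T : ℝ in atTop,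
      (g4_C * TM p w - ε) * (T * La3 T) ≤ ∫ t in Icc 0 T, ‖riemannZeta (crit t)‖ ^ 3 * w (xt p t) ∧
      ∫ t in Icc 0 T, ‖riemannZeta (crit t)‖ ^ 3 * w (xt p t) ≤ (2 * CI * TM p w + ε) * (T * La3 T) := by
  have hCI := f3_CI_nonneg
  have hI0 := u1_TM_nonneg hp hw0
  have hfc : Continuous fun t => ‖riemannZeta (crit t)‖ ^ 3 * w (xt p t) :=
    (continuous_zeta_crit.norm.pow 3).mul (hw.comp (xt_continuous p))
  have hf0 : ∀ t, 0 ≤ ‖riemannZeta (crit t)‖ ^ 3 * w (xt p t) := fun t => mul_nonneg (by positivity) (hw0 _)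
  have hup := transfer_upper hfc hf0 (c₀ := 2 * CI * TM p w + ε / 2) (c₂ := 2 * CI * TM p w + ε) (by positivity) (by linarith)
    (fun η hη => window_upper hη hp hinj hw hw0 (half_pos hε))
  have hlow : ∀ᶠ T : ℝ in atTop, (g4_C * TM p w - ε) * (T * La3 T) ≤ ∫ t in Icc 0 T, ‖riemannZeta (crit t)‖ ^ 3 * w (xt p t) := by
    rcases le_or_gt (g4_C * TM p w - ε) 0 with hneg | hpos
    · filter_upwards [eventually_gt_atTop 1] with T hT
      refine le_trans ?_ (integral_nonneg hf0)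
      apply mul_nonpos_of_nonpos_of_nonneg hneg
      have := La3_pos hT
      positivity
    · exact transfer_lower hfc hf0 (B := 2 * CI * TM p w + ε) (by positivity) hup (c := g4_C * TM p w - ε)
        (c₁ := g4_C * TM p w - ε / 2) hpos (by linarith) (fun η hη => window_lower hη hp hinj hw hw0 (half_pos hε))
  exact hlow.and hup

end Pool.Agent.LibLaw15
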